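import Pool.Agent.Lib.MP_1bbd88_ag.Q.NS.TQ

set_option autoImplicit false

namespace Pool.Agent.Lib.MP_1bbd88_ag.Q

open Module

variable {K : Type*} [Field K] [IsAlgClosed K] {V : Type*} [AddCommGroup V] [Module K V]
  [FiniteDimensional K V] {H : Type*} [Group H] {ρ : H →* Module.End K V}

/-- ROW 1bbd-BLK : the normal form of `a` and of the elements of `UU z a`. `V = W × W`,
`a = diag(ω, ω²)`, `u = [[π, -2/3], [1, -π]]`, `u' = [[π, -(2/3) B⁻¹], [B, -π]]`, where
`π = 1 / (1 + 2 ω)`; `B'` is the inverse of `B`. -/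
theorem BLK (hρ : FR ρ) {z a u : H} (hz : Inv2 z) (ha1 : a ≠ 1) (ha : a ^ 3 = 1)
    (hu : u ∈ UU z a) {ω : K} (hω : ω * ω + ω + 1 = 0) :
    ∃ (W : Submodule K V) (e : V ≃ₗ[K] W × W), Nontrivial W ∧
      (∀ x y, e (ρ a (e.symm (x, y))) = (ω • x, (-1 - ω) • y)) ∧
      (∀ x y, e (ρ u (e.symm (x, y))) =
        ((1 / (1 + 2 * ω)) • x - (2 / 3 : K) • y, x - (1 / (1 + 2 * ω)) • y)) ∧
      ∀ u' ∈ UU z a, ∃ B B' : Module.End K W, B * B' = 1 ∧ B' * B = 1 ∧
        ∀ x y, e (ρ u' (e.symm (x, y))) =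
          ((1 / (1 + 2 * ω)) • x - (2 / 3 : K) • B' y, B x - (1 / (1 + 2 * ω)) • y) := by
  have h2 : (2 : K) ≠ 0 := NB_two hρ hz
  have h3 : (3 : K) ≠ 0 := NB_three_ne hρ ha1 ha
  have hd : (1 + 2 * ω) * (1 + 2 * ω) = -3 := by linear_combination 4 * hω
  have hd0 : 1 + 2 * ω ≠ 0 := by
    intro h
    rw [h] at hd
    apply h3
    linear_combination hd
  obtain ⟨p, hp⟩ : ∃ p : K, p = 1 / (1 + 2 * ω) := ⟨_, rfl⟩
  rw [← hp]
  have hp1 : p * (1 + 2 * ω) = 1 := by rw [hp]; field_simp
  have hp2 : 3 * (p * p) = -1 := by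
    linear_combination (p * p) * hd - (p * (1 + 2 * ω) + 1) * hp1
  obtain ⟨A, hAd⟩ : ∃ A : Module.End K V, A = ρ a := ⟨_, rfl⟩
  have hA0 := NB_three hρ ha1 ha
  rw [← hAd] at hA0 ⊢
  have hA : ∀ v, A (A v) + A v + v = 0 := by
    intro v
    have := LinearMap.congr_fun hA0 v
    simpa using this
  have hrel : ∀ t ∈ UU z a, ∀ v, A (ρ t v) + ρ t (A v) + ρ t v = v := by
    intro t ht v
    have := LinearMap.congr_fun (TQ_rel hρ hz ha1 ha ht) v
    rw [← hAd] at this
    simpa using this
  have hsq : ∀ t ∈ UU z a, ∀ v, ρ t (ρ t v) = -v := by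
    intro t ht v
    have := LinearMap.congr_fun (NB_sq hρ hz ht.1) v
    simpa using this
  -- the blocks
  have hR : ∀ t ∈ UU z a, ∀ v, A v = ω • v →
      A (ρ t v - p • v) = (-1 - ω) • (ρ t v - p • v) := by
    intro t ht v hv
    have h := hrel t ht v
    rw [hv, map_smul] at h
    rw [map_sub, map_smul, hv]
    have h4 : A (ρ t v) = v - ω • ρ t v - ρ t v := by
      linear_combination (norm := module) h
    rw [h4]
    have h5 : v = (p * (1 + 2 * ω)) • v := by rw [hp1, one_smul]
    linear_combination (norm := module) h5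
  have hQ : ∀ t ∈ UU z a, ∀ v, A v = (-1 - ω) • v →
      A (ρ t v + p • v) = ω • (ρ t v + p • v) := by
    intro t ht v hv
    have h := hrel t ht v
    rw [hv, map_smul] at h
    rw [map_add, map_smul, hv]
    have h4 : A (ρ t v) = v - (-1 - ω) • ρ t v - ρ t v := by
      linear_combination (norm := module) h
    rw [h4]
    have h5 : v = (p * (1 + 2 * ω)) • v := by rw [hp1, one_smul]
    linear_combination (norm := module) h5
  have hQR : ∀ t ∈ UU z a, ∀ v, ρ t (ρ t v - p • v) + p • (ρ t v - p • v) = (-(2 / 3) : K) • v := by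
    intro t ht v
    rw [map_sub, map_smul, hsq t ht v]
    have h6 : (-1 : K) - p * p = -(2 / 3) := by
      field_simp
      linear_combination -hp2
    rw [← h6]
    module
  have hRQ : ∀ t ∈ UU z a, ∀ v, ρ t (ρ t v + p • v) - p • (ρ t v + p • v) = (-(2 / 3) : K) • v := by
    intro t ht v
    rw [map_add, map_smul, hsq t ht v]
    have h6 : (-1 : K) - p * p = -(2 / 3) := by
      field_simp
      linear_combination -hp2
    rw [← h6]
    module
  obtain ⟨W, hWd⟩ : ∃ W : Submodule K V, W = LinearMap.ker (A - ω • (1 : Module.End K V)) :=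
    ⟨_, rfl⟩
  have hW : ∀ v, v ∈ W ↔ A v = ω • v := by
    intro v
    rw [hWd, LinearMap.mem_ker]
    simp [sub_eq_zero]
  -- the operators B
  have hBmem : ∀ s ∈ UU z a, ∀ t ∈ UU z a, ∀ v ∈ W,
      (-(3 / 2) : K) • (ρ s (ρ t v - p • v) + p • (ρ t v - p • v)) ∈ W := by
    intro s hs t ht v hv
    apply W.smul_mem
    rw [hW]
    exact hQ s hs _ (hR t ht v ((hW v).1 hv))
  let BB : ∀ s t : H, V →ₗ[K] V := fun s t =>
    (-(3 / 2) : K) • ((ρ s + p • (1 : Module.End K V)) ∘ₗ (ρ t - p • (1 : Module.End K V)))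
  have hBB : ∀ s t v, BB s t v = (-(3 / 2) : K) • (ρ s (ρ t v - p • v) + p • (ρ t v - p • v)) := by
    intro s t v
    simp only [BB, LinearMap.smul_apply, LinearMap.comp_apply, LinearMap.add_apply,
      LinearMap.sub_apply, Module.End.one_apply]
  have h23 : (-(3 / 2) : K) * (-(2 / 3)) = 1 := by field_simp
  -- the equivalence
  have hP1 : ∀ v, p • (A v - (-1 - ω) • v) ∈ W := by
    intro v
    rw [hW, map_smul, map_sub, map_smul]
    have h := hA v
    have h4 : A (A v) = - A v - v := by linear_combination (norm := module) h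
    rw [h4]
    have h5 : (ω * ω + ω + 1) • v = 0 := by rw [hω, zero_smul]
    linear_combination (norm := module) (-p) • h5
  have hP2 : ∀ v, A (-p • (A v - ω • v)) = (-1 - ω) • (-p • (A v - ω • v)) := by
    intro v
    rw [map_smul, map_sub, map_smul]
    have h := hA v
    have h4 : A (A v) = - A v - v := by linear_combination (norm := module) h
    rw [h4]
    have h5 : (ω * ω + ω + 1) • v = 0 := by rw [hω, zero_smul]
    linear_combination (norm := module) p • h5
  let P1 : V →ₗ[K] V := p • (A - (-1 - ω) • (1 : Module.End K V))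
  let P2 : V →ₗ[K] V := -p • (A - ω • (1 : Module.End K V))
  have hP1e : ∀ v, P1 v = p • (A v - (-1 - ω) • v) := fun v => by simp [P1]
  have hP2e : ∀ v, P2 v = -p • (A v - ω • v) := fun v => by simp [P2]
  let F2 : V →ₗ[K] V := (-(3 / 2) : K) • ((ρ u + p • (1 : Module.End K V)) ∘ₗ P2)
  have hF2e : ∀ v, F2 v = (-(3 / 2) : K) • (ρ u (P2 v) + p • P2 v) := fun v => by
    simp only [F2, LinearMap.smul_apply, LinearMap.comp_apply, LinearMap.add_apply, Module.End.one_apply]
  have hF2 : ∀ v, F2 v ∈ W := by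
    intro v
    rw [hF2e]
    apply W.smul_mem
    rw [hW]
    exact hQ u hu _ (by rw [hP2e]; exact hP2 v)
  let f : V →ₗ[K] W × W := (P1.codRestrict W (fun v => by rw [hP1e]; exact hP1 v)).prod
    (F2.codRestrict W hF2)
  let g : W × W →ₗ[K] V := W.subtype.coprod ((ρ u - p • (1 : Module.End K V)) ∘ₗ W.subtype)
  have hge : ∀ x y, g (x, y) = (x : V) + (ρ u (y : V) - p • (y : V)) := fun x y => by simp [g]
  have hP1W : ∀ v, A v = ω • v → P1 v = v := by
    intro v hv
    rw [hP1e, hv]
    have h5 : v = (p * (1 + 2 * ω)) • v := by rw [hp1, one_smul]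
    linear_combination (norm := module) -h5
  have hP1W' : ∀ v, A v = (-1 - ω) • v → P1 v = 0 := by
    intro v hv
    rw [hP1e, hv, sub_self, smul_zero]
  have hP2W : ∀ v, A v = ω • v → P2 v = 0 := by
    intro v hv
    rw [hP2e, hv, sub_self, smul_zero]
  have hP2W' : ∀ v, A v = (-1 - ω) • v → P2 v = v := by
    intro v hv
    rw [hP2e, hv]
    have h5 : v = (p * (1 + 2 * ω)) • v := by rw [hp1, one_smul]
    linear_combination (norm := module) -h5
  have hfg : ∀ w, f (g w) = w := by
    rintro ⟨x, y⟩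
    have hx := (hW x).1 x.2
    have hy := hR u hu y ((hW y).1 y.2)
    rw [hge]
    apply Prod.ext
    · apply Subtype.ext
      show P1 ((x : V) + (ρ u (y : V) - p • (y : V))) = x
      rw [map_add, hP1W _ hx, hP1W' _ hy, add_zero]
    · apply Subtype.ext
      show F2 ((x : V) + (ρ u (y : V) - p • (y : V))) = y
      rw [hF2e, map_add, hP2W _ hx, hP2W' _ hy, zero_add, hQR u hu, smul_smul, h23, one_smul]
  have hgf : ∀ v, g (f v) = v := by
    intro v
    show g (⟨P1 v, _⟩, ⟨F2 v, _⟩) = v
    rw [hge]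
    show P1 v + (ρ u (F2 v) - p • F2 v) = v
    have h7 : ρ u (F2 v) - p • F2 v = P2 v := by
      rw [hF2e, map_smul, smul_comm p, ← smul_sub, hRQ u hu, smul_smul, h23, one_smul]
    rw [h7, hP1e, hP2e]
    have h5 : v = (p * (1 + 2 * ω)) • v := by rw [hp1, one_smul]
    linear_combination (norm := module) -h5
  let e : V ≃ₗ[K] W × W := LinearEquiv.ofLinearMap f g (LinearMap.ext hfg) (LinearMap.ext hgf)
  have hes : ∀ x y, e.symm (x, y) = (x : V) + (ρ u (y : V) - p • (y : V)) := fun x y => hge x y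
  have key : ∀ (w : V) (x y : W), w = (x : V) + (ρ u (y : V) - p • (y : V)) → e w = (x, y) := by
    intro w x y h
    rw [← hes] at h
    rw [h, LinearEquiv.apply_symm_apply]
  -- the general formula
  have hgen : ∀ t (ht : t ∈ UU z a), ∀ x y : W, e (ρ t (e.symm (x, y))) =
      (p • x - (2 / 3 : K) • (⟨BB t u y, by rw [hBB]; exact hBmem t ht u hu y y.2⟩ : W),
        (⟨BB u t x, by rw [hBB]; exact hBmem u hu t ht x x.2⟩ : W) - p • y) := by
    intro t ht x y
    apply key
    rw [hes]
    have h8 : ρ u (BB u t x) - p • BB u t x = ρ t (x : V) - p • (x : V) := by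
      rw [hBB, map_smul, smul_comm p, ← smul_sub, hRQ u hu, smul_smul, h23, one_smul]
    have h9 : (-(2 / 3) : K) • BB t u y =
        ρ t (ρ u (y : V) - p • (y : V)) + p • (ρ u (y : V) - p • (y : V)) := by
      rw [hBB, smul_smul, mul_comm, h23, one_smul]
    simp only [Submodule.coe_sub, Submodule.coe_smul, map_add, map_sub, map_smul]
    rw [map_sub, map_smul] at h9
    linear_combination (norm := module) -h8 - h9
  refine ⟨W, e, ?_, ?_, ?_, ?_⟩
  · by_contra hne
    rw [not_nontrivial_iff_subsingleton] at hne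
    have hsub : Subsingleton V := e.toEquiv.subsingleton
    exact not_nontrivial_iff_subsingleton.2 hsub hρ.ne
  · intro x y
    apply key
    rw [hes, map_add, hR u hu y ((hW y).1 y.2), (hW x).1 x.2]
    simp only [Submodule.coe_smul, map_smul]
    module
  · intro x y
    rw [hgen u hu x y]
    have h10 : ∀ v : V, BB u u v = v := by
      intro v
      rw [hBB, hQR u hu, smul_smul, h23, one_smul]
    apply Prod.ext
    · apply Subtype.ext
      simp only [Submodule.coe_sub, Submodule.coe_smul, h10]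
    · apply Subtype.ext
      simp only [Submodule.coe_sub, Submodule.coe_smul, h10]
  · intro t ht
    refine ⟨(BB u t).restrict (fun v hv => by rw [hBB]; exact hBmem u hu t ht v hv),
      (BB t u).restrict (fun v hv => by rw [hBB]; exact hBmem t ht u hu v hv), ?_, ?_, ?_⟩
    · apply LinearMap.ext
      intro x
      apply Subtype.ext
      show BB u t (BB t u x) = x
      have h11 : ρ t (BB t u x) - p • BB t u x = ρ u (x : V) - p • (x : V) := by
        rw [hBB, map_smul, smul_comm p, ← smul_sub, hRQ t ht, smul_smul, h23, one_smul]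
      rw [hBB u t, h11, hQR u hu, smul_smul, h23, one_smul]
    · apply LinearMap.ext
      intro x
      apply Subtype.ext
      show BB t u (BB u t x) = x
      have h11 : ρ u (BB u t x) - p • BB u t x = ρ t (x : V) - p • (x : V) := by
        rw [hBB, map_smul, smul_comm p, ← smul_sub, hRQ u hu, smul_smul, h23, one_smul]
      rw [hBB t u, h11, hQR t ht, smul_smul, h23, one_smul]
    · intro x y
      rw [hgen t ht x y]
      rfl

end Pool.Agent.Lib.MP_1bbd88_ag.Q
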