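import Pool.Agent.Lib.MP_1bbd88_ag.Q.NS.NDefs

set_option autoImplicit false

namespace Pool.Agent.Lib.MP_1bbd88_ag.Q

/-! ROW 1bbd-CLB : the solutions of the class equation -/

theorem CLB_plat {n c0 c1 c2 x y w : ℕ} (hx : 2 ≤ x) (hxy : x ≤ y) (hyw : y ≤ w) 
    (h0 : c0 * (2 * x) = n) (h1 : c1 * (2 * y) = n) (h2 : c2 * (2 * w) = n)
    (hs : 2 * (c0 + c1 + c2) = n + 2) :
    (n = 2 * w) ∨ (x = 2 ∧ y = 3 ∧ w = 3 ∧ n = 12) ∨
      (x = 2 ∧ y = 3 ∧ w = 4 ∧ n = 24) ∨ (x = 2 ∧ y = 3 ∧ w = 5 ∧ n = 60) := by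
  have hx2 : x = 2 := by
    by_contra hcon
    have hx3 : 3 ≤ x := by omega
    have e0 : c0 * 6 ≤ n := by
      rw [← h0]; exact Nat.mul_le_mul_left _ (by omega)
    have e1 : c1 * 6 ≤ n := by
      rw [← h1]; exact Nat.mul_le_mul_left _ (by omega)
    have e2 : c2 * 6 ≤ n := by
      rw [← h2]; exact Nat.mul_le_mul_left _ (by omega)
    omega
  subst hx2
  have hy3 : y ≤ 3 := by
    by_contra hcon
    have e1 : c1 * 8 ≤ n := by
      rw [← h1]; exact Nat.mul_le_mul_left _ (by omega)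
    have e2 : c2 * 8 ≤ n := by
      rw [← h2]; exact Nat.mul_le_mul_left _ (by omega)
    omega
  have hy : y = 2 ∨ y = 3 := by omega
  rcases hy with rfl | rfl
  · left
    have hc2 : c2 = 1 := by omega
    subst hc2
    omega
  · right
    have hw5 : w ≤ 5 := by
      by_contra hcon
      have e2 : c2 * 12 ≤ n := by
        rw [← h2]; exact Nat.mul_le_mul_left _ (by omega)
      omega
    have hw : w = 3 ∨ w = 4 ∨ w = 5 := by omega
    rcases hw with rfl | rfl | rfl
    · left
      exact ⟨rfl, rfl, rfl, by omega⟩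
    · right; left
      exact ⟨rfl, rfl, rfl, by omega⟩
    · right; right
      exact ⟨rfl, rfl, rfl, by omega⟩

theorem CLB_three {n : ℕ} (a ε c : Fin 3 → ℕ) (ha : ∀ i, 2 ≤ a i)
    (hε : ∀ i, ε i = 2) (hc : ∀ i, c i * (2 * a i) = n)
    (i j k : Fin 3) (hij' : i ≠ j) (hik' : i ≠ k) (hjk' : j ≠ k)
    (hl : ∀ l, l = i ∨ l = j ∨ l = k) (hij : a i ≤ a j) (hjk : a j ≤ a k)
    (hs : 2 * (c i + c j + c k) = n + 2) :
    n = 1 ∨ (∃ i, n ≤ 2 * a i) ∨
      (n = 12 ∧ ∀ i, a i = 2 ∨ a i = 3) ∨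
      (n = 24 ∧ ∃ i, a i = 4 ∧ ε i = 2) ∨
      (n = 60 ∧ ∃ i j k : Fin 3, a i = 2 ∧ ε i = 2 ∧ a j = 3 ∧ ε j = 2 ∧ a k = 5 ∧
        i ≠ j ∧ i ≠ k ∧ j ≠ k ∧ ∀ l, l = i ∨ l = j ∨ l = k) := by
  rcases CLB_plat (ha i) hij hjk (hc i) (hc j) (hc k) hs with h | ⟨h1, h2, h3, h4⟩ |
    ⟨h1, h2, h3, h4⟩ | ⟨h1, h2, h3, h4⟩
  · right; left
    exact ⟨k, h.le⟩
  · right; right; left
    refine ⟨h4, fun l => ?_⟩
    rcases hl l with rfl | rfl | rfl
    · left; exact h1
    · right; exact h2
    · right; exact h3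
  · right; right; right; left
    exact ⟨h4, k, h3, hε k⟩
  · right; right; right; right
    exact ⟨h4, i, j, k, h1, hε i, h2, hε j, h3, hij', hik', hjk', hl⟩

/-- `|G| = 2 n`, `|A i| = 2 a i`: the possible values -/
theorem CLB_num {m n : ℕ} (hn : 1 ≤ n) (a ε c : Fin m → ℕ) (ha : ∀ i, 2 ≤ a i)
    (hε : ∀ i, ε i = 1 ∨ ε i = 2) (hc : ∀ i, c i * (ε i * a i) = n)
    (heq : 2 * n - 2 = ∑ i, c i * (2 * a i - 2)) :
    n = 1 ∨ (∃ i, n ≤ 2 * a i) ∨
      (n = 12 ∧ ∀ i, a i = 2 ∨ a i = 3) ∨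
      (n = 24 ∧ ∃ i, a i = 4 ∧ ε i = 2) ∨
      (n = 60 ∧ ∃ i j k : Fin m, a i = 2 ∧ ε i = 2 ∧ a j = 3 ∧ ε j = 2 ∧ a k = 5 ∧
        i ≠ j ∧ i ≠ k ∧ j ≠ k ∧ ∀ l, l = i ∨ l = j ∨ l = k) := by
  -- every term is at least n / 2
  have hterm : ∀ i, n ≤ 2 * (c i * (2 * a i - 2)) := by
    intro i
    have h1 : c i * (ε i * a i) ≤ c i * (2 * a i) := by
      apply Nat.mul_le_mul_left
      apply Nat.mul_le_mul_right
      rcases hε i with h | h <;> omega
    rw [hc i] at h1
    have h2 : c i * (2 * a i) ≤ c i * (2 * (2 * a i - 2)) := by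
      apply Nat.mul_le_mul_left
      have := ha i
      omega
    calc n ≤ c i * (2 * (2 * a i - 2)) := h1.trans h2
      _ = 2 * (c i * (2 * a i - 2)) := by ring
  have hsum : m * n ≤ 2 * (2 * n - 2) := by
    rw [heq, Finset.mul_sum]
    calc m * n = ∑ _i : Fin m, n := by simp
      _ ≤ ∑ i, 2 * (c i * (2 * a i - 2)) := Finset.sum_le_sum fun i _ => hterm i
  have hm : m ≤ 3 := by
    by_contra hcon
    have h4 : 4 * n ≤ m * n := Nat.mul_le_mul_right _ (by omega)
    omega
  -- the two kinds of terms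
  have h1' : ∀ i, ε i = 1 → c i * a i = n ∧ c i * (2 * a i - 2) + 2 * c i = 2 * n := by
    intro i hi
    have h := hc i
    rw [hi, one_mul] at h
    refine ⟨h, ?_⟩
    have h2 : 2 * a i - 2 + 2 = 2 * a i := by
      have := ha i
      omega
    calc c i * (2 * a i - 2) + 2 * c i = c i * (2 * a i - 2 + 2) := by ring
      _ = 2 * (c i * a i) := by rw [h2]; ring
      _ = 2 * n := by rw [h]
  have h2' : ∀ i, ε i = 2 → c i * (2 * a i) = n ∧ c i * (2 * a i - 2) + 2 * c i = n := by
    intro i hi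
    have h := hc i
    rw [hi] at h
    refine ⟨h, ?_⟩
    have h2 : 2 * a i - 2 + 2 = 2 * a i := by
      have := ha i
      omega
    calc c i * (2 * a i - 2) + 2 * c i = c i * (2 * a i - 2 + 2) := by ring
      _ = c i * (2 * a i) := by rw [h2]
      _ = n := h
  have hcpos : ∀ i, 1 ≤ c i := by
    intro i
    rcases Nat.eq_zero_or_pos (c i) with h | h
    · have := hc i
      rw [h, zero_mul] at this
      omega
    · exact h
  have hc1 : ∀ i, ε i = 1 → 2 * c i ≤ n := by
    intro i hi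
    have h := (h1' i hi).1
    calc 2 * c i = c i * 2 := by ring
      _ ≤ c i * a i := Nat.mul_le_mul_left _ (ha i)
      _ = n := h
  have hc2 : ∀ i, ε i = 2 → 4 * c i ≤ n := by
    intro i hi
    have h := (h2' i hi).1
    calc 4 * c i = c i * (2 * 2) := by ring
      _ ≤ c i * (2 * a i) := Nat.mul_le_mul_left _ (by have := ha i; omega)
      _ = n := h
  have hmc : m = 0 ∨ m = 1 ∨ m = 2 ∨ m = 3 := by omega
  rcases hmc with rfl | rfl | rfl | rfl
  · left
    simp at heq
    omega
  · rw [Fin.sum_univ_one] at heq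
    right; left
    refine ⟨0, ?_⟩
    rcases hε 0 with h | h
    · have h3 := h1' 0 h
      have hcc : c 0 = 1 := by omega
      have h4 := h3.1
      rw [hcc, one_mul] at h4
      omega
    · have h3 := h2' 0 h
      have := hcpos 0
      omega
  · rw [Fin.sum_univ_two] at heq
    have p0 := hcpos 0
    have p1 := hcpos 1
    have key : ∀ i j : Fin 2, (∀ l, l = i ∨ l = j) → ε i = 1 → ε j = 2 →
        2 * n - 2 = c i * (2 * a i - 2) + c j * (2 * a j - 2) →
        (∃ i, n ≤ 2 * a i) ∨ (n = 12 ∧ ∀ i, a i = 2 ∨ a i = 3) := by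
      intro i j hl hi hj hq
      have hi3 := h1' i hi
      have hj3 := h2' j hj
      have hi4 := hc1 i hi
      have hj4 := hc2 j hj
      have hsum2 : 2 * (c i + c j) = n + 2 := by omega
      have hai : a i = 2 ∨ a i = 3 := by
        by_contra hcon
        have h4 : 4 ≤ a i := by
          have := ha i
          omega
        have h5 : c i * 4 ≤ n := by
          rw [← hi3.1]
          exact Nat.mul_le_mul_left _ h4
        omega
      rcases hai with hai | hai
      · left
        refine ⟨j, ?_⟩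
        have h5 := hi3.1
        rw [hai] at h5
        have h6 : c j = 1 := by omega
        have h7 := hj3.1
        rw [h6, one_mul] at h7
        omega
      · have h5 := hi3.1
        rw [hai] at h5
        have haj : a j = 2 := by
          by_contra hcon
          have h6 : 3 ≤ a j := by
            have := ha j
            omega
          have h7 : c j * 6 ≤ n := by
            rw [← hj3.1]
            exact Nat.mul_le_mul_left _ (by omega)
          omega
        right
        have h8 := hj3.1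
        rw [haj] at h8
        refine ⟨by omega, fun l => ?_⟩
        rcases hl l with rfl | rfl
        · right; exact hai
        · left; exact haj
    rcases hε 0 with h0 | h0 <;> rcases hε 1 with h1 | h1
    · exfalso
      have e0 := h1' 0 h0
      have e1 := h1' 1 h1
      have f0 := hc1 0 h0
      have f1 := hc1 1 h1
      omega
    · rcases key 0 1 (by decide) h0 h1 heq with h | h
      · right; left; exact h
      · right; right; left; exact h
    · rcases key 1 0 (by decide) h1 h0 (by rw [heq, add_comm]) with h | h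
      · right; left; exact h
      · right; right; left; exact h
    · exfalso
      have e0 := h2' 0 h0
      have e1 := h2' 1 h1
      omega
  · rw [Fin.sum_univ_three] at heq
    have p0 := hterm 0
    have p1 := hterm 1
    have p2 := hterm 2
    have hall : ∀ i, ε i = 2 := by
      intro i
      rcases hε i with h | h
      · exfalso
        have e := h1' i h
        have f := hc1 i h
        have hi : i = 0 ∨ i = 1 ∨ i = 2 :=
          (by decide : ∀ i : Fin 3, i = 0 ∨ i = 1 ∨ i = 2) i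
        rcases hi with rfl | rfl | rfl <;> omega
      · exact h
    have q0 := h2' 0 (hall 0)
    have q1 := h2' 1 (hall 1)
    have q2 := h2' 2 (hall 2)
    have hs : 2 * (c 0 + c 1 + c 2) = n + 2 := by omega
    have hcc : ∀ i, c i * (2 * a i) = n := fun i => (h2' i (hall i)).1
    rcases le_total (a 0) (a 1) with h01 | h01
    · rcases le_total (a 1) (a 2) with h12 | h12
      · exact CLB_three a ε c ha hall hcc 0 1 2 (by decide) (by decide) (by decide) (by decide)
          h01 h12 (by omega)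
      · rcases le_total (a 0) (a 2) with h02 | h02
        · exact CLB_three a ε c ha hall hcc 0 2 1 (by decide) (by decide) (by decide)
            (by decide) h02 h12 (by omega)
        · exact CLB_three a ε c ha hall hcc 2 0 1 (by decide) (by decide) (by decide)
            (by decide) h02 h01 (by omega)
    · rcases le_total (a 0) (a 2) with h02 | h02
      · exact CLB_three a ε c ha hall hcc 1 0 2 (by decide) (by decide) (by decide) (by decide)
          h01 h02 (by omega)
      · rcases le_total (a 1) (a 2) with h12 | h12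
        · exact CLB_three a ε c ha hall hcc 1 2 0 (by decide) (by decide) (by decide)
            (by decide) h12 h02 (by omega)
        · exact CLB_three a ε c ha hall hcc 2 1 0 (by decide) (by decide) (by decide)
            (by decide) h12 h01 (by omega)

theorem CLB_transfer {G : Type*} [Group G] {z : G} (hz : Inv2 z) (A : Subgroup G)
    (hA : IsCyclic A) (hzA : z ∈ A) (n : ℕ) [NeZero n] (hn : Nat.card A = n) :
    ∃ y : ZMod n, y ≠ 0 ∧ y + y = 0 ∧
      Nat.card {g : G // g ∈ A ∧ g ≠ 1 ∧ g ≠ z ∧ g * g = z} =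
        Nat.card {x : ZMod n // x ≠ 0 ∧ x ≠ y ∧ x + x = y} ∧
      Nat.card {g : G // g ∈ A ∧ g ≠ 1 ∧ g ≠ z ∧ g ^ 3 = 1} =
        Nat.card {x : ZMod n // x ≠ 0 ∧ x ≠ y ∧ x + x + x = 0} := by
  have hcard : Nat.card A = Nat.card (Multiplicative (ZMod n)) := by
    rw [hn, Nat.card_congr Multiplicative.toAdd, Nat.card_zmod]
  let e : A ≃* Multiplicative (ZMod n) := mulEquivOfCyclicCardEq hcard
  let f : A → ZMod n := fun g => Multiplicative.toAdd (e g)
  have hf1 : ∀ g h : A, f (g * h) = f g + f h := by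
    intro g h
    show Multiplicative.toAdd (e (g * h)) = _
    rw [map_mul]
    rfl
  have hf0 : f 1 = 0 := by
    show Multiplicative.toAdd (e 1) = _
    rw [map_one]
    rfl
  have hfi : ∀ g h : A, f g = f h ↔ g = h := by
    intro g h
    constructor
    · intro hgh
      exact e.injective (Multiplicative.toAdd.injective hgh)
    · rintro rfl
      rfl
  have hfs : ∀ x : ZMod n, f (e.symm (Multiplicative.ofAdd x)) = x := by
    intro x
    show Multiplicative.toAdd (e (e.symm (Multiplicative.ofAdd x))) = x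
    rw [MulEquiv.apply_symm_apply]
    rfl
  have hff : ∀ g : A, e.symm (Multiplicative.ofAdd (f g)) = g := by
    intro g
    rw [← hfi, hfs]
  set zA : A := ⟨z, hzA⟩ with hzAdef
  refine ⟨f zA, ?_, ?_, ?_, ?_⟩
  · intro h
    rw [← hf0, hfi] at h
    exact hz.1 (congrArg Subtype.val h)
  · rw [← hf1, ← hf0, hfi]
    exact Subtype.ext hz.2
  · refine Nat.card_congr
      { toFun := fun g => ⟨f ⟨g.1, g.2.1⟩, ?_, ?_, ?_⟩
        invFun := fun x => ⟨(e.symm (Multiplicative.ofAdd x.1) : A), ?_, ?_, ?_, ?_⟩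
        left_inv := ?_
        right_inv := ?_ }
    · intro h
      rw [← hf0, hfi] at h
      exact g.2.2.1 (congrArg Subtype.val h)
    · intro h
      rw [hfi] at h
      exact g.2.2.2.1 (congrArg Subtype.val h)
    · rw [← hf1, hfi]
      exact Subtype.ext g.2.2.2.2
    · exact SetLike.coe_mem _
    · intro h
      have h' : e.symm (Multiplicative.ofAdd x.1) = 1 := Subtype.ext h
      have h2 := congrArg f h'
      rw [hfs, hf0] at h2
      exact x.2.1 h2
    · intro h
      have h' : e.symm (Multiplicative.ofAdd x.1) = zA := Subtype.ext h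
      have h2 := congrArg f h'
      rw [hfs] at h2
      exact x.2.2.1 h2
    · have h := x.2.2.2
      rw [← hfs x.1, ← hf1, hfi] at h
      exact congrArg Subtype.val h
    · intro g
      apply Subtype.ext
      show ((e.symm (Multiplicative.ofAdd (f ⟨g.1, g.2.1⟩)) : A) : G) = g.1
      rw [hff]
    · intro x
      apply Subtype.ext
      exact hfs x.1
  · refine Nat.card_congr
      { toFun := fun g => ⟨f ⟨g.1, g.2.1⟩, ?_, ?_, ?_⟩
        invFun := fun x => ⟨(e.symm (Multiplicative.ofAdd x.1) : A), ?_, ?_, ?_, ?_⟩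
        left_inv := ?_
        right_inv := ?_ }
    · intro h
      rw [← hf0, hfi] at h
      exact g.2.2.1 (congrArg Subtype.val h)
    · intro h
      rw [hfi] at h
      exact g.2.2.2.1 (congrArg Subtype.val h)
    · rw [← hf1, ← hf1, ← hf0, hfi]
      apply Subtype.ext
      have h := g.2.2.2.2
      rw [pow_three'] at h
      exact h
    · exact SetLike.coe_mem _
    · intro h
      have h' : e.symm (Multiplicative.ofAdd x.1) = 1 := Subtype.ext h
      have h2 := congrArg f h'
      rw [hfs, hf0] at h2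
      exact x.2.1 h2
    · intro h
      have h' : e.symm (Multiplicative.ofAdd x.1) = zA := Subtype.ext h
      have h2 := congrArg f h'
      rw [hfs] at h2
      exact x.2.2.1 h2
    · have h := x.2.2.2
      rw [← hfs x.1, ← hf1, ← hf1] at h
      have h3 := h.trans hf0.symm
      rw [hfi] at h3
      rw [pow_three']
      exact congrArg Subtype.val h3
    · intro g
      apply Subtype.ext
      show ((e.symm (Multiplicative.ofAdd (f ⟨g.1, g.2.1⟩)) : A) : G) = g.1
      rw [hff]
    · intro x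
      apply Subtype.ext
      exact hfs x.1

theorem CLB_dec4 : ∀ y : ZMod 4, y ≠ 0 → y + y = 0 →
    Fintype.card {x : ZMod 4 // x ≠ 0 ∧ x ≠ y ∧ x + x = y} = 2 ∧
    Fintype.card {x : ZMod 4 // x ≠ 0 ∧ x ≠ y ∧ x + x + x = 0} = 0 := by
  decide

theorem CLB_dec6 : ∀ y : ZMod 6, y ≠ 0 → y + y = 0 →
    Fintype.card {x : ZMod 6 // x ≠ 0 ∧ x ≠ y ∧ x + x = y} = 0 ∧
    Fintype.card {x : ZMod 6 // x ≠ 0 ∧ x ≠ y ∧ x + x + x = 0} = 2 := by
  decide

theorem CLB_dec10 : ∀ y : ZMod 10, y ≠ 0 → y + y = 0 →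
    Fintype.card {x : ZMod 10 // x ≠ 0 ∧ x ≠ y ∧ x + x = y} = 0 ∧
    Fintype.card {x : ZMod 10 // x ≠ 0 ∧ x ≠ y ∧ x + x + x = 0} = 0 := by
  decide

/-- elements with square `z` in a cyclic group of order `4`, `6` or `10` -/
theorem CLB_sq {G : Type*} [Group G] [Finite G] {z : G} (hz : Inv2 z) (A : Subgroup G)
    (hA : IsCyclic A) (hzA : z ∈ A) :
    (Nat.card A = 4 → Nat.card {g : G // g ∈ A ∧ g ≠ 1 ∧ g ≠ z ∧ g * g = z} = 2) ∧
    (Nat.card A = 6 → Nat.card {g : G // g ∈ A ∧ g ≠ 1 ∧ g ≠ z ∧ g * g = z} = 0) ∧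
    (Nat.card A = 10 → Nat.card {g : G // g ∈ A ∧ g ≠ 1 ∧ g ≠ z ∧ g * g = z} = 0) := by
  refine ⟨fun h => ?_, fun h => ?_, fun h => ?_⟩
  · obtain ⟨y, h0, h1, h2, _⟩ := CLB_transfer hz A hA hzA 4 h
    rw [h2, Nat.card_eq_fintype_card]
    exact (CLB_dec4 y h0 h1).1
  · obtain ⟨y, h0, h1, h2, _⟩ := CLB_transfer hz A hA hzA 6 h
    rw [h2, Nat.card_eq_fintype_card]
    exact (CLB_dec6 y h0 h1).1
  · obtain ⟨y, h0, h1, h2, _⟩ := CLB_transfer hz A hA hzA 10 h
    rw [h2, Nat.card_eq_fintype_card]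
    exact (CLB_dec10 y h0 h1).1

/-- elements of order `3` in a cyclic group of order `4`, `6` or `10` -/
theorem CLB_cube {G : Type*} [Group G] [Finite G] {z : G} (hz : Inv2 z) (A : Subgroup G)
    (hA : IsCyclic A) (hzA : z ∈ A) :
    (Nat.card A = 4 → Nat.card {g : G // g ∈ A ∧ g ≠ 1 ∧ g ≠ z ∧ g ^ 3 = 1} = 0) ∧
    (Nat.card A = 6 → Nat.card {g : G // g ∈ A ∧ g ≠ 1 ∧ g ≠ z ∧ g ^ 3 = 1} = 2) ∧
    (Nat.card A = 10 → Nat.card {g : G // g ∈ A ∧ g ≠ 1 ∧ g ≠ z ∧ g ^ 3 = 1} = 0) := by
  refine ⟨fun h => ?_, fun h => ?_, fun h => ?_⟩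
  · obtain ⟨y, h0, h1, _, h2⟩ := CLB_transfer hz A hA hzA 4 h
    rw [h2, Nat.card_eq_fintype_card]
    exact (CLB_dec4 y h0 h1).2
  · obtain ⟨y, h0, h1, _, h2⟩ := CLB_transfer hz A hA hzA 6 h
    rw [h2, Nat.card_eq_fintype_card]
    exact (CLB_dec6 y h0 h1).2
  · obtain ⟨y, h0, h1, _, h2⟩ := CLB_transfer hz A hA hzA 10 h
    rw [h2, Nat.card_eq_fintype_card]
    exact (CLB_dec10 y h0 h1).2

end Pool.Agent.Lib.MP_1bbd88_ag.Q
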