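import Pool.Agent.Lib.MP_1bbd88_ag.Q.NS.NDefs

set_option autoImplicit false

namespace Pool.Agent.Lib.MP_1bbd88_ag.Q

/-- the conjugates of a subgroup -/
abbrev CLC_X {G : Type*} [Group G] (A : Subgroup G) : Type _ :=
  {B : Subgroup G // ∃ g : G, B = A.map (MulAut.conj g).toMonoidHom}

theorem CLC_map_mul {G : Type*} [Group G] (B : Subgroup G) (g h : G) :
    B.map (MulAut.conj (g * h)).toMonoidHom =
      (B.map (MulAut.conj h).toMonoidHom).map (MulAut.conj g).toMonoidHom := by
  rw [Subgroup.map_map]
  congr 1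
  ext x
  simp [mul_assoc]

theorem CLC_map_one {G : Type*} [Group G] (B : Subgroup G) :
    B.map (MulAut.conj (1 : G)).toMonoidHom = B := by
  have : (MulAut.conj (1 : G)).toMonoidHom = MonoidHom.id G := by
    ext x
    simp
  rw [this, Subgroup.map_id]

/-- the action on the conjugates -/
noncomputable instance CLC_act {G : Type*} [Group G] (A : Subgroup G) : MulAction G (CLC_X A) where
  smul g B := ⟨B.1.map (MulAut.conj g).toMonoidHom, by
    obtain ⟨h, hh⟩ := B.2
    exact ⟨g * h, by rw [hh, CLC_map_mul]⟩⟩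
  one_smul B := Subtype.ext (CLC_map_one B.1)
  mul_smul g h B := Subtype.ext (CLC_map_mul B.1 g h)

theorem CLC_smul_val {G : Type*} [Group G] (A : Subgroup G) (g : G) (B : CLC_X A) :
    (g • B).1 = B.1.map (MulAut.conj g).toMonoidHom := rfl

theorem CLC_map_cent {G : Type*} [Group G] (g h : G) :
    (Subgroup.centralizer ({g} : Set G)).map (MulAut.conj h).toMonoidHom =
      Subgroup.centralizer ({h * g * h⁻¹} : Set G) := by
  ext x
  rw [Subgroup.mem_map, Subgroup.mem_centralizer_singleton_iff]
  constructor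
  · rintro ⟨y, hy, rfl⟩
    rw [Subgroup.mem_centralizer_singleton_iff] at hy
    simp only [MulEquiv.toMonoidHom_eq_coe, MonoidHom.coe_coe, MulAut.conj_apply]
    have h1 : h * y * h⁻¹ * (h * g * h⁻¹) = h * (y * g) * h⁻¹ := by group
    have h2 : h * g * h⁻¹ * (h * y * h⁻¹) = h * (g * y) * h⁻¹ := by group
    rw [h1, h2, hy]
  · intro hx
    refine ⟨h⁻¹ * x * h, ?_, ?_⟩
    · rw [Subgroup.mem_centralizer_singleton_iff]
      have h1 : h⁻¹ * x * h * g = h⁻¹ * (x * (h * g * h⁻¹)) * h := by group
      have h2 : g * (h⁻¹ * x * h) = h⁻¹ * (h * g * h⁻¹ * x) * h := by group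
      rw [h1, h2, hx]
    · simp only [MulEquiv.toMonoidHom_eq_coe, MonoidHom.coe_coe, MulAut.conj_apply]
      group

theorem CLC_comm (H : Type*) [Group H] (h : IsCyclic H) (a b : H) : a * b = b * a := by
  obtain ⟨c, hc⟩ := h.exists_generator
  obtain ⟨m, rfl⟩ := Subgroup.mem_zpowers_iff.mp (hc a)
  obtain ⟨n, rfl⟩ := Subgroup.mem_zpowers_iff.mp (hc b)
  rw [← zpow_add, ← zpow_add, add_comm]

/-- ROW 1bbd-CLC : the case of order 48. `A` is a cyclic group of order `8` with exactly three
conjugates, which meet pairwise in `{1, z}` (all are centralisers) -/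
theorem CLC {G : Type*} [Group G] [Finite G] {z : G} (h : CLhyp z) (A : Subgroup G)
    (hA : IsCyclic A) (hcard : Nat.card A = 8)
    (hcen : ∃ g, g ≠ 1 ∧ g ≠ z ∧ A = Subgroup.centralizer ({g} : Set G))
    (h3 : Nat.card {B : Subgroup G // ∃ g : G, B = A.map (MulAut.conj g).toMonoidHom} = 3) :
    ∃ L0 : Subgroup G, L0 ≠ ⊤ ∧ z ∈ L0 ∧ ∀ g : G, g ^ 3 = 1 → g ∈ L0 := by
  classical
  obtain ⟨g, hg1, hgz, hAg⟩ := hcen
  let _ : Fintype (CLC_X A) := Fintype.ofFinite _
  have h3' : Fintype.card (CLC_X A) = 3 := by
    rw [← Nat.card_eq_fintype_card]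
    exact h3
  let φ : G →* ℤˣ := (Equiv.Perm.sign).comp (MulAction.toPermHom G (CLC_X A))
  have hφ : ∀ x, φ x = Equiv.Perm.sign (MulAction.toPerm x : Equiv.Perm (CLC_X A)) := fun x => rfl
  refine ⟨φ.ker, ?_, ?_, ?_⟩
  · intro htop
    obtain ⟨c, hc⟩ := hA.exists_generator
    -- facts on the generator
    have hord : orderOf c = 8 := by
      rw [orderOf_eq_card_of_forall_mem_zpowers hc, hcard]
    have hord' : orderOf (c : G) = 8 := by rw [Subgroup.orderOf_coe, hord]
    have hzz : z ^ 2 = 1 := by rw [pow_two]; exact h.inv.2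
    have hc2 : (c : G) * c ≠ z := by
      intro h1
      have h2 : (c : G) ^ 4 = 1 := by
        have : (c : G) ^ 4 = ((c : G) * c) ^ 2 := by rw [← pow_two, ← pow_mul]
        rw [this, h1, hzz]
      have h4 := orderOf_dvd_of_pow_eq_one h2
      rw [hord'] at h4
      norm_num at h4
    have hc1 : (c : G) ≠ 1 := by
      intro h1
      rw [h1, orderOf_one] at hord'
      norm_num at hord'
    have hcz : (c : G) ≠ z := by
      intro h1
      have h2 : (c : G) ^ 2 = 1 := by rw [h1, hzz]
      have h4 := orderOf_dvd_of_pow_eq_one h2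
      rw [hord'] at h4
      norm_num at h4
    have hAg' : ∀ x : G, x ∈ A → x * g = g * x := by
      intro x hx
      rw [hAg, Subgroup.mem_centralizer_singleton_iff] at hx
      exact hx
    have hcg : (c : G) * g = g * c := hAg' c c.2
    -- the centraliser of `c` is in `A`
    have hCc : ∀ y : G, y * c = c * y → y ∈ A := by
      intro y hy
      have h1 := h.cyc c hc1 hcz
      have h2 : ∀ a b : Subgroup.centralizer ({(c : G)} : Set G), a * b = b * a := by
        exact CLC_comm _ h1
      have h4 := h2 ⟨y, Subgroup.mem_centralizer_singleton_iff.mpr hy⟩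
        ⟨g, Subgroup.mem_centralizer_singleton_iff.mpr hcg.symm⟩
      have h5 : y * g = g * y := congrArg Subtype.val h4
      rw [hAg]
      exact Subgroup.mem_centralizer_singleton_iff.mpr h5
    have hcomm : ∀ x ∈ A, ∀ y ∈ A, x * y = y * x := by
      intro x hx y hy
      have h2 : ∀ a b : A, a * b = b * a := by
        exact CLC_comm _ hA
      exact congrArg Subtype.val (h2 ⟨x, hx⟩ ⟨y, hy⟩)
    -- the fixed points of `c`
    let A0 : CLC_X A := ⟨A, 1, (CLC_map_one A).symm⟩
    have hfixA : (c : G) • A0 = A0 := by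
      apply Subtype.ext
      rw [CLC_smul_val]
      have h1 : (c : G) ∈ Subgroup.normalizer (A : Set G) := Subgroup.le_normalizer c.2
      exact Subgroup.mem_normalizer_iff_map_conj_eq.mp h1
    have hfix : ∀ B : CLC_X A, (c : G) • B = B → B = A0 := by
      intro B hB
      obtain ⟨k, hk⟩ := B.2
      have hB1 : B.1 = Subgroup.centralizer ({k * g * k⁻¹} : Set G) := by
        rw [hk]
        conv_lhs => rw [hAg]
        exact CLC_map_cent g k
      set g' := k * g * k⁻¹ with hg'
      have hg'1 : g' ≠ 1 := by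
        intro h1
        apply hg1
        have : g = k⁻¹ * g' * k := by rw [hg']; group
        rw [this, h1]
        group
      have hg'z : g' ≠ z := by
        intro h1
        apply hgz
        have : g = k⁻¹ * g' * k := by rw [hg']; group
        rw [this, h1, mul_assoc, ← h.cen k, ← mul_assoc, inv_mul_cancel, one_mul]
      have hn : (c : G) ∈ Subgroup.normalizer
          ((Subgroup.centralizer ({g'} : Set G) : Subgroup G) : Set G) := by
        rw [← hB1]
        apply Subgroup.mem_normalizer_iff_map_conj_eq.mpr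
        have h1 := congrArg Subtype.val hB
        rw [CLC_smul_val] at h1
        exact h1
      have hcg' : (c : G) * g' = g' * c := by
        by_contra hne
        exact hc2 (h.nor g' hg'1 hg'z c c hn hn hne hne).2
      have hg'A : g' ∈ A := hCc g' hcg'.symm
      have hle : A ≤ B.1 := by
        rw [hB1]
        intro x hx
        rw [Subgroup.mem_centralizer_singleton_iff]
        exact hcomm x hx g' hg'A
      have hcardB : Nat.card B.1 = Nat.card A := by
        rw [hk]
        exact Nat.card_congr (A.equivMapOfInjective (MulAut.conj k).toMonoidHom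
          (MulAut.conj k).injective).toEquiv.symm
      apply Subtype.ext
      exact (Subgroup.eq_of_le_of_card_ge hle hcardB.le).symm
    have hsupp : (MulAction.toPerm (c : G) : Equiv.Perm (CLC_X A)).support = Finset.univ.erase A0 := by
      ext B
      rw [Equiv.Perm.mem_support, MulAction.toPerm_apply, Finset.mem_erase]
      constructor
      · intro h1
        refine ⟨?_, Finset.mem_univ _⟩
        rintro rfl
        exact h1 hfixA
      · rintro ⟨h1, -⟩ h2
        exact h1 (hfix B h2)
    have hsw : (MulAction.toPerm (c : G) : Equiv.Perm (CLC_X A)).IsSwap := by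
      rw [← Equiv.Perm.card_support_eq_two, hsupp, Finset.card_erase_of_mem (Finset.mem_univ _),
        Finset.card_univ, h3']
    have h1 : φ c = -1 := by rw [hφ, hsw.sign_eq]
    have h2 : (c : G) ∈ φ.ker := by rw [htop]; trivial
    rw [MonoidHom.mem_ker, h1] at h2
    exact absurd h2 (by decide)
  · rw [MonoidHom.mem_ker, hφ]
    have h1 : (MulAction.toPerm z : Equiv.Perm (CLC_X A)) = 1 := by
      ext1 B
      apply Subtype.ext
      rw [MulAction.toPerm_apply, CLC_smul_val, Equiv.Perm.one_apply]
      have h2 : (MulAut.conj z).toMonoidHom = MonoidHom.id G := by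
        ext x
        simp only [MulEquiv.toMonoidHom_eq_coe, MonoidHom.coe_coe, MulAut.conj_apply,
          MonoidHom.id_apply]
        rw [← h.cen x, mul_assoc, mul_inv_cancel, mul_one]
      rw [h2, Subgroup.map_id]
    rw [h1, Equiv.Perm.sign_one]
  · intro x hx
    rw [MonoidHom.mem_ker]
    have h1 : φ x ^ 3 = 1 := by rw [← map_pow, hx, map_one]
    rcases Int.units_eq_one_or (φ x) with h2 | h2
    · exact h2
    · rw [h2] at h1
      exact absurd h1 (by decide)

end Pool.Agent.Lib.MP_1bbd88_ag.Q
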