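import Pool.Agent.Lib.MP_1bbd88_ag.Q.NS.CLA
import Pool.Agent.Lib.MP_1bbd88_ag.Q.NS.CLB
import Pool.Agent.Lib.MP_1bbd88_ag.Q.NS.CLC

set_option autoImplicit false

namespace Pool.Agent.Lib.MP_1bbd88_ag.Q

theorem CL_comm {G : Type*} [Group G] (A : Subgroup G) (hA : IsCyclic A) : Comm A := by
  intro x hx y hy
  obtain ⟨⟨g, hg⟩, hgen⟩ := hA.exists_generator
  obtain ⟨i, hi⟩ := hgen ⟨x, hx⟩
  obtain ⟨j, hj⟩ := hgen ⟨y, hy⟩
  have hi' : g ^ i = x := congrArg Subtype.val hi
  have hj' : g ^ j = y := congrArg Subtype.val hj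
  rw [← hi', ← hj', ← zpow_add, ← zpow_add, add_comm]

theorem CL_ncard {G : Type*} [Group G] {z : G} (hz : z ≠ 1) (S : Set G)
    (h1 : (1 : G) ∈ S) (hzS : z ∈ S) :
    Nat.card {g : G // g ∈ S ∧ g ≠ 1 ∧ g ≠ z ∧ True} = S.ncard - 2 := by
  have e1 : {g : G | g ∈ S ∧ g ≠ 1 ∧ g ≠ z ∧ True} = (S \ {1}) \ {z} := by
    ext g
    simp only [Set.mem_ofPred_eq, Set.mem_sdiff, Set.mem_singleton_iff]
    tauto
  have e2 : Nat.card {g : G // g ∈ S ∧ g ≠ 1 ∧ g ≠ z ∧ True} =
      Set.ncard {g : G | g ∈ S ∧ g ≠ 1 ∧ g ≠ z ∧ True} := rfl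
  rw [e2, e1, Set.ncard_sdiff_singleton_of_mem (show z ∈ S \ {1} from ⟨hzS, hz⟩),
    Set.ncard_sdiff_singleton_of_mem h1]
  omega

theorem CL_even {G : Type*} [Group G] [Finite G] {z : G} (hz : Inv2 z) (A : Subgroup G)
    (hzA : z ∈ A) : 2 ∣ Nat.card A := by
  have h1 : orderOf (⟨z, hzA⟩ : A) = 2 := by
    rw [← Subgroup.orderOf_coe]
    apply orderOf_eq_prime
    · rw [pow_two]; exact hz.2
    · exact hz.1
  rw [← h1]
  exact orderOf_dvd_natCard _

theorem CL_order {G : Type*} [Group G] [Finite G] (A : Subgroup G) {g k : G}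
    (h : k * g * k⁻¹ ∈ A) : orderOf g ∣ Nat.card A := by
  have h1 : orderOf (k * g * k⁻¹) = orderOf g := by
    have := orderOf_injective (MulAut.conj k).toMonoidHom (MulAut.conj k).injective g
    simpa using this
  have h2 : orderOf (⟨k * g * k⁻¹, h⟩ : A) = orderOf g := by
    rw [← h1, ← Subgroup.orderOf_coe]
  rw [← h2]
  exact orderOf_dvd_natCard _

theorem CL_sum3 {m : ℕ} {i j k : Fin m} (h1 : i ≠ j) (h2 : i ≠ k) (h3 : j ≠ k)
    (h : ∀ l, l = i ∨ l = j ∨ l = k) (f : Fin m → ℕ) : ∑ l, f l = f i + f j + f k := by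
  have e1 : (Finset.univ : Finset (Fin m)) = {i, j, k} := by
    ext l
    simp [h l]
  rw [e1, Finset.sum_insert (by simp [h1, h2]), Finset.sum_insert (by simp [h3]),
    Finset.sum_singleton, add_assoc]

/-- ROW 1bbd-CL : the classification -/
theorem CL {G : Type*} [Group G] [Finite G] {z : G} (h : CLhyp z) :
    (∃ A : Subgroup G, Comm A ∧ Nat.card G ≤ 2 * Nat.card A) ∨
    (Nat.card G = 24 ∧ ∀ g : G, orderOf g ∣ 4 ∨ orderOf g ∣ 6) ∨
    (Nat.card G = 48 ∧ ∃ L0 : Subgroup G, L0 ≠ ⊤ ∧ z ∈ L0 ∧ ∀ g : G, g ^ 3 = 1 → g ∈ L0) ∨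
    (Nat.card G = 120 ∧ (∀ g : G, orderOf g ∣ 4 ∨ orderOf g ∣ 6 ∨ orderOf g ∣ 10) ∧
      Nat.card {g : G // g * g = z} = 30 ∧ Nat.card {g : G // g ^ 3 = 1} = 21) := by
  classical
  obtain ⟨m, A, c, ε, hcyc, hzA, h4, hε, hc, hcen, hconj, hcov, hcount⟩ := CLA h
  have hz := h.inv
  have hz1 : z ≠ 1 := hz.1
  have hz2 : orderOf z = 2 := orderOf_eq_prime (by rw [pow_two]; exact hz.2) hz.1
  -- half orders
  have hG2 : 2 ∣ Nat.card G := by
    rw [← hz2]; exact orderOf_dvd_natCard z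
  obtain ⟨n, hn⟩ := hG2
  have hA2 : ∀ i, ∃ b, Nat.card (A i) = 2 * b := fun i => CL_even hz (A i) (hzA i)
  choose a ha using hA2
  have hn1 : 1 ≤ n := by
    have : 0 < Nat.card G := Nat.card_pos
    omega
  have ha2 : ∀ i, 2 ≤ a i := by
    intro i
    have h1 := h4 i
    rw [ha i] at h1
    omega
  have hcn : ∀ i, c i * (ε i * a i) = n := by
    intro i
    have h1 := hc i
    rw [ha i, hn] at h1
    have h2 : 2 * (c i * (ε i * a i)) = 2 * n := by rw [← h1]; ring
    omega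
  have hcl : 2 * n - 2 = ∑ i, c i * (2 * a i - 2) := by
    have h1 := hcount (fun _ => True) (fun _ _ _ => trivial)
    have e1 : Nat.card {g : G // g ≠ 1 ∧ g ≠ z ∧ True} = 2 * n - 2 := by
      have h2 := CL_ncard hz1 (Set.univ : Set G) (Set.mem_univ _) (Set.mem_univ _)
      rw [Set.ncard_univ, hn] at h2
      rw [← h2]
      exact Nat.card_congr (Equiv.subtypeEquivRight fun g => by simp)
    have e2 : ∀ i, Nat.card {g : G // g ∈ A i ∧ g ≠ 1 ∧ g ≠ z ∧ True} = 2 * a i - 2 := by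
      intro i
      have h2 := CL_ncard hz1 (A i : Set G) (A i).one_mem (hzA i)
      have h3 : (A i : Set G).ncard = Nat.card (A i) := rfl
      rw [h3, ha i] at h2
      exact h2
    rw [← e1]
    refine h1.trans (Finset.sum_congr rfl fun i _ => ?_)
    rw [e2 i]
  have hord : ∀ g : G, g ≠ 1 → g ≠ z → ∃ i, orderOf g ∣ 2 * a i := by
    intro g g1 g2
    obtain ⟨i, k, hk⟩ := hcov g g1 g2
    exact ⟨i, ha i ▸ CL_order (A i) hk⟩
  have hord4 : ∀ g : G, g = 1 ∨ g = z → orderOf g ∣ 4 := by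
    rintro g (rfl | rfl)
    · rw [orderOf_one]; exact one_dvd _
    · rw [hz2]; norm_num
  rcases CLB_num hn1 a ε c ha2 hε hcn hcl with h1 | ⟨i, h1⟩ | ⟨h1, h2⟩ | ⟨h1, i, h2, h3⟩ |
    ⟨h1, i, j, k, hi, hei, hj, hej, hk, hij, hik, hjk, hall⟩
  · left
    refine ⟨⊥, ?_, ?_⟩
    · intro x hx y hy
      rw [Subgroup.mem_bot] at hx hy
      rw [hx, hy]
    · rw [Subgroup.card_bot, hn, h1]
  · left
    refine ⟨A i, CL_comm (A i) (hcyc i), ?_⟩
    rw [hn, ha i]
    omega
  · right; left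
    refine ⟨by rw [hn, h1], ?_⟩
    intro g
    by_cases hg : g = 1 ∨ g = z
    · exact Or.inl (hord4 g hg)
    · rw [not_or] at hg
      obtain ⟨i, hi⟩ := hord g hg.1 hg.2
      rcases h2 i with e | e
      · rw [e] at hi; exact Or.inl hi
      · rw [e] at hi; exact Or.inr hi
  · right; right; left
    refine ⟨by rw [hn, h1], ?_⟩
    have hcard : Nat.card (A i) = 8 := by rw [ha i, h2]
    refine CLC h (A i) (hcyc i) hcard (hcen i) ?_
    rw [← hconj i]
    have h5 := hcn i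
    rw [h1, h2, h3] at h5
    omega
  · right; right; right
    have hci : c i = 15 := by
      have h5 := hcn i
      rw [h1, hi, hei] at h5
      omega
    have hcj : c j = 10 := by
      have h5 := hcn j
      rw [h1, hj, hej] at h5
      omega
    have hci4 : Nat.card (A i) = 4 := by rw [ha i, hi]
    have hcj6 : Nat.card (A j) = 6 := by rw [ha j, hj]
    have hck10 : Nat.card (A k) = 10 := by rw [ha k, hk]
    refine ⟨by rw [hn, h1], ?_, ?_, ?_⟩
    · intro g
      by_cases hg : g = 1 ∨ g = z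
      · exact Or.inl (hord4 g hg)
      · rw [not_or] at hg
        obtain ⟨l, hl⟩ := hord g hg.1 hg.2
        rcases hall l with e | e | e
        · rw [e, hi] at hl; exact Or.inl hl
        · rw [e, hj] at hl; exact Or.inr (Or.inl hl)
        · rw [e, hk] at hl; exact Or.inr (Or.inr hl)
    · have h5 := hcount (fun g => g * g = z) (by
        intro g k hg
        show k * g * k⁻¹ * (k * g * k⁻¹) = z
        have hg' : g * g = z := hg
        have e1 : k * g * k⁻¹ * (k * g * k⁻¹) = k * (g * g) * k⁻¹ := by group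
        rw [e1, hg', h.cen k]
        group)
      rw [CL_sum3 hij hik hjk hall] at h5
      have e1 := (CLB_sq hz (A i) (hcyc i) (hzA i)).1 hci4
      have e2 := (CLB_sq hz (A j) (hcyc j) (hzA j)).2.1 hcj6
      have e3 := (CLB_sq hz (A k) (hcyc k) (hzA k)).2.2 hck10
      have e4 : Nat.card {g : G // g * g = z} = Nat.card {g : G // g ≠ 1 ∧ g ≠ z ∧ g * g = z} := by
        refine Nat.card_congr (Equiv.subtypeEquivRight fun g => ?_)
        constructor
        · intro hg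
          refine ⟨?_, ?_, hg⟩
          · rintro rfl
            exact hz1 (by rw [← hg, one_mul])
          · rintro rfl
            exact hz1 (by rw [← hg, hz.2])
        · exact fun hg => hg.2.2
      rw [e4]
      refine h5.trans ?_
      rw [e1, e2, e3, hci]
      ring
    · have h5 := hcount (fun g => g ^ 3 = 1) (by
        intro g k hg
        show (k * g * k⁻¹) ^ 3 = 1
        have hg' : g ^ 3 = 1 := hg
        have e1 : (k * g * k⁻¹) ^ 3 = k * g ^ 3 * k⁻¹ := by
          rw [conj_pow]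
        rw [e1, hg']
        group)
      rw [CL_sum3 hij hik hjk hall] at h5
      have e1 := (CLB_cube hz (A i) (hcyc i) (hzA i)).1 hci4
      have e2 := (CLB_cube hz (A j) (hcyc j) (hzA j)).2.1 hcj6
      have e3 := (CLB_cube hz (A k) (hcyc k) (hzA k)).2.2 hck10
      have h6 : Nat.card {g : G // g ≠ 1 ∧ g ≠ z ∧ g ^ 3 = 1} = 20 := by
        refine h5.trans ?_
        rw [e1, e2, e3, hcj]
        ring
      have e4 : ({g : G | g ^ 3 = 1} \ {1}) = {g : G | g ≠ 1 ∧ g ≠ z ∧ g ^ 3 = 1} := by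
        ext g
        simp only [Set.mem_ofPred_eq, Set.mem_sdiff, Set.mem_singleton_iff]
        constructor
        · rintro ⟨hg, hg1⟩
          refine ⟨hg1, ?_, hg⟩
          rintro rfl
          apply hz1
          have : g ^ 3 = g * g * g := by rw [pow_succ, pow_two]
          rw [this, hz.2, one_mul] at hg
          exact hg
        · rintro ⟨hg1, _, hg⟩
          exact ⟨hg, hg1⟩
      have e5 : Nat.card {g : G // g ≠ 1 ∧ g ≠ z ∧ g ^ 3 = 1} =
        Set.ncard {g : G | g ≠ 1 ∧ g ≠ z ∧ g ^ 3 = 1} := rfl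
      have e6 : Nat.card {g : G // g ^ 3 = 1} = Set.ncard {g : G | g ^ 3 = 1} := rfl
      have e7 := Set.ncard_sdiff_singleton_of_mem (show (1 : G) ∈ {g : G | g ^ 3 = 1} by simp)
      have e8 : 0 < Set.ncard {g : G | g ^ 3 = 1} := by
        rw [Set.ncard_pos]
        exact ⟨1, by simp⟩
      rw [e6]
      rw [e4, ← e5, h6] at e7
      omega

end Pool.Agent.Lib.MP_1bbd88_ag.Q
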