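import Pool.Agent.Lib.MP_1bbd88_ag.Q.NS.NDefs

set_option autoImplicit false

namespace Pool.Agent.Lib.MP_1bbd88_ag.Q

theorem CLA_mem {G : Type*} [Group G] (A : Subgroup G) (k x : G) :
    x ∈ A.map (MulAut.conj k).toMonoidHom ↔ k⁻¹ * x * k ∈ A := by
  constructor
  · rintro ⟨y, hy, rfl⟩
    have : k⁻¹ * (MulAut.conj k).toMonoidHom y * k = y := by
      simp [MulAut.conj_apply]
      group
    rw [this]
    exact hy
  · intro hx
    refine ⟨k⁻¹ * x * k, hx, ?_⟩
    simp [MulAut.conj_apply]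
    group

theorem CLA_memc {G : Type*} [Group G] (g x : G) :
    x ∈ Subgroup.centralizer ({g} : Set G) ↔ g * x = x * g := by
  rw [Subgroup.mem_centralizer_singleton_iff]
  exact eq_comm

theorem CLA_cconj {G : Type*} [Group G] (g k : G) :
    Subgroup.centralizer ({k * g * k⁻¹} : Set G) =
      (Subgroup.centralizer ({g} : Set G)).map (MulAut.conj k).toMonoidHom := by
  ext x
  rw [CLA_mem, CLA_memc, CLA_memc]
  constructor
  · intro hx
    have h1 : g * (k⁻¹ * x * k) = k⁻¹ * (k * g * k⁻¹ * x) * k := by group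
    have h2 : k⁻¹ * x * k * g = k⁻¹ * (x * (k * g * k⁻¹)) * k := by group
    rw [h1, h2, hx]
  · intro hx
    have h1 : k * g * k⁻¹ * x = k * (g * (k⁻¹ * x * k)) * k⁻¹ := by group
    have h2 : x * (k * g * k⁻¹) = k * (k⁻¹ * x * k * g) * k⁻¹ := by group
    rw [h1, h2, hx]

theorem CLA_eq {G : Type*} [Group G] {z : G} (h : CLhyp z) {g x : G} (g1 : g ≠ 1) (gz : g ≠ z)
    (hx : x ∈ Subgroup.centralizer ({g} : Set G)) (x1 : x ≠ 1) (xz : x ≠ z) :
    Subgroup.centralizer ({x} : Set G) = Subgroup.centralizer ({g} : Set G) := by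
  have key : ∀ a b : G, a ≠ 1 → a ≠ z → b ∈ Subgroup.centralizer ({a} : Set G) →
      Subgroup.centralizer ({a} : Set G) ≤ Subgroup.centralizer ({b} : Set G) := by
    intro a b a1 az hb y hy
    have := h.cyc a a1 az
    have hm : IsMulCommutative (Subgroup.centralizer ({a} : Set G)) := IsCyclic.isMulCommutative
    have hc : ∀ u v : Subgroup.centralizer ({a} : Set G), u * v = v * u :=
      fun u v => hm.is_comm.comm u v
    have := hc ⟨b, hb⟩ ⟨y, hy⟩
    rw [CLA_memc]
    exact congrArg Subtype.val this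
  apply le_antisymm
  · apply key x g x1 xz
    rw [CLA_memc] at hx ⊢
    exact hx.symm
  · exact key g x g1 gz hx

theorem CLA_zmem {G : Type*} [Group G] {z : G} (h : CLhyp z) (g : G) :
    z ∈ Subgroup.centralizer ({g} : Set G) := by
  rw [CLA_memc]
  exact h.cen g

theorem CLA_gmem {G : Type*} [Group G] (g : G) :
    g ∈ Subgroup.centralizer ({g} : Set G) := by
  rw [CLA_memc]

theorem CLA_card4 {G : Type*} [Group G] [Finite G] {z : G} (h : CLhyp z) {g : G} (g1 : g ≠ 1)
    (gz : g ≠ z) : 4 ≤ Nat.card (Subgroup.centralizer ({g} : Set G)) := by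
  classical
  obtain ⟨z1, zz⟩ := h.inv
  have hgz1 : g * z ≠ 1 := by
    intro e
    apply gz
    have : g * z * z = z := by rw [e, one_mul]
    rwa [mul_assoc, zz, mul_one] at this
  have hgzz : g * z ≠ z := by
    intro e
    exact g1 (mul_eq_right.mp e)
  have hgzg : g * z ≠ g := by
    intro e
    exact z1 (mul_eq_left.mp e)
  have hsub : ((({1, z, g, g * z} : Finset G) : Set G)) ⊆
      (Subgroup.centralizer ({g} : Set G) : Set G) := by
    intro x hx
    simp only [Finset.coe_insert, Finset.coe_singleton, Set.mem_insert_iff,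
      Set.mem_singleton_iff] at hx
    rcases hx with rfl | rfl | rfl | rfl
    · exact one_mem _
    · exact CLA_zmem h g
    · exact CLA_gmem x
    · exact mul_mem (CLA_gmem g) (CLA_zmem h g)
  have h4 : ({1, z, g, g * z} : Finset G).card = 4 := by
    rw [Finset.card_insert_of_notMem, Finset.card_insert_of_notMem,
      Finset.card_insert_of_notMem, Finset.card_singleton]
    · simp only [Finset.mem_singleton]
      exact hgzg.symm
    · simp only [Finset.mem_insert, Finset.mem_singleton, not_or]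
      exact ⟨gz.symm, hgzz.symm⟩
    · simp only [Finset.mem_insert, Finset.mem_singleton, not_or]
      exact ⟨z1.symm, g1.symm, hgz1.symm⟩
  have h5 := Set.ncard_le_ncard hsub (Set.toFinite _)
  rw [Set.ncard_coe_finset, h4] at h5
  exact h5

theorem CLA_rel {G : Type*} [Group G] [Finite G] {z : G} (h : CLhyp z) {g : G} (g1 : g ≠ 1)
    (gz : g ≠ z) :
    (Subgroup.centralizer ({g} : Set G)).relIndex
      (Subgroup.normalizer ((Subgroup.centralizer ({g} : Set G) : Subgroup G) : Set G)) = 1 ∨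
    (Subgroup.centralizer ({g} : Set G)).relIndex
      (Subgroup.normalizer ((Subgroup.centralizer ({g} : Set G) : Subgroup G) : Set G)) = 2 := by
  by_cases hN : Subgroup.normalizer ((Subgroup.centralizer ({g} : Set G) : Subgroup G) : Set G) ≤
      Subgroup.centralizer ({g} : Set G)
  · left
    exact Subgroup.relIndex_eq_one.2 hN
  · right
    rw [SetLike.le_def] at hN
    push Not at hN
    obtain ⟨a, aN, aC⟩ := hN
    rw [Subgroup.relIndex_eq_two_iff]
    refine ⟨a, aN, fun b bN => ?_⟩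
    by_cases bC : b ∈ Subgroup.centralizer ({g} : Set G)
    · right
      refine ⟨bC, fun hba => aC ?_⟩
      have := mul_mem (inv_mem bC) hba
      rwa [inv_mul_cancel_left] at this
    · left
      refine ⟨?_, bC⟩
      have := (h.nor g g1 gz b a bN aN (fun e => bC ((CLA_memc g b).2 e.symm))
        (fun e => aC ((CLA_memc g a).2 e.symm))).1
      exact (CLA_memc g (b * a)).2 this.symm

open scoped Pointwise in
theorem CLA_orb {G : Type*} [Group G] [Finite G] (A : Subgroup G) :
    (Subgroup.normalizer (A : Set G)).index =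
      Nat.card {B : Subgroup G // ∃ g : G, B = A.map (MulAut.conj g).toMonoidHom} := by
  let act : MulAction G (Subgroup G) := MulAction.compHom (Subgroup G) (MulAut.conj : G →* MulAut G)
  have hs : ∀ (g : G) (B : Subgroup G), g • B = B.map (MulAut.conj g).toMonoidHom := by
    intro g B
    rfl
  have h1 : MulAction.stabilizer G A = Subgroup.normalizer (A : Set G) := by
    ext g
    rw [MulAction.mem_stabilizer_iff, hs]
    rw [← inv_mem_iff (x := g), Subgroup.mem_normalizer_iff]
    constructor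
    · intro e x
      have : x ∈ A.map (MulAut.conj g).toMonoidHom ↔ x ∈ A := by rw [e]
      rw [CLA_mem] at this
      rw [inv_inv]
      exact this.symm
    · intro e
      ext x
      rw [CLA_mem]
      have := e x
      rw [inv_inv] at this
      exact this.symm
  rw [← h1, MulAction.index_stabilizer]
  rw [← Nat.card_coe_set_eq]
  apply Nat.card_congr
  refine Equiv.subtypeEquivRight ?_
  intro B
  constructor
  · rintro ⟨g, hg⟩
    exact ⟨g, hg.symm.trans (hs g A)⟩
  · rintro ⟨g, hg⟩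
    exact ⟨g, (hs g A).trans hg.symm⟩

theorem CLA_cc {G : Type*} [Group G] (A : Subgroup G) (k l : G) :
    (A.map (MulAut.conj k).toMonoidHom).map (MulAut.conj l).toMonoidHom =
      A.map (MulAut.conj (l * k)).toMonoidHom := by
  ext x
  rw [CLA_mem, CLA_mem, CLA_mem]
  have : k⁻¹ * (l⁻¹ * x * l) * k = (l * k)⁻¹ * x * (l * k) := by group
  rw [this]

theorem CLA_c1 {G : Type*} [Group G] (A : Subgroup G) :
    A.map (MulAut.conj (1 : G)).toMonoidHom = A := by
  ext x
  rw [CLA_mem]
  simp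

theorem CLA_rep {G : Type*} [Group G] [Finite G] (z : G) :
    ∃ (m : ℕ) (A : Fin m → Subgroup G),
      (∀ i, ∃ g, g ≠ 1 ∧ g ≠ z ∧ A i = Subgroup.centralizer ({g} : Set G)) ∧
      (∀ i j, ∀ k : G, A i = (A j).map (MulAut.conj k).toMonoidHom → i = j) ∧
      (∀ g : G, g ≠ 1 → g ≠ z → ∃ i, ∃ k : G,
        Subgroup.centralizer ({g} : Set G) = (A i).map (MulAut.conj k).toMonoidHom) := by
  classical
  let X := {B : Subgroup G // ∃ g, g ≠ 1 ∧ g ≠ z ∧ B = Subgroup.centralizer ({g} : Set G)}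
  let s : Setoid X :=
    { r := fun B C => ∃ k : G, B.1 = C.1.map (MulAut.conj k).toMonoidHom
      iseqv :=
        { refl := fun B => ⟨1, (CLA_c1 B.1).symm⟩
          symm := by
            rintro B C ⟨k, hk⟩
            refine ⟨k⁻¹, ?_⟩
            rw [hk, CLA_cc, inv_mul_cancel, CLA_c1]
          trans := by
            rintro B C D ⟨k, hk⟩ ⟨l, hl⟩
            refine ⟨k * l, ?_⟩
            rw [hk, hl, CLA_cc] } }
  have : Finite X := Subtype.finite
  have : Finite (Quotient s) := Quotient.finite s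
  obtain ⟨m, ⟨e⟩⟩ := Finite.exists_equiv_fin (Quotient s)
  refine ⟨m, fun i => (Quotient.out (e.symm i)).1, ?_, ?_, ?_⟩
  · intro i
    exact (Quotient.out (e.symm i)).2
  · intro i j k hk
    have h1 : (Quotient.out (e.symm i)) ≈ (Quotient.out (e.symm j)) := ⟨k, hk⟩
    have h2 := Quotient.sound h1
    rw [Quotient.out_eq, Quotient.out_eq] at h2
    exact e.symm.injective h2
  · intro g g1 gz
    let B : X := ⟨Subgroup.centralizer ({g} : Set G), g, g1, gz, rfl⟩
    refine ⟨e (Quotient.mk s B), ?_⟩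
    have h1 : (Quotient.out (e.symm (e (Quotient.mk s B)))) ≈ B := by
      rw [e.symm_apply_apply]
      exact Quotient.mk_out B
    obtain ⟨k, hk⟩ := Setoid.symm h1
    exact ⟨k, hk⟩

/-- ROW 1bbd-CLA : the class equation. `A i` represent the conjugacy classes of the centralisers
`C(g)`, `g ≠ 1, z`; the class of `A i` has `c i` members. -/
theorem CLA {G : Type*} [Group G] [Finite G] {z : G} (h : CLhyp z) :
    ∃ (m : ℕ) (A : Fin m → Subgroup G) (c ε : Fin m → ℕ),
      (∀ i, IsCyclic (A i)) ∧ (∀ i, z ∈ A i) ∧ (∀ i, 4 ≤ Nat.card (A i)) ∧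
      (∀ i, ε i = 1 ∨ ε i = 2) ∧ (∀ i, c i * (ε i * Nat.card (A i)) = Nat.card G) ∧
      (∀ i, ∃ g, g ≠ 1 ∧ g ≠ z ∧ A i = Subgroup.centralizer ({g} : Set G)) ∧
      (∀ i, c i = Nat.card {B : Subgroup G // ∃ g : G, B = (A i).map (MulAut.conj g).toMonoidHom}) ∧
      (∀ g : G, g ≠ 1 → g ≠ z → ∃ i, ∃ k : G, k * g * k⁻¹ ∈ A i) ∧
      (∀ P : G → Prop, (∀ g k, P g → P (k * g * k⁻¹)) →
        Nat.card {g : G // g ≠ 1 ∧ g ≠ z ∧ P g} =
          ∑ i, c i * Nat.card {g : G // g ∈ A i ∧ g ≠ 1 ∧ g ≠ z ∧ P g}) := by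
  classical
  obtain ⟨m, A, hA, hinj, hsurj⟩ := CLA_rep (G := G) z
  have hconj1 : ∀ k g : G, g ≠ 1 → k * g * k⁻¹ ≠ 1 := by
    intro k g g1 e
    exact g1 (conj_eq_one_iff.mp e)
  have hconjz : ∀ k g : G, g ≠ z → k * g * k⁻¹ ≠ z := by
    intro k g gz e
    apply gz
    have h1 : g = k⁻¹ * (k * g * k⁻¹) * k := by group
    rw [h1, e, h.cen k⁻¹, mul_assoc, inv_mul_cancel, mul_one]
  refine ⟨m, A, fun i => Nat.card {B : Subgroup G // ∃ g : G, B = (A i).map
    (MulAut.conj g).toMonoidHom}, fun i => (A i).relIndex (Subgroup.normalizer (A i : Set G)),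
    ?_, ?_, ?_, ?_, ?_, hA, fun i => rfl, ?_, ?_⟩
  · intro i
    obtain ⟨g, g1, gz, e⟩ := hA i
    rw [e]
    exact h.cyc g g1 gz
  · intro i
    obtain ⟨g, g1, gz, e⟩ := hA i
    rw [e]
    exact CLA_zmem h g
  · intro i
    obtain ⟨g, g1, gz, e⟩ := hA i
    rw [e]
    exact CLA_card4 h g1 gz
  · intro i
    obtain ⟨g, g1, gz, e⟩ := hA i
    simp only [e]
    exact CLA_rel h g1 gz
  · intro i
    have h1 := CLA_orb (A i)
    have h2 := Subgroup.relIndex_mul_index (H := A i) (K := Subgroup.normalizer (A i : Set G))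
      Subgroup.le_normalizer
    have h3 := (A i).index_mul_card
    simp only
    rw [← h1, ← h3, ← h2]
    ring
  · intro g g1 gz
    obtain ⟨i, k, hk⟩ := hsurj g g1 gz
    refine ⟨i, k⁻¹, ?_⟩
    have := CLA_gmem g
    rw [hk, CLA_mem] at this
    rwa [inv_inv]
  · intro P hP
    let O : Fin m → Type _ := fun i =>
      {B : Subgroup G // ∃ g : G, B = (A i).map (MulAut.conj g).toMonoidHom}
    let S : Fin m → Type _ := fun i => {g : G // g ∈ A i ∧ g ≠ 1 ∧ g ≠ z ∧ P g}
    let κ : ∀ i, O i → G := fun i B => B.2.choose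
    have hκ : ∀ i (B : O i), B.1 = (A i).map (MulAut.conj (κ i B)).toMonoidHom :=
      fun i B => B.2.choose_spec
    let f : (Σ i, O i × S i) → {g : G // g ≠ 1 ∧ g ≠ z ∧ P g} := fun p =>
      ⟨κ p.1 p.2.1 * p.2.2.1 * (κ p.1 p.2.1)⁻¹, hconj1 _ _ p.2.2.2.2.1, hconjz _ _ p.2.2.2.2.2.1,
        hP _ _ p.2.2.2.2.2.2⟩
    have hC : ∀ i (g : S i), Subgroup.centralizer ({g.1} : Set G) = A i := by
      intro i g
      obtain ⟨y, y1, yz, e⟩ := hA i
      have hg : g.1 ∈ Subgroup.centralizer ({y} : Set G) := e ▸ g.2.1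
      exact (CLA_eq h y1 yz hg g.2.2.1 g.2.2.2.1).trans e.symm
    have hfC : ∀ p, Subgroup.centralizer ({(f p).1} : Set G) = p.2.1.1 := by
      intro p
      change Subgroup.centralizer ({κ p.1 p.2.1 * p.2.2.1 * (κ p.1 p.2.1)⁻¹} : Set G) = _
      rw [CLA_cconj, hC, ← hκ]
    have hbij : Function.Bijective f := by
      constructor
      · rintro ⟨i, B, g⟩ ⟨j, C, k⟩ hpq
        have h1 : B.1 = C.1 := by
          have h1 := hfC ⟨i, B, g⟩
          rw [hpq, hfC] at h1
          exact h1.symm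
        have hij : i = j := by
          refine hinj i j ((κ i B)⁻¹ * κ j C) ?_
          rw [← CLA_cc, ← hκ j C, ← h1, hκ i B, CLA_cc, inv_mul_cancel, CLA_c1]
        subst hij
        have hBC : B = C := Subtype.ext h1
        subst hBC
        have h2 : κ i B * g.1 * (κ i B)⁻¹ = κ i B * k.1 * (κ i B)⁻¹ := congrArg Subtype.val hpq
        have h3 : g = k := by
          apply Subtype.ext
          exact mul_left_cancel (mul_right_cancel h2)
        rw [h3]
      · rintro ⟨x, x1, xz, px⟩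
        obtain ⟨i, k, hk⟩ := hsurj x x1 xz
        let B : O i := ⟨Subgroup.centralizer ({x} : Set G), k, hk⟩
        have hx : x ∈ B.1 := CLA_gmem x
        rw [hκ i B, CLA_mem] at hx
        have e1 : (κ i B)⁻¹ * x * κ i B = (κ i B)⁻¹ * x * ((κ i B)⁻¹)⁻¹ := by rw [inv_inv]
        refine ⟨⟨i, B, ⟨(κ i B)⁻¹ * x * κ i B, hx, ?_, ?_, ?_⟩⟩, ?_⟩
        · rw [e1]
          exact hconj1 _ _ x1
        · rw [e1]
          exact hconjz _ _ xz
        · rw [e1]
          exact hP _ _ px
        · apply Subtype.ext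
          change κ i B * ((κ i B)⁻¹ * x * κ i B) * (κ i B)⁻¹ = x
          group
    rw [← Nat.card_eq_of_bijective f hbij, Nat.card_sigma]
    refine Finset.sum_congr rfl fun i _ => ?_
    rw [Nat.card_prod]

end Pool.Agent.Lib.MP_1bbd88_ag.Q
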