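import Pool.Agent.Lib.MP_1bbd88_ag.Q.NS.NB

set_option autoImplicit false

namespace Pool.Agent.Lib.MP_1bbd88_ag.Q

open Module

variable {K : Type*} [Field K] {V : Type*} [AddCommGroup V] [Module K V] {H : Type*} [Group H]
  {ρ : H →* Module.End K V}

/-- `M` is the matrix of `ρ g` on the plane spanned by `v` and `w` -/
def EMB_mat (ρ : H →* Module.End K V) (v w : V) (g : H) (M : Matrix (Fin 2) (Fin 2) K) : Prop :=
  ρ g v = M 0 0 • v + M 1 0 • w ∧ ρ g w = M 0 1 • v + M 1 1 • w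

theorem EMB_one (v w : V) : EMB_mat ρ v w 1 1 := by
  constructor <;> simp

theorem EMB_mul {v w : V} {g h : H} {M N : Matrix (Fin 2) (Fin 2) K} (hM : EMB_mat ρ v w g M)
    (hN : EMB_mat ρ v w h N) : EMB_mat ρ v w (g * h) (M * N) := by
  obtain ⟨m1, m2⟩ := hM
  obtain ⟨n1, n2⟩ := hN
  constructor
  · rw [map_mul, Module.End.mul_apply, n1, map_add, map_smul, map_smul, m1, m2,
      Matrix.mul_apply, Matrix.mul_apply, Fin.sum_univ_two, Fin.sum_univ_two]
    module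
  · rw [map_mul, Module.End.mul_apply, n2, map_add, map_smul, map_smul, m1, m2,
      Matrix.mul_apply, Matrix.mul_apply, Fin.sum_univ_two, Fin.sum_univ_two]
    module

theorem EMB_inv {v w : V} {g : H} {M : Matrix (Fin 2) (Fin 2) K} (hM : EMB_mat ρ v w g M)
    (hd : M.det = 1) : EMB_mat ρ v w g⁻¹ !![M 1 1, -M 0 1; -M 1 0, M 0 0] := by
  obtain ⟨m1, m2⟩ := hM
  have hdet : M 0 0 * M 1 1 - M 0 1 * M 1 0 = 1 := by rw [← Matrix.det_fin_two, hd]
  have hinv : ∀ x : V, ρ g⁻¹ (ρ g x) = x := by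
    intro x
    rw [← Module.End.mul_apply, ← map_mul, inv_mul_cancel, map_one, Module.End.one_apply]
  have e1 : ρ g (M 1 1 • v - M 1 0 • w) = v := by
    rw [map_sub, map_smul, map_smul, m1, m2]
    have : M 1 1 • (M 0 0 • v + M 1 0 • w) - M 1 0 • (M 0 1 • v + M 1 1 • w) =
        (M 0 0 * M 1 1 - M 0 1 * M 1 0) • v := by module
    rw [this, hdet, one_smul]
  have e2 : ρ g (-(M 0 1 • v) + M 0 0 • w) = w := by
    rw [map_add, map_neg, map_smul, map_smul, m1, m2]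
    have : -(M 0 1 • (M 0 0 • v + M 1 0 • w)) + M 0 0 • (M 0 1 • v + M 1 1 • w) =
        (M 0 0 * M 1 1 - M 0 1 * M 1 0) • w := by module
    rw [this, hdet, one_smul]
  constructor
  · conv_lhs => rw [← e1]
    rw [hinv]
    simp [sub_eq_add_neg]
  · conv_lhs => rw [← e2]
    rw [hinv]
    simp

theorem EMB_unique {v w : V} (hvw : LinearIndependent K ![v, w]) {g : H}
    {M N : Matrix (Fin 2) (Fin 2) K} (hM : EMB_mat ρ v w g M) (hN : EMB_mat ρ v w g N) :
    M = N := by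
  rw [LinearIndependent.pair_iff] at hvw
  obtain ⟨m1, m2⟩ := hM
  obtain ⟨n1, n2⟩ := hN
  have a := hvw (M 0 0 - N 0 0) (M 1 0 - N 1 0) (by
    have : (M 0 0 - N 0 0) • v + (M 1 0 - N 1 0) • w =
      (M 0 0 • v + M 1 0 • w) - (N 0 0 • v + N 1 0 • w) := by module
    rw [this, ← m1, ← n1, sub_self])
  have b := hvw (M 0 1 - N 0 1) (M 1 1 - N 1 1) (by
    have : (M 0 1 - N 0 1) • v + (M 1 1 - N 1 1) • w =
      (M 0 1 • v + M 1 1 • w) - (N 0 1 • v + N 1 1 • w) := by module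
    rw [this, ← m2, ← n2, sub_self])
  ext i j
  fin_cases i <;> fin_cases j
  · exact sub_eq_zero.mp a.1
  · exact sub_eq_zero.mp b.1
  · exact sub_eq_zero.mp a.2
  · exact sub_eq_zero.mp b.2

theorem EMB_exists (S : Set H) (v w : V)
    (hS : ∀ s ∈ S, ∃ M : Matrix (Fin 2) (Fin 2) K, M.det = 1 ∧
      ρ s v = M 0 0 • v + M 1 0 • w ∧ ρ s w = M 0 1 • v + M 1 1 • w) (g : H)
    (hg : g ∈ Subgroup.closure S) : ∃ M : Matrix (Fin 2) (Fin 2) K, M.det = 1 ∧
      EMB_mat ρ v w g M := by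
  induction hg using Subgroup.closure_induction with
  | mem x hx => exact hS x hx
  | one => exact ⟨1, Matrix.det_one, EMB_one v w⟩
  | mul x y _ _ hx hy =>
    obtain ⟨M, hM, hM'⟩ := hx
    obtain ⟨N, hN, hN'⟩ := hy
    exact ⟨M * N, by rw [Matrix.det_mul, hM, hN, one_mul], EMB_mul hM' hN'⟩
  | inv x _ hx =>
    obtain ⟨M, hM, hM'⟩ := hx
    refine ⟨_, ?_, EMB_inv hM' hM⟩
    rw [Matrix.det_fin_two] at hM
    rw [Matrix.det_fin_two]
    simp only [Matrix.of_apply, Matrix.cons_val', Matrix.cons_val_zero, Matrix.cons_val_one,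
      Matrix.cons_val_fin_one]
    rw [← hM]
    ring

/-- ROW 1bbd-EMB -/
theorem EMB (hρ : FR ρ) (S : Set H) (v w : V) (hvw : LinearIndependent K ![v, w])
    (hS : ∀ s ∈ S, ∃ M : Matrix (Fin 2) (Fin 2) K, M.det = 1 ∧
      ρ s v = M 0 0 • v + M 1 0 • w ∧ ρ s w = M 0 1 • v + M 1 1 • w) :
    ∃ φ : Subgroup.closure S →* Matrix.SpecialLinearGroup (Fin 2) K, Function.Injective φ ∧
      ∀ g : Subgroup.closure S,
        ρ g v = (φ g).1 0 0 • v + (φ g).1 1 0 • w ∧ ρ g w = (φ g).1 0 1 • v + (φ g).1 1 1 • w := by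
  have hex : ∀ g : Subgroup.closure S, ∃ M : Matrix (Fin 2) (Fin 2) K, M.det = 1 ∧
      EMB_mat ρ v w (g : H) M := fun g => EMB_exists S v w hS g g.2
  choose m hm1 hm2 using hex
  let φ : Subgroup.closure S →* Matrix.SpecialLinearGroup (Fin 2) K :=
    MonoidHom.mk' (fun g => ⟨m g, hm1 g⟩) (fun g h => by
      apply Subtype.ext
      exact EMB_unique hvw (hm2 (g * h)) (EMB_mul (hm2 g) (hm2 h)))
  refine ⟨φ, ?_, fun g => hm2 g⟩
  rw [injective_iff_map_eq_one]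
  intro g hg
  have h1 : m g = 1 := congrArg Subtype.val hg
  have h2 := (hm2 g).1
  rw [h1] at h2
  simp only [Matrix.one_apply_eq, one_smul, ne_eq, one_ne_zero, not_false_eq_true,
    Matrix.one_apply_ne, zero_smul, add_zero] at h2
  by_contra hne
  have hv : v ≠ 0 := hvw.ne_zero 0
  refine hv (hρ.free (g : H) ?_ v h2)
  intro h3
  exact hne (Subtype.ext h3)

end Pool.Agent.Lib.MP_1bbd88_ag.Q
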