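import Pool.Agent.Lib.MP_1bbd88_ag.Q.NS.NDefs

set_option autoImplicit false

namespace Pool.Agent.Lib.MP_1bbd88_ag.Q

open Module

/-! ROW 1bbd-FS : orthogonal idempotents and square roots of a central involution -/

theorem FS_le_one {K A : Type*} [Field K] [Ring A] [Algebra K A] (e f : A)
    (hpe : ∀ y : A, ∃ c : K, e * y * e = c • e)
    (hpf : ∀ y : A, ∃ c : K, f * y * f = c • f)
    (hsemi : ∀ y : A, y ≠ 0 → ∃ a : A, y * a * y ≠ 0) :
    ∃ v : A, ∀ y : A, ∃ c : K, c • v = e * y * f := by
  by_cases h : ∃ y : A, e * y * f ≠ 0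
  · obtain ⟨y0, h0⟩ := h
    obtain ⟨a, ha⟩ := hsemi _ h0
    refine ⟨e * y0 * f, fun y => ?_⟩
    obtain ⟨c, hc⟩ := hpe (y0 * f * a)
    obtain ⟨d, hd⟩ := hpf (a * e * y)
    -- y1 * a * y1 = c • (e * y0 * f)
    have h1 : e * y0 * f * a * (e * y0 * f) = c • (e * y0 * f) := by
      calc e * y0 * f * a * (e * y0 * f) = (e * (y0 * f * a) * e) * (y0 * f) := by
            simp only [mul_assoc]
        _ = (c • e) * (y0 * f) := by rw [hc]
        _ = c • (e * y0 * f) := by rw [smul_mul_assoc, mul_assoc]
    have hc0 : c ≠ 0 := by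
      rintro rfl
      rw [zero_smul] at h1
      exact ha h1
    have h2 : c • (e * y * f) = d • (e * y0 * f) := by
      calc c • (e * y * f) = (c • e) * (y * f) := by rw [smul_mul_assoc, mul_assoc]
        _ = (e * (y0 * f * a) * e) * (y * f) := by rw [hc]
        _ = e * y0 * (f * (a * e * y) * f) := by simp only [mul_assoc]
        _ = e * y0 * (d • f) := by rw [hd]
        _ = d • (e * y0 * f) := by rw [mul_smul_comm]
    refine ⟨c⁻¹ * d, ?_⟩
    rw [mul_smul, ← h2, smul_smul, inv_mul_cancel₀ hc0, one_smul]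
  · push Not at h
    exact ⟨0, fun y => ⟨0, by rw [h y, smul_zero]⟩⟩

theorem FS_core {K A ι : Type*} [Field K] [Infinite K] [Ring A] [Algebra K A]
    [FiniteDimensional K A] [Fintype ι] [DecidableEq ι] (e : ι → A)
    (horth : ∀ i j, i ≠ j → e i * e j = 0) (hsum : ∑ i, e i = 1)
    (hprim : ∀ i, ∀ y : A, ∃ c : K, e i * y * e i = c • e i)
    (hsemi : ∀ y : A, y ≠ 0 → ∃ a : A, y * a * y ≠ 0)
    (τ : A →ₗ[K] A) (hτ : ∀ x y, τ (x * y) = τ y * τ x) (hτ1 : τ 1 = 1)
    (hττ : ∀ x, τ (τ x) = x) (ζ : A) (hζc : ∀ x, ζ * x = x * ζ) :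
    finrank K (LinearMap.ker (LinearMap.mulLeft K ζ ∘ₗ τ - LinearMap.id)) ≤
      finrank K (LinearMap.ker (LinearMap.mulLeft K ζ ∘ₗ τ + LinearMap.id)) +
        Fintype.card ι := by
  have hidem : ∀ i, e i * e i = e i := by
    intro i
    have h1 : e i * ∑ j, e j = e i := by rw [hsum, mul_one]
    rw [Finset.mul_sum, Finset.sum_eq_single i] at h1
    · exact h1
    · intro j _ hj
      exact horth i j (Ne.symm hj)
    · intro h
      exact absurd (Finset.mem_univ i) h
  -- distinct scalars
  let lam : ι → K := fun i => Infinite.natEmbedding K ((Fintype.equivFin ι i : ℕ))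
  have hlam : ∀ i j, lam i = lam j → i = j := by
    intro i j h
    have h1 := (Infinite.natEmbedding K).injective h
    have h2 := Fin.val_injective h1
    exact (Fintype.equivFin ι).injective h2
  let x : A := ∑ i, lam i • e i
  have hex : ∀ a, e a * x = lam a • e a := by
    intro a
    show e a * ∑ i, lam i • e i = _
    rw [Finset.mul_sum, Finset.sum_eq_single a]
    · rw [mul_smul_comm, hidem]
    · intro j _ hj
      rw [mul_smul_comm, horth a j (Ne.symm hj), smul_zero]
    · intro h
      exact absurd (Finset.mem_univ a) h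
  have hxe : ∀ a, e a * x = x * e a := by
    intro a
    rw [hex]
    show _ = (∑ i, lam i • e i) * e a
    rw [Finset.sum_mul, Finset.sum_eq_single a]
    · rw [smul_mul_assoc, hidem]
    · intro j _ hj
      rw [smul_mul_assoc, horth j a hj, smul_zero]
    · intro h
      exact absurd (Finset.mem_univ a) h
  have htx : ∀ b, τ x * τ (e b) = lam b • τ (e b) := by
    intro b
    rw [← hτ, hex, map_smul]
  let L : A →ₗ[K] A := LinearMap.mulLeft K x - LinearMap.mulRight K (τ x)
  have hL : ∀ y, L y = x * y - y * τ x := fun y => rfl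
  set Θ : A →ₗ[K] A := LinearMap.mulLeft K ζ ∘ₗ τ with hΘ
  have hΘa : ∀ y, Θ y = ζ * τ y := fun y => rfl
  -- L maps the fixed space to the anti-fixed space
  have hmap : ∀ y : LinearMap.ker (Θ - LinearMap.id), L y ∈ LinearMap.ker (Θ + LinearMap.id) := by
    rintro ⟨y, hy⟩
    rw [LinearMap.mem_ker, LinearMap.sub_apply, LinearMap.id_apply, sub_eq_zero, hΘa] at hy
    rw [LinearMap.mem_ker, LinearMap.add_apply, LinearMap.id_apply, hΘa]
    show ζ * τ (L y) + L y = 0
    rw [hL, map_sub, hτ, hτ, hττ, mul_sub]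
    have h1 : ζ * (τ y * τ x) = y * τ x := by rw [← mul_assoc, hy]
    have h2 : ζ * (x * τ y) = x * y := by rw [← mul_assoc, hζc, mul_assoc, hy]
    rw [h1, h2]
    abel
  let L' : LinearMap.ker (Θ - LinearMap.id) →ₗ[K] LinearMap.ker (Θ + LinearMap.id) :=
    (L.comp (Submodule.subtype _)).codRestrict _ hmap
  have hL' : ∀ y, ((L' y : LinearMap.ker (Θ + LinearMap.id)) : A) = L (y : A) := fun y => rfl
  have hrn := LinearMap.finrank_range_add_finrank_ker L'
  have hr : finrank K (LinearMap.range L') ≤ finrank K (LinearMap.ker (Θ + LinearMap.id)) :=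
    Submodule.finrank_le _
  -- kernel of L
  have hk1 : finrank K (LinearMap.ker L') ≤ finrank K (LinearMap.ker L) := by
    let J : LinearMap.ker L' →ₗ[K] LinearMap.ker L :=
      ((Submodule.subtype _).comp (Submodule.subtype _)).codRestrict _ (by
        rintro ⟨y, hy⟩
        rw [LinearMap.mem_ker] at hy ⊢
        have := congrArg Subtype.val hy
        exact this)
    refine LinearMap.finrank_le_finrank_of_injective (f := J) ?_
    intro y y' h
    apply Subtype.ext
    apply Subtype.ext
    exact congrArg (fun w : LinearMap.ker L => (w : A)) h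
  have hf : ∀ i, ∀ y : A, ∃ c : K, τ (e i) * y * τ (e i) = c • τ (e i) := by
    intro i y
    obtain ⟨c, hc⟩ := hprim i (τ y)
    refine ⟨c, ?_⟩
    have := congrArg τ hc
    rw [hτ, hτ, hττ, map_smul, ← mul_assoc] at this
    exact this
  have hv : ∀ i, ∃ v : A, ∀ y : A, ∃ c : K, c • v = e i * y * τ (e i) := fun i =>
    FS_le_one (e i) (τ (e i)) (hprim i) (hf i) hsemi
  choose v hv using hv
  have hk2 : finrank K (LinearMap.ker L) ≤ Fintype.card ι := by
    have hspan : LinearMap.ker L ≤ Submodule.span K (Set.range v) := by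
      intro y hy
      rw [LinearMap.mem_ker, hL, sub_eq_zero] at hy
      have hoff : ∀ a b, a ≠ b → e a * y * τ (e b) = 0 := by
        intro a b hab
        have h1 : lam a • (e a * y * τ (e b)) = lam b • (e a * y * τ (e b)) := by
          calc lam a • (e a * y * τ (e b)) = (lam a • e a) * y * τ (e b) := by
                rw [smul_mul_assoc, smul_mul_assoc]
            _ = e a * (x * y) * τ (e b) := by rw [← hex, mul_assoc (e a) x y]
            _ = e a * (y * τ x) * τ (e b) := by rw [hy]
            _ = e a * y * (τ x * τ (e b)) := by simp only [mul_assoc]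
            _ = lam b • (e a * y * τ (e b)) := by rw [htx, mul_smul_comm]
        have h2 : (lam a - lam b) • (e a * y * τ (e b)) = 0 := by
          rw [sub_smul, h1, sub_self]
        rcases smul_eq_zero.mp h2 with h3 | h3
        · exact absurd (hlam a b (sub_eq_zero.mp h3)) hab
        · exact h3
      have hτs : ∑ b, τ (e b) = 1 := by rw [← map_sum, hsum, hτ1]
      have hdec : y = ∑ a, e a * y * τ (e a) := by
        calc y = (∑ a, e a) * y * (∑ b, τ (e b)) := by rw [hsum, hτs, one_mul, mul_one]
          _ = ∑ a, ∑ b, e a * y * τ (e b) := by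
              rw [Finset.sum_mul, Finset.sum_mul]
              refine Finset.sum_congr rfl fun a _ => ?_
              rw [Finset.mul_sum]
          _ = ∑ a, e a * y * τ (e a) := by
              refine Finset.sum_congr rfl fun a _ => ?_
              rw [Finset.sum_eq_single a]
              · intro b _ hb
                exact hoff a b (Ne.symm hb)
              · intro h
                exact absurd (Finset.mem_univ a) h
      rw [hdec]
      refine Submodule.sum_mem _ fun a _ => ?_
      obtain ⟨c, hc⟩ := hv a y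
      rw [← hc]
      exact Submodule.smul_mem _ _ (Submodule.subset_span ⟨a, rfl⟩)
    calc finrank K (LinearMap.ker L) ≤ finrank K (Submodule.span K (Set.range v)) :=
          Submodule.finrank_mono hspan
      _ ≤ Fintype.card ι := finrank_range_le_card v
  omega

theorem FS_pi {K A : Type*} [Field K] [Ring A] [Algebra K A] {n : ℕ} (s : Fin n → ℕ)
    (φ : A ≃ₐ[K] ((i : Fin n) → Matrix (Fin (s i)) (Fin (s i)) K)) :
    ∃ e : (Σ i : Fin n, Fin (s i)) → A, (∀ p, e p ≠ 0) ∧ (∀ p q, p ≠ q → e p * e q = 0) ∧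
      ∑ p, e p = 1 ∧ (∀ p, ∀ y : A, ∃ c : K, e p * y * e p = c • e p) ∧
      ∀ y : A, y ≠ 0 → ∃ a : A, y * a * y ≠ 0 := by
  classical
  let E : (Σ i : Fin n, Fin (s i)) → ((i : Fin n) → Matrix (Fin (s i)) (Fin (s i)) K) :=
    fun p => Pi.single p.1 (Matrix.single p.2 p.2 1)
  have hE : ∀ p, E p = Pi.single p.1 (Matrix.single p.2 p.2 1) := fun p => rfl
  have hE1 : ∀ p, E p p.1 = Matrix.single p.2 p.2 1 := fun p => by rw [hE, Pi.single_eq_same]
  have hE2 : ∀ p i, i ≠ p.1 → E p i = 0 := fun p i h => by rw [hE, Pi.single_eq_of_ne h]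
  have hEne : ∀ p, E p ≠ 0 := by
    intro p h
    have h1 := congrFun h p.1
    rw [hE1] at h1
    have h2 := congrFun (congrFun h1 p.2) p.2
    simp at h2
  have hEorth : ∀ p q, p ≠ q → E p * E q = 0 := by
    rintro ⟨i, j⟩ ⟨i', j'⟩ hne
    funext k
    show E ⟨i, j⟩ k * E ⟨i', j'⟩ k = 0
    by_cases h : k = i
    · by_cases h' : k = i'
      · subst h
        subst h'
        rw [hE1 ⟨k, j⟩, hE1 ⟨k, j'⟩]
        have hj : j ≠ j' := fun hj => hne (by rw [hj])
        exact Matrix.single_mul_single_of_ne _ _ _ _ hj _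
      · rw [hE2 ⟨i', j'⟩ k h', mul_zero]
    · rw [hE2 ⟨i, j⟩ k h, zero_mul]
  have hEsum : ∑ p, E p = 1 := by
    funext k
    rw [Finset.sum_apply, Fintype.sum_sigma, Finset.sum_eq_single k]
    · have : ∀ j : Fin (s k), E ⟨k, j⟩ k = Matrix.single j j 1 := fun j => hE1 ⟨k, j⟩
      simp only [this]
      ext a b
      rw [Matrix.sum_apply]
      show _ = (1 : Matrix (Fin (s k)) (Fin (s k)) K) a b
      simp only [Matrix.single_apply, Matrix.one_apply]
      rw [Finset.sum_eq_single a]
      · simp
      · intro c _ hc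
        simp [hc]
      · intro h
        exact absurd (Finset.mem_univ a) h
    · intro i _ hi
      refine Finset.sum_eq_zero fun j _ => ?_
      exact hE2 ⟨i, j⟩ k (Ne.symm hi)
    · intro h
      exact absurd (Finset.mem_univ k) h
  have hEprim : ∀ p, ∀ y, ∃ c : K, E p * y * E p = c • E p := by
    rintro ⟨i, j⟩ y
    refine ⟨y i j j, ?_⟩
    funext k
    show E ⟨i, j⟩ k * y k * E ⟨i, j⟩ k = y i j j • E ⟨i, j⟩ k
    by_cases h : k = i
    · subst h
      rw [hE1 ⟨k, j⟩]
      ext a b
      simp only [Matrix.mul_apply, Matrix.smul_apply, Matrix.single_apply, smul_eq_mul]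
      by_cases ha : j = a
      · by_cases hb : j = b
        · subst ha
          subst hb
          simp
        · simp [hb]
      · simp [ha]
    · rw [hE2 ⟨i, j⟩ k h, zero_mul, zero_mul, smul_zero]
  have hEsemi : ∀ y : ((i : Fin n) → Matrix (Fin (s i)) (Fin (s i)) K), y ≠ 0 →
      ∃ a, y * a * y ≠ 0 := by
    intro y hy
    have h1 : ∃ i, y i ≠ 0 := by
      by_contra h
      push Not at h
      exact hy (funext h)
    obtain ⟨i, hi⟩ := h1
    have h2 : ∃ p q, y i p q ≠ 0 := by
      by_contra h
      push Not at h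
      exact hi (Matrix.ext h)
    obtain ⟨p, q, hpq⟩ := h2
    refine ⟨Pi.single i (Matrix.single q p 1), fun h => ?_⟩
    have h3 := congrFun h i
    have h4 : y i * (Pi.single i (Matrix.single q p 1) :
      (i : Fin n) → Matrix (Fin (s i)) (Fin (s i)) K) i * y i = 0 := h3
    rw [Pi.single_eq_same] at h4
    have h5 := congrFun (congrFun h4 p) q
    have h6 : (y i * Matrix.single q p (1 : K) * y i : Matrix (Fin (s i)) (Fin (s i)) K) p q =
        y i p q * y i p q := by
      rw [mul_assoc, Matrix.mul_apply, Finset.sum_eq_single q]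
      · congr 1
        rw [Matrix.mul_apply, Finset.sum_eq_single p]
        · simp
        · intro c _ hc
          simp [Ne.symm hc]
        · intro h
          exact absurd (Finset.mem_univ p) h
      · intro c _ hc
        have : (Matrix.single q p (1 : K) * y i) c q = 0 := by
          rw [Matrix.mul_apply]
          refine Finset.sum_eq_zero fun d _ => ?_
          simp [Ne.symm hc]
        rw [this, mul_zero]
      · intro h
        exact absurd (Finset.mem_univ q) h
    rw [h6] at h5
    exact hpq (mul_self_eq_zero.mp h5)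
  refine ⟨fun p => φ.symm (E p), ?_, ?_, ?_, ?_, ?_⟩
  · intro p h
    have h' : φ.symm (E p) = 0 := h
    exact hEne p (by rw [← φ.apply_symm_apply (E p), h', map_zero])
  · intro p q h
    rw [← map_mul, hEorth p q h, map_zero]
  · rw [← map_sum, hEsum, map_one]
  · intro p y
    obtain ⟨c, hc⟩ := hEprim p (φ y)
    refine ⟨c, ?_⟩
    apply φ.injective
    rw [map_mul, map_mul, φ.apply_symm_apply, map_smul, φ.apply_symm_apply]
    exact hc
  · intro y hy
    obtain ⟨a, ha⟩ := hEsemi (φ y) (fun h => hy (by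
      apply φ.injective
      rw [h, map_zero]))
    refine ⟨φ.symm a, fun h => ha ?_⟩
    have := congrArg φ h
    rw [map_mul, map_mul, φ.apply_symm_apply, map_zero] at this
    exact this

/-- an anti-automorphism of order two of a product of matrix algebras: the difference of the
dimensions of its eigenspaces is at most the sum of the sizes -/
theorem FS_block {K : Type*} [Field K] [IsAlgClosed K] (h2 : (2 : K) ≠ 0) {n : ℕ} (s : Fin n → ℕ)
    (hs : ∀ i, NeZero (s i))
    (τ : ((i : Fin n) → Matrix (Fin (s i)) (Fin (s i)) K) →ₗ[K]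
      ((i : Fin n) → Matrix (Fin (s i)) (Fin (s i)) K))
    (hτ : ∀ x y, τ (x * y) = τ y * τ x) (hτ1 : τ 1 = 1) (hττ : ∀ x, τ (τ x) = x)
    (ζ : (i : Fin n) → Matrix (Fin (s i)) (Fin (s i)) K) (hζ : ζ * ζ = 1)
    (hζc : ∀ x, ζ * x = x * ζ) (hτζ : τ ζ = ζ) :
    finrank K (LinearMap.ker (LinearMap.mulLeft K ζ ∘ₗ τ - LinearMap.id)) ≤
      finrank K (LinearMap.ker (LinearMap.mulLeft K ζ ∘ₗ τ + LinearMap.id)) + ∑ i, s i := by
  classical
  have : Infinite K := IsAlgClosed.instInfinite
  obtain ⟨e, _, h2', h3, h4, h5⟩ := FS_pi s (AlgEquiv.refl (R := K)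
    (A₁ := (i : Fin n) → Matrix (Fin (s i)) (Fin (s i)) K))
  have h := FS_core e h2' h3 h4 h5 τ hτ hτ1 hττ ζ hζc
  rwa [Fintype.card_sigma, Finset.sum_congr rfl fun i _ => Fintype.card_fin (s i)] at h

/-- the linear extension of the inversion -/
noncomputable def FS_tau (K F : Type*) [Field K] [Group F] :
    MonoidAlgebra K F →ₗ[K] MonoidAlgebra K F where
  toFun := MonoidAlgebra.mapDomain (fun g => g⁻¹)
  map_add' := MonoidAlgebra.mapDomain_add _
  map_smul' := fun c x => MonoidAlgebra.mapDomain_smul _ _ _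

theorem FS_tau_coeff {K F : Type*} [Field K] [Group F] (x : MonoidAlgebra K F) (g : F) :
    (FS_tau K F x).coeff g = x.coeff g⁻¹ := by
  show (Finsupp.mapDomain (fun g => g⁻¹) x.coeff) g = _
  have := Finsupp.mapDomain_apply (f := fun g : F => g⁻¹) inv_injective x.coeff g⁻¹
  simpa using this

theorem FS_tau_single {K F : Type*} [Field K] [Group F] (g : F) (c : K) :
    FS_tau K F (MonoidAlgebra.single g c) = MonoidAlgebra.single g⁻¹ c :=
  MonoidAlgebra.mapDomain_single

theorem FS_tau_tau {K F : Type*} [Field K] [Group F] (x : MonoidAlgebra K F) :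
    FS_tau K F (FS_tau K F x) = x := by
  ext g
  rw [FS_tau_coeff, FS_tau_coeff, inv_inv]

theorem FS_tau_mul {K F : Type*} [Field K] [Group F] (x y : MonoidAlgebra K F) :
    FS_tau K F (x * y) = FS_tau K F y * FS_tau K F x := by
  induction x using MonoidAlgebra.induction_linear with
  | zero => simp only [zero_mul, map_zero, mul_zero]
  | add f g hf hg => rw [add_mul, map_add, map_add, mul_add, hf, hg]
  | single a r =>
    induction y using MonoidAlgebra.induction_linear with
    | zero => simp only [zero_mul, map_zero, mul_zero]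
    | add f g hf hg => rw [mul_add, map_add, map_add, add_mul, hf, hg]
    | single b s =>
      rw [MonoidAlgebra.single_mul_single, FS_tau_single, FS_tau_single, FS_tau_single,
        MonoidAlgebra.single_mul_single, mul_inv_rev, mul_comm]

/-- the element of the group algebra with given coefficients -/
noncomputable def FS_mk {K F : Type*} [Field K] [Finite F] (f : F → K) : MonoidAlgebra K F :=
  MonoidAlgebra.ofCoeff (Finsupp.equivFunOnFinite.symm f)

theorem FS_mk_coeff {K F : Type*} [Field K] [Finite F] (f : F → K) (g : F) :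
    (FS_mk f).coeff g = f g := rfl

theorem FS_theta {K F : Type*} [Field K] [Group F] {z : F} (hz : z * z = 1)
    (x : MonoidAlgebra K F) (g : F) :
    ((LinearMap.mulLeft K (MonoidAlgebra.single z (1 : K)) ∘ₗ FS_tau K F) x).coeff g =
      x.coeff (g⁻¹ * z) := by
  show ((MonoidAlgebra.single z (1 : K)) * FS_tau K F x).coeff g = _
  rw [MonoidAlgebra.coeff_single_mul_apply, FS_tau_coeff, one_mul, mul_inv_rev, inv_inv]

theorem FS_count {K F : Type*} [Field K] [Group F] [Finite F] (h2 : (2 : K) ≠ 0) {z : F}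
    (hz : z * z = 1) (hzc : ∀ g : F, g * z = z * g) :
    finrank K (LinearMap.ker (LinearMap.mulLeft K (MonoidAlgebra.single z (1 : K)) ∘ₗ
      FS_tau K F + LinearMap.id)) + Nat.card {g : F // g * g = z} ≤
    finrank K (LinearMap.ker (LinearMap.mulLeft K (MonoidAlgebra.single z (1 : K)) ∘ₗ
      FS_tau K F - LinearMap.id)) := by
  classical
  have := Fintype.ofFinite F
  let ord : F → ℕ := fun g => (Fintype.equivFin F g : ℕ)
  have hord : Function.Injective ord := fun a b h =>
    (Fintype.equivFin F).injective (Fin.val_injective h)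
  have hσσ : ∀ g : F, (g⁻¹ * z)⁻¹ * z = g := by
    intro g
    have : z⁻¹ = z := inv_eq_of_mul_eq_one_left hz
    rw [mul_inv_rev, inv_inv, this, ← hzc g, mul_assoc, hz, mul_one]
  have hσf : ∀ g : F, g * g = z ↔ g⁻¹ * z = g := by
    intro g
    constructor
    · intro h
      rw [← h, inv_mul_cancel_left]
    · intro h
      rw [inv_mul_eq_iff_eq_mul] at h
      exact h.symm
  set Θ : MonoidAlgebra K F →ₗ[K] MonoidAlgebra K F :=
    LinearMap.mulLeft K (MonoidAlgebra.single z (1 : K)) ∘ₗ FS_tau K F with hΘ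
  have hΘc : ∀ x g, (Θ x).coeff g = x.coeff (g⁻¹ * z) := fun x g => FS_theta hz x g
  let G : MonoidAlgebra K F → ({g : F // g * g = z} → K) → F → K := fun x c g =>
    if h : g * g = z then c ⟨g, h⟩ else if ord g < ord (g⁻¹ * z) then x.coeff g
      else x.coeff (g⁻¹ * z)
  have hG1 : ∀ x c g (h : g * g = z), G x c g = c ⟨g, h⟩ := fun x c g h => dif_pos h
  have hG2 : ∀ x c g, ¬ g * g = z → ord g < ord (g⁻¹ * z) → G x c g = x.coeff g := by
    intro x c g h h'
    show (if h : g * g = z then c ⟨g, h⟩ else if ord g < ord (g⁻¹ * z) then x.coeff g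
      else x.coeff (g⁻¹ * z)) = _
    rw [dif_neg h, if_pos h']
  have hG3 : ∀ x c g, ¬ g * g = z → ¬ ord g < ord (g⁻¹ * z) → G x c g = x.coeff (g⁻¹ * z) := by
    intro x c g h h'
    show (if h : g * g = z then c ⟨g, h⟩ else if ord g < ord (g⁻¹ * z) then x.coeff g
      else x.coeff (g⁻¹ * z)) = _
    rw [dif_neg h, if_neg h']
  have hsym : ∀ x c g, G x c (g⁻¹ * z) = G x c g := by
    intro x c g
    by_cases h : g * g = z
    · rw [(hσf g).mp h]
    · have h' : ¬ (g⁻¹ * z) * (g⁻¹ * z) = z := by
        intro h'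
        rw [hσf, hσσ] at h'
        exact h ((hσf g).mpr h'.symm)
      have hne : ord g ≠ ord (g⁻¹ * z) := fun he => h ((hσf g).mpr (hord he).symm)
      by_cases hl : ord g < ord (g⁻¹ * z)
      · rw [hG2 x c g h hl, hG3 x c (g⁻¹ * z) h' (by rw [hσσ]; omega), hσσ]
      · rw [hG3 x c g h hl, hG2 x c (g⁻¹ * z) h' (by rw [hσσ]; omega)]
  have hker : ∀ x c, FS_mk (G x c) ∈ LinearMap.ker (Θ - LinearMap.id) := by
    intro x c
    rw [LinearMap.mem_ker, LinearMap.sub_apply, LinearMap.id_apply, sub_eq_zero]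
    ext g
    rw [hΘc, FS_mk_coeff, FS_mk_coeff, hsym]
  let Ψ : (LinearMap.ker (Θ + LinearMap.id) × ({g : F // g * g = z} → K)) →ₗ[K]
      LinearMap.ker (Θ - LinearMap.id) :=
    { toFun := fun p => ⟨FS_mk (G (p.1 : MonoidAlgebra K F) p.2), hker _ _⟩
      map_add' := by
        rintro ⟨x, c⟩ ⟨y, d⟩
        apply Subtype.ext
        ext g
        show G ((x : MonoidAlgebra K F) + y) (c + d) g =
          (FS_mk (G (x : MonoidAlgebra K F) c) + FS_mk (G (y : MonoidAlgebra K F) d)).coeff g
        rw [MonoidAlgebra.coeff_add, Finsupp.add_apply, FS_mk_coeff, FS_mk_coeff]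
        by_cases h : g * g = z
        · rw [hG1 _ _ g h, hG1 _ _ g h, hG1 _ _ g h]
          rfl
        · by_cases hl : ord g < ord (g⁻¹ * z)
          · rw [hG2 _ _ g h hl, hG2 _ _ g h hl, hG2 _ _ g h hl, MonoidAlgebra.coeff_add,
              Finsupp.add_apply]
          · rw [hG3 _ _ g h hl, hG3 _ _ g h hl, hG3 _ _ g h hl, MonoidAlgebra.coeff_add,
              Finsupp.add_apply]
      map_smul' := by
        rintro a ⟨x, c⟩
        apply Subtype.ext
        ext g
        show G (a • (x : MonoidAlgebra K F)) (a • c) g =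
          (a • FS_mk (G (x : MonoidAlgebra K F) c)).coeff g
        rw [MonoidAlgebra.coeff_smul, Finsupp.smul_apply, FS_mk_coeff]
        by_cases h : g * g = z
        · rw [hG1 _ _ g h, hG1 _ _ g h]
          rfl
        · by_cases hl : ord g < ord (g⁻¹ * z)
          · rw [hG2 _ _ g h hl, hG2 _ _ g h hl, MonoidAlgebra.coeff_smul, Finsupp.smul_apply]
          · rw [hG3 _ _ g h hl, hG3 _ _ g h hl, MonoidAlgebra.coeff_smul, Finsupp.smul_apply] }
  have hΨ : Function.Injective Ψ := by
    rw [← LinearMap.ker_eq_bot, LinearMap.ker_eq_bot']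
    rintro ⟨⟨x, hx⟩, c⟩ h
    have h0 : ∀ g, G x c g = 0 := by
      intro g
      have h1 := congrArg Subtype.val h
      have h2 := congrArg (fun w : MonoidAlgebra K F => w.coeff g) h1
      exact h2
    have hx' : ∀ g, x.coeff (g⁻¹ * z) = - x.coeff g := by
      intro g
      rw [LinearMap.mem_ker, LinearMap.add_apply, LinearMap.id_apply] at hx
      have h1 := congrArg (fun w : MonoidAlgebra K F => w.coeff g) hx
      have h2 : (Θ x + x).coeff g = 0 := h1
      rw [MonoidAlgebra.coeff_add, Finsupp.add_apply, hΘc] at h2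
      exact eq_neg_of_add_eq_zero_left h2
    have hx0 : x = 0 := by
      ext g
      show x.coeff g = 0
      by_cases hg : g * g = z
      · have h1 := hx' g
        rw [(hσf g).mp hg] at h1
        have h3 : (2 : K) * x.coeff g = 0 := by
          rw [two_mul]
          nth_rewrite 1 [h1]
          exact neg_add_cancel _
        exact (mul_eq_zero.mp h3).resolve_left h2
      · by_cases hl : ord g < ord (g⁻¹ * z)
        · rw [← hG2 x c g hg hl]
          exact h0 g
        · have h1 := h0 g
          rw [hG3 x c g hg hl, hx'] at h1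
          exact neg_eq_zero.mp h1
    have hc0 : c = 0 := by
      funext g
      have h1 := h0 g.1
      rw [hG1 x c g.1 g.2] at h1
      exact h1
    subst hx0
    subst hc0
    rfl
  have hfin := LinearMap.finrank_le_finrank_of_injective hΨ
  rw [finrank_prod, finrank_fintype_fun_eq_card, ← Nat.card_eq_fintype_card] at hfin
  exact hfin

theorem FS {K : Type*} [Field K] [IsAlgClosed K] {F : Type*} [Group F] [Finite F]
    (hF : (Nat.card F : K) ≠ 0) (h2 : (2 : K) ≠ 0) {z : F} (hz : z * z = 1)
    (hzc : ∀ g : F, g * z = z * g) :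
    ∃ (k : ℕ) (e : Fin k → MonoidAlgebra K F), Idem K e ∧ Nat.card {g : F // g * g = z} ≤ k := by
  classical
  have : Infinite K := IsAlgClosed.instInfinite
  have : NeZero (Nat.card F : K) := ⟨hF⟩
  have h1 : IsSemisimpleRing (MonoidAlgebra K F) := inferInstance
  have h3 : FiniteDimensional K (MonoidAlgebra K F) := inferInstance
  obtain ⟨n, s, hs, ⟨φ⟩⟩ :=
    IsSemisimpleRing.exists_algEquiv_pi_matrix_of_isAlgClosed K (MonoidAlgebra K F)
  obtain ⟨e, he1, he2, he3, he4, he5⟩ := FS_pi s φ
  have hζc : ∀ x : MonoidAlgebra K F, MonoidAlgebra.single z (1 : K) * x =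
      x * MonoidAlgebra.single z (1 : K) := by
    intro x
    induction x using MonoidAlgebra.induction_linear with
    | zero => rw [mul_zero, zero_mul]
    | add f g hf hg => rw [mul_add, add_mul, hf, hg]
    | single a r =>
      rw [MonoidAlgebra.single_mul_single, MonoidAlgebra.single_mul_single, hzc, one_mul, mul_one]
  have hτ1 : FS_tau K F 1 = 1 := by
    rw [MonoidAlgebra.one_def, FS_tau_single, inv_one]
  have hA := FS_core e he2 he3 he4 he5 (FS_tau K F) FS_tau_mul hτ1 FS_tau_tau
    (MonoidAlgebra.single z (1 : K)) hζc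
  have hB := FS_count (K := K) h2 hz hzc
  let eq := Fintype.equivFin (Σ i : Fin n, Fin (s i))
  refine ⟨Fintype.card (Σ i : Fin n, Fin (s i)), fun i => e (eq.symm i), ⟨?_, ?_, ?_⟩, ?_⟩
  · intro i
    exact he1 _
  · intro i j hij
    exact he2 _ _ (fun h => hij (eq.symm.injective h))
  · rw [← he3]
    exact Equiv.sum_comp eq.symm e
  · omega

end Pool.Agent.Lib.MP_1bbd88_ag.Q
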