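import Pool.Agent.Lib.MP_1bbd88_ag.Q.NS.NDefs

/-! The right action of the group algebra on polynomials. -/

set_option autoImplicit false

namespace Pool.Agent.Lib.MP_1bbd88_ag.Q

open Module MvPolynomial MulOpposite

variable {K : Type*} [Field K] {d : ℕ}

noncomputable def gactHom (H : Subgroup (GL (Fin d) K)) :
    H →* (Module.End K (MvPolynomial (Fin d) K))ᵐᵒᵖ where
  toFun g := op (lin g.1.val).toLinearMap
  map_one' := by
    rw [← op_one]
    congr 1
    apply LinearMap.ext
    intro f
    simp [lin_one]
  map_mul' g h := by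
    rw [← op_mul]
    congr 1
    apply LinearMap.ext
    intro f
    simp [lin_lin]

/-- the action of the group algebra: `f · (∑ c_g g) = ∑ c_g f(g x)` -/
noncomputable def gact (H : Subgroup (GL (Fin d) K)) (x : MonoidAlgebra K H) :
    Module.End K (MvPolynomial (Fin d) K) := unop (MonoidAlgebra.lift K _ H (gactHom H) x)

theorem gact_mul (H : Subgroup (GL (Fin d) K)) (x y : MonoidAlgebra K H) :
    gact H (x * y) = gact H y * gact H x := by
  rw [gact, map_mul, unop_mul]
  rfl

theorem gact_one (H : Subgroup (GL (Fin d) K)) : gact H 1 = 1 := by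
  rw [gact, map_one, unop_one]

theorem gact_add (H : Subgroup (GL (Fin d) K)) (x y : MonoidAlgebra K H) :
    gact H (x + y) = gact H x + gact H y := by
  rw [gact, map_add, unop_add]
  rfl

theorem gact_zero (H : Subgroup (GL (Fin d) K)) : gact H 0 = 0 := by
  rw [gact, map_zero, unop_zero]

theorem gact_sum (H : Subgroup (GL (Fin d) K)) {ι : Type*} (s : Finset ι)
    (x : ι → MonoidAlgebra K H) : gact H (∑ i ∈ s, x i) = ∑ i ∈ s, gact H (x i) := by
  classical
  induction s using Finset.induction_on with
  | empty => simp [gact_zero]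
  | insert i s hi ih => rw [Finset.sum_insert hi, gact_add, ih, Finset.sum_insert hi]

theorem gact_single (H : Subgroup (GL (Fin d) K)) (g : H) (c : K) :
    gact H (MonoidAlgebra.single g c) = c • (lin g.1.val).toLinearMap := by
  rw [gact, MonoidAlgebra.lift_single, unop_smul]
  rfl

/-- the dimension of the image of `P · x` in the algebra of coinvariants of `H` -/
noncomputable def mI (H : Subgroup (GL (Fin d) K)) (x : MonoidAlgebra K H) : ℕ :=
  finrank K ((LinearMap.range (gact H x)).map (Ideal.Quotient.mkₐ K (J H)).toLinearMap)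

/-- the dimension of `K[H] x` -/
noncomputable def rI {H : Type*} [Group H] (x : MonoidAlgebra K H) : ℕ :=
  finrank K (LinearMap.range (LinearMap.mulRight K x))

end Pool.Agent.Lib.MP_1bbd88_ag.Q
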