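import Pool.Agent.Lib.MP_1bbd88_ag.Q.NS.NDefs

set_option autoImplicit false

namespace Pool.Agent.Lib.MP_1bbd88_ag.Q

section chars

variable {K : Type*} [Field K] {H : Type*} [Group H] (A : Subgroup H) [Fintype A]

/-- the idempotent of a character -/
noncomputable def IDP_E (χ : A →* Kˣ) : MonoidAlgebra K H :=
  ∑ a : A, MonoidAlgebra.single (a : H) ((Nat.card A : K)⁻¹ * ((χ a)⁻¹ : Kˣ))

theorem IDP_mul (b : A) (χ : A →* Kˣ) :
    MonoidAlgebra.single (b : H) (1 : K) * IDP_E A χ = (χ b : K) • IDP_E A χ := by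
  unfold IDP_E
  rw [Finset.mul_sum, Finset.smul_sum]
  rw [← Equiv.sum_comp (Equiv.mulLeft b) (fun a : A => (χ b : K) •
    (MonoidAlgebra.single (a : H) ((Nat.card A : K)⁻¹ * ((χ a)⁻¹ : Kˣ)) : MonoidAlgebra K H))]
  refine Finset.sum_congr rfl fun a _ => ?_
  rw [MonoidAlgebra.single_mul_single, MonoidAlgebra.smul_single]
  have h1 : (((Equiv.mulLeft b) a : A) : H) = (b : H) * a := rfl
  have h2 : χ ((Equiv.mulLeft b) a) = χ b * χ a := map_mul χ b a
  rw [h1, h2, mul_inv, one_mul, Units.val_mul, smul_eq_mul]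
  congr 1
  have h3 : (χ b : K) * ((χ b)⁻¹ : Kˣ) = 1 := by
    rw [← Units.val_mul, mul_inv_cancel, Units.val_one]
  calc (Nat.card A : K)⁻¹ * ((χ a)⁻¹ : Kˣ)
      = (Nat.card A : K)⁻¹ * ((χ b : K) * ((χ b)⁻¹ : Kˣ)) * ((χ a)⁻¹ : Kˣ) := by rw [h3, mul_one]
    _ = (χ b : K) * ((Nat.card A : K)⁻¹ * (((χ b)⁻¹ : Kˣ) * ((χ a)⁻¹ : Kˣ))) := by ring

theorem IDP_orth {χ ψ : A →* Kˣ} (h : χ ≠ ψ) : IDP_E A χ * IDP_E A ψ = 0 := by
  have h1 : ∀ a : A, (MonoidAlgebra.single (a : H) ((Nat.card A : K)⁻¹ * ((χ a)⁻¹ : Kˣ)) :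
      MonoidAlgebra K H) * IDP_E A ψ =
      ((Nat.card A : K)⁻¹ * ((χ⁻¹ * ψ) a : Kˣ)) • IDP_E A ψ := by
    intro a
    have h2 : (MonoidAlgebra.single (a : H) ((Nat.card A : K)⁻¹ * ((χ a)⁻¹ : Kˣ)) :
        MonoidAlgebra K H) = ((Nat.card A : K)⁻¹ * ((χ a)⁻¹ : Kˣ)) •
          MonoidAlgebra.single (a : H) (1 : K) := by
      rw [MonoidAlgebra.smul_single, smul_eq_mul, mul_one]
    rw [h2, smul_mul_assoc, IDP_mul, smul_smul]
    congr 1
    rw [MonoidHom.mul_apply, MonoidHom.inv_apply, Units.val_mul, mul_assoc]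
  conv_lhs => rw [IDP_E]
  rw [Finset.sum_mul, Finset.sum_congr rfl fun a _ => h1 a, ← Finset.sum_smul, ← Finset.mul_sum]
  have h3 : ((Units.coeHom K).comp (χ⁻¹ * ψ) : A →* K) ≠ 1 := by
    intro h4
    apply h
    ext a
    have h5 := DFunLike.congr_fun h4 a
    have h6 : (χ⁻¹ * ψ) a = 1 := Units.ext h5
    rw [MonoidHom.mul_apply, MonoidHom.inv_apply, inv_mul_eq_one] at h6
    rw [h6]
  have h7 : ∑ a : A, (((χ⁻¹ * ψ) a : Kˣ) : K) = 0 := sum_hom_units_eq_zero _ h3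
  rw [h7, mul_zero, zero_smul]

theorem IDP_comm (L : Subgroup H) (hcomm : ∀ x ∈ L, ∀ y ∈ A, x * y = y * x)
    (x : MonoidAlgebra K L) (χ : A →* Kˣ) :
    MonoidAlgebra.mapDomainRingHom K L.subtype x * IDP_E A χ =
      IDP_E A χ * MonoidAlgebra.mapDomainRingHom K L.subtype x := by
  induction x using MonoidAlgebra.induction_on with
  | of m =>
    have h1 : MonoidAlgebra.mapDomainRingHom K L.subtype (MonoidAlgebra.of K L m) =
        MonoidAlgebra.single (m : H) (1 : K) := by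
      simp [MonoidAlgebra.of]
    rw [h1]
    unfold IDP_E
    rw [Finset.mul_sum, Finset.sum_mul]
    refine Finset.sum_congr rfl fun a _ => ?_
    rw [MonoidAlgebra.single_mul_single, MonoidAlgebra.single_mul_single,
      hcomm m.1 m.2 a.1 a.2, one_mul, mul_one]
  | add x y hx hy => rw [map_add, add_mul, mul_add, hx, hy]
  | smul r x hx =>
    have h1 : MonoidAlgebra.mapDomainRingHom K L.subtype (r • x) =
        r • MonoidAlgebra.mapDomainRingHom K L.subtype x :=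
      MonoidAlgebra.mapDomain_smul _ _ _
    rw [h1, smul_mul_assoc, mul_smul_comm, hx]

theorem IDP_ne (L : Subgroup H) (hdisj : L ⊓ A = ⊥) (hcard : (Nat.card A : K) ≠ 0)
    {x : MonoidAlgebra K L} (hx : x ≠ 0) (χ : A →* Kˣ) :
    MonoidAlgebra.mapDomainRingHom K L.subtype x * IDP_E A χ ≠ 0 := by
  intro h0
  apply hx
  ext l
  have hcf : ∀ a : A, (MonoidAlgebra.mapDomainRingHom K L.subtype x *
      MonoidAlgebra.single (a : H) ((Nat.card A : K)⁻¹ * ((χ a)⁻¹ : Kˣ))).coeff (l : H) =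
      (Finsupp.mapDomain L.subtype x.coeff) ((l : H) * (a : H)⁻¹) *
        ((Nat.card A : K)⁻¹ * ((χ a)⁻¹ : Kˣ)) := by
    intro a
    refine MonoidAlgebra.coeff_mul_single_eq_coeff_mul _ fun m' _ => ?_
    constructor
    · intro h
      rw [← h, mul_inv_cancel_right]
    · intro h
      rw [h, inv_mul_cancel_right]
  have h1 : (MonoidAlgebra.mapDomainRingHom K L.subtype x * IDP_E A χ).coeff (l : H) =
      x.coeff l * (Nat.card A : K)⁻¹ := by
    unfold IDP_E
    rw [Finset.mul_sum, MonoidAlgebra.coeff_sum, Finsupp.finsetSum_apply,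
      Finset.sum_eq_single (1 : A)]
    · rw [hcf, Subgroup.coe_one, inv_one, mul_one, map_one, inv_one, Units.val_one, mul_one]
      congr 1
      exact Finsupp.mapDomain_apply L.subtype_injective x.coeff l
    · intro a _ ha
      rw [hcf, Finsupp.mapDomain_of_notMem_range, zero_mul]
      rintro ⟨m, hm⟩
      apply ha
      have h2 : (a : H) ∈ L ⊓ A := by
        refine ⟨?_, a.2⟩
        have h3 : (a : H) = (m : H)⁻¹ * l := by
          have h4 : (m : H) = (l : H) * (a : H)⁻¹ := hm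
          rw [h4]
          group
        rw [h3]
        exact L.mul_mem (L.inv_mem m.2) l.2
      rw [hdisj, Subgroup.mem_bot] at h2
      exact Subtype.ext h2
    · intro h
      exact absurd (Finset.mem_univ _) h
  rw [h0] at h1
  have h2 : (0 : MonoidAlgebra K H).coeff (l : H) = 0 := rfl
  rw [h2] at h1
  rcases mul_eq_zero.1 h1.symm with h3 | h3
  · exact h3
  · exact absurd h3 (inv_ne_zero hcard)

theorem IDP_sum [IsAlgClosed K] (hA : Comm A) (hcard : (Nat.card A : K) ≠ 0) :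
    ∃ _ : Fintype (A →* Kˣ), Nat.card (A →* Kˣ) = Nat.card A ∧
      ∑ χ : A →* Kˣ, IDP_E A χ = (1 : MonoidAlgebra K H) := by
  classical
  let i : CommGroup A := { (inferInstance : Group A) with
    mul_comm := fun a b => Subtype.ext (hA a.1 a.2 b.1 b.2) }
  have h1 : (Monoid.exponent A : K) ≠ 0 := by
    intro h
    apply hcard
    obtain ⟨k, hk⟩ := Group.exponent_dvd_nat_card (G := A)
    rw [hk, Nat.cast_mul, h, zero_mul]
  have : NeZero (Monoid.exponent A : K) := ⟨h1⟩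
  have hcd : Nat.card (A →* Kˣ) = Nat.card A :=
    CommGroup.card_monoidHom_of_hasEnoughRootsOfUnity A K
  have hpos : Nat.card A ≠ 0 := Nat.card_pos.ne'
  have hfin : Finite (A →* Kˣ) := Nat.finite_of_card_ne_zero (by rw [hcd]; exact hpos)
  let ft : Fintype (A →* Kˣ) := Fintype.ofFinite _
  refine ⟨ft, hcd, ?_⟩
  unfold IDP_E
  rw [Finset.sum_comm]
  rw [Finset.sum_eq_single (1 : A)]
  · have h2 : ∀ χ : A →* Kˣ, (MonoidAlgebra.single ((1 : A) : H)
        ((Nat.card A : K)⁻¹ * ((χ 1)⁻¹ : Kˣ)) : MonoidAlgebra K H) =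
        (Nat.card A : K)⁻¹ • 1 := by
      intro χ
      rw [map_one, inv_one, Units.val_one, mul_one, MonoidAlgebra.one_def,
        MonoidAlgebra.smul_single, smul_eq_mul, mul_one]
      rfl
    rw [Finset.sum_congr rfl fun χ _ => h2 χ, Finset.sum_const, Finset.card_univ,
      ← Nat.card_eq_fintype_card, hcd, ← Nat.cast_smul_eq_nsmul K, smul_smul,
      mul_inv_cancel₀ hcard, one_smul]
  · intro a _ ha
    obtain ⟨ψ, hψ⟩ := CommGroup.exists_apply_ne_one_of_hasEnoughRootsOfUnity A K ha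
    have h3 : ∑ χ : A →* Kˣ, (((χ a)⁻¹ : Kˣ) : K) = 0 := by
      have h4 : ∑ χ : A →* Kˣ, (((χ a)⁻¹ : Kˣ) : K) =
          ((ψ a)⁻¹ : Kˣ) * ∑ χ : A →* Kˣ, (((χ a)⁻¹ : Kˣ) : K) := by
        rw [Finset.mul_sum]
        conv_lhs => rw [← Equiv.sum_comp (Equiv.mulLeft ψ)]
        refine Finset.sum_congr rfl fun χ _ => ?_
        have h5 : ((Equiv.mulLeft ψ) χ) a = ψ a * χ a := rfl
        rw [h5, mul_inv, Units.val_mul]
      have h6 : (((ψ a)⁻¹ : Kˣ) : K) ≠ 1 := by
        intro h7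
        apply hψ
        have h8 : (ψ a)⁻¹ = 1 := Units.ext h7
        exact inv_eq_one.1 h8
      have h9 : ((((ψ a)⁻¹ : Kˣ) : K) - 1) * ∑ χ : A →* Kˣ, (((χ a)⁻¹ : Kˣ) : K) = 0 := by
        rw [sub_mul, one_mul, ← h4, sub_self]
      rcases mul_eq_zero.1 h9 with h10 | h10
      · exact absurd (sub_eq_zero.1 h10) h6
      · exact h10
    have h11 : ∀ χ : A →* Kˣ, (MonoidAlgebra.single (a : H)
        ((Nat.card A : K)⁻¹ * ((χ a)⁻¹ : Kˣ)) : MonoidAlgebra K H) =
        ((Nat.card A : K)⁻¹ * ((χ a)⁻¹ : Kˣ)) • MonoidAlgebra.single (a : H) (1 : K) := by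
      intro χ
      rw [MonoidAlgebra.smul_single, smul_eq_mul, mul_one]
    rw [Finset.sum_congr rfl fun χ _ => h11 χ, ← Finset.sum_smul, ← Finset.mul_sum, h3,
      mul_zero, zero_smul]
  · intro h
    exact absurd (Finset.mem_univ _) h

end chars

/-- ROW 1bbd-IDP : products of idempotents -/
theorem IDP {K : Type*} [Field K] [IsAlgClosed K] {H : Type*} [Group H] [Finite H]
    (L A : Subgroup H) (hcomm : ∀ x ∈ L, ∀ y ∈ A, x * y = y * x) (hdisj : L ⊓ A = ⊥) (hA : Comm A)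
    (hcard : (Nat.card A : K) ≠ 0) {k : ℕ} (f : Fin k → MonoidAlgebra K L) (hf : Idem K f) :
    ∃ e : Fin (k * Nat.card A) → MonoidAlgebra K H, Idem K e := by
  classical
  let ftA : Fintype A := Fintype.ofFinite A
  obtain ⟨ft, hcd, hsum⟩ := IDP_sum (K := K) A hA hcard
  have hcardP : Nat.card (Fin k × (A →* Kˣ)) = k * Nat.card A := by
    rw [Nat.card_prod, Nat.card_fin, hcd]
  obtain ⟨σ⟩ : Nonempty (Fin k × (A →* Kˣ) ≃ Fin (k * Nat.card A)) :=
    ⟨Finite.equivFinOfCardEq hcardP⟩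
  refine ⟨fun i => MonoidAlgebra.mapDomainRingHom K L.subtype (f (σ.symm i).1) *
    IDP_E A (σ.symm i).2, ⟨?_, ?_, ?_⟩⟩
  · intro i
    exact IDP_ne A L hdisj hcard (hf.ne _) _
  · intro i j hij
    have hne : σ.symm i ≠ σ.symm j := fun h => hij (σ.symm.injective h)
    show MonoidAlgebra.mapDomainRingHom K L.subtype (f (σ.symm i).1) * IDP_E A (σ.symm i).2 *
      (MonoidAlgebra.mapDomainRingHom K L.subtype (f (σ.symm j).1) * IDP_E A (σ.symm j).2) = 0
    generalize σ.symm i = P at hne ⊢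
    generalize σ.symm j = P' at hne ⊢
    obtain ⟨p, χ⟩ := P
    obtain ⟨q, ψ⟩ := P'
    show MonoidAlgebra.mapDomainRingHom K L.subtype (f p) * IDP_E A χ *
      (MonoidAlgebra.mapDomainRingHom K L.subtype (f q) * IDP_E A ψ) = 0
    have h1 : MonoidAlgebra.mapDomainRingHom K L.subtype (f p) * IDP_E A χ *
        (MonoidAlgebra.mapDomainRingHom K L.subtype (f q) * IDP_E A ψ) =
        MonoidAlgebra.mapDomainRingHom K L.subtype (f p * f q) * (IDP_E A χ * IDP_E A ψ) := by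
      rw [map_mul, mul_assoc, ← mul_assoc (IDP_E A χ), ← IDP_comm A L hcomm, mul_assoc,
        mul_assoc]
    rw [h1]
    by_cases hpq : p = q
    · have hχψ : χ ≠ ψ := by
        intro h
        apply hne
        rw [hpq, h]
      rw [IDP_orth A hχψ, mul_zero]
    · rw [hf.orth p q hpq, map_zero, zero_mul]
  · rw [Equiv.sum_comp σ.symm (fun p : Fin k × (A →* Kˣ) =>
      MonoidAlgebra.mapDomainRingHom K L.subtype (f p.1) * IDP_E A p.2),
      Fintype.sum_prod_type]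
    simp only [← Finset.mul_sum]
    rw [hsum]
    simp only [mul_one]
    rw [← map_sum, hf.sum, map_one]

end Pool.Agent.Lib.MP_1bbd88_ag.Q
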