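import Pool.Agent.Lib.MP_1bbd88_ag.Q.NS.S6c

set_option autoImplicit false

namespace Pool.Agent.Lib.MP_1bbd88_ag.Q

open Module

variable {K : Type*} [Field K] [IsAlgClosed K] {V : Type*} [AddCommGroup V] [Module K V]
  [FiniteDimensional K V] {H : Type*} [Group H] {ρ : H →* Module.End K V}

/-! ROW 1bbd-S10a -/

private theorem S10a_cj_mod {a : H} (ha : a ^ 3 = 1) (i : ℕ) (x : H) :
    cj a i x = cj a (i % 3) x := by
  unfold cj
  rw [pow_eq_pow_mod i ha]

private theorem S10a_cj_add (a x : H) (i j : ℕ) : cj a i (cj a j x) = cj a (i + j) x := by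
  unfold cj
  rw [add_comm i j, pow_add]
  group

private theorem S10a_comm_pow {a h : H} (h1 : h * a = a * h) (k : ℕ) : h * a ^ k = a ^ k * h :=
  (Commute.pow_right h1 k : Commute h (a ^ k))

private theorem S10a_cj_conj {a h : H} (h1 : h * a = a * h) (k : ℕ) (x : H) :
    cj a k (h * x * h⁻¹) = h * cj a k x * h⁻¹ := by
  have h2 : Commute h (a ^ k) := Commute.pow_right h1 k
  have h3 : h⁻¹ * a ^ k = a ^ k * h⁻¹ := (h2.inv_left).eq
  have h4 : (a ^ k)⁻¹ * h = h * (a ^ k)⁻¹ := ((h2.inv_right).eq).symm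
  unfold cj
  calc (a ^ k)⁻¹ * (h * x * h⁻¹) * a ^ k = ((a ^ k)⁻¹ * h) * x * (h⁻¹ * a ^ k) := by group
    _ = (h * (a ^ k)⁻¹) * x * (a ^ k * h⁻¹) := by rw [h3, h4]
    _ = h * ((a ^ k)⁻¹ * x * a ^ k) * h⁻¹ := by group

private theorem S10a_order_conj (h x : H) : orderOf (h * x * h⁻¹) = orderOf x := by
  rw [← MulAut.conj_apply]
  exact orderOf_injective (MulAut.conj h).toMonoidHom (MulAut.conj h).injective x

/-- an element which commutes with `a` and `u` commutes with `u'` -/
theorem S10_cent (hρ : FR ρ) {z a u u' : H} (hz : Inv2 z) (ha1 : a ≠ 1) (ha : a ^ 3 = 1)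
    (hu : u ∈ UU z a) (hu' : u' ∈ UU z a) (hs : Sep a u u') {h : H} (h1 : h * a = a * h)
    (h2 : h * u = u * h) : h ∈ Subgroup.centralizer (Subgroup.closure {a, u, u'} : Set H) := by
  have hzc := NB_cen hρ hz
  have hca : h * a * h⁻¹ = a := by rw [h1, mul_inv_cancel_right]
  have hcu : h * u * h⁻¹ = u := by rw [h2, mul_inv_cancel_right]
  obtain ⟨w, hw⟩ : ∃ w, w = h * u' * h⁻¹ := ⟨_, rfl⟩
  have hwU : w ∈ UU z a := by
    have := TQ_conj hzc hu' h
    rwa [hca, ← hw] at this
  have hsw : Sep a u w := by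
    intro k hk
    rw [hw, S10a_cj_conj h1] at hk
    refine hs k ?_
    have h3 : cj a k u' = h⁻¹ * u * h := by
      rw [← hk]; group
    rw [h3, mul_assoc, ← h2]
    group
  have hns : ¬ Sep a u' w := fun hh => S5 hρ hz ha1 ha hu hu' hwU hs hsw hh
  unfold Sep at hns
  push Not at hns
  obtain ⟨j, hj⟩ := hns
  obtain ⟨k, hk3, hk4, hk10⟩ := S4 hρ hz ha1 ha hu hu' hs
  have hO : ∀ i, orderOf ((a⁻¹ * u) * (a⁻¹ * cj a i w)) =
      orderOf ((a⁻¹ * u) * (a⁻¹ * cj a i u')) := by
    intro i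
    rw [hw, S10a_cj_conj h1, ← S10a_order_conj h ((a⁻¹ * u) * (a⁻¹ * cj a i u'))]
    congr 1
    have h3 : h * ((a⁻¹ * u) * (a⁻¹ * cj a i u')) * h⁻¹ =
        ((h * a * h⁻¹)⁻¹ * (h * u * h⁻¹)) * ((h * a * h⁻¹)⁻¹ * (h * cj a i u' * h⁻¹)) := by group
    rw [h3, hca, hcu]
  have hO2 : orderOf ((a⁻¹ * u) * (a⁻¹ * cj a (k + j) u')) = 4 := by
    rw [← hO (k + j), ← S10a_cj_add, hj]
    exact hk4
  have hj3 : j % 3 = 0 := by
    by_contra hne
    rw [S10a_cj_mod ha] at hO2
    have h3 := hk10 ((k + j) % 3) (Nat.mod_lt _ (by norm_num)) (by omega)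
    rw [hO2] at h3
    norm_num at h3
  have hwu : w = u' := by
    rw [S10a_cj_mod ha, hj3] at hj
    unfold cj at hj
    rw [pow_zero, inv_one, one_mul, mul_one] at hj
    exact hj
  have hcu' : h * u' = u' * h := by
    rw [hwu] at hw
    calc h * u' = (h * u' * h⁻¹) * h := by group
      _ = u' * h := by rw [← hw]
  have hle : Subgroup.closure {a, u, u'} ≤ Subgroup.centralizer ({h} : Set H) := by
    rw [Subgroup.closure_le]
    intro x hx
    show x ∈ Subgroup.centralizer ({h} : Set H)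
    rw [Subgroup.mem_centralizer_iff]
    intro y hy
    rw [Set.mem_singleton_iff] at hy
    subst hy
    simp only [Set.mem_insert_iff, Set.mem_singleton_iff] at hx
    rcases hx with rfl | rfl | rfl
    · exact h1
    · exact h2
    · exact hcu'
  rw [Subgroup.mem_centralizer_iff]
  intro x hx
  have h3 := hle hx
  rw [Subgroup.mem_centralizer_iff] at h3
  exact (h3 h (Set.mem_singleton h)).symm

private theorem S10a_sep_symm {a u u' : H} (ha : a ^ 3 = 1) (hs : Sep a u u') : Sep a u' u := by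
  intro k hk
  refine hs (2 * k) ?_
  rw [← hk, S10a_cj_add, S10a_cj_mod ha, show (2 * k + k) % 3 = 0 by omega]
  unfold cj
  rw [pow_zero, inv_one, one_mul, mul_one]

/-- the fibres of an orbit map -/
private theorem S10a_orbit [Fintype H] [DecidableEq H] {a u : H} {C : Subgroup H}
    (hC : ∀ h : H, h * a = a * h → h * u = u * h → h ∈ C) :
    Fintype.card H ≤ Nat.card C *
      (Finset.univ.image fun h : H => (h * a * h⁻¹, h * u * h⁻¹)).card := by
  classical
  rw [← Finset.card_univ]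
  refine Finset.card_le_mul_card_image _ _ ?_
  intro q hq
  obtain ⟨g, -, rfl⟩ := Finset.mem_image.1 hq
  have hcard : Nat.card C = (Finset.univ.filter fun x : H => x ∈ C).card := by
    rw [Nat.card_eq_fintype_card, Fintype.card_subtype]
  rw [hcard]
  refine Finset.card_le_card_of_injOn (fun x => g⁻¹ * x) ?_ ?_
  · intro x hx
    have hx' := (Finset.mem_filter.1 hx).2
    rw [Prod.mk.injEq] at hx'
    obtain ⟨e1, e2⟩ := hx'
    refine Finset.mem_filter.2 ⟨Finset.mem_univ _, hC _ ?_ ?_⟩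
    · calc g⁻¹ * x * a = g⁻¹ * (x * a * x⁻¹) * x := by group
        _ = a * (g⁻¹ * x) := by rw [e1]; group
    · calc g⁻¹ * x * u = g⁻¹ * (x * u * x⁻¹) * x := by group
        _ = u * (g⁻¹ * x) := by rw [e2]; group
  · intro x _ y _ hxy
    exact mul_left_cancel hxy

/-- the orbits of the pairs `(a, u)` and `(a, u')` -/
theorem S10a (hρ : FR ρ) {z a u u' : H} (hz : Inv2 z) (ha1 : a ≠ 1) (ha : a ^ 3 = 1)
    (hu : u ∈ UU z a) (hu' : u' ∈ UU z a) (hs : Sep a u u') :
    Nat.card H ≤ 120 * Nat.card (Subgroup.centralizer (Subgroup.closure {a, u, u'} : Set H)) ∧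
    ((∀ h : H, ¬ (h * a * h⁻¹ = a ∧ h * u * h⁻¹ = u')) →
      Nat.card H ≤ 60 * Nat.card (Subgroup.centralizer (Subgroup.closure {a, u, u'} : Set H))) := by
  classical
  have : Finite H := NB_finite hρ
  have : Fintype H := Fintype.ofFinite H
  have hzc := NB_cen hρ hz
  obtain ⟨C, hC⟩ : ∃ C, C = Subgroup.centralizer (Subgroup.closure {a, u, u'} : Set H) := ⟨_, rfl⟩
  rw [← hC]
  have hC1 : ∀ h : H, h * a = a * h → h * u = u * h → h ∈ C := fun h e1 e2 => by
    rw [hC]; exact S10_cent hρ hz ha1 ha hu hu' hs e1 e2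
  have hC2 : ∀ h : H, h * a = a * h → h * u' = u' * h → h ∈ C := fun h e1 e2 => by
    have h3 := S10_cent hρ hz ha1 ha hu' hu (S10a_sep_symm ha hs) e1 e2
    rw [hC]
    have h4 : ({a, u, u'} : Set H) = {a, u', u} := by rw [Set.pair_comm u u']
    rw [h4]
    exact h3
  have hL := S6c hρ hz ha1 ha hu hu' hs
  -- the elements of order three
  have hT : (Finset.univ.filter fun c : H => c ≠ 1 ∧ c ^ 3 = 1).card ≤ 20 := by
    have h1 : Nat.card {g : H // g ∈ Subgroup.closure {a, u, u'} ∧ g ^ 3 = 1} = 21 :=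
      (S6a hρ hz ha1 ha hu hu' hs).2.2.1
    rw [Nat.card_eq_fintype_card, Fintype.card_subtype] at h1
    have h2 : (insert 1 (Finset.univ.filter fun c : H => c ≠ 1 ∧ c ^ 3 = 1)).card ≤ 21 := by
      rw [← h1]
      refine Finset.card_le_card fun c hc => ?_
      rcases Finset.mem_insert.1 hc with rfl | hc
      · exact Finset.mem_filter.2 ⟨Finset.mem_univ _, Subgroup.one_mem _, one_pow 3⟩
      · have hc' := (Finset.mem_filter.1 hc).2
        exact Finset.mem_filter.2 ⟨Finset.mem_univ _, hL.1 c hc'.2, hc'.2⟩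
    rw [Finset.card_insert_of_notMem (by simp)] at h2
    omega
  -- the pairs
  obtain ⟨P, hP⟩ : ∃ P : Finset (H × H), P = Finset.univ.filter
    fun q : H × H => q.1 ≠ 1 ∧ q.1 ^ 3 = 1 ∧ q.2 ∈ UU z q.1 := ⟨_, rfl⟩
  have hPc : P.card ≤ 120 := by
    have h1 : P.card ≤ 6 * (Finset.univ.filter fun c : H => c ≠ 1 ∧ c ^ 3 = 1).card := by
      refine Finset.card_le_mul_card_image_of_maps_to (f := Prod.fst) ?_ 6 ?_
      · intro q hq
        rw [hP] at hq
        have h2 := (Finset.mem_filter.1 hq).2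
        exact Finset.mem_filter.2 ⟨Finset.mem_univ _, h2.1, h2.2.1⟩
      · intro c hc
        have hc' := (Finset.mem_filter.1 hc).2
        have h6 := (S6b hρ hz ha1 ha hu hu' hs (hL.1 c hc'.2) hc'.1 hc'.2).2
        rw [Nat.card_eq_fintype_card, ← Set.toFinset_card] at h6
        refine le_trans (Finset.card_le_card_of_injOn Prod.snd ?_ ?_) h6
        · intro q hq
          obtain ⟨hq1, hq2⟩ := Finset.mem_filter.1 hq
          rw [hP] at hq1
          have h2 := (Finset.mem_filter.1 hq1).2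
          rw [hq2] at h2
          simpa using h2.2.2
        · intro q hq q' hq' hqq
          have hq2 := (Finset.mem_filter.1 hq).2
          have hq2' := (Finset.mem_filter.1 hq').2
          exact Prod.ext (hq2.trans hq2'.symm) hqq
    omega
  have hmap : ∀ v ∈ UU z a, (Finset.univ.image fun h : H => (h * a * h⁻¹, h * v * h⁻¹)) ⊆ P := by
    intro v hv q hq
    obtain ⟨g, -, rfl⟩ := Finset.mem_image.1 hq
    rw [hP]
    refine Finset.mem_filter.2 ⟨Finset.mem_univ _, ?_, ?_, TQ_conj hzc hv g⟩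
    · intro h0
      apply ha1
      have h0' : g * a * g⁻¹ = 1 := h0
      calc a = g⁻¹ * (g * a * g⁻¹) * g := by group
        _ = 1 := by rw [h0']; group
    · show (g * a * g⁻¹) ^ 3 = 1
      rw [conj_pow, ha]
      group
  have hA := S10a_orbit (C := C) hC1
  have hB := S10a_orbit (C := C) hC2
  have hcardH : Nat.card H = Fintype.card H := Nat.card_eq_fintype_card
  rw [hcardH]
  constructor
  · calc Fintype.card H ≤ _ := hA
      _ ≤ Nat.card C * 120 := Nat.mul_le_mul_left _ ((Finset.card_le_card (hmap u hu)).trans hPc)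
      _ = 120 * Nat.card C := mul_comm _ _
  · intro hno
    have hdisj : Disjoint (Finset.univ.image fun h : H => (h * a * h⁻¹, h * u * h⁻¹))
        (Finset.univ.image fun h : H => (h * a * h⁻¹, h * u' * h⁻¹)) := by
      rw [Finset.disjoint_left]
      intro q hq hq'
      obtain ⟨g, -, rfl⟩ := Finset.mem_image.1 hq
      obtain ⟨g', -, hg'⟩ := Finset.mem_image.1 hq'
      rw [Prod.mk.injEq] at hg'
      obtain ⟨e1, e2⟩ := hg'
      refine hno (g'⁻¹ * g) ⟨?_, ?_⟩
      · calc g'⁻¹ * g * a * (g'⁻¹ * g)⁻¹ = g'⁻¹ * (g * a * g⁻¹) * g' := by group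
          _ = a := by rw [← e1]; group
      · calc g'⁻¹ * g * u * (g'⁻¹ * g)⁻¹ = g'⁻¹ * (g * u * g⁻¹) * g' := by group
          _ = u' := by rw [← e2]; group
    have h3 := Finset.card_le_card (Finset.union_subset (hmap u hu) (hmap u' hu'))
    rw [Finset.card_union_of_disjoint hdisj] at h3
    have h4 : Fintype.card H + Fintype.card H ≤ Nat.card C * 120 := by
      calc Fintype.card H + Fintype.card H ≤ _ := Nat.add_le_add hA hB
        _ = Nat.card C * _ := (Nat.mul_add _ _ _).symm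
        _ ≤ Nat.card C * 120 := Nat.mul_le_mul_left _ (h3.trans hPc)
    omega

end Pool.Agent.Lib.MP_1bbd88_ag.Q
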