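import Pool.Agent.Lib.MP_1bbd88_ag.Q.NS.S6c

set_option autoImplicit false

namespace Pool.Agent.Lib.MP_1bbd88_ag.Q

open Module

variable {K : Type*} [Field K] [IsAlgClosed K] {V : Type*} [AddCommGroup V] [Module K V]
  [FiniteDimensional K V] {H : Type*} [Group H] {ρ : H →* Module.End K V}

theorem S10b_blk (hρ : FR ρ) {z a u : H} (hz : Inv2 z) (ha1 : a ≠ 1) (ha : a ^ 3 = 1)
    (hu : u ∈ UU z a) (h2 : finrank K V ≤ 2) {ω : K} (hω : ω * ω + ω + 1 = 0) :
    ∃ p q : V, (∀ s t : K, s • p + t • q = 0 → s = 0 ∧ t = 0) ∧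
      (∀ v : V, ∃ s t : K, v = s • p + t • q) ∧
      ρ a p = ω • p ∧ ρ a q = (-1 - ω) • q ∧
      ρ u p = (1 / (1 + 2 * ω)) • p + (1 : K) • q ∧
      ρ u q = (-(2 / 3 : K)) • p + (-(1 / (1 + 2 * ω))) • q ∧
      ∀ u' ∈ UU z a, ∃ β β' : K, β * β' = 1 ∧
        ρ u' p = (1 / (1 + 2 * ω)) • p + β • q ∧
        ρ u' q = (-((2 / 3 : K) * β')) • p + (-(1 / (1 + 2 * ω))) • q := by
  obtain ⟨W, e, hW, hea, heu, hall⟩ := BLK hρ hz ha1 ha hu hω
  have hfin : finrank K V = finrank K W + finrank K W := by
    rw [LinearEquiv.finrank_eq e, Module.finrank_prod]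
  have hpos : 0 < finrank K W := Module.finrank_pos
  have h1 : finrank K W = 1 := by omega
  obtain ⟨x0, hx0, hspan⟩ := finrank_eq_one_iff'.mp h1
  have hsc : ∀ B : Module.End K W, ∃ β : K, B x0 = β • x0 := fun B => by
    obtain ⟨c, hc⟩ := hspan (B x0)
    exact ⟨c, hc.symm⟩
  have hz0 : ∀ c : K, c • x0 = 0 → c = 0 := fun c hc => by
    rcases smul_eq_zero.mp hc with h | h
    · exact h
    · exact absurd h hx0
  refine ⟨e.symm (x0, 0), e.symm (0, x0), ?_, ?_, ?_, ?_, ?_, ?_, ?_⟩
  · intro s t hst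
    have h3 : e (s • e.symm (x0, 0) + t • e.symm (0, x0)) = 0 := by rw [hst, map_zero]
    rw [map_add, map_smul, map_smul, e.apply_symm_apply, e.apply_symm_apply] at h3
    have h4 := congrArg Prod.fst h3
    have h5 := congrArg Prod.snd h3
    simp only [Prod.smul_mk, smul_zero, Prod.mk_add_mk, add_zero, zero_add, Prod.fst_zero,
      Prod.snd_zero] at h4 h5
    exact ⟨hz0 s h4, hz0 t h5⟩
  · intro v
    obtain ⟨s, hs⟩ := hspan (e v).1
    obtain ⟨t, ht⟩ := hspan (e v).2
    refine ⟨s, t, e.injective ?_⟩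
    rw [map_add, map_smul, map_smul, e.apply_symm_apply, e.apply_symm_apply]
    ext <;> simp [hs, ht]
  · apply e.injective
    rw [hea, map_smul, e.apply_symm_apply]
    simp
  · apply e.injective
    rw [hea, map_smul, e.apply_symm_apply]
    simp
  · apply e.injective
    rw [heu, map_add, map_smul, map_smul, e.apply_symm_apply, e.apply_symm_apply]
    simp
  · apply e.injective
    rw [heu, map_add, map_smul, map_smul, e.apply_symm_apply, e.apply_symm_apply]
    simp
  · intro u' hu'
    obtain ⟨B, B', hBB, hBB', hB⟩ := hall u' hu'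
    obtain ⟨β, hβ⟩ := hsc B
    obtain ⟨β', hβ'⟩ := hsc B'
    refine ⟨β, β', ?_, ?_, ?_⟩
    · have h6 : (B * B') x0 = x0 := by rw [hBB]; rfl
      rw [Module.End.mul_apply, hβ', map_smul, hβ, smul_smul] at h6
      have h7 : (β' * β - 1) • x0 = 0 := by rw [sub_smul, h6, one_smul, sub_self]
      have h8 := hz0 _ h7
      linear_combination h8
    · apply e.injective
      rw [hB, map_add, map_smul, map_smul, e.apply_symm_apply, e.apply_symm_apply]
      simp [hβ]
    · apply e.injective
      rw [hB, map_add, map_smul, map_smul, e.apply_symm_apply, e.apply_symm_apply]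
      simp [hβ', smul_smul]

omit [IsAlgClosed K] [FiniteDimensional K V] in
theorem S10b_uniq {p q : V} (hind : ∀ s t : K, s • p + t • q = 0 → s = 0 ∧ t = 0)
    {s t s' t' : K} (h : s • p + t • q = s' • p + t' • q) : s = s' ∧ t = t' := by
  have h1 : (s - s') • p + (t - t') • q = 0 := by
    rw [sub_smul, sub_smul]
    have : s • p - s' • p + (t • q - t' • q) = (s • p + t • q) - (s' • p + t' • q) := by abel
    rw [this, h, sub_self]
  obtain ⟨h2, h3⟩ := hind _ _ h1
  exact ⟨sub_eq_zero.mp h2, sub_eq_zero.mp h3⟩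

omit [IsAlgClosed K] [FiniteDimensional K V] in
theorem S10b_pow {a : H} {v : V} {c : K} (h : ρ a v = c • v) (k : ℕ) :
    ρ (a ^ k) v = c ^ k • v := by
  induction k with
  | zero => simp
  | succ n ih => rw [pow_succ, map_mul, Module.End.mul_apply, h, map_smul, ih, smul_smul,
      pow_succ, mul_comm]

/-- ROW 1bbd-S10b : in dimension 2 the pairs `(a, u)` and `(a, u')` are not conjugate -/
theorem S10b (hρ : FR ρ) {z a u u' : H} (hz : Inv2 z) (ha1 : a ≠ 1) (ha : a ^ 3 = 1)
    (hu : u ∈ UU z a) (hu' : u' ∈ UU z a) (hs : Sep a u u') (h2 : finrank K V ≤ 2) (h : H) :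
    ¬ (h * a * h⁻¹ = a ∧ h * u * h⁻¹ = u') := by
  rintro ⟨hha, hhu⟩
  have hzc : ∀ g : H, g * z = z * g := NB_cen hρ hz
  have hcomm : h * a = a * h := by
    have := congrArg (· * h) hha
    simpa using this
  -- the cube root of unity
  obtain ⟨ω, hω⟩ : ∃ ω : K, ω * ω + ω + 1 = 0 := by
    obtain ⟨ω, hω⟩ := IsAlgClosed.exists_root
      (Polynomial.X ^ 2 + Polynomial.X + 1 : Polynomial K) (by
        have : (Polynomial.X ^ 2 + Polynomial.X + 1 : Polynomial K).degree = 2 := by
          compute_degree!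
        rw [this]; decide)
    refine ⟨ω, ?_⟩
    simp only [Polynomial.IsRoot.def, Polynomial.eval_add, Polynomial.eval_pow,
      Polynomial.eval_X, Polynomial.eval_one] at hω
    linear_combination hω
  have h3 : (3 : K) ≠ 0 := NB_three_ne hρ ha1 ha
  have htwo : (2 : K) ≠ 0 := NB_two hρ hz
  have hω3 : ω ^ 3 = 1 := by linear_combination (ω - 1) * hω
  have hω0 : ω ≠ 0 := by
    rintro rfl
    simp at hω
  have hd2 : (1 + 2 * ω) * (1 + 2 * ω) = -3 := by linear_combination 4 * hω
  have hd : (1 + 2 * ω) ≠ 0 := by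
    intro h0
    rw [h0] at hd2
    apply h3
    linear_combination hd2
  set π : K := 1 / (1 + 2 * ω) with hπ
  have hπ2 : π * π = -(1 / 3) := by
    rw [hπ]
    field_simp
    linear_combination hd2
  obtain ⟨p, q, hind, hspan, hap, haq, hup, huq, hall⟩ := S10b_blk hρ hz ha1 ha hu h2 hω
  rw [← hπ] at hup huq
  have hp0 : p ≠ 0 := by
    intro h0
    have := hind 1 0 (by rw [h0]; simp)
    exact one_ne_zero this.1
  have hq0 : q ≠ 0 := by
    intro h0
    have := hind 0 1 (by rw [h0]; simp)
    exact one_ne_zero this.2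
  have hsq : (-1 - ω) = ω ^ 2 := by linear_combination -hω
  have hωk : ∀ k : ℕ, ω ^ (3 * k) = 1 := fun k => by rw [pow_mul, hω3, one_pow]
  -- `ρ h` is diagonal
  have hcomm' : ∀ v, ρ h (ρ a v) = ρ a (ρ h v) := fun v => by
    rw [← Module.End.mul_apply, ← Module.End.mul_apply, ← map_mul, ← map_mul, hcomm]
  obtain ⟨h1, t1, e1⟩ := hspan (ρ h p)
  obtain ⟨s2, hh2, e2⟩ := hspan (ρ h q)
  have ht1 : t1 = 0 := by
    have := hcomm' p
    rw [hap, map_smul, e1, map_add, map_smul, map_smul, hap, haq, smul_add, smul_smul,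
      smul_smul, smul_smul, smul_smul] at this
    have := (S10b_uniq hind this).2
    have h0 : (1 + 2 * ω) * t1 = 0 := by linear_combination this
    exact (mul_eq_zero.mp h0).resolve_left hd
  have hs2 : s2 = 0 := by
    have := hcomm' q
    rw [haq, map_smul, e2, map_add, map_smul, map_smul, hap, haq, smul_add, smul_smul,
      smul_smul, smul_smul, smul_smul] at this
    have := (S10b_uniq hind this).1
    have h0 : (1 + 2 * ω) * s2 = 0 := by linear_combination (-1 : K) * this
    exact (mul_eq_zero.mp h0).resolve_left hd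
  rw [ht1, zero_smul, add_zero] at e1
  rw [hs2, zero_smul, zero_add] at e2
  have hh1 : h1 ≠ 0 := by
    intro h0
    rw [h0, zero_smul] at e1
    apply hp0
    have : ρ h⁻¹ (ρ h p) = p := by
      rw [← Module.End.mul_apply, ← map_mul]
      simp
    rw [e1, map_zero] at this
    exact this.symm
  -- the scalar of `u'`
  obtain ⟨β, β', hββ, hβp, hβq⟩ := hall u' hu'
  rw [← hπ] at hβp hβq
  have hrel1 : h * u = u' * h := by
    rw [← hhu]
    group
  have hb1 : hh2 = h1 * β := by
    have : ρ (h * u) p = ρ (u' * h) p := by rw [hrel1]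
    rw [map_mul, map_mul, Module.End.mul_apply, Module.End.mul_apply, hup, e1, map_add, map_smul,
      map_smul, map_smul, e1, e2, hβp, smul_add, smul_smul, smul_smul, smul_smul, smul_smul] at this
    have := (S10b_uniq hind this).2
    linear_combination this
  -- the element `w`
  have hw : h * u' * h⁻¹ ∈ UU z a := by
    have := TQ_conj hzc hu' h
    rwa [hha] at this
  obtain ⟨γ, γ', hγγ, hγp, hγq⟩ := hall _ hw
  rw [← hπ] at hγp hγq
  have hrel2 : (h * u' * h⁻¹) * h = h * u' := by group
  have hb2 : γ = β * β := by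
    have : ρ ((h * u' * h⁻¹) * h) p = ρ (h * u') p := by rw [hrel2]
    rw [map_mul, map_mul _ h u', Module.End.mul_apply, Module.End.mul_apply, hβp, e1, map_add,
      map_smul, map_smul, map_smul, e1, e2, hγp, smul_add, smul_smul, smul_smul, smul_smul,
      smul_smul] at this
    have := (S10b_uniq hind this).2
    rw [hb1] at this
    apply mul_left_cancel₀ hh1
    linear_combination this
  have hcjp : ∀ k : ℕ, h * a ^ k = a ^ k * h := fun k => by
    have hc : Commute h a := hcomm
    exact (hc.pow_right k).eq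
  have hs' : Sep a u' (h * u' * h⁻¹) := by
    intro k hk
    apply hs k
    have e : cj a k (h * u' * h⁻¹) = h * cj a k u' * h⁻¹ := by
      unfold cj
      have c1 : (a ^ k)⁻¹ * h = h * (a ^ k)⁻¹ := by
        have := hcjp k
        rw [inv_mul_eq_iff_eq_mul, ← mul_assoc, ← this]
        group
      have c2 : h⁻¹ * a ^ k = a ^ k * h⁻¹ := by
        have := hcjp k
        rw [inv_mul_eq_iff_eq_mul, ← mul_assoc, this]
        group
      calc (a ^ k)⁻¹ * (h * u' * h⁻¹) * a ^ k = ((a ^ k)⁻¹ * h) * u' * (h⁻¹ * a ^ k) := by group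
        _ = (h * (a ^ k)⁻¹) * u' * (a ^ k * h⁻¹) := by rw [c1, c2]
        _ = h * ((a ^ k)⁻¹ * u' * a ^ k) * h⁻¹ := by group
    rw [e] at hk
    have hk2 : h * cj a k u' * h⁻¹ = h * u * h⁻¹ := by rw [hk, hhu]
    exact mul_left_cancel (mul_right_cancel hk2)
  have hns : ¬ Sep a u (h * u' * h⁻¹) := fun hsw => S5 hρ hz ha1 ha hu hu' hw hs hsw hs'
  unfold Sep at hns
  push Not at hns
  obtain ⟨k, hk⟩ := hns
  have hγk : γ = ω ^ k := by
    have hrel3 : (h * u' * h⁻¹) * a ^ k = a ^ k * u := by
      rw [← hk]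
      unfold cj
      group
    have : ρ ((h * u' * h⁻¹) * a ^ k) p = ρ (a ^ k * u) p := by rw [hrel3]
    rw [map_mul, map_mul _ (a ^ k) u, Module.End.mul_apply, Module.End.mul_apply,
      S10b_pow hap, hup, map_smul, hγp, map_add, map_smul, map_smul, S10b_pow hap,
      S10b_pow haq, smul_add, smul_smul, smul_smul, smul_smul, smul_smul, hsq] at this
    have := (S10b_uniq hind this).2
    have hne : ω ^ k ≠ 0 := pow_ne_zero _ hω0
    apply mul_left_cancel₀ hne
    rw [this, one_mul, ← pow_mul, ← pow_add]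
    congr 1
    ring
  have hfac : (β - ω ^ (2 * k)) * (β + ω ^ (2 * k)) = 0 := by
    have e4 : ω ^ (2 * k) * ω ^ (2 * k) = ω ^ k := by
      rw [← pow_add]
      have : 2 * k + 2 * k = 3 * k + k := by ring
      rw [this, pow_add, hωk, one_mul]
    have e5 : β * β = ω ^ k := by rw [← hb2, hγk]
    linear_combination e5 - e4
  rcases mul_eq_zero.mp hfac with hc | hc
  · -- `β = ω ^ (2 k)`
    have hβ : β = ω ^ (2 * k) := sub_eq_zero.mp hc
    apply hs (2 * k)
    have key : u' * a ^ (2 * k) = a ^ (2 * k) * u := by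
      apply NB_eq hρ hp0
      rw [map_mul, map_mul, Module.End.mul_apply, Module.End.mul_apply, S10b_pow hap, hup,
        map_smul, hβp, map_add, map_smul, map_smul, S10b_pow hap, S10b_pow haq, smul_add,
        smul_smul, smul_smul, smul_smul, smul_smul, hsq, hβ]
      congr 1
      · rw [mul_comm]
      · congr 1
        rw [one_mul, ← pow_mul, ← pow_add]
        congr 1
        ring
    unfold cj
    rw [mul_assoc, key]
    group
  · -- `β = - ω ^ (2 k)`
    have hβ : β = -ω ^ (2 * k) := by linear_combination hc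
    obtain ⟨j, hj3, hj4, hj10⟩ := S4 hρ hz ha1 ha hu hu' hs
    have hx : cj a j u' ∈ UU z a := TQ_cj hzc hu' j
    obtain ⟨δ, δ', hδδ, hδp, hδq⟩ := hall _ hx
    rw [← hπ] at hδp hδq
    have hδ : δ = ω ^ (2 * j) * β := by
      have hrel4 : a ^ j * cj a j u' = u' * a ^ j := by
        unfold cj
        group
      have : ρ (a ^ j * cj a j u') p = ρ (u' * a ^ j) p := by rw [hrel4]
      rw [map_mul, map_mul, Module.End.mul_apply, Module.End.mul_apply, S10b_pow hap, map_smul,
        hβp, hδp, map_add, map_smul, map_smul, S10b_pow hap, S10b_pow haq, smul_add, smul_smul,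
        smul_smul, smul_smul, smul_smul, hsq] at this
      have := (S10b_uniq hind this).2
      have e6 : (ω ^ 2) ^ j * ω ^ j = 1 := by
        rw [← pow_mul, ← pow_add]
        have : 2 * j + j = 3 * j := by ring
        rw [this, hωk]
      have e7 : ω ^ (2 * j) = ω ^ j * ω ^ j := by rw [← pow_add]; congr 1; ring
      calc δ = δ * ((ω ^ 2) ^ j * ω ^ j) := by rw [e6, mul_one]
        _ = (δ * (ω ^ 2) ^ j) * ω ^ j := by ring
        _ = (ω ^ j * β) * ω ^ j := by rw [this]
        _ = ω ^ (2 * j) * β := by rw [e7]; ring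
    have hT : (1 : K) + 2 * (π * π) - (2 / 3) * (δ + δ') = 0 := by
      have hT1 := TQ_T hρ hz ha1 ha hu hx
      rw [NB_T4 hρ hj4] at hT1
      have hT2 := congrArg (fun f : Module.End K V => f p) hT1
      simp only [LinearMap.zero_apply, LinearMap.add_apply, Module.End.mul_apply,
        Module.End.one_apply] at hT2
      rw [hδp, hup, map_add, map_add, map_smul, map_smul, map_smul, map_smul, hup, huq, hδp, hδq,
        ] at hT2
      have e8 : (0 : V) = (1 + 2 * (π * π) - (2 / 3) * (δ + δ')) • p + (0 : K) • q := by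
        rw [hT2]
        module
      exact (hind _ _ e8.symm).1
    rw [hπ2] at hT
    have hquad : 2 * (δ * δ) - δ + 2 = 0 := by
      have e9 : (δ + δ') * 2 = 1 := by
        have : (3 : K) * ((1 : K) + 2 * (-(1 / 3)) - (2 / 3) * (δ + δ')) = 0 := by
          rw [hT, mul_zero]
        have e10 : (3 : K) * ((1 : K) + 2 * (-(1 / 3)) - (2 / 3) * (δ + δ')) =
            1 - (δ + δ') * 2 := by
          field_simp
          ring
        rw [e10] at this
        linear_combination -this
      linear_combination δ * e9 - 2 * hδδ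
    have hδm : δ = -ω ^ (2 * j + 2 * k) := by rw [hδ, hβ, pow_add]; ring
    -- the exponent modulo 3
    have hmod : ω ^ (2 * j + 2 * k) = 1 ∨ ω ^ (2 * j + 2 * k) = ω ∨
        ω ^ (2 * j + 2 * k) = ω ^ 2 := by
      have e11 : 2 * j + 2 * k = 3 * ((2 * j + 2 * k) / 3) + (2 * j + 2 * k) % 3 := by omega
      have e12 : (2 * j + 2 * k) % 3 < 3 := Nat.mod_lt _ (by norm_num)
      rw [e11, pow_add, hωk, one_mul]
      interval_cases ((2 * j + 2 * k) % 3)
      · left; simp
      · right; left; simp
      · right; right; rfl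
    rw [hδm] at hquad
    rcases hmod with hm | hm | hm
    · rw [hm] at hquad
      have h5 : (5 : K) = 0 := by linear_combination hquad
      have h10 : (10 : K) ≠ 0 := by
        obtain ⟨i, hi3, hij⟩ : ∃ i < 3, i ≠ j := by
          by_cases hj0 : j = 0
          · exact ⟨1, by norm_num, by omega⟩
          · exact ⟨0, by norm_num, fun h => hj0 h.symm⟩
        have := NB_order hρ ((a⁻¹ * u) * (a⁻¹ * cj a i u'))
        rw [hj10 i hi3 hij] at this
        exact_mod_cast this
      apply h10
      linear_combination 2 * h5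
    · rw [hm] at hquad
      apply hω0
      linear_combination 2 * hω - hquad
    · rw [hm] at hquad
      have : ω ^ 2 = 0 := by
        linear_combination 2 * hω - hquad + 2 * ω * hω3
      exact hω0 (pow_eq_zero_iff (by norm_num) |>.mp this)

end Pool.Agent.Lib.MP_1bbd88_ag.Q
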