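import Pool.Agent.Lib.MP_1bbd88_ag.Q.NS.NDefs

set_option autoImplicit false

namespace Pool.Agent.Lib.MP_1bbd88_ag.Q

theorem PG_unique {G : Type*} [Group G] [Finite G] {p : ℕ} [hp : Fact p.Prime]
    (hcyc : ∀ B : Subgroup G, Comm B → IsCyclic B) {c x : G} (hc : orderOf c = p)
    (hcen : ∀ g : G, g * c = c * g) (hx : x ^ p = 1) : x ∈ Subgroup.zpowers c := by
  classical
  have hcomm : ∀ a ∈ ({x, c} : Set G), ∀ b ∈ ({x, c} : Set G), a * b = b * a := by
    rintro a (rfl | rfl) b (rfl | rfl)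
    · rfl
    · exact hcen a
    · exact (hcen b).symm
    · rfl
  let B : Subgroup G := Subgroup.closure {x, c}
  have hB : Comm B := by
    intro a ha b hb
    have hi := Subgroup.isMulCommutative_closure hcomm
    have h := hi.is_comm.comm (⟨a, ha⟩ : Subgroup.closure ({x, c} : Set G)) ⟨b, hb⟩
    exact congrArg Subtype.val h
  have hBc : IsCyclic B := hcyc B hB
  have hxB : x ∈ B := Subgroup.subset_closure (by simp)
  have hcB : c ∈ B := Subgroup.subset_closure (by simp)
  let _i : Fintype B := Fintype.ofFinite _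
  have hle : (Finset.univ.filter fun t : B => t ^ p = 1).card ≤ p :=
    IsCyclic.card_pow_eq_one_le hp.out.pos
  have hoc : orderOf (⟨c, hcB⟩ : B) = p := by
    rw [← hc, ← Subgroup.orderOf_coe]
  have hZ : (Subgroup.zpowers (⟨c, hcB⟩ : B) : Set B).toFinset ⊆
      Finset.univ.filter fun t : B => t ^ p = 1 := by
    intro t ht
    rw [Set.mem_toFinset, SetLike.mem_coe, Subgroup.mem_zpowers_iff] at ht
    obtain ⟨k, hk⟩ := ht
    rw [Finset.mem_filter]
    refine ⟨Finset.mem_univ _, ?_⟩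
    rw [← hk, ← zpow_natCast, ← zpow_mul, mul_comm, zpow_mul, zpow_natCast]
    have : (⟨c, hcB⟩ : B) ^ p = 1 := by rw [← hoc]; exact pow_orderOf_eq_one _
    rw [this, one_zpow]
  have hcard : (Subgroup.zpowers (⟨c, hcB⟩ : B) : Set B).toFinset.card = p := by
    rw [Set.toFinset_card, ← Nat.card_eq_fintype_card]
    rw [← hoc]
    exact Nat.card_zpowers _
  have heq := Finset.eq_of_subset_of_card_le hZ (by rw [hcard]; exact hle)
  have hxm : (⟨x, hxB⟩ : B) ∈ Finset.univ.filter fun t : B => t ^ p = 1 := by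
    rw [Finset.mem_filter]
    exact ⟨Finset.mem_univ _, Subtype.ext hx⟩
  rw [← heq, Set.mem_toFinset, SetLike.mem_coe, Subgroup.mem_zpowers_iff] at hxm
  obtain ⟨k, hk⟩ := hxm
  exact Subgroup.mem_zpowers_iff.2 ⟨k, congrArg Subtype.val hk⟩

theorem PG_mulpow {G : Type*} [Group G] {x y d : G} (hd : ∀ g : G, g * d = d * g)
    (h : y * x = d * (x * y)) (n : ℕ) : (x * y) ^ n = x ^ n * y ^ n * d ^ (n.choose 2) := by
  have hdn : ∀ (m : ℕ) (g : G), g * d ^ m = d ^ m * g := fun m g =>
    ((show Commute g d from hd g).pow_right m)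
  have hyx : ∀ m : ℕ, y ^ m * x = d ^ m * (x * y ^ m) := by
    intro m
    induction m with
    | zero => simp
    | succ m ih =>
      rw [pow_succ, mul_assoc, h, ← mul_assoc (y ^ m), hd, mul_assoc d, ← mul_assoc (y ^ m), ih,
        pow_succ' d]
      simp only [mul_assoc]
  induction n with
  | zero => simp
  | succ n ih =>
    have hch : (n + 1).choose 2 = n + n.choose 2 := by
      rw [Nat.choose_succ_succ' n 1, Nat.choose_one_right]
    rw [pow_succ, ih, hch, pow_add d]
    calc x ^ n * y ^ n * d ^ n.choose 2 * (x * y)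
        = x ^ n * (y ^ n * (d ^ n.choose 2 * (x * y))) := by simp only [mul_assoc]
      _ = x ^ n * (y ^ n * (x * y * d ^ n.choose 2)) := by rw [hdn]
      _ = x ^ n * ((y ^ n * x) * (y * d ^ n.choose 2)) := by simp only [mul_assoc]
      _ = x ^ n * (d ^ n * (x * y ^ n) * (y * d ^ n.choose 2)) := by rw [hyx]
      _ = (x ^ n * d ^ n) * (x * y ^ n * (y * d ^ n.choose 2)) := by simp only [mul_assoc]
      _ = (x ^ n * x) * (y ^ n * y) * d ^ n * d ^ n.choose 2 := by
          rw [hdn]
          have e : x ^ n * x * (y ^ n * y) * d ^ n = d ^ n * (x ^ n * x * (y ^ n * y)) := hdn n _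
          rw [e]
          simp only [mul_assoc]
      _ = x ^ (n + 1) * y ^ (n + 1) * (d ^ n * d ^ n.choose 2) := by
          rw [pow_succ, pow_succ]; simp only [mul_assoc]

theorem PG_normal {G : Type*} [Group G] [Finite G] {p k : ℕ} [hp : Fact p.Prime]
    (hn : Nat.card G = p ^ (k + 1)) {M : Subgroup G} (hM : Nat.card M = p ^ k) :
    M.index = p ∧ M.Normal := by
  have h1 : M.index = p := by
    have h := M.card_mul_index
    rw [hM, hn, pow_succ] at h
    exact Nat.eq_of_mul_eq_mul_left (pow_pos hp.out.pos k) h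
  refine ⟨h1, Subgroup.normal_of_index_eq_minFac_card ?_⟩
  rw [h1, hn, hp.out.pow_minFac (Nat.succ_ne_zero k)]

theorem PG_quot {G : Type*} [Group G] [Finite G] {p : ℕ} [hp : Fact p.Prime]
    {M : Subgroup G} (hM : M.index = p) (hN : M.Normal) :
    (∀ g : G, g ^ p ∈ M) ∧ ∀ x y : G, x * y * x⁻¹ * y⁻¹ ∈ M := by
  have hc : Nat.card (G ⧸ M) = p := hM
  refine ⟨fun g => ?_, fun x y => ?_⟩
  · rw [← QuotientGroup.eq_one_iff, QuotientGroup.mk_pow, ← hc]
    exact pow_card_eq_one'
  · have hcy : IsCyclic (G ⧸ M) := isCyclic_of_prime_card hc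
    have h := (IsCyclic.commGroup (α := G ⧸ M)).mul_comm (x : G ⧸ M) (y : G ⧸ M)
    rw [← QuotientGroup.eq_one_iff, QuotientGroup.mk_mul, QuotientGroup.mk_mul,
      QuotientGroup.mk_mul, QuotientGroup.mk_inv, QuotientGroup.mk_inv]
    have h' : (x : G ⧸ M) * y = y * x := h
    rw [h']
    group

/-- ROW 1bbd-PG -/
theorem PG {G : Type*} [Group G] [Finite G] {p : ℕ} [Fact p.Prime] (hp : p ≠ 2)
    (hG : IsPGroup p G) (hcyc : ∀ B : Subgroup G, Comm B → IsCyclic B) : IsCyclic G := by
  rename_i iG iF iP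
  induction hN : Nat.card G using Nat.strong_induction_on generalizing G with
  | _ N ih =>
  subst hN
  by_contra hnc
  obtain ⟨n, hn⟩ := IsPGroup.iff_card.1 hG
  obtain _ | k := n
  · apply hnc
    have : Subsingleton G := by
      rw [pow_zero] at hn
      exact (Nat.card_eq_one_iff_unique.1 hn).1
    infer_instance
  have hkey : ∀ x : G, ∃ M : Subgroup G, Nat.card M = p ^ k ∧ x ∈ M := by
    intro x
    have hd : Nat.card (Subgroup.zpowers x) ∣ p ^ (k + 1) := hn ▸ Subgroup.card_subgroup_dvd_card _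
    obtain ⟨a, ha, hax⟩ := (Nat.dvd_prime_pow iP.out).1 hd
    have hak : a ≤ k := by
      by_contra hlt
      have hak' : a = k + 1 := by omega
      rw [hak', ← hn] at hax
      apply hnc
      have htop := Subgroup.eq_top_of_card_eq _ hax
      refine ⟨⟨x, fun y => ?_⟩⟩
      have hy : y ∈ Subgroup.zpowers x := by rw [htop]; exact Subgroup.mem_top y
      exact Subgroup.mem_zpowers_iff.1 hy
    obtain ⟨M, hM1, hM2⟩ := Sylow.exists_subgroup_card_pow_prime_le p
      (hn ▸ pow_dvd_pow p (Nat.le_succ k)) (Subgroup.zpowers x) hax hak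
    exact ⟨M, hM1, hM2 (Subgroup.mem_zpowers x)⟩
  have hMcomm : ∀ M : Subgroup G, Nat.card M = p ^ k → ∀ a ∈ M, ∀ b ∈ M, a * b = b * a := by
    intro M hM a ha b hb
    have hlt : Nat.card M < Nat.card G := by
      rw [hM, hn]
      exact Nat.pow_lt_pow_right iP.out.one_lt (Nat.lt_succ_self k)
    have hcM : IsCyclic M := by
      refine ih (Nat.card M) hlt (hG.to_subgroup M) ?_ rfl
      intro B hB
      have hB' : Comm (B.map M.subtype) := by
        rintro _ ⟨u, hu, rfl⟩ _ ⟨v, hv, rfl⟩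
        rw [← map_mul, hB u hu v hv, map_mul]
      have hcB := hcyc _ hB'
      exact (MulEquiv.isCyclic (B.equivMapOfInjective M.subtype M.subtype_injective)).2 hcB
    have h := (IsCyclic.commGroup (α := M)).mul_comm ⟨a, ha⟩ ⟨b, hb⟩
    exact congrArg Subtype.val h
  obtain ⟨M1, hM1, -⟩ := hkey 1
  have hne : M1 ≠ ⊤ := by
    rintro rfl
    rw [Subgroup.card_top, hn] at hM1
    exact absurd (Nat.pow_right_injective iP.out.two_le hM1) (Nat.succ_ne_self k)
  obtain ⟨x2, hx2⟩ : ∃ x, x ∉ M1 := by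
    by_contra hall
    push Not at hall
    exact hne (eq_top_iff.2 fun x _ => hall x)
  obtain ⟨M2, hM2, hx2M⟩ := hkey x2
  have hM12 : M1 ≠ M2 := by
    rintro rfl
    exact hx2 hx2M
  obtain ⟨hi1, hN1⟩ := PG_normal hn hM1
  obtain ⟨hi2, hN2⟩ := PG_normal hn hM2
  obtain ⟨hp1, hc1⟩ := PG_quot hi1 hN1
  obtain ⟨hp2, hc2⟩ := PG_quot hi2 hN2
  have hsup : M1 ⊔ M2 = ⊤ := by
    have hd : (M1 ⊔ M2).index ∣ p := hi1 ▸ Subgroup.index_dvd_of_le le_sup_left
    rcases (Nat.dvd_prime iP.out).1 hd with h | h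
    · exact Subgroup.index_eq_one.1 h
    · exfalso
      have hcard : Nat.card (M1 ⊔ M2 : Subgroup G) = Nat.card M1 := by
        have e1 := (M1 ⊔ M2).card_mul_index
        have e2 := M1.card_mul_index
        rw [h] at e1
        rw [hi1] at e2
        exact Nat.eq_of_mul_eq_mul_right iP.out.pos (e1.trans e2.symm)
      have heq : M1 = M1 ⊔ M2 := Subgroup.eq_of_le_of_card_ge le_sup_left hcard.le
      apply hx2
      rw [heq]
      exact (le_sup_right : M2 ≤ M1 ⊔ M2) hx2M
  have hZ : ∀ z, z ∈ M1 → z ∈ M2 → ∀ g : G, g * z = z * g := by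
    intro z h1 h2 g
    have hle : M1 ⊔ M2 ≤ Subgroup.centralizer ({z} : Set G) := by
      refine sup_le (fun a ha => ?_) (fun a ha => ?_)
      · rw [Subgroup.mem_centralizer_singleton_iff]
        exact hMcomm M1 hM1 a ha z h1
      · rw [Subgroup.mem_centralizer_singleton_iff]
        exact hMcomm M2 hM2 a ha z h2
    rw [hsup] at hle
    have := hle (Subgroup.mem_top g)
    rw [Subgroup.mem_centralizer_singleton_iff] at this
    exact this
  have hmul : ∀ x y : G, (x * y) ^ p = x ^ p * y ^ p := by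
    intro x y
    set d : G := y * x * y⁻¹ * x⁻¹ with hd
    have hdc : ∀ g : G, g * d = d * g := hZ d (hc1 y x) (hc2 y x)
    have h1 : y * x = d * (x * y) := by rw [hd]; group
    have hdn : ∀ m : ℕ, y ^ m * x = d ^ m * (x * y ^ m) := by
      intro m
      induction m with
      | zero => simp
      | succ m ih' =>
        rw [pow_succ, mul_assoc, h1, ← mul_assoc (y ^ m), hdc, mul_assoc d, ← mul_assoc (y ^ m),
          ih', pow_succ' d]
        simp only [mul_assoc]
    have hdp : d ^ p = 1 := by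
      have e1 := hdn p
      have e2 : x * y ^ p = y ^ p * x := hZ (y ^ p) (hp1 y) (hp2 y) x
      rw [e2] at e1
      have e3 : 1 * (y ^ p * x) = d ^ p * (y ^ p * x) := by rw [one_mul]; exact e1
      exact (mul_right_cancel e3).symm
    rw [PG_mulpow hdc h1 p]
    have h2p : 2 < p := lt_of_le_of_ne iP.out.two_le (Ne.symm hp)
    obtain ⟨t, ht⟩ := iP.out.dvd_choose_self (k := 2) (by norm_num) h2p
    rw [ht, pow_mul, hdp, one_pow, mul_one]
  let φ : G →* G := { toFun := fun x => x ^ p, map_one' := one_pow p, map_mul' := hmul }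
  have hnt : Nontrivial G := by
    rw [← not_subsingleton_iff_nontrivial]
    intro hs
    exact hnc inferInstance
  have hcn : Nontrivial (Subgroup.center G) := hG.center_nontrivial
  obtain ⟨c, hc⟩ : ∃ c : Subgroup.center G, orderOf c = p := by
    refine exists_prime_orderOf_dvd_card' p ?_
    rcases (hG.to_subgroup (Subgroup.center G)).card_eq_or_dvd with h | h
    · exfalso
      have := (Nat.card_eq_one_iff_unique.1 h).1
      exact not_subsingleton (Subgroup.center G) this
    · exact h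
  have hc' : orderOf (c : G) = p := by rw [Subgroup.orderOf_coe]; exact hc
  have hcc : ∀ g : G, g * (c : G) = (c : G) * g := fun g => Subgroup.mem_center_iff.1 c.2 g
  have hker : φ.ker ≤ Subgroup.zpowers (c : G) := fun x hx => PG_unique hcyc hc' hcc hx
  have hkc : Nat.card φ.ker ≤ p := by
    have h1 := Nat.le_of_dvd Nat.card_pos (Subgroup.card_dvd_of_le hker)
    rwa [Nat.card_zpowers, hc'] at h1
  have hrange : φ.range ≤ M1 ⊓ M2 := by
    rintro _ ⟨x, rfl⟩
    exact ⟨hp1 x, hp2 x⟩
  have hrc : Nat.card φ.range ≤ Nat.card (M1 ⊓ M2 : Subgroup G) :=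
    Nat.le_of_dvd Nat.card_pos (Subgroup.card_dvd_of_le hrange)
  have hinf : Nat.card (M1 ⊓ M2 : Subgroup G) < p ^ k := by
    rw [← hM1]
    refine lt_of_le_of_ne (Nat.le_of_dvd Nat.card_pos (Subgroup.card_dvd_of_le inf_le_left)) ?_
    intro h
    have e1 : M1 ⊓ M2 = M1 := Subgroup.eq_of_le_of_card_ge inf_le_left h.ge
    have e2 : M1 ≤ M2 := inf_eq_left.1 e1
    exact hM12 (Subgroup.eq_of_le_of_card_ge e2 (by rw [hM1, hM2]))
  have htot : Nat.card φ.ker * Nat.card φ.range = p ^ (k + 1) := by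
    rw [← Subgroup.index_ker, Subgroup.card_mul_index, hn]
  have : Nat.card φ.ker * Nat.card φ.range < p ^ (k + 1) := by
    calc Nat.card φ.ker * Nat.card φ.range ≤ p * Nat.card (M1 ⊓ M2 : Subgroup G) :=
          Nat.mul_le_mul hkc hrc
      _ < p * p ^ k := Nat.mul_lt_mul_of_pos_left hinf iP.out.pos
      _ = p ^ (k + 1) := by rw [pow_succ]; ring
  omega

end Pool.Agent.Lib.MP_1bbd88_ag.Q
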