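import Pool.Agent.Lib.MP_1bbd88_ag.Q.NS.TQ
import Pool.Agent.Lib.MP_1bbd88_ag.Q.NS.PG

set_option autoImplicit false

namespace Pool.Agent.Lib.MP_1bbd88_ag.Q

open Module

variable {K : Type*} [Field K] [IsAlgClosed K] {V : Type*} [AddCommGroup V] [Module K V]
  [FiniteDimensional K V] {H : Type*} [Group H] {ρ : H →* Module.End K V}

/-- an element which commutes with `a` and `u` and satisfies `x⁴ = 1` satisfies `x² = 1` -/
theorem S9a_four (hρ : FR ρ) {z a u : H} (hz : Inv2 z) (ha1 : a ≠ 1) (ha : a ^ 3 = 1)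
    (hu : u ∈ UU z a) {x : H} (hxa : a * x = x * a) (hxu : u * x = x * u)
    (h4 : x ^ 4 = 1) : x * x = 1 := by
  have h1 : (x * x) * (x * x) = 1 := by
    calc (x * x) * (x * x) = x ^ 4 := by simp [pow_succ, mul_assoc]
      _ = 1 := h4
  rcases NB_uniq hρ hz h1 with h | h
  · exact h
  · exfalso
    apply TQ_ncomm hρ hz ha1 ha hu
    have huz : u * u = z := hu.1
    have h2 : (u * x) * (u * x) = 1 := by
      calc (u * x) * (u * x) = u * (x * u) * x := by group
        _ = u * (u * x) * x := by rw [hxu]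
        _ = (u * u) * (x * x) := by group
        _ = z * z := by rw [huz, h]
        _ = 1 := hz.2
    have h3 : ∀ w : H, a * w = w * a → u * x = w → a * u = u * a := by
      intro w hw huw
      have hu' : u = w * x⁻¹ := by rw [← huw]; group
      have hxa' : a * x⁻¹ = x⁻¹ * a := by
        have : x⁻¹ * (a * x) * x⁻¹ = x⁻¹ * (x * a) * x⁻¹ := by rw [hxa]
        calc a * x⁻¹ = x⁻¹ * (x * a) * x⁻¹ := by group
          _ = x⁻¹ * (a * x) * x⁻¹ := by rw [hxa]
          _ = x⁻¹ * a := by group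
      rw [hu']
      calc a * (w * x⁻¹) = (a * w) * x⁻¹ := by group
        _ = w * (a * x⁻¹) := by rw [hw]; group
        _ = w * x⁻¹ * a := by rw [hxa']; group
    rcases NB_uniq hρ hz h2 with h5 | h5
    · exact h3 1 (by simp) h5
    · exact h3 z (NB_cen hρ hz a) h5

theorem S9a_not4 (hρ : FR ρ) {z a u : H} (hz : Inv2 z) (ha1 : a ≠ 1) (ha : a ^ 3 = 1)
    (hu : u ∈ UU z a) (C : Subgroup H) (hCa : ∀ x ∈ C, a * x = x * a)
    (hCu : ∀ x ∈ C, u * x = x * u) : ¬ 4 ∣ Nat.card C := by
  intro h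
  have : Finite H := NB_finite hρ
  have : Fact (Nat.Prime 2) := ⟨Nat.prime_two⟩
  obtain ⟨B, hB⟩ := Sylow.exists_subgroup_card_pow_prime (G := C) 2 (n := 2) (by simpa using h)
  have h1 : ∀ x : B, ((x : C) : H) = 1 ∨ ((x : C) : H) = z := by
    intro x
    apply NB_uniq hρ hz
    refine S9a_four hρ hz ha1 ha hu (hCa _ (x : C).2) (hCu _ (x : C).2) ?_
    have h2 : x ^ 4 = 1 := by
      have := pow_card_eq_one' (x := x)
      rwa [hB] at this
    have h3 := congrArg (fun y : B => ((y : C) : H)) h2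
    simpa using h3
  have h2 : Nat.card B ≤ 2 := by
    have hinj : Function.Injective (fun x : B => (((x : C) : H) = 1 : Prop)) := by
      intro x y hxy
      simp only [eq_iff_iff] at hxy
      apply Subtype.ext
      apply Subtype.ext
      rcases h1 x with hx | hx
      · rw [hx, hxy.1 hx]
      · rcases h1 y with hy | hy
        · rw [hxy.2 hy, hy]
        · rw [hx, hy]
    have := Nat.card_le_card_of_injective _ hinj
    simpa using this
  rw [hB] at h2
  norm_num at h2

theorem S9a_Z (hρ : FR ρ) (C : Subgroup H) (h4 : ¬ 4 ∣ Nat.card C) : IsZGroup C := by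
  have : Finite H := NB_finite hρ
  refine ⟨fun p hp P => ?_⟩
  have : Fact p.Prime := ⟨hp⟩
  by_cases h2 : p = 2
  · subst h2
    obtain ⟨k, hk⟩ := P.2.exists_card_eq
    have h5 : Nat.card (P : Subgroup C) ∣ Nat.card C := Subgroup.card_subgroup_dvd_card _
    refine isCyclic_of_card_dvd_prime (p := 2) ?_
    rw [hk] at h5 ⊢
    rcases Nat.lt_or_ge k 2 with h6 | h6
    · have : k ≤ 1 := by omega
      exact (pow_dvd_pow 2 this).trans (by norm_num)
    · exact absurd ((pow_dvd_pow 2 h6).trans h5) (by norm_num; exact h4)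
  · refine PG (p := p) h2 P.2 ?_
    intro B hB
    have h7 : Function.Injective (C.subtype.comp (P : Subgroup C).subtype) := by
      intro x y hxy
      exact Subtype.ext (Subtype.ext hxy)
    exact NB_cyc (NB_comp hρ (C.subtype.comp (P : Subgroup C).subtype) h7) B hB

/-- ROW 1bbd-S9a : the centraliser `C` of `L` has a large commutative normal subgroup `A`, of order
`2 m` with `m` odd, which is its own centraliser in `C` -/
theorem S9a (hρ : FR ρ) {z a u : H} (hz : Inv2 z) (ha1 : a ≠ 1) (ha : a ^ 3 = 1)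
    (hu : u ∈ UU z a) {L : Subgroup H} (haL : a ∈ L) (huL : u ∈ L) :
    ∃ A : Subgroup H, A ≤ Subgroup.centralizer (L : Set H) ∧ Comm A ∧ z ∈ A ∧
      (∃ m, Nat.card A = 2 * m ∧ Odd m) ∧
      (∀ c ∈ Subgroup.centralizer (L : Set H), ∀ x ∈ A, c * x * c⁻¹ ∈ A) ∧
      (∀ c ∈ Subgroup.centralizer (L : Set H), (∀ x ∈ A, c * x = x * c) → c ∈ A) := by
  have : Finite H := NB_finite hρ
  set C : Subgroup H := Subgroup.centralizer (L : Set H) with hC
  have hCa : ∀ x ∈ C, a * x = x * a := fun x hx => Subgroup.mem_centralizer_iff.1 hx a haL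
  have hCu : ∀ x ∈ C, u * x = x * u := fun x hx => Subgroup.mem_centralizer_iff.1 hx u huL
  have h4 : ¬ 4 ∣ Nat.card C := S9a_not4 hρ hz ha1 ha hu C hCa hCu
  have : IsZGroup C := S9a_Z hρ C h4
  have hzC : z ∈ C := Subgroup.mem_centralizer_iff.2 fun g _ => NB_cen hρ hz g
  have hcc : IsCyclic (commutator C) := IsZGroup.isCyclic_commutator C
  let A0 : Subgroup C := Subgroup.centralizer (commutator C : Set C)
  have hA0 : ∀ x y : A0, x * y = y * x := by
    have hker : (Abelianization.of.comp A0.subtype : A0 →* Abelianization C).ker ≤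
        Subgroup.center A0 := by
      intro x hx
      have hx' : (x : C) ∈ commutator C := by
        rw [← Abelianization.ker_of (G := C)]
        exact hx
      rw [Subgroup.mem_center_iff]
      intro g
      apply Subtype.ext
      exact (Subgroup.mem_centralizer_iff.1 g.2 _ hx').symm
    intro x y
    exact ((Abelianization.of.comp A0.subtype :
      A0 →* Abelianization C).isMulCommutative_of_isCyclic_of_ker_le_center hker).is_comm.comm x y
  have hcomm : commutator C ≤ A0 := by
    intro x hx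
    refine Subgroup.mem_centralizer_iff.2 fun y hy => ?_
    letI : CommGroup (commutator C) := hcc.commGroup
    have := mul_comm (⟨y, hy⟩ : commutator C) ⟨x, hx⟩
    exact congrArg Subtype.val this
  have hzA0 : (⟨z, hzC⟩ : C) ∈ A0 := by
    refine Subgroup.mem_centralizer_iff.2 fun y _ => ?_
    exact Subtype.ext (NB_cen hρ hz y)
  have hcard : Nat.card (A0.map C.subtype) = Nat.card A0 :=
    Nat.card_congr (Subgroup.equivMapOfInjective A0 C.subtype C.subtype_injective).symm.toEquiv
  refine ⟨A0.map C.subtype, ?_, ?_, ?_, ?_, ?_, ?_⟩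
  · rintro _ ⟨x, _, rfl⟩
    exact x.2
  · rintro _ ⟨x, hx, rfl⟩ _ ⟨y, hy, rfl⟩
    have := hA0 ⟨x, hx⟩ ⟨y, hy⟩
    exact congrArg (fun w : A0 => ((w : C) : H)) this
  · exact ⟨⟨z, hzC⟩, hzA0, rfl⟩
  · have h2 : 2 ∣ Nat.card (A0.map C.subtype) := by
      rw [hcard]
      have h5 : orderOf (⟨⟨z, hzC⟩, hzA0⟩ : A0) = 2 := by
        refine orderOf_eq_prime ?_ ?_
        · rw [pow_two]
          exact Subtype.ext (Subtype.ext hz.2)
        · intro h
          exact hz.1 (congrArg (fun w : A0 => ((w : C) : H)) h)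
      rw [← h5]
      exact orderOf_dvd_natCard _
    obtain ⟨m, hm⟩ := h2
    refine ⟨m, hm, ?_⟩
    rw [← Nat.not_even_iff_odd]
    rintro ⟨k, hk⟩
    apply h4
    have h6 : Nat.card A0 ∣ Nat.card C := Subgroup.card_subgroup_dvd_card _
    refine dvd_trans ?_ h6
    rw [← hcard, hm, hk]
    exact ⟨k, by ring⟩
  · rintro c hc _ ⟨x, hx, rfl⟩
    have : (⟨c, hc⟩ : C) * x * (⟨c, hc⟩ : C)⁻¹ ∈ A0 :=
      (Subgroup.normal_centralizer (H := commutator C)).conj_mem x hx ⟨c, hc⟩
    exact ⟨_, this, rfl⟩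
  · intro c hc h
    refine ⟨⟨c, hc⟩, ?_, rfl⟩
    refine Subgroup.mem_centralizer_iff.2 fun y hy => ?_
    have := h (y : H) ⟨y, hcomm hy, rfl⟩
    exact Subtype.ext this.symm

end Pool.Agent.Lib.MP_1bbd88_ag.Q
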