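import Pool.Agent.Lib.MP_1bbd88_ag.Q.NS.NB

set_option autoImplicit false

namespace Pool.Agent.Lib.MP_1bbd88_ag.Q

open Module

variable {K : Type*} [Field K] [IsAlgClosed K] {V : Type*} [AddCommGroup V] [Module K V]
  [FiniteDimensional K V] {H : Type*} [Group H] {ρ : H →* Module.End K V}

omit [IsAlgClosed K] in
/-- the dimensions of different eigenspaces add up -/
theorem S9b_sum (f : Module.End K V) (S : Finset K) :
    ∑ μ ∈ S, finrank K (f.eigenspace μ) ≤ finrank K (⨆ μ ∈ S, f.eigenspace μ : Submodule K V) := by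
  classical
  induction S using Finset.induction_on with
  | empty => simp
  | insert μ S hμ ih =>
    rw [Finset.sum_insert hμ, Finset.iSup_insert]
    have hd : Disjoint (f.eigenspace μ) (⨆ ν ∈ S, f.eigenspace ν) :=
      f.eigenspaces_iSupIndep.disjoint_biSup (by simpa using hμ)
    have h := Submodule.finrank_sup_add_finrank_inf_eq (f.eigenspace μ)
      (⨆ ν ∈ S, f.eigenspace ν)
    rw [hd.eq_bot, finrank_bot, add_zero] at h
    rw [h]
    exact Nat.add_le_add_left ih _

omit [IsAlgClosed K] in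
theorem S9b_two (f : Module.End K V) (S : Finset K)
    (h : ∀ μ ∈ S, 2 ≤ finrank K (f.eigenspace μ)) : 2 * S.card ≤ finrank K V := by
  have h1 : S.card • 2 ≤ ∑ μ ∈ S, finrank K (f.eigenspace μ) := Finset.card_nsmul_le_sum _ _ _ h
  have h2 := S9b_sum f S
  have h3 := Submodule.finrank_le (⨆ μ ∈ S, f.eigenspace μ : Submodule K V)
  rw [smul_eq_mul] at h1
  omega

omit [IsAlgClosed K] [FiniteDimensional K V] in
/-- an eigenvector of `x` is an eigenvector of the powers of `x` -/
theorem S9b_pow {x : H} {v : V} {μ : K} (hv : ρ x v = μ • v) (n : ℕ) : ρ (x ^ n) v = μ ^ n • v := by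
  induction n with
  | zero => simp
  | succ n ih =>
    rw [pow_succ, map_mul, Module.End.mul_apply, hv, map_smul, ih, smul_smul, pow_succ, mul_comm]

/-- ROW 1bbd-S9b : `A` is commutative, normal and its own centraliser in `C`, and `C` commutes with
the non-commutative group `L` -/
theorem S9b (hρ : FR ρ) (A C L : Subgroup H) (hAC : A ≤ C)
    (hCL : ∀ c ∈ C, ∀ l ∈ L, c * l = l * c) (hA : Comm A) (hn : ∀ c ∈ C, ∀ x ∈ A, c * x * c⁻¹ ∈ A)
    (hself : ∀ c ∈ C, (∀ x ∈ A, c * x = x * c) → c ∈ A) (hL : ¬ Comm L) :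
    2 * Nat.card C ≤ finrank K V * Nat.card A := by
  classical
  have hfin : Finite H := NB_finite hρ
  have hfC : Fintype C := Fintype.ofFinite C
  have hfA : Fintype A := Fintype.ofFinite A
  have hV : Nontrivial V := hρ.ne
  -- a generator of `A`
  have hcyc := NB_cyc hρ A hA
  obtain ⟨g, hg⟩ := hcyc.exists_generator
  have hgen : ∀ x ∈ A, ∃ n : ℕ, (g : H) ^ n = x := by
    intro x hx
    have h1 := hg ⟨x, hx⟩
    rw [← mem_powers_iff_mem_zpowers] at h1
    obtain ⟨n, hn⟩ := h1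
    exact ⟨n, by simpa using congrArg Subtype.val hn⟩
  -- an eigenvector
  obtain ⟨μ0, hμ0⟩ := Module.End.exists_eigenvalue (ρ (g : H))
  obtain ⟨v0, hv0⟩ := hμ0.exists_hasEigenvector
  have hv1 : ρ (g : H) v0 = μ0 • v0 := hv0.apply_eq_smul
  have hv2 : v0 ≠ 0 := hv0.2
  have hchar : ∀ c : C, ∃ μ : K, ρ ((c : H)⁻¹ * g * c) v0 = μ • v0 := by
    intro c
    have h1 := hn (c : H)⁻¹ (C.inv_mem c.2) g g.2
    rw [inv_inv] at h1
    obtain ⟨n, hn⟩ := hgen _ h1
    exact ⟨μ0 ^ n, by rw [← hn]; exact S9b_pow hv1 n⟩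
  choose lam hlam using hchar
  -- `ρ c v0` is an eigenvector for `lam c`
  have hne : ∀ c : H, ρ c v0 ≠ 0 := by
    intro c h
    have h1 : ρ c⁻¹ (ρ c v0) = v0 := by
      rw [← Module.End.mul_apply, ← map_mul, inv_mul_cancel, map_one, Module.End.one_apply]
    rw [h, map_zero] at h1
    exact hv2 h1.symm
  have heig : ∀ c : C, ρ (g : H) (ρ (c : H) v0) = lam c • ρ (c : H) v0 := by
    intro c
    have e : (g : H) * c = c * ((c : H)⁻¹ * g * c) := by group
    rw [← Module.End.mul_apply, ← map_mul, e, map_mul, Module.End.mul_apply, hlam, map_smul]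
  set S : Finset K := Finset.univ.image lam with hS
  have h2 : ∀ μ ∈ S, 2 ≤ finrank K ((ρ (g : H)).eigenspace μ) := by
    intro μ hμ
    obtain ⟨c, -, rfl⟩ := Finset.mem_image.1 hμ
    by_contra hlt
    have hle : finrank K ((ρ (g : H)).eigenspace (lam c)) ≤ 1 := by omega
    obtain ⟨w, hw⟩ := finrank_le_one_iff.1 hle
    have hwc : ∃ w0 : V, w0 ≠ 0 ∧ ∀ l ∈ L, ∃ a : K, ρ l w0 = a • w0 := by
      refine ⟨ρ (c : H) v0, hne c, fun l hl => ?_⟩
      have hm1 : ρ (c : H) v0 ∈ (ρ (g : H)).eigenspace (lam c) :=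
        Module.End.mem_eigenspace_iff.2 (heig c)
      have hm2 : ρ l (ρ (c : H) v0) ∈ (ρ (g : H)).eigenspace (lam c) := by
        rw [Module.End.mem_eigenspace_iff, ← Module.End.mul_apply, ← map_mul,
          hCL g (hAC g.2) l hl, map_mul, Module.End.mul_apply, heig c, map_smul]
      obtain ⟨a1, ha1⟩ := hw ⟨_, hm1⟩
      obtain ⟨a2, ha2⟩ := hw ⟨_, hm2⟩
      have e1 : a1 • (w : V) = ρ (c : H) v0 := congrArg Subtype.val ha1
      have e2 : a2 • (w : V) = ρ l (ρ (c : H) v0) := congrArg Subtype.val ha2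
      have ha10 : a1 ≠ 0 := by
        rintro rfl
        rw [zero_smul] at e1
        exact hne c e1.symm
      refine ⟨a2 * a1⁻¹, ?_⟩
      rw [← e2, ← e1, smul_smul, mul_assoc, inv_mul_cancel₀ ha10, mul_one]
    obtain ⟨w0, hw0, hwL⟩ := hwc
    apply hL
    intro x hx y hy
    obtain ⟨a, ha⟩ := hwL x hx
    obtain ⟨b, hb⟩ := hwL y hy
    exact NB_comm hρ hw0 ha hb
  have h3 := S9b_two (ρ (g : H)) S h2
  -- the fibres
  have h4 : (Finset.univ : Finset C).card ≤ Nat.card A * S.card := by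
    rw [hS]
    refine Finset.card_le_mul_card_image _ _ ?_
    intro μ hμ
    obtain ⟨c0, -, rfl⟩ := Finset.mem_image.1 hμ
    have hmem : ∀ c : C, lam c = lam c0 → (c : H) * (c0 : H)⁻¹ ∈ A := by
      intro c hc
      have e1 : (c : H)⁻¹ * g * c = (c0 : H)⁻¹ * g * c0 := by
        refine NB_eq hρ hv2 ?_
        rw [hlam, hlam, hc]
      refine hself _ (C.mul_mem c.2 (C.inv_mem c0.2)) fun x hx => ?_
      have e2 : (c : H) * (c0 : H)⁻¹ * g = g * ((c : H) * (c0 : H)⁻¹) := by
        have e3 : (g : H) * c = c * ((c0 : H)⁻¹ * g * c0) := by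
          rw [← e1]
          group
        calc (c : H) * (c0 : H)⁻¹ * g = c * ((c0 : H)⁻¹ * g * c0) * (c0 : H)⁻¹ := by group
          _ = g * c * (c0 : H)⁻¹ := by rw [← e3]
          _ = g * ((c : H) * (c0 : H)⁻¹) := by group
      obtain ⟨n, rfl⟩ := hgen x hx
      exact (Commute.pow_right (show Commute ((c : H) * (c0 : H)⁻¹) (g : H) from e2) n).eq
    rw [Nat.card_eq_fintype_card, ← Finset.card_univ (α := A)]
    refine Finset.card_le_card_of_injOn
      (fun c => if h : lam c = lam c0 then ⟨(c : H) * (c0 : H)⁻¹, hmem c h⟩ else 1) ?_ ?_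
    · intro c _
      exact Finset.mem_coe.2 (Finset.mem_univ _)
    · intro c hc c' hc' he
      have hc1 : lam c = lam c0 := (Finset.mem_filter.1 (Finset.mem_coe.1 hc)).2
      have hc2 : lam c' = lam c0 := (Finset.mem_filter.1 (Finset.mem_coe.1 hc')).2
      simp only [hc1, hc2, dif_pos] at he
      have e1 := congrArg Subtype.val he
      exact Subtype.ext (mul_right_cancel e1)
  rw [Nat.card_eq_fintype_card (α := C), ← Finset.card_univ (α := C)]
  calc 2 * (Finset.univ : Finset C).card ≤ 2 * (Nat.card A * S.card) := Nat.mul_le_mul_left _ h4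
    _ = (2 * S.card) * Nat.card A := by ring
    _ ≤ finrank K V * Nat.card A := Nat.mul_le_mul_right _ h3

end Pool.Agent.Lib.MP_1bbd88_ag.Q
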