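import Pool.Agent.Lib.MP_1bbd88_ag.Q.NS.S8
import Pool.Agent.Lib.MP_1bbd88_ag.Q.NS.S9a
import Pool.Agent.Lib.MP_1bbd88_ag.Q.NS.S9b
import Pool.Agent.Lib.MP_1bbd88_ag.Q.NS.S10a
import Pool.Agent.Lib.MP_1bbd88_ag.Q.NS.S10b
import Pool.Agent.Lib.MP_1bbd88_ag.Q.NS.FS
import Pool.Agent.Lib.MP_1bbd88_ag.Q.NS.IDP

set_option autoImplicit false

namespace Pool.Agent.Lib.MP_1bbd88_ag.Q

open Module

variable {K : Type*} [Field K] [IsAlgClosed K] {V : Type*} [AddCommGroup V] [Module K V]
  [FiniteDimensional K V] {H : Type*} [Group H] {ρ : H →* Module.End K V}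

/-- the squares in a commutative group of order `2 m` with a unique involution -/
theorem NSF_squares {H : Type*} [Group H] [Finite H] (A : Subgroup H) (hA : Comm A) {z : H}
    (hz : Inv2 z) (hzA : z ∈ A) (huniq : ∀ w : H, w * w = 1 → w = 1 ∨ w = z) {m : ℕ}
    (hm : Nat.card A = 2 * m) : ∃ A' : Subgroup H, A' ≤ A ∧ Nat.card A' = m := by
  classical
  let f : A →* A :=
    { toFun := fun x => x * x
      map_one' := by simp
      map_mul' := fun x y => by
        have h : (y : H) * x = x * y := hA _ y.2 _ x.2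
        apply Subtype.ext
        push_cast
        calc (x : H) * y * (x * y) = x * (y * x) * y := by group
          _ = x * (x * y) * y := by rw [h]
          _ = x * x * (y * y) := by group }
  have hker : Nat.card f.ker = 2 := by
    rw [Nat.card_eq_two_iff]
    refine ⟨1, ⟨⟨z, hzA⟩, ?_⟩, ?_, ?_⟩
    · rw [MonoidHom.mem_ker]
      apply Subtype.ext
      exact hz.2
    · intro h
      apply hz.1
      have h2 := congrArg (fun x : f.ker => ((x : A) : H)) h
      simpa using h2.symm
    · ext x
      simp only [Set.mem_insert_iff, Set.mem_singleton_iff, Set.mem_univ, iff_true]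
      have hx := x.2
      rw [MonoidHom.mem_ker] at hx
      have hx' : ((x : A) : H) * ((x : A) : H) = 1 := congrArg (fun y : A => (y : H)) hx
      rcases huniq _ hx' with h | h
      · left
        apply Subtype.ext
        apply Subtype.ext
        exact h
      · right
        apply Subtype.ext
        apply Subtype.ext
        exact h
  refine ⟨f.range.map A.subtype, Subgroup.map_subtype_le _, ?_⟩
  have h1 : Nat.card (f.range.map A.subtype) = Nat.card f.range :=
    Nat.card_congr (f.range.equivMapOfInjective _ A.subtype_injective).symm.toEquiv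
  have h2 : Nat.card f.ker * Nat.card f.range = Nat.card A := by
    rw [← Subgroup.index_ker]
    exact Subgroup.card_mul_index _
  rw [h1]
  rw [hker, hm] at h2
  omega

/-- ROW 1bbd-NSF : a non-solvable group with a fixed point free action has many orthogonal
idempotents -/
theorem NSF (hρ : FR ρ) (hH : ¬ Group.IsSolvable H) :
    ∃ (k : ℕ) (e : Fin k → MonoidAlgebra K H), Idem K e ∧
      7 * Nat.card H ≤ 48 * ((finrank K V - 1) * (k - 1)) := by
  classical
  have hfin : Finite H := NB_finite hρ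
  obtain ⟨z, a, u, u', hz, ha1, ha, hu, hu', hs⟩ := S8 hρ hH
  obtain ⟨h120, h30, h21, hord⟩ := S6a hρ hz ha1 ha hu hu' hs
  have hS10a := S10a hρ hz ha1 ha hu hu' hs
  have hS10b := S10b hρ hz ha1 ha hu hu' hs
  set L := Subgroup.closure {a, u, u'} with hL
  set C := Subgroup.centralizer (L : Set H) with hC
  have haL : a ∈ L := Subgroup.subset_closure (by simp)
  have huL : u ∈ L := Subgroup.subset_closure (by simp)
  have hzL : z ∈ L := by
    rw [← hu.1]
    exact L.mul_mem huL huL
  obtain ⟨A, hAC, hAc, hzA, ⟨m, hm, hmo⟩, hAn, hAs⟩ := S9a hρ hz ha1 ha hu haL huL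
  have hLnc : ¬ Comm L := fun h => TQ_ncomm hρ hz ha1 ha hu (h a haL u huL)
  have hcent : ∀ c ∈ C, ∀ l ∈ L, c * l = l * c := fun c hc l hl =>
    (Subgroup.mem_centralizer_iff.1 hc l hl).symm
  have hCA := S9b hρ A C L hAC hcent hAc hAn hAs hLnc
  -- idempotents of `K[L]`
  obtain ⟨k0, e0, he0, hk0⟩ := FS (K := K) (F := L)
    (NB_dvd hρ (Subgroup.card_subgroup_dvd_card L)) (NB_two hρ hz) (z := ⟨z, hzL⟩)
    (Subtype.ext hz.2) (fun g => Subtype.ext (NB_cen hρ hz g.1))
  have hk30 : 30 ≤ k0 := by
    rw [← h30]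
    refine le_trans (le_of_eq ?_) hk0
    refine Nat.card_congr ⟨fun g => ⟨⟨g.1, g.2.1⟩, Subtype.ext g.2.2⟩,
      fun g => ⟨g.1.1, g.1.2, congrArg Subtype.val g.2⟩, fun g => rfl, fun g => rfl⟩
  -- the odd part of `A`
  obtain ⟨A', hA'A, hA'm⟩ := NSF_squares A hAc hz hzA (fun w hw => NB_uniq hρ hz hw) hm
  have hA'c : Comm A' := fun x hx y hy => hAc x (hA'A hx) y (hA'A hy)
  have hcomm : ∀ x ∈ L, ∀ y ∈ A', x * y = y * x := fun x hx y hy =>
    (hcent y (hAC (hA'A hy)) x hx).symm
  have hodd : ∀ x ∈ A', Odd (orderOf x) := by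
    intro x hx
    have h1 : orderOf x ∣ Nat.card A' := by
      have := orderOf_dvd_natCard (⟨x, hx⟩ : A')
      rwa [Subgroup.orderOf_mk] at this
    rw [hA'm] at h1
    exact Odd.of_dvd_nat hmo h1
  have hdisj : L ⊓ A' = ⊥ := by
    rw [Subgroup.eq_bot_iff_forall]
    rintro x ⟨hxL, hxA⟩
    have hxa : a * x = x * a := hcomm a haL x hxA
    have hxu : u * x = x * u := hcomm u huL x hxA
    have ho := hodd x hxA
    have hdv := hord x hxL
    have hpos : 0 < orderOf x := orderOf_pos x
    have hcase : orderOf x = 1 ∨ orderOf x = 3 ∨ orderOf x = 5 := by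
      have hle : orderOf x ≤ 10 := by
        rcases hdv with h | h | h
        · exact (Nat.le_of_dvd (by norm_num) h).trans (by norm_num)
        · exact (Nat.le_of_dvd (by norm_num) h).trans (by norm_num)
        · exact Nat.le_of_dvd (by norm_num) h
      generalize orderOf x = t at *
      interval_cases t <;> revert ho hdv <;> decide
    rcases hcase with h | h | h
    · exact orderOf_eq_one_iff.1 h
    · exfalso
      have hx3 : x ^ 3 = 1 := by
        rw [← h]
        exact pow_orderOf_eq_one x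
      have hx1 : x ≠ 1 := by
        rintro rfl
        rw [orderOf_one] at h
        omega
      apply TQ_ncomm hρ hz ha1 ha hu
      rcases NB_ord3 hρ ha1 ha hx1 hx3 hxa with h5 | h5
      · rw [← h5]
        exact hxu.symm
      · have h6 : a = x⁻¹ := by rw [h5, inv_inv]
        rw [h6]
        have h7 : Commute u x := hxu
        exact (h7.inv_right).symm
    · exfalso
      have hao : orderOf a = 3 := orderOf_eq_prime ha ha1
      have h7 : Commute a x := hxa
      have h8 : orderOf (a * x) = 15 := by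
        rw [h7.orderOf_mul_eq_mul_orderOf_of_coprime (by rw [hao, h]; norm_num), hao, h]
      have h9 := hord (a * x) (L.mul_mem haL hxL)
      rw [h8] at h9
      revert h9
      decide
  obtain ⟨e, he⟩ := IDP L A' hcomm hdisj hA'c
    (NB_dvd hρ (Subgroup.card_subgroup_dvd_card A')) e0 he0
  refine ⟨_, e, he, ?_⟩
  rw [hA'm]
  set n := finrank K V with hn
  have hm1 : 1 ≤ m := hmo.pos
  have hAleC : Nat.card A ≤ Nat.card C := Subgroup.card_le_of_le hAC
  have hApos : 0 < Nat.card A := Nat.card_pos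
  have hn2 : 2 ≤ n := by
    by_contra hcon
    have h1 : n ≤ 1 := by omega
    have h2 : n * Nat.card A ≤ 1 * Nat.card A := Nat.mul_le_mul_right _ h1
    omega
  have hkm : 30 * m ≤ k0 * m := Nat.mul_le_mul_right _ hk30
  rcases Nat.lt_or_ge n 3 with h3 | h3
  · have hn' : n = 2 := by omega
    have h1 := hS10a.2 (hS10b (by omega))
    rw [hn'] at hCA ⊢
    omega
  · obtain ⟨t, ht⟩ : ∃ t, n = t + 3 := ⟨n - 3, by omega⟩
    obtain ⟨s, hs'⟩ : ∃ s, m = s + 1 := ⟨m - 1, by omega⟩
    have h1 := hS10a.1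
    have h4 : Nat.card C ≤ n * m := by
      have : 2 * Nat.card C ≤ 2 * (n * m) := by
        calc 2 * Nat.card C ≤ n * Nat.card A := hCA
          _ = 2 * (n * m) := by rw [hm]; ring
      omega
    have h5 : 7 * Nat.card H ≤ 840 * (n * m) := by omega
    refine h5.trans ?_
    have h6 : 30 * s + 29 ≤ k0 * m - 1 := by omega
    have h7 : n - 1 = t + 2 := by omega
    rw [h7]
    calc 840 * (n * m) ≤ 48 * ((t + 2) * (30 * s + 29)) := by
          rw [ht, hs']
          nlinarith [Nat.zero_le (t * s)]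
      _ ≤ 48 * ((t + 2) * (k0 * m - 1)) := by
          exact Nat.mul_le_mul_left _ (Nat.mul_le_mul_left _ h6)

end Pool.Agent.Lib.MP_1bbd88_ag.Q
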