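import Pool.Agent.Lib.MP_1bbd88_ag.Q.NS.GAct
import Pool.Agent.Lib.MP_1bbd88_ag.Q.QN

set_option autoImplicit false

namespace Pool.Agent.Lib.MP_1bbd88_ag.Q

open Module MvPolynomial

variable {K : Type*} [Field K] {d : ℕ}

/-! ROW 1bbd-QI1 -/

theorem QI1_inv_mul (H : Subgroup (GL (Fin d) K)) (x : MonoidAlgebra K H)
    (r f : MvPolynomial (Fin d) K) (hr : r ∈ inv H) : gact H x (r * f) = r * gact H x f := by
  induction x using MonoidAlgebra.induction_linear with
  | zero => simp [gact_zero]
  | add a b ha hb => rw [gact_add, LinearMap.add_apply, LinearMap.add_apply, ha, hb, mul_add]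
  | single g c =>
    rw [gact_single]
    show c • lin g.1.val (r * f) = r * (c • lin g.1.val f)
    have : lin g.1.val r = r := hr g.1 g.2
    rw [map_mul, this, mul_smul_comm]

theorem QI1_hc (H : Subgroup (GL (Fin d) K)) (x : MonoidAlgebra K H)
    (f : MvPolynomial (Fin d) K) (n : ℕ) :
    homogeneousComponent n (gact H x f) = gact H x (homogeneousComponent n f) := by
  induction x using MonoidAlgebra.induction_linear with
  | zero => simp [gact_zero]
  | add a b ha hb => rw [gact_add, LinearMap.add_apply, LinearMap.add_apply, map_add, ha, hb]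
  | single g c =>
    rw [gact_single]
    show homogeneousComponent n (c • lin g.1.val f) = c • lin g.1.val (homogeneousComponent n f)
    rw [map_smul, QN_hc_lin]

theorem QI1_mem_span (H : Subgroup (GL (Fin d) K)) (x : MonoidAlgebra K H)
    (u : MvPolynomial (Fin d) K) (hu : u ∈ J H) :
    gact H x u ∈ Submodule.span K {y | ∃ r ∈ inv H, constantCoeff r = 0 ∧
      ∃ v ∈ LinearMap.range (gact H x), y = r * v} := by
  have key : ∀ p : MvPolynomial (Fin d) K, gact H x (p * u) ∈
      Submodule.span K {y | ∃ r ∈ inv H, constantCoeff r = 0 ∧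
        ∃ v ∈ LinearMap.range (gact H x), y = r * v} := by
    refine Submodule.span_induction
      (p := fun u _ => ∀ p : MvPolynomial (Fin d) K, gact H x (p * u) ∈
        Submodule.span K {y | ∃ r ∈ inv H, constantCoeff r = 0 ∧
          ∃ v ∈ LinearMap.range (gact H x), y = r * v})
      ?_ ?_ ?_ ?_ hu
    · intro r hr p
      rw [mul_comm, QI1_inv_mul H x r p hr.1]
      exact Submodule.subset_span ⟨r, hr.1, hr.2, _, ⟨p, rfl⟩, rfl⟩
    · intro p
      rw [mul_zero, map_zero]
      exact Submodule.zero_mem _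
    · intro y z _ _ hy hz p
      rw [mul_add, map_add]
      exact Submodule.add_mem _ (hy p) (hz p)
    · intro a y _ hy p
      rw [smul_eq_mul, ← mul_assoc]
      exact hy (p * a)
  have := key 1
  rwa [one_mul] at this

theorem QI1_J (H : Subgroup (GL (Fin d) K)) (x : MonoidAlgebra K H)
    (u : MvPolynomial (Fin d) K) (hu : u ∈ J H) : gact H x u ∈ J H := by
  have h := QI1_mem_span H x u hu
  have h2 : Submodule.span K {y | ∃ r ∈ inv H, constantCoeff r = 0 ∧
      ∃ v ∈ LinearMap.range (gact H x), y = r * v} ≤ (J H).restrictScalars K := by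
    rw [Submodule.span_le]
    rintro y ⟨r, hr, hr0, v, -, rfl⟩
    exact Ideal.mul_mem_right _ _ (Ideal.subset_span ⟨hr, hr0⟩)
  exact h2 h

theorem QI1_idem (H : Subgroup (GL (Fin d) K)) {k : ℕ}
    (e : Fin k → MonoidAlgebra K H) (he : Idem K e) (i : Fin k) : e i * e i = e i := by
  have h1 : e i * ∑ j, e j = e i := by rw [he.sum, mul_one]
  rw [Finset.mul_sum, Finset.sum_eq_single i] at h1
  · exact h1
  · intro j _ hj
    exact he.orth i j hj.symm
  · intro h
    exact absurd (Finset.mem_univ i) h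

theorem QI1_comp (H : Subgroup (GL (Fin d) K)) (x y : MonoidAlgebra K H)
    (f : MvPolynomial (Fin d) K) : gact H y (gact H x f) = gact H (x * y) f := by
  rw [gact_mul]
  rfl

theorem sum_mI_le (H : Subgroup (GL (Fin d) K)) [Finite H] {k : ℕ}
    (e : Fin k → MonoidAlgebra K H) (he : Idem K e) : ∑ i, mI H (e i) ≤ N H := by
  classical
  let q : MvPolynomial (Fin d) K →ₗ[K] MvPolynomial (Fin d) K ⧸ J H :=
    (Ideal.Quotient.mkₐ K (J H)).toLinearMap
  have hq : ∀ u, q u = 0 ↔ u ∈ J H := fun u => Ideal.Quotient.eq_zero_iff_mem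
  let W : Fin k → Submodule K (MvPolynomial (Fin d) K ⧸ J H) := fun i =>
    (LinearMap.range (gact H (e i))).map q
  let φ : ((i : Fin k) → W i) →ₗ[K] (MvPolynomial (Fin d) K ⧸ J H) :=
    ∑ i : Fin k, (W i).subtype ∘ₗ LinearMap.proj i
  have hφ : ∀ x, φ x = ∑ i : Fin k, (x i : MvPolynomial (Fin d) K ⧸ J H) := by
    intro x
    simp [φ, LinearMap.sum_apply]
  have hinj : Function.Injective φ := by
    rw [injective_iff_map_eq_zero]
    intro x hx
    rw [hφ] at hx
    have hch : ∀ i, ∃ f, q (gact H (e i) f) = (x i : MvPolynomial (Fin d) K ⧸ J H) := by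
      intro i
      obtain ⟨y, ⟨f, rfl⟩, hy⟩ := (x i).2
      exact ⟨f, hy⟩
    choose f hf using hch
    have h1 : ∑ i, gact H (e i) (f i) ∈ J H := by
      rw [← hq, map_sum, ← hx]
      exact Finset.sum_congr rfl fun i _ => hf i
    funext j
    have h2 := QI1_J H (e j) _ h1
    rw [map_sum, Finset.sum_eq_single j] at h2
    · rw [QI1_comp, QI1_idem H e he] at h2
      apply Subtype.ext
      rw [← hf j]
      exact (hq _).2 h2
    · intro i _ hij
      rw [QI1_comp, he.orth i j hij, gact_zero]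
      rfl
    · intro h
      exact absurd (Finset.mem_univ j) h
  have h3 := LinearMap.finrank_le_finrank_of_injective hinj
  rw [Module.finrank_pi_fintype] at h3
  exact h3

theorem QI1_basis (H : Subgroup (GL (Fin d) K)) [Finite H] (e : MonoidAlgebra K H) :
    ∃ (f : Fin (mI H e) → MvPolynomial (Fin d) K) (n : Fin (mI H e) → ℕ),
      (∀ j, f j ∈ LinearMap.range (gact H e)) ∧ (∀ j, (f j).IsHomogeneous (n j)) ∧
      ∀ u ∈ LinearMap.range (gact H e),
        ∃ c : Fin (mI H e) → K, u - ∑ j, C (c j) * f j ∈ J H := by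
  classical
  set M : Submodule K (MvPolynomial (Fin d) K) := LinearMap.range (gact H e) with hM
  have hMc : ∀ f ∈ M, ∀ i, homogeneousComponent i f ∈ M := by
    rintro f ⟨g, rfl⟩ i
    exact ⟨homogeneousComponent i g, (QI1_hc H e g i).symm⟩
  set q : MvPolynomial (Fin d) K →ₗ[K] MvPolynomial (Fin d) K ⧸ J H :=
    (Ideal.Quotient.mkₐ K (J H)).toLinearMap with hq
  set S : Set (MvPolynomial (Fin d) K ⧸ J H) :=
    {y | ∃ f ∈ M, ∃ n, f.IsHomogeneous n ∧ q f = y} with hS
  have hspan : Submodule.span K S = M.map q := by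
    apply le_antisymm
    · rw [Submodule.span_le]
      rintro y ⟨f, hf, n, -, rfl⟩
      exact Submodule.mem_map_of_mem hf
    · rintro y ⟨f, hf, rfl⟩
      rw [← sum_homogeneousComponent f, map_sum]
      refine Submodule.sum_mem _ fun i _ => Submodule.subset_span ?_
      exact ⟨_, hMc f hf i, i, homogeneousComponent_isHomogeneous i f, rfl⟩
  obtain ⟨b, hbS, hb, hli⟩ := exists_linearIndependent K S
  have hbfin : b.Finite := hli.setFinite
  haveI : Fintype b := hbfin.fintype
  have hcard : Fintype.card b = mI H e := by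
    have h1 := finrank_span_set_eq_card hli
    rw [mI, ← hq, ← hM, ← hspan, ← hb, h1, Set.toFinset_card]
  let E : Fin (mI H e) ≃ b := (Fintype.equivFinOfCardEq hcard).symm
  have hch : ∀ j : Fin (mI H e), ∃ f ∈ M, ∃ n, f.IsHomogeneous n ∧ q f = (E j).1 :=
    fun j => hbS (E j).2
  choose f hf n hn hqf using hch
  refine ⟨f, n, hf, hn, fun u hu => ?_⟩
  have h2 : q u ∈ Submodule.span K (Set.range fun j => q (f j)) := by
    have h3 : (Set.range fun j => q (f j)) = b := by
      ext y
      constructor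
      · rintro ⟨j, rfl⟩
        simp only [hqf]
        exact (E j).2
      · intro hy
        refine ⟨E.symm ⟨y, hy⟩, ?_⟩
        simp only [hqf]
        rw [Equiv.apply_symm_apply]
    rw [h3, hb, hspan]
    exact Submodule.mem_map_of_mem hu
  rw [Submodule.mem_span_range_iff_exists_fun] at h2
  obtain ⟨c, hc⟩ := h2
  refine ⟨c, ?_⟩
  have h4 : q (u - ∑ j, C (c j) * f j) = 0 := by
    rw [map_sub, map_sum, ← hc, sub_eq_zero]
    refine Finset.sum_congr rfl fun j _ => ?_
    rw [← MvPolynomial.smul_eq_C_mul, map_smul]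
  have h5 : Ideal.Quotient.mk (J H) (u - ∑ j, C (c j) * f j) = 0 := h4
  exact Ideal.Quotient.eq_zero_iff_mem.mp h5

/-- homogeneous generators of `P · e` over the invariants of `H` -/
theorem mI_gens (H : Subgroup (GL (Fin d) K)) [Finite H] (e : MonoidAlgebra K H) (he : e * e = e) :
    ∃ (f : Fin (mI H e) → MvPolynomial (Fin d) K) (n : Fin (mI H e) → ℕ),
      (∀ j, gact H e (f j) = f j) ∧ (∀ j, (f j).IsHomogeneous (n j)) ∧
      ∀ u, gact H e u = u → ∃ r : Fin (mI H e) → MvPolynomial (Fin d) K,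
        (∀ j, r j ∈ inv H) ∧ u = ∑ j, r j * f j := by
  have hfix : ∀ u ∈ LinearMap.range (gact H e), gact H e u = u := by
    rintro u ⟨v, rfl⟩
    rw [QI1_comp, he]
  obtain ⟨f, n, hf, hn, hfu⟩ := QI1_basis H e
  refine ⟨f, n, fun j => hfix _ (hf j), hn, ?_⟩
  have hMc : ∀ f ∈ LinearMap.range (gact H e), ∀ i,
      homogeneousComponent i f ∈ LinearMap.range (gact H e) := by
    rintro f ⟨g, rfl⟩ i
    exact ⟨homogeneousComponent i g, (QI1_hc H e g i).symm⟩
  have hN := nakayama H (LinearMap.range (gact H e)) hMc f n hn hf (fun u hu => ?_)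
  · intro u hu
    exact hN u ⟨u, hu⟩
  · obtain ⟨c, hcu⟩ := hfu u hu
    refine ⟨c, ?_⟩
    have hmem : u - ∑ j, C (c j) * f j ∈ LinearMap.range (gact H e) := by
      refine Submodule.sub_mem _ hu (Submodule.sum_mem _ fun j _ => ?_)
      rw [← MvPolynomial.smul_eq_C_mul]
      exact Submodule.smul_mem _ _ (hf j)
    have h := QI1_mem_span H e _ hcu
    rwa [hfix _ hmem] at h

end Pool.Agent.Lib.MP_1bbd88_ag.Q
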