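import Pool.Agent.Lib.MP_1bbd88_ag.Q.NS.GAct

set_option autoImplicit false

namespace Pool.Agent.Lib.MP_1bbd88_ag.Q

open Module MvPolynomial

variable {K : Type*} [Field K] {d : ℕ}

/-! ROW 1bbd-QI2 -/

theorem QI2_card {H : Type*} [Group H] [Finite H] :
    finrank K (MonoidAlgebra K H) = Nat.card H := by
  have := Fintype.ofFinite H
  rw [Nat.card_eq_fintype_card, ← Module.finrank_fintype_fun_eq_card K]
  exact LinearEquiv.finrank_eq
    ((MonoidAlgebra.coeffLinearEquiv K).trans (Finsupp.linearEquivFunOnFinite K K H))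

theorem sum_rI {H : Type*} [Group H] [Finite H] {k : ℕ} (e : Fin k → MonoidAlgebra K H)
    (he : Idem K e) : ∑ i, rI (e i) = Nat.card H := by
  classical
  have hid : ∀ i, e i * e i = e i := by
    intro i
    have h1 : e i * ∑ j, e j = e i := by rw [he.sum, mul_one]
    rw [Finset.mul_sum, Finset.sum_eq_single i] at h1
    · exact h1
    · intro j _ hj
      exact he.orth i j (Ne.symm hj)
    · intro h
      exact absurd (Finset.mem_univ i) h
  let φ : MonoidAlgebra K H ≃ₗ[K] (∀ i, LinearMap.range (LinearMap.mulRight K (e i))) :=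
    { toFun := fun x i => ⟨x * e i, x, rfl⟩
      map_add' := fun x y => by
        funext i
        apply Subtype.ext
        simp [add_mul]
      map_smul' := fun c x => by
        funext i
        apply Subtype.ext
        simp
      invFun := fun y => ∑ i, (y i).1
      left_inv := fun x => by
        simp only
        rw [← Finset.mul_sum, he.sum, mul_one]
      right_inv := fun y => by
        funext i
        apply Subtype.ext
        simp only
        rw [Finset.sum_mul, Finset.sum_eq_single i]
        · obtain ⟨x, hx⟩ := (y i).2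
          rw [← hx]
          simp [mul_assoc, hid i]
        · intro j _ hj
          obtain ⟨x, hx⟩ := (y j).2
          rw [← hx]
          simp [mul_assoc, he.orth j i hj]
        · intro h
          exact absurd (Finset.mem_univ i) h }
  rw [← QI2_card (K := K), φ.finrank_eq, Module.finrank_pi_fintype]
  rfl

/-- interpolation -/
theorem QI2_poly {H : Type*} [Finite H] (p : H → Fin d → K) (hp : Function.Injective p)
    (φ : H → K) : ∃ f : MvPolynomial (Fin d) K, ∀ h, eval (p h) f = φ h := by
  classical
  have := Fintype.ofFinite H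
  have h1 : ∀ h, ∃ f : MvPolynomial (Fin d) K, eval (p h) f ≠ 0 ∧
      ∀ h', h' ≠ h → eval (p h') f = 0 := by
    intro h
    have h2 : ∀ h' : H, ∃ f : MvPolynomial (Fin d) K, eval (p h) f ≠ 0 ∧
        (h' ≠ h → eval (p h') f = 0) := by
      intro h'
      by_cases hh : h' = h
      · exact ⟨1, by simp, fun h3 => absurd hh h3⟩
      · obtain ⟨j, hj⟩ := Function.ne_iff.1 (fun h3 => hh (hp h3))
        refine ⟨X j - C (p h' j), ?_, ?_⟩
        · simp only [map_sub, eval_X, eval_C]
          exact sub_ne_zero.2 (Ne.symm hj)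
        · intro _
          simp
    choose F hF1 hF2 using h2
    refine ⟨∏ h', F h', ?_, ?_⟩
    · rw [map_prod]
      exact Finset.prod_ne_zero_iff.2 fun h' _ => hF1 h'
    · intro h' hh
      rw [map_prod]
      exact Finset.prod_eq_zero (Finset.mem_univ h') (hF2 h' hh)
  choose F hF1 hF2 using h1
  refine ⟨∑ h, C (φ h / eval (p h) (F h)) * F h, fun h => ?_⟩
  rw [map_sum, Finset.sum_eq_single h]
  · rw [map_mul, eval_C, div_mul_cancel₀ _ (hF1 h)]
  · intro h' _ hh
    rw [map_mul, hF2 h' h (Ne.symm hh), mul_zero]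
  · intro hh
    exact absurd (Finset.mem_univ h) hh

/-- independent coordinates -/
theorem QI2_coord {H V : Type*} [AddCommGroup V] [Module K V] [Module.Finite K V]
    (v : H → V →ₗ[K] K) (hv : ∀ x, (∀ h, v h x = 0) → x = 0) :
    ∃ τ : Fin (finrank K V) → H, ∀ c : Fin (finrank K V) → K, ∃ x, ∀ i, v (τ i) x = c i := by
  obtain ⟨κ, a, ha, hspan, hli⟩ := exists_linearIndependent' K v
  have hκ : Finite κ := hli.finite
  have := Fintype.ofFinite κ
  let L : V →ₗ[K] (κ → K) := LinearMap.pi fun i => v (a i)
  have hL : Function.Injective L := by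
    rw [← LinearMap.ker_eq_bot, LinearMap.ker_eq_bot']
    intro x hx
    apply hv
    intro h
    have h1 : v h ∈ Submodule.span K (Set.range (v ∘ a)) := by
      rw [hspan]
      exact Submodule.subset_span ⟨h, rfl⟩
    refine Submodule.span_induction (p := fun g _ => g x = 0) ?_ ?_ ?_ ?_ h1
    · rintro _ ⟨i, rfl⟩
      exact congrFun hx i
    · rfl
    · intro f g _ _ hf hg
      rw [LinearMap.add_apply, hf, hg, add_zero]
    · intro c f _ hf
      rw [LinearMap.smul_apply, hf, smul_zero]
  have h1 : finrank K V ≤ Fintype.card κ := by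
    have := LinearMap.finrank_le_finrank_of_injective hL
    rwa [Module.finrank_fintype_fun_eq_card] at this
  have h2 : Fintype.card κ ≤ finrank K V := by
    have := hli.fintype_card_le_finrank
    rwa [Subspace.dual_finrank_eq] at this
  have h3 : Fintype.card κ = finrank K V := le_antisymm h2 h1
  have hs : Function.Surjective L := by
    refine (LinearMap.injective_iff_surjective_of_finrank_eq_finrank ?_).1 hL
    rw [Module.finrank_fintype_fun_eq_card, h3]
  let E : κ ≃ Fin (finrank K V) := Fintype.equivFinOfCardEq h3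
  refine ⟨fun i => a (E.symm i), fun c => ?_⟩
  obtain ⟨x, hx⟩ := hs fun i => c (E i)
  refine ⟨x, fun i => ?_⟩
  have := congrFun hx (E.symm i)
  simpa [L] using this

theorem QI2_eval (H : Subgroup (GL (Fin d) K)) [Fintype H] (x : MonoidAlgebra K H)
    (f : MvPolynomial (Fin d) K) (w : Fin d → K) :
    eval w (gact H x f) = ∑ g : H, x.coeff g * eval (g.1.val.mulVec w) f := by
  classical
  induction x using MonoidAlgebra.induction_on with
  | of g =>
    rw [MonoidAlgebra.of_apply, gact_single]
    simp [eval_lin, Finsupp.single_apply]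
  | add x y hx hy =>
    rw [gact_add]
    simp [hx, hy, add_mul, Finset.sum_add_distrib]
  | smul c x hx =>
    have h1 : gact H (c • x) = c • gact H x := by
      rw [gact, map_smul, MulOpposite.unop_smul]
      rfl
    rw [h1]
    simp [hx, Finset.mul_sum, mul_assoc]

/-- interpolation on a free orbit -/
theorem rI_interp (H : Subgroup (GL (Fin d) K)) [Finite H] (e : MonoidAlgebra K H)
    (he : e * e = e) :
    ∃ τ : Fin (rI e) → H, ∀ w : Fin d → K, (∀ h ∈ H, h.val.mulVec w = w → h = 1) →
      ∀ c : Fin (rI e) → K, ∃ f, gact H e f = f ∧ ∀ i, eval ((τ i).1.val.mulVec w) f = c i := by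
  classical
  have := Fintype.ofFinite H
  have hfin : Module.Finite K (MonoidAlgebra K H) := inferInstance
  obtain ⟨τ, hτ⟩ := QI2_coord (K := K) (V := LinearMap.range (LinearMap.mulRight K e))
    (fun h : H => (Finsupp.lapply h).comp (((MonoidAlgebra.coeffLinearEquiv K).toLinearMap).comp
      (Submodule.subtype _))) (by
      intro x hx
      apply Subtype.ext
      apply MonoidAlgebra.ext
      apply Finsupp.ext
      exact hx)
  refine ⟨fun i => (τ i)⁻¹, fun w hw c => ?_⟩
  obtain ⟨⟨x, y, hy⟩, hx⟩ := hτ c
  have hxe : x * e = x := by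
    rw [← hy]
    simp [mul_assoc, he]
  have hinj : Function.Injective fun h : H => h.1.val.mulVec w := by
    intro g h hgh
    have h1 : (h⁻¹ * g).1.val.mulVec w = w := by
      simp only [Subgroup.coe_mul, Units.val_mul] at hgh ⊢
      rw [← Matrix.mulVec_mulVec, hgh, Matrix.mulVec_mulVec, ← Units.val_mul, ← Subgroup.coe_mul,
        inv_mul_cancel]
      simp
    have h2 := hw _ (h⁻¹ * g).2 h1
    have h3 : h⁻¹ * g = 1 := Subtype.ext h2
    exact (inv_mul_eq_one.1 h3).symm
  obtain ⟨f0, hf0⟩ := QI2_poly _ hinj fun h => x.coeff h⁻¹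
  refine ⟨gact H e f0, ?_, fun i => ?_⟩
  · rw [← Module.End.mul_apply, ← gact_mul, he]
  · rw [QI2_eval]
    have h1 : ∀ g : H, eval (g.1.val.mulVec ((τ i)⁻¹.1.val.mulVec w)) f0
        = x.coeff (τ i * g⁻¹) := by
      intro g
      rw [Matrix.mulVec_mulVec, ← Units.val_mul, ← Subgroup.coe_mul, hf0]
      simp
    simp only [h1]
    have h2 : (x * e).coeff (τ i) = c i := by
      rw [hxe]
      exact hx i
    rw [← h2, MonoidAlgebra.coeff_mul_apply_right, Finsupp.sum_fintype]
    · exact Finset.sum_congr rfl fun g _ => mul_comm _ _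
    · intro g
      exact mul_zero _

end Pool.Agent.Lib.MP_1bbd88_ag.Q
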