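import Pool.Agent.Lib.MP_1bbd88_ag.Q.QC
import Pool.Agent.Lib.MP_1bbd88_ag.Q.NS.QI1
import Pool.Agent.Lib.MP_1bbd88_ag.Q.NS.QI2

set_option autoImplicit false

namespace Pool.Agent.Lib.MP_1bbd88_ag.Q

open Module MvPolynomial

variable {K : Type*} [Field K] {d : ℕ}

/-! ROW 1bbd-QDI -/

theorem QDI_rows (H : Subgroup (GL (Fin d) K)) (e : MonoidAlgebra K H) {m δ : ℕ}
    (f : Fin m → MvPolynomial (Fin d) K) (τ : Fin δ → H)
    (hgen : ∀ u, gact H e u = u → ∃ r : Fin m → MvPolynomial (Fin d) K,
        (∀ j, r j ∈ inv H) ∧ u = ∑ j, r j * f j)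
    (w : Fin d → K)
    (hint : ∀ c : Fin δ → K, ∃ f, gact H e f = f ∧ ∀ i, eval ((τ i).1.val.mulVec w) f = c i)
    (c : Fin δ → K) (hc : ∀ j, ∑ i, c i * eval ((τ i).1.val.mulVec w) (f j) = 0) : c = 0 := by
  classical
  funext i0
  obtain ⟨g, hg, hgi⟩ := hint (fun i => if i = i0 then 1 else 0)
  obtain ⟨r, hr, hgr⟩ := hgen g hg
  have hinv : ∀ i j, eval ((τ i).1.val.mulVec w) (r j) = eval w (r j) := by
    intro i j
    rw [← eval_lin, hr j (τ i).1 (τ i).2]
  have h1 : ∑ i, c i * eval ((τ i).1.val.mulVec w) g = c i0 := by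
    simp [hgi]
  have h2 : ∑ i, c i * eval ((τ i).1.val.mulVec w) g = 0 := by
    calc ∑ i, c i * eval ((τ i).1.val.mulVec w) g
        = ∑ i, ∑ j, eval w (r j) * (c i * eval ((τ i).1.val.mulVec w) (f j)) := by
          refine Finset.sum_congr rfl fun i _ => ?_
          rw [hgr, map_sum, Finset.mul_sum]
          refine Finset.sum_congr rfl fun j _ => ?_
          rw [map_mul, hinv]
          ring
      _ = ∑ j, ∑ i, eval w (r j) * (c i * eval ((τ i).1.val.mulVec w) (f j)) :=
          Finset.sum_comm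
      _ = 0 := by
          refine Finset.sum_eq_zero fun j _ => ?_
          rw [← Finset.mul_sum, hc j, mul_zero]
  rw [← h1, h2]
  rfl

theorem QDI_le {m δ : ℕ} (M : Fin δ → Fin m → K)
    (h : ∀ c : Fin δ → K, (∀ j, ∑ i, c i * M i j = 0) → c = 0) : δ ≤ m := by
  have hli : LinearIndependent K M := by
    rw [Fintype.linearIndependent_iff]
    intro g hg i
    have := h g (fun j => by
      have := congrFun hg j
      simpa using this)
    rw [this]
    rfl
  have := hli.fintype_card_le_finrank
  simpa using this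

theorem QDI_homog {f : MvPolynomial (Fin d) K} {e : ℕ} (hf : f.IsHomogeneous e)
    (h0 : eval 0 f = 0) : f.IsHomogeneous (max e 1) := by
  rcases Nat.eq_zero_or_pos e with he | he
  · subst he
    have h1 : f = C (coeff 0 f) := by
      have : f.totalDegree = 0 := Nat.le_zero.1 hf.totalDegree_le
      exact totalDegree_eq_zero_iff_eq_C.1 this
    have h2 : f = 0 := by
      rw [h1, eval_C] at h0
      rw [h1, h0, C_0]
    rw [h2]
    exact isHomogeneous_zero _ _ _
  · rwa [max_eq_left he]

theorem QDI_complement (H : Subgroup (GL (Fin d) K)) (d' : ℕ)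
    (hd' : finrank K (Vfix H) + d' = d) :
    ∃ B : (Fin d' → K) →ₗ[K] (Fin d → K), ∀ w, w ≠ 0 → B w ∉ Vfix H := by
  obtain ⟨W, hW⟩ := Submodule.exists_isCompl (Vfix H)
  have h1 : finrank K W = d' := by
    have := Submodule.finrank_add_eq_of_isCompl hW
    rw [Module.finrank_fin_fun] at this
    omega
  have h2 : finrank K (Fin d' → K) = finrank K W := by rw [h1, Module.finrank_fin_fun]
  let e := LinearEquiv.ofFinrankEq (Fin d' → K) W h2
  refine ⟨W.subtype.comp e.toLinearMap, fun w hw hB => hw ?_⟩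
  have h3 : ((e w : W) : Fin d → K) ∈ Vfix H ⊓ W := ⟨hB, (e w).2⟩
  rw [hW.inf_eq_bot, Submodule.mem_bot] at h3
  have h4 : e w = 0 := Subtype.ext h3
  simpa using h4

theorem QDI_rI_pos {H : Type*} [Group H] [Finite H] {e : MonoidAlgebra K H} (he : e ≠ 0) :
    1 ≤ rI e := by
  have hfin : Module.Finite K (MonoidAlgebra K H) := inferInstance
  have : Nontrivial (LinearMap.range (LinearMap.mulRight K e)) := by
    refine ⟨⟨⟨e, ⟨1, by simp⟩⟩, 0, fun h => he ?_⟩⟩
    exact congrArg Subtype.val h
  exact Module.finrank_pos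

/-- `ε(e) = 0` is expressed by the vanishing of `P · e` on the fixed space -/
theorem mI_ge [IsAlgClosed K] (H : Subgroup (GL (Fin d) K)) [Finite H]
    (hfree : FreeOff H) (d' : ℕ) (hd' : finrank K (Vfix H) + d' = d) (h1 : 1 ≤ d')
    (e : MonoidAlgebra K H) (he : e * e = e) :
    rI e ≤ mI H e ∧ (e ≠ 0 → (∀ w ∈ Vfix H, ∀ f, eval w (gact H e f) = 0) →
      rI e + (d' - 1) ≤ mI H e) := by
  classical
  obtain ⟨f, n, hfs, hfe, hgen⟩ := mI_gens H e he
  obtain ⟨τ, hint⟩ := rI_interp H e he
  have hstab : ∀ w, w ∉ Vfix H → ∀ h ∈ H, h.val.mulVec w = w → h = 1 := by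
    intro w hw h hh hhw
    by_contra hne
    exact hw (hfree h hh hne w hhw)
  have hrows : ∀ w, w ∉ Vfix H → ∀ c : Fin (rI e) → K,
      (∀ j, ∑ i, c i * eval ((τ i).1.val.mulVec w) (f j) = 0) → c = 0 := by
    intro w hw c hcj
    exact QDI_rows H e f τ hgen w (hint w (hstab w hw)) c hcj
  obtain ⟨B, hB⟩ := QDI_complement H d' hd'
  have hw0 : (fun _ => 1 : Fin d' → K) ≠ 0 := by
    intro h0
    have := congrFun h0 ⟨0, h1⟩
    simp at this
  refine ⟨?_, fun hne hvan => ?_⟩
  · exact QDI_le (fun i j => eval ((τ i).1.val.mulVec (B (fun _ => 1))) (f j))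
      (hrows _ (hB _ hw0))
  · have hδ : 1 ≤ rI e := QDI_rI_pos hne
    let Bm : Matrix (Fin d) (Fin d') K := LinearMap.toMatrix' B
    have hBm : ∀ w, Bm.mulVec w = B w := by
      intro w
      rw [← Matrix.toLin'_apply, Matrix.toLin'_toMatrix']
    let Φ : Fin (rI e) → Fin (mI H e) → MvPolynomial (Fin d') K := fun i j =>
      aeval (fun k => ∑ l, C (((τ i).1.val * Bm) k l) * X l) (f j)
    have hΦe : ∀ i j w, eval w (Φ i j) = eval ((τ i).1.val.mulVec (B w)) (f j) := by
      intro i j w
      have h2 : eval w (Φ i j) =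
          eval (((τ i).1.val * Bm).mulVec w) (f j) := by
        simp only [Φ]
        induction f j using MvPolynomial.induction_on with
        | C a => simp
        | add f1 f2 h1 h2 => rw [map_add, map_add, map_add, h1, h2]
        | mul_X f i h =>
          rw [map_mul, map_mul, h, map_mul]
          congr 1
          simp [Matrix.mulVec, dotProduct]
      rw [h2, ← Matrix.mulVec_mulVec, hBm]
    have h00 : ∀ j, eval 0 (f j) = 0 := by
      intro j
      rw [← hfs j]
      exact hvan 0 (Vfix H).zero_mem _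
    have hΦh : ∀ i j, (Φ i j).IsHomogeneous (max (n j) 1) := by
      intro i j
      have hl : ∀ k, (∑ l, C (((τ i).1.val * Bm) k l) * X l :
          MvPolynomial (Fin d') K).IsHomogeneous 1 := by
        intro k
        refine MvPolynomial.IsHomogeneous.sum _ _ _ fun l _ => ?_
        have := (isHomogeneous_C (Fin d') (((τ i).1.val * Bm) k l)).mul (isHomogeneous_X K l)
        rwa [zero_add] at this
      have := MvPolynomial.IsHomogeneous.aeval (QDI_homog (hfe j) (h00 j))
        (fun k => ∑ l, C (((τ i).1.val * Bm) k l) * X l) hl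
      rwa [one_mul] at this
    have hQC := QC (n := d') (r := rI e) (m := mI H e) h1 hδ (fun j => max (n j) 1)
      (fun j => le_max_right _ _) Φ hΦh (by
        intro w hw c hcj
        refine hrows (B w) (hB w hw) c fun j => ?_
        simpa only [hΦe] using hcj j)
    omega

/-- the augmentation -/
noncomputable def QDI_eps (K : Type*) [Field K] (H : Type*) [Group H] :
    MonoidAlgebra K H →ₐ[K] K := MonoidAlgebra.lift K K H (1 : H →* K)

theorem QDI_eval (H : Subgroup (GL (Fin d) K)) (x : MonoidAlgebra K H) {w : Fin d → K}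
    (hw : w ∈ Vfix H) (f : MvPolynomial (Fin d) K) :
    eval w (gact H x f) = QDI_eps K H x * eval w f := by
  induction x using MonoidAlgebra.induction_linear with
  | zero => simp [gact_zero]
  | add x y hx hy => rw [gact_add, LinearMap.add_apply, map_add, hx, hy, map_add, add_mul]
  | single g c =>
    rw [gact_single, LinearMap.smul_apply, AlgHom.toLinearMap_apply, smul_eval, eval_lin,
      hw g.1 g.2]
    simp [QDI_eps, MonoidAlgebra.lift_single]

theorem QDI [IsAlgClosed K] (H : Subgroup (GL (Fin d) K)) [Finite H]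
    (hfree : FreeOff H) (d' : ℕ) (hd' : finrank K (Vfix H) + d' = d) (h1 : 1 ≤ d') {k : ℕ}
    (e : Fin k → MonoidAlgebra K H) (he : Idem K e) :
    Nat.card H + (d' - 1) * (k - 1) ≤ N H := by
  classical
  have hid : ∀ i, e i * e i = e i := by
    intro i
    have h2 : e i * ∑ j, e j = e i := by rw [he.sum, mul_one]
    rw [Finset.mul_sum, Finset.sum_eq_single i (fun j _ hj => he.orth i j hj.symm)
      (fun h => absurd (Finset.mem_univ i) h)] at h2
    exact h2
  let ε := QDI_eps K H
  have hcard : (Finset.univ.filter fun i => ¬ ε (e i) = 0).card ≤ 1 := by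
    rw [Finset.card_le_one]
    intro i hi j hj
    by_contra hij
    have hi' := (Finset.mem_filter.1 hi).2
    have hj' := (Finset.mem_filter.1 hj).2
    have := congrArg ε (he.orth i j hij)
    rw [map_mul, map_zero] at this
    rcases mul_eq_zero.1 this with h | h
    · exact hi' h
    · exact hj' h
  have hsplit := Finset.card_filter_add_card_filter_not (s := (Finset.univ : Finset (Fin k)))
    (fun i => ε (e i) = 0)
  rw [Finset.card_univ, Fintype.card_fin] at hsplit
  have hle : ∀ i, rI (e i) + (if ε (e i) = 0 then (d' - 1) else 0) ≤ mI H (e i) := by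
    intro i
    have h := mI_ge H hfree d' hd' h1 (e i) (hid i)
    split_ifs with h0
    · refine h.2 (he.ne i) fun w hw f => ?_
      rw [QDI_eval H (e i) hw f]
      change ε (e i) * _ = 0
      rw [h0, zero_mul]
    · rw [add_zero]
      exact h.1
  calc Nat.card H + (d' - 1) * (k - 1)
      ≤ Nat.card H + (d' - 1) * (Finset.univ.filter fun i => ε (e i) = 0).card := by
        refine Nat.add_le_add_left (Nat.mul_le_mul_left _ ?_) _
        omega
    _ = ∑ i, (rI (e i) + (if ε (e i) = 0 then (d' - 1) else 0)) := by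
        rw [Finset.sum_add_distrib, sum_rI e he, ← Finset.sum_filter, Finset.sum_const,
          smul_eq_mul, mul_comm (d' - 1)]
    _ ≤ ∑ i, mI H (e i) := Finset.sum_le_sum fun i _ => hle i
    _ ≤ N H := sum_mI_le H e he

end Pool.Agent.Lib.MP_1bbd88_ag.Q
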