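import Pool.Agent.Lib.MP_1bbd88_ag.Q.NS.NDefs

set_option autoImplicit false

namespace Pool.Agent.Lib.MP_1bbd88_ag.Q

open Module

/-- ROW 1bbd-Z0 : the action on a complement of the fixed space -/
theorem Z0 {K : Type*} [Field K] {d : ℕ} (H : Subgroup (GL (Fin d) K)) [Finite H]
    (hH : (Nat.card H : K) ≠ 0) (hfree : FreeOff H) (d' : ℕ)
    (hd' : finrank K (Vfix H) + d' = d) (h1 : 1 ≤ d') :
    ∃ (W : Submodule K (Fin d → K)) (ρ : H →* Module.End K W), FR ρ ∧ finrank K W = d' := by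
  classical
  have : Fintype H := Fintype.ofFinite H
  -- the sum over the group
  let S : (Fin d → K) →ₗ[K] (Fin d → K) := ∑ h : H, Matrix.mulVecLin h.1.val
  have hS : ∀ v, S v = ∑ h : H, h.1.val.mulVec v := by
    intro v
    simp [S, LinearMap.sum_apply]
  have hSh : ∀ (g : H) (v : Fin d → K), g.1.val.mulVec (S v) = S v := by
    intro g v
    rw [hS, Matrix.mulVec_sum]
    refine Fintype.sum_equiv (Equiv.mulLeft g) _ _ fun h => ?_
    simp [Matrix.mulVec_mulVec]
  have hSh' : ∀ (g : H) (v : Fin d → K), S (g.1.val.mulVec v) = S v := by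
    intro g v
    rw [hS, hS]
    refine Fintype.sum_equiv (Equiv.mulRight g) _ _ fun h => ?_
    simp [Matrix.mulVec_mulVec]
  have hSfix : ∀ v ∈ Vfix H, S v = (Nat.card H : K) • v := by
    intro v hv
    rw [hS, Finset.sum_congr rfl fun h _ => hv h.1 h.2]
    rw [Finset.sum_const, Finset.card_univ, Nat.card_eq_fintype_card]
    rw [Nat.cast_smul_eq_nsmul]
  have hrange : LinearMap.range S = Vfix H := by
    apply le_antisymm
    · rintro _ ⟨v, rfl⟩ h hh
      exact hSh ⟨h, hh⟩ v
    · intro v hv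
      refine ⟨(Nat.card H : K)⁻¹ • v, ?_⟩
      rw [map_smul, hSfix v hv, smul_smul, inv_mul_cancel₀ hH, one_smul]
  set W := LinearMap.ker S with hW
  have hWd : finrank K W = d' := by
    have h2 := LinearMap.finrank_range_add_finrank_ker S
    rw [hrange, finrank_fin_fun, ← hW] at h2
    omega
  have hstab : ∀ (g : H) (v : Fin d → K), v ∈ W → (Matrix.mulVecLin g.1.val) v ∈ W := by
    intro g v hv
    rw [hW, LinearMap.mem_ker, Matrix.mulVecLin_apply, hSh']
    exact hv
  refine ⟨W, ⟨⟨fun g => (Matrix.mulVecLin g.1.val).restrict (hstab g), ?_⟩, ?_⟩, ⟨?_, hH, ?_⟩, hWd⟩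
  · apply LinearMap.ext
    rintro ⟨v, hv⟩
    apply Subtype.ext
    simp [LinearMap.restrict_apply]
  · intro g h
    apply LinearMap.ext
    rintro ⟨v, hv⟩
    apply Subtype.ext
    simp [LinearMap.restrict_apply, Matrix.mulVec_mulVec]
  · apply Module.nontrivial_of_finrank_pos (R := K)
    omega
  · rintro ⟨h, hh⟩ h1' ⟨v, hv⟩ hvh
    have h2 : h.val.mulVec v = v := congrArg Subtype.val hvh
    have h3 : v ∈ Vfix H := hfree h hh (fun h4 => h1' (Subtype.ext h4)) v h2
    have h4 : S v = 0 := hv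
    rw [hSfix v h3] at h4
    apply Subtype.ext
    exact (smul_eq_zero.1 h4).resolve_left hH

end Pool.Agent.Lib.MP_1bbd88_ag.Q
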