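import Pool.Agent.Lib.MP_1bbd88_ag.Q.Main
import Pool.Agent.Lib.MP_1bbd88_ag.Q.NS.NSF
import Pool.Agent.Lib.MP_1bbd88_ag.Q.NS.QDI
import Pool.Agent.Lib.MP_1bbd88_ag.Q.NS.Z0

/-! The inequality `55 |G| ≤ 48 N G` for all `G ≠ 1`. -/

set_option autoImplicit false

namespace Pool.Agent.Lib.MP_1bbd88_ag.Q

open Module MvPolynomial IsLocalRing

variable {K : Type*} [Field K] {d : ℕ}

theorem main_ineq2 [IsAlgClosed K] (G : Subgroup (GL (Fin d) K)) [Finite G]
    (hG : (Nat.card G : K) ≠ 0)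
    (hrefl : ∀ g ∈ G, g ≠ 1 → ((g.val : Matrix (Fin d) (Fin d) K) - 1).rank ≠ 1)
    (hne : G ≠ ⊥) : 55 * Nat.card G ≤ 48 * N G := by
  have hinf : Infinite K := IsAlgClosed.instInfinite
  have hst0 : stab G 0 = G := by
    ext g
    exact ⟨fun h => h.1, fun h => ⟨h, Matrix.mulVec_zero _⟩⟩
  obtain ⟨u, hu1, hu2, hu3⟩ := QF G 0 (by rwa [hst0])
  by_cases hs : Group.IsSolvable (stab G u)
  · exact main_ineq G hG hrefl u hu2 hs
  set H := stab G u with hHdef
  have hHG : H ≤ G := fun g hg => hg.1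
  have hfin : Finite H := Finite.of_injective _ (Subgroup.inclusion_injective hHG)
  have hdvd : Nat.card H ∣ Nat.card G := Subgroup.card_dvd_of_le hHG
  have hH : (Nat.card H : K) ≠ 0 := by
    obtain ⟨c, hc⟩ := hdvd
    intro h
    apply hG
    rw [hc, Nat.cast_mul, h, zero_mul]
  -- the codimension of the fixed space
  have hle : finrank K (Vfix H) ≤ d := by
    have := (Vfix H).finrank_le
    rwa [finrank_fin_fun] at this
  obtain ⟨d', hd'⟩ : ∃ d', finrank K (Vfix H) + d' = d := ⟨d - finrank K (Vfix H), by omega⟩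
  have h1 : 1 ≤ d' := by
    by_contra hcon
    have h0 : d' = 0 := by omega
    have h4 : Vfix H = ⊤ := by
      apply Submodule.eq_top_of_finrank_eq
      rw [finrank_fin_fun]
      omega
    apply hu2
    rw [Subgroup.eq_bot_iff_forall]
    intro h hh
    apply Units.ext
    ext i j
    have h5 : (Pi.single j 1 : Fin d → K) ∈ Vfix H := by
      rw [h4]
      trivial
    have h6 := congrFun (h5 h hh) i
    simpa [Matrix.one_apply, Pi.single_apply] using h6
  obtain ⟨W, ρ, hρ, hW⟩ := Z0 H hH hu3 d' hd' h1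
  obtain ⟨k, e, he, hk⟩ := NSF hρ hs
  have hD := QDI H hu3 d' hd' h1 e he
  rw [hW] at hk
  have hE := QE G u
  rw [← hHdef] at hE
  have hHpos : 0 < Nat.card H := Nat.card_pos
  have h3 : 55 * Nat.card H ≤ 48 * N H := by omega
  have h4 : Nat.card H * (55 * Nat.card G) ≤ Nat.card H * (48 * N G) := by
    calc Nat.card H * (55 * Nat.card G) = Nat.card G * (55 * Nat.card H) := by ring
      _ ≤ Nat.card G * (48 * N H) := Nat.mul_le_mul_left _ h3
      _ = 48 * (Nat.card G * N H) := by ring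
      _ ≤ 48 * (Nat.card H * N G) := Nat.mul_le_mul_left _ hE
      _ = Nat.card H * (48 * N G) := by ring
  exact Nat.le_of_mul_le_mul_left h4 hHpos

end Pool.Agent.Lib.MP_1bbd88_ag.Q
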