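import Pool.Agent.Lib.MP_1bbd88_ag.Q.NS.NDefs

set_option autoImplicit false

namespace Pool.Agent.Lib.MP_1bbd88_ag.Q

open Module

variable {K : Type*} [Field K] {V : Type*} [AddCommGroup V] [Module K V] {H : Type*} [Group H]
  {ρ : H →* Module.End K V}

/-! ROW 1bbd-NB : elementary facts on fixed point free actions -/

theorem NB_eq0 (hρ : FR ρ) {a b : H} {v : V} (h : ρ a v = ρ b v) : a = b ∨ v = 0 := by
  by_cases hab : b⁻¹ * a = 1
  · left
    have := inv_mul_eq_one.mp hab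
    exact this.symm
  · right
    refine hρ.free _ hab v ?_
    rw [map_mul, Module.End.mul_apply, h, ← Module.End.mul_apply, ← map_mul, inv_mul_cancel,
      map_one, Module.End.one_apply]

theorem NB_inj (hρ : FR ρ) : Function.Injective ρ := by
  intro a b hab
  obtain ⟨v, hv⟩ := @exists_ne V hρ.ne 0
  exact (NB_eq0 hρ (v := v) (by rw [hab])).resolve_right hv

theorem NB_finite (hρ : FR ρ) : Finite H := by
  refine Nat.finite_of_card_ne_zero ?_
  intro h
  exact hρ.tame (by rw [h]; simp)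

theorem NB_dvd (hρ : FR ρ) {m : ℕ} (hm : m ∣ Nat.card H) : (m : K) ≠ 0 := by
  obtain ⟨k, hk⟩ := hm
  intro h
  exact hρ.tame (by rw [hk, Nat.cast_mul, h, zero_mul])

/-- restriction to a subgroup, or along an injective homomorphism -/
theorem NB_comp (hρ : FR ρ) {H' : Type*} [Group H'] (φ : H' →* H) (hφ : Function.Injective φ) :
    FR (ρ.comp φ) := by
  refine ⟨hρ.ne, NB_dvd hρ (Subgroup.card_dvd_of_injective φ hφ), ?_⟩
  intro h h1 v hv
  refine hρ.free (φ h) ?_ v hv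
  intro h2
  exact h1 (hφ (by rw [h2, map_one]))

theorem NB_sub (hρ : FR ρ) (L : Subgroup H) : FR (ρ.comp L.subtype) :=
  NB_comp hρ L.subtype L.subtype_injective

theorem NB_order (hρ : FR ρ) (h : H) : (orderOf h : K) ≠ 0 :=
  NB_dvd hρ (orderOf_dvd_natCard h)

theorem NB_neg (hρ : FR ρ) {z : H} (hz : Inv2 z) : ρ z = -1 := by
  ext v
  have h1 : ρ z (v + ρ z v) = v + ρ z v := by
    rw [map_add, ← Module.End.mul_apply, ← map_mul, hz.2, map_one, Module.End.one_apply, add_comm]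
  have h2 := hρ.free z hz.1 _ h1
  rw [LinearMap.neg_apply, Module.End.one_apply]
  exact (neg_eq_of_add_eq_zero_right h2).symm

theorem NB_uniq (hρ : FR ρ) {z w : H} (hz : Inv2 z) (hw : w * w = 1) : w = 1 ∨ w = z := by
  by_cases h : w = 1
  · exact Or.inl h
  · right
    exact NB_inj hρ (by rw [NB_neg hρ ⟨h, hw⟩, NB_neg hρ hz])

theorem NB_cen (hρ : FR ρ) {z : H} (hz : Inv2 z) (g : H) : g * z = z * g := by
  have h1 : (g * z * g⁻¹) * (g * z * g⁻¹) = 1 := by
    have : (g * z * g⁻¹) * (g * z * g⁻¹) = g * (z * z) * g⁻¹ := by group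
    rw [this, hz.2]
    group
  rcases NB_uniq hρ hz h1 with h | h
  · exfalso
    apply hz.1
    have : z = g⁻¹ * (g * z * g⁻¹) * g := by group
    rw [this, h]
    group
  · exact mul_inv_eq_iff_eq_mul.mp h

theorem NB_two (hρ : FR ρ) {z : H} (hz : Inv2 z) : (2 : K) ≠ 0 := by
  have h1 : orderOf z = 2 := orderOf_eq_prime (by rw [pow_two]; exact hz.2) hz.1
  have := NB_order hρ z
  rw [h1] at this
  exact_mod_cast this

theorem NB_three_ne (hρ : FR ρ) {a : H} (ha1 : a ≠ 1) (ha : a ^ 3 = 1) : (3 : K) ≠ 0 := by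
  have h1 : orderOf a = 3 := by
    haveI : Fact (Nat.Prime 3) := ⟨Nat.prime_three⟩
    exact orderOf_eq_prime ha ha1
  have := NB_order hρ a
  rw [h1] at this
  exact_mod_cast this

theorem NB_three (hρ : FR ρ) {a : H} (ha1 : a ≠ 1) (ha : a ^ 3 = 1) :
    ρ a * ρ a + ρ a + 1 = 0 := by
  ext v
  rw [LinearMap.zero_apply]
  refine hρ.free a ha1 _ ?_
  have h3 : ρ a * (ρ a * ρ a) = 1 := by
    rw [← map_mul, ← map_mul, ← pow_two, ← pow_succ', ha, map_one]
  have : ρ a * (ρ a * ρ a + ρ a + 1) = ρ a * ρ a + ρ a + 1 := by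
    rw [mul_add, mul_add, h3, mul_one]
    abel
  rw [← Module.End.mul_apply, this]

theorem NB_sq (hρ : FR ρ) {z u : H} (hz : Inv2 z) (hu : u * u = z) : ρ u * ρ u = -1 := by
  rw [← map_mul, hu, NB_neg hρ hz]

/-- a common eigenvector makes two elements commute -/
theorem NB_comm (hρ : FR ρ) {a b : H} {v : V} (hv : v ≠ 0) {α β : K} (ha : ρ a v = α • v)
    (hb : ρ b v = β • v) : a * b = b * a := by
  refine (NB_eq0 hρ (v := v) ?_).resolve_right hv
  rw [map_mul, map_mul, Module.End.mul_apply, Module.End.mul_apply, hb, ha, map_smul, map_smul,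
    ha, hb, smul_comm]

/-- equal eigenvalues on a common eigenvector make two elements equal -/
theorem NB_eq (hρ : FR ρ) {a b : H} {v : V} (hv : v ≠ 0) (h : ρ a v = ρ b v) : a = b :=
  (NB_eq0 hρ h).resolve_right hv

theorem NB_cyc [IsAlgClosed K] [FiniteDimensional K V] (hρ : FR ρ) (B : Subgroup H)
    (hB : Comm B) : IsCyclic B := by
  classical
  haveI := hρ.ne
  haveI := NB_finite hρ
  set S : Set (Module.End K V) := Set.range (fun b : B => ρ b) with hS
  have hcomm : ∀ x ∈ S, ∀ y ∈ S, x * y = y * x := by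
    rintro _ ⟨x, rfl⟩ _ ⟨y, rfl⟩
    simp only
    rw [← map_mul, ← map_mul, hB x x.2 y y.2]
  letI : CommRing (Algebra.adjoin K S) := Algebra.adjoinCommRingOfComm K hcomm
  haveI : Nontrivial (Algebra.adjoin K S) := inferInstance
  haveI : IsArtinianRing (Algebra.adjoin K S) := IsArtinianRing.of_finite K _
  obtain ⟨m, hm⟩ := Ideal.exists_maximal (Algebra.adjoin K S)
  let f : B →* Algebra.adjoin K S :=
    { toFun := fun b => ⟨ρ b, Algebra.subset_adjoin ⟨b, rfl⟩⟩
      map_one' := by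
        apply Subtype.ext
        simp
      map_mul' := fun x y => by
        apply Subtype.ext
        simp }
  let g : B →* (Algebra.adjoin K S) ⧸ m := (Ideal.Quotient.mk m).toMonoidHom.comp f
  haveI : IsDomain ((Algebra.adjoin K S) ⧸ m) := Ideal.Quotient.isDomain m
  refine isCyclic_of_subgroup_isDomain g ?_
  intro x y hxy
  by_contra hne
  have h1 : f x - f y ∈ m := Ideal.Quotient.eq.mp hxy
  have h2 : f x - f y ∈ nonZeroDivisors (Algebra.adjoin K S) := by
    rw [mem_nonZeroDivisors_iff_right]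
    intro w hw
    apply Subtype.ext
    ext v
    have h3 : (f x - f y) * w = 0 := by rw [mul_comm]; exact hw
    have h4 : ((f x - f y : Algebra.adjoin K S) : Module.End K V) ((w : Module.End K V) v) = 0 := by
      have := congrArg (fun t : Algebra.adjoin K S => (t : Module.End K V) v) h3
      simpa using this
    have h5 : ρ x ((w : Module.End K V) v) = ρ y ((w : Module.End K V) v) := by
      have : ((f x - f y : Algebra.adjoin K S) : Module.End K V) = ρ x - ρ y := rfl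
      rw [this, LinearMap.sub_apply, sub_eq_zero] at h4
      exact h4
    rcases NB_eq0 hρ h5 with h6 | h6
    · exact absurd (Subtype.ext h6) hne
    · rw [h6]; rfl
  have h3 := IsArtinianRing.isUnit_of_mem_nonZeroDivisors h2
  exact hm.ne_top (Ideal.eq_top_of_isUnit_mem _ h1 h3)

/-- commuting elements of order 3 -/
theorem NB_ord3 [IsAlgClosed K] [FiniteDimensional K V] (hρ : FR ρ) {a b : H} (ha1 : a ≠ 1)
    (ha : a ^ 3 = 1) (hb1 : b ≠ 1) (hb : b ^ 3 = 1) (hab : a * b = b * a) : b = a ∨ b = a⁻¹ := by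
  obtain ⟨v, hv⟩ := @exists_ne V hρ.ne 0
  by_contra hcon
  push Not at hcon
  obtain ⟨h1, h2⟩ := hcon
  have hA := NB_three hρ ha1 ha
  have hB := NB_three hρ hb1 hb
  have hainv : ρ a⁻¹ = ρ a * ρ a := by
    rw [← map_mul]
    congr 1
    rw [inv_eq_iff_mul_eq_one, ← pow_two, ← pow_succ', ha]
  have hAB : ρ a * ρ b = ρ b * ρ a := by rw [← map_mul, ← map_mul, hab]
  -- (B - A) (B - A²) = 0
  have hA3 : ρ a * (ρ a * ρ a) = 1 := by
    rw [← map_mul, ← map_mul, ← pow_two, ← pow_succ', ha, map_one]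
  have h3 : (ρ b - ρ a) * (ρ b - ρ a⁻¹) = 0 := by
    rw [hainv, sub_mul, mul_sub, mul_sub, hA3, hAB, ← mul_assoc (ρ b) (ρ a) (ρ a)]
    have e1 : ρ b * ρ b = - ρ b - 1 := by
      rw [eq_sub_iff_add_eq, eq_neg_iff_add_eq_zero, ← hB]
      abel
    have e2 : ρ b * ρ a * ρ a = - (ρ b * ρ a) - ρ b := by
      have : ρ a * ρ a = - ρ a - 1 := by
        rw [eq_sub_iff_add_eq, eq_neg_iff_add_eq_zero, ← hA]
        abel
      rw [mul_assoc, this, mul_sub, mul_neg, mul_one]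
    rw [e1, e2]
    abel
  have h4 : ρ b ((ρ b - ρ a⁻¹) v) = ρ a ((ρ b - ρ a⁻¹) v) := by
    have := congrArg (fun t : Module.End K V => t v) h3
    simp only [Module.End.mul_apply, LinearMap.sub_apply, LinearMap.zero_apply] at this
    rw [LinearMap.sub_apply, ← sub_eq_zero]
    exact this
  rcases NB_eq0 hρ h4 with h5 | h5
  · exact h1 h5
  · rw [LinearMap.sub_apply, sub_eq_zero] at h5
    exact h2 (NB_eq hρ hv h5)

theorem NB_T1 : ρ (1 : H) + ρ (1 : H)⁻¹ = 2 := by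
  rw [inv_one, map_one, one_add_one_eq_two]

theorem NB_T3 (hρ : FR ρ) {h : H} (h1 : h ≠ 1) (h3 : h ^ 3 = 1) : ρ h + ρ h⁻¹ = -1 := by
  have hinv : ρ h⁻¹ = ρ h * ρ h := by
    rw [← map_mul]
    congr 1
    rw [inv_eq_iff_mul_eq_one, ← pow_two, ← pow_succ', h3]
  have := NB_three hρ h1 h3
  rw [hinv, eq_neg_iff_add_eq_zero, ← this]
  abel

theorem NB_T4 (hρ : FR ρ) {h : H} (h4 : orderOf h = 4) : ρ h + ρ h⁻¹ = 0 := by
  have h44 : h ^ 4 = 1 := by rw [← h4]; exact pow_orderOf_eq_one h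
  have hz : Inv2 (h ^ 2) := by
    refine ⟨?_, ?_⟩
    · intro h2
      have := orderOf_dvd_of_pow_eq_one h2
      rw [h4] at this
      omega
    · rw [← pow_add]
      exact h44
  have e1 := NB_neg hρ hz
  have e2 : h⁻¹ = h ^ 2 * h := by
    rw [inv_eq_iff_mul_eq_one, ← pow_succ, ← pow_succ', h44]
  rw [e2, map_mul, e1]
  simp

theorem NB_T6 (hρ : FR ρ) {h : H} (h6 : orderOf h = 6) : ρ h + ρ h⁻¹ = 1 := by
  have h66 : h ^ 6 = 1 := by rw [← h6]; exact pow_orderOf_eq_one h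
  have hz : Inv2 (h ^ 3) := by
    refine ⟨?_, ?_⟩
    · intro h2
      have := orderOf_dvd_of_pow_eq_one h2
      rw [h6] at this
      omega
    · rw [← pow_add]
      exact h66
  have h2 : h ^ 2 ≠ 1 := by
    intro h2
    have := orderOf_dvd_of_pow_eq_one h2
    rw [h6] at this
    omega
  have h3 : (h ^ 2) ^ 3 = 1 := by rw [← pow_mul]; exact h66
  have e1 := NB_neg hρ hz
  have e2 : h⁻¹ = h ^ 3 * h ^ 2 := by
    rw [inv_eq_iff_mul_eq_one, ← pow_add, ← pow_succ', h66]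
  have e3 := NB_three hρ h2 h3
  have e4 : ρ (h ^ 2) * ρ (h ^ 2) = - ρ h := by
    rw [← map_mul, ← pow_add]
    have : h ^ (2 + 2) = h ^ 3 * h := by rw [← pow_succ]
    rw [this, map_mul, e1]
    simp
  rw [e2, map_mul, e1, neg_mul, one_mul]
  rw [e4] at e3
  have : ρ h + -ρ (h ^ 2) - 1 = 0 := by
    rw [← neg_eq_zero, ← e3]
    abel
  exact sub_eq_zero.mp this

theorem NB_T10 (hρ : FR ρ) {h : H} (h10 : orderOf h = 10) :
    (ρ h + ρ h⁻¹) * (ρ h + ρ h⁻¹) = (ρ h + ρ h⁻¹) + 1 := by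
  have h1010 : h ^ 10 = 1 := by rw [← h10]; exact pow_orderOf_eq_one h
  have hz : Inv2 (h ^ 5) := by
    refine ⟨?_, ?_⟩
    · intro h2
      have := orderOf_dvd_of_pow_eq_one h2
      rw [h10] at this
      omega
    · rw [← pow_add]
      exact h1010
  have h2 : h ^ 2 ≠ 1 := by
    intro h2
    have := orderOf_dvd_of_pow_eq_one h2
    rw [h10] at this
    omega
  set x := ρ h with hx
  have e1 : x ^ 5 = -1 := by
    rw [hx, ← map_pow]
    exact NB_neg hρ hz
  have e2 : ρ h⁻¹ = - x ^ 4 := by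
    have : h⁻¹ = h ^ 5 * h ^ 4 := by
      rw [inv_eq_iff_mul_eq_one, ← pow_add, ← pow_succ', h1010]
    rw [this, map_mul, map_pow, map_pow, ← hx, e1]
    simp
  have e3 : 1 + x ^ 2 + x ^ 4 + x ^ 6 + x ^ 8 = 0 := by
    ext v
    rw [LinearMap.zero_apply]
    refine hρ.free (h ^ 2) h2 _ ?_
    have e10 : x ^ 10 = 1 := by rw [hx, ← map_pow, h1010, map_one]
    have : x ^ 2 * (1 + x ^ 2 + x ^ 4 + x ^ 6 + x ^ 8) = 1 + x ^ 2 + x ^ 4 + x ^ 6 + x ^ 8 := by
      simp only [mul_add, mul_one, ← pow_add, Nat.reduceAdd, e10]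
      abel
    rw [map_pow, ← hx, ← Module.End.mul_apply, this]
  have e6 : x ^ 6 = - x := by
    have : x ^ 6 = x ^ 5 * x := by rw [← pow_succ]
    rw [this, e1]; simp
  have e8 : x ^ 8 = - x ^ 3 := by
    have : x ^ 8 = x ^ 5 * x ^ 3 := by rw [← pow_add]
    rw [this, e1]; simp
  rw [e2]
  have e9 : (x + -x ^ 4) * (x + -x ^ 4) = x ^ 2 - 2 * x ^ 5 + x ^ 8 := by
    have c1 : x * x ^ 4 = x ^ 5 := (pow_succ' x 4).symm
    have c2 : x ^ 4 * x = x ^ 5 := (pow_succ x 4).symm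
    have c3 : x ^ 4 * x ^ 4 = x ^ 8 := by rw [← pow_add]
    have c4 : x * x = x ^ 2 := (pow_two x).symm
    rw [add_mul, mul_add, mul_add, mul_neg, neg_mul, neg_mul, mul_neg, neg_neg, c1, c2, c3, c4,
      two_mul]
    abel
  rw [e9, e1, e8]
  rw [e6, e8] at e3
  rw [← sub_eq_zero]
  rw [← e3]
  have : (2 : Module.End K V) * -1 = - 1 - 1 := by
    rw [two_mul]
    abel
  rw [this]
  abel

theorem NB_Tmul (hρ : FR ρ) {a b : H} (ha1 : a ≠ 1) (ha : a ^ 3 = 1) (hb1 : b ≠ 1)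
    (hb : b ^ 3 = 1) :
    ρ (a * b) + ρ (a * b)⁻¹ = 1 + ρ a + ρ b + ρ a * ρ b + ρ b * ρ a := by
  have hA : ρ a⁻¹ = -1 - ρ a := by
    rw [eq_sub_iff_add_eq, add_comm]
    exact NB_T3 hρ ha1 ha
  have hB : ρ b⁻¹ = -1 - ρ b := by
    rw [eq_sub_iff_add_eq, add_comm]
    exact NB_T3 hρ hb1 hb
  rw [mul_inv_rev, map_mul, map_mul, hA, hB, sub_mul, mul_sub, mul_sub]
  simp only [mul_neg, neg_mul, mul_one, one_mul, neg_neg]
  abel

end Pool.Agent.Lib.MP_1bbd88_ag.Q
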