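import Pool.Agent.Lib.MP_1bbd88_ag.Q.Defs

/-! Fixed point free actions: definitions. -/

set_option autoImplicit false

namespace Pool.Agent.Lib.MP_1bbd88_ag.Q

open Module

/-- `ρ` is an action of a group of order prime to the characteristic on a space `V ≠ 0`, and only
`1` fixes a non-zero vector -/
structure FR {K V H : Type*} [Field K] [AddCommGroup V] [Module K V] [Group H]
    (ρ : H →* Module.End K V) : Prop where
  ne : Nontrivial V
  tame : (Nat.card H : K) ≠ 0
  free : ∀ h : H, h ≠ 1 → ∀ v : V, ρ h v = v → v = 0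

/-- `z` is an involution -/
def Inv2 {H : Type*} [Group H] (z : H) : Prop := z ≠ 1 ∧ z * z = 1

/-- the elements `u` with `u² = z` and `(a⁻¹ u)³ = 1` -/
def UU {H : Type*} [Group H] (z a : H) : Set H := {u | u * u = z ∧ (a⁻¹ * u) ^ 3 = 1}

/-- conjugation by `a ^ k` -/
def cj {H : Type*} [Group H] (a : H) (k : ℕ) (u : H) : H := (a ^ k)⁻¹ * u * a ^ k

/-- `u` and `u'` are not conjugate by a power of `a` -/
def Sep {H : Type*} [Group H] (a u u' : H) : Prop := ∀ k : ℕ, cj a k u' ≠ u

/-- hypotheses for the classification of the groups `G` with a central involution `z` -/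
structure CLhyp {G : Type*} [Group G] (z : G) : Prop where
  inv : Inv2 z
  cen : ∀ g : G, g * z = z * g
  cyc : ∀ g : G, g ≠ 1 → g ≠ z → IsCyclic (Subgroup.centralizer ({g} : Set G))
  nor : ∀ g : G, g ≠ 1 → g ≠ z → ∀ h k : G,
    h ∈ Subgroup.normalizer ((Subgroup.centralizer ({g} : Set G) : Subgroup G) : Set G) →
    k ∈ Subgroup.normalizer ((Subgroup.centralizer ({g} : Set G) : Subgroup G) : Set G) →
    h * g ≠ g * h → k * g ≠ g * k → (h * k) * g = g * (h * k) ∧ h * h = z

/-- the non-zero orthogonal idempotents `e` with sum `1` of the group algebra -/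
structure Idem (K : Type*) {H : Type*} [Field K] [Group H] {k : ℕ}
    (e : Fin k → MonoidAlgebra K H) : Prop where
  ne : ∀ i, e i ≠ 0
  orth : ∀ i j, i ≠ j → e i * e j = 0
  sum : ∑ i, e i = 1

end Pool.Agent.Lib.MP_1bbd88_ag.Q
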