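import Pool.Agent.Lib.MP_1bbd88_ag.Q.NS.NDefs

set_option autoImplicit false

namespace Pool.Agent.Lib.MP_1bbd88_ag.Q

theorem SLF_comm {K : Type*} [Field K] {l m : K} (hlm : l ≠ m) (A : Matrix (Fin 2) (Fin 2) K) :
    A * Matrix.diagonal ![l, m] = Matrix.diagonal ![l, m] * A ↔ A 0 1 = 0 ∧ A 1 0 = 0 := by
  constructor
  · intro h
    have h01 := congrFun (congrFun h 0) 1
    have h10 := congrFun (congrFun h 1) 0
    simp only [Matrix.mul_diagonal, Matrix.diagonal_mul, Matrix.cons_val_zero,
      Matrix.cons_val_one] at h01 h10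
    have hs : l - m ≠ 0 := sub_ne_zero.2 hlm
    constructor
    · have : (l - m) * A 0 1 = 0 := by linear_combination -h01
      exact (mul_eq_zero.1 this).resolve_left hs
    · have : (l - m) * A 1 0 = 0 := by linear_combination h10
      exact (mul_eq_zero.1 this).resolve_left hs
  · rintro ⟨h01, h10⟩
    ext i j
    fin_cases i <;> fin_cases j <;>
      simp [Matrix.mul_diagonal, Matrix.diagonal_mul, h01, h10, mul_comm]

theorem SLF_anti {K : Type*} [Field K] {l m : K} (hlm : l ≠ m) (A B : Matrix (Fin 2) (Fin 2) K)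
    (hA : A.det = 1) (hB : B 0 1 = 0 ∧ B 1 0 = 0)
    (h : A * Matrix.diagonal ![l, m] = B * A)
    (hn : ¬ (A * Matrix.diagonal ![l, m] = Matrix.diagonal ![l, m] * A)) :
    A 0 0 = 0 ∧ A 1 1 = 0 := by
  rw [SLF_comm hlm] at hn
  rw [Matrix.det_fin_two] at hA
  have hs : l - m ≠ 0 := sub_ne_zero.2 hlm
  have h00 := congrFun (congrFun h 0) 0
  have h01 := congrFun (congrFun h 0) 1
  have h10 := congrFun (congrFun h 1) 0
  have h11 := congrFun (congrFun h 1) 1
  rw [Matrix.mul_diagonal, Matrix.mul_apply, Fin.sum_univ_two] at h00 h01 h10 h11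
  simp only [Matrix.cons_val_zero, Matrix.cons_val_one, hB.1, hB.2, zero_mul, add_zero,
    zero_add] at h00 h01 h10 h11
  have ha : A 0 0 = 0 := by
    by_contra ha
    have e1 : l = B 0 0 := by
      have : A 0 0 * (l - B 0 0) = 0 := by linear_combination h00
      exact sub_eq_zero.1 ((mul_eq_zero.1 this).resolve_left ha)
    have e2 : A 0 1 = 0 := by
      have : (l - m) * A 0 1 = 0 := by
        rw [← e1] at h01
        linear_combination -h01
      exact (mul_eq_zero.1 this).resolve_left hs
    rw [e2, zero_mul, sub_zero] at hA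
    have hd : A 1 1 ≠ 0 := by
      intro hd
      rw [hd, mul_zero] at hA
      exact zero_ne_one hA
    have e3 : m = B 1 1 := by
      have : A 1 1 * (m - B 1 1) = 0 := by linear_combination h11
      exact sub_eq_zero.1 ((mul_eq_zero.1 this).resolve_left hd)
    have e4 : A 1 0 = 0 := by
      have : (l - m) * A 1 0 = 0 := by
        rw [← e3] at h10
        linear_combination h10
      exact (mul_eq_zero.1 this).resolve_left hs
    exact hn ⟨e2, e4⟩
  refine ⟨ha, ?_⟩
  rw [ha, zero_mul, zero_sub] at hA
  have hc : A 1 0 ≠ 0 := by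
    intro hc
    rw [hc, mul_zero, neg_zero] at hA
    exact zero_ne_one hA
  have e1 : l = B 1 1 := by
    have : A 1 0 * (l - B 1 1) = 0 := by linear_combination h10
    exact sub_eq_zero.1 ((mul_eq_zero.1 this).resolve_left hc)
  have : (l - m) * A 1 1 = 0 := by
    rw [← e1] at h11
    linear_combination -h11
  exact (mul_eq_zero.1 this).resolve_left hs

theorem SLF_core {K : Type*} [Field K] {G : Type*} [Group G] [Finite G]
    (ψ : G →* Matrix (Fin 2) (Fin 2) K) (hψ : Function.Injective ψ) (hd : ∀ h, (ψ h).det = 1)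
    (z : G) (hz : ψ z = -1) (g : G) {l m : K} (hlm : l ≠ m)
    (hg : ψ g = Matrix.diagonal ![l, m]) :
    IsCyclic (Subgroup.centralizer ({g} : Set G)) ∧ ∀ h k : G,
      h ∈ Subgroup.normalizer ((Subgroup.centralizer ({g} : Set G) : Subgroup G) : Set G) →
      k ∈ Subgroup.normalizer ((Subgroup.centralizer ({g} : Set G) : Subgroup G) : Set G) →
      h * g ≠ g * h → k * g ≠ g * k → (h * k) * g = g * (h * k) ∧ h * h = z := by
  have hcom : ∀ h : G, h * g = g * h ↔ ψ h 0 1 = 0 ∧ ψ h 1 0 = 0 := by
    intro h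
    rw [← SLF_comm hlm, ← hg, ← map_mul, ← map_mul]
    exact hψ.eq_iff.symm
  have hcen : ∀ h : G, h ∈ Subgroup.centralizer ({g} : Set G) ↔ ψ h 0 1 = 0 ∧ ψ h 1 0 = 0 := by
    intro h
    rw [Subgroup.mem_centralizer_singleton_iff, ← hcom]
  refine ⟨?_, ?_⟩
  · let f : Subgroup.centralizer ({g} : Set G) →* K :=
      { toFun := fun h => ψ (h : G) 0 0
        map_one' := by simp
        map_mul' := by
          intro x y
          have hx := (hcen x).1 x.2
          simp [Matrix.mul_apply, Fin.sum_univ_two, hx.1] }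
    refine isCyclic_of_injective_ringHom f ?_
    intro x y hxy
    have hxy' : ψ (x : G) 0 0 = ψ (y : G) 0 0 := hxy
    have hx := (hcen x).1 x.2
    have hy := (hcen y).1 y.2
    have dx := hd x
    have dy := hd y
    rw [Matrix.det_fin_two, hx.1, zero_mul, sub_zero] at dx
    rw [Matrix.det_fin_two, hy.1, zero_mul, sub_zero, ← hxy'] at dy
    have hne : ψ (x : G) 0 0 ≠ 0 := by
      intro h0
      rw [h0, zero_mul] at dx
      exact zero_ne_one dx
    have h11 : ψ (x : G) 1 1 = ψ (y : G) 1 1 := mul_left_cancel₀ hne (dx.trans dy.symm)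
    apply Subtype.ext
    apply hψ
    ext i j
    fin_cases i <;> fin_cases j
    · exact hxy'
    · exact hx.1.trans hy.1.symm
    · exact hx.2.trans hy.2.symm
    · exact h11
  · have key : ∀ h : G,
      h ∈ Subgroup.normalizer ((Subgroup.centralizer ({g} : Set G) : Subgroup G) : Set G) →
      h * g ≠ g * h → ψ h 0 0 = 0 ∧ ψ h 1 1 = 0 := by
      intro h hh hn
      have hgc : g ∈ Subgroup.centralizer ({g} : Set G) := by
        rw [Subgroup.mem_centralizer_singleton_iff]
      have h1 : h * g * h⁻¹ ∈ Subgroup.centralizer ({g} : Set G) :=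
        (Subgroup.mem_normalizer_iff.1 hh g).1 hgc
      refine SLF_anti hlm (ψ h) (ψ (h * g * h⁻¹)) (hd h) ((hcen _).1 h1) ?_ ?_
      · rw [← hg, ← map_mul, ← map_mul]
        congr 1
        group
      · intro h2
        rw [← hg, ← map_mul, ← map_mul] at h2
        exact hn (hψ h2)
    intro h k hh hk hn kn
    obtain ⟨a1, a2⟩ := key h hh hn
    obtain ⟨b1, b2⟩ := key k hk kn
    constructor
    · rw [hcom, map_mul]
      constructor <;> simp [Matrix.mul_apply, Fin.sum_univ_two, a1, a2, b1, b2]
    · apply hψ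
      rw [map_mul, hz]
      have hdet := hd h
      rw [Matrix.det_fin_two, a1, zero_mul, zero_sub] at hdet
      have hdet' : ψ h 0 1 * ψ h 1 0 = -1 := by linear_combination -hdet
      ext i j
      fin_cases i <;> fin_cases j <;>
        simp [Matrix.mul_apply, Fin.sum_univ_two, a1, a2, hdet', mul_comm (ψ h 1 0)]

theorem SLF_diag {K : Type*} [Field K] [IsAlgClosed K] (h2 : (2 : K) ≠ 0)
    (M : Matrix (Fin 2) (Fin 2) K) (hM : M.det = 1) {n : ℕ} (hn : (n : K) ≠ 0) (hMn : M ^ n = 1)
    (h1 : M ≠ 1) (hm1 : M ≠ -1) :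
    ∃ (P : Matrix (Fin 2) (Fin 2) K) (l m : K), P.det ≠ 0 ∧ l ≠ m ∧
      M * P = P * Matrix.diagonal ![l, m] := by
  rw [Matrix.det_fin_two] at hM
  obtain ⟨s, hs⟩ := IsAlgClosed.exists_pow_nat_eq ((M 0 0 + M 1 1) ^ 2 - 4) (n := 2) (by norm_num)
  have h4 : (4 : K) ≠ 0 := by
    have : (4 : K) = 2 * 2 := by norm_num
    rw [this]
    exact mul_ne_zero h2 h2
  by_cases hs0 : s = 0
  · exfalso
    rw [hs0, zero_pow (by norm_num)] at hs
    set t : K := M 0 0 + M 1 1 with ht
    set l : K := t / 2 with hl
    have hl2 : l ^ 2 = 1 := by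
      rw [hl, div_pow]
      have : t ^ 2 = 4 := by linear_combination -hs
      rw [this]
      field_simp
      norm_num
    have htl : t = 2 * l := by
      rw [hl]
      field_simp
    set L : Matrix (Fin 2) (Fin 2) K := l • M with hL
    have hLL : L * L = 2 • L - 1 := by
      have e1 : M * M = t • M - 1 := by
        ext i j
        fin_cases i <;> fin_cases j <;>
          simp [Matrix.mul_apply, Fin.sum_univ_two, ht] <;>
          first | linear_combination -hM | ring1
      rw [hL, smul_mul_smul_comm, e1, ← pow_two, hl2, one_smul, htl]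
      rw [two_smul, ← add_smul, two_mul]
    have hpow : ∀ k : ℕ, L ^ k = 1 + k • (L - 1) := by
      intro k
      induction k with
      | zero => simp
      | succ k ih =>
        have h21 : 2 • L - 1 - L = L - 1 := by
          rw [two_smul]
          abel
        rw [pow_succ, ih, add_mul, one_mul, smul_mul_assoc, sub_mul, one_mul, hLL, h21,
          succ_nsmul]
        abel
    have hLn : L ^ (2 * n) = 1 := by
      rw [hL, smul_pow, pow_mul, hl2, one_pow, one_smul, mul_comm, pow_mul, hMn, one_pow]
    have h5 : (2 * n) • (L - 1) = 0 := by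
      have := hpow (2 * n)
      rw [hLn] at this
      exact (left_eq_add.1 this)
    have h6 : L = 1 := by
      have h7 : ((2 * n : ℕ) : K) • (L - 1) = 0 := by
        rw [Nat.cast_smul_eq_nsmul]
        exact h5
      have h8 : ((2 * n : ℕ) : K) ≠ 0 := by
        push_cast
        exact mul_ne_zero h2 hn
      exact sub_eq_zero.1 ((smul_eq_zero.1 h7).resolve_left h8)
    have h9 : M = l • (1 : Matrix (Fin 2) (Fin 2) K) := by
      rw [← h6, hL, smul_smul, ← pow_two, hl2, one_smul]
    have h10 : l = 1 ∨ l = -1 := by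
      have h11 : (l - 1) * (l + 1) = 0 := by linear_combination hl2
      rcases mul_eq_zero.1 h11 with h | h
      · exact Or.inl (sub_eq_zero.1 h)
      · exact Or.inr (eq_neg_of_add_eq_zero_left h)
    rcases h10 with h | h
    · exact h1 (by rw [h9, h, one_smul])
    · exact hm1 (by rw [h9, h, neg_smul, one_smul])
  · set l : K := (M 0 0 + M 1 1 + s) / 2 with hl
    set m : K := (M 0 0 + M 1 1 - s) / 2 with hm
    have hsum : l + m = M 0 0 + M 1 1 := by
      rw [hl, hm]
      field_simp
      ring
    have hprod : l * m = 1 := by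
      have : 4 * (l * m) = 4 := by
        rw [hl, hm]
        field_simp
        linear_combination -hs
      exact mul_left_cancel₀ h4 (by rw [this, mul_one])
    have hlm : l - m = s := by
      rw [hl, hm]
      field_simp
      ring
    have hd1 : (M - l • (1 : Matrix (Fin 2) (Fin 2) K)).det = 0 := by
      rw [Matrix.det_fin_two]
      simp
      linear_combination hM + l * hsum - hprod
    have hd2 : (M - m • (1 : Matrix (Fin 2) (Fin 2) K)).det = 0 := by
      rw [Matrix.det_fin_two]
      simp
      linear_combination hM + m * hsum - hprod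
    obtain ⟨v, hv0, hv⟩ := Matrix.exists_mulVec_eq_zero_iff.2 hd1
    obtain ⟨w, hw0, hw⟩ := Matrix.exists_mulVec_eq_zero_iff.2 hd2
    have v0 := congrFun hv 0
    have v1 := congrFun hv 1
    have w0 := congrFun hw 0
    have w1 := congrFun hw 1
    simp [Matrix.mulVec, dotProduct, Fin.sum_univ_two] at v0 v1 w0 w1
    refine ⟨!![v 0, w 0; v 1, w 1], l, m, ?_, ?_, ?_⟩
    · rw [Matrix.det_fin_two_of]
      intro hP
      have e1 : s * (v 0 * w 1) = 0 := by
        linear_combination (-(v 0 * w 1)) * hlm - w 1 * v0 + v 1 * w0 + (M 0 0 - m) * hP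
      have e2 : s * (v 0 * w 0) = 0 := by
        linear_combination (-(v 0 * w 0)) * hlm - w 0 * v0 + v 0 * w0 - M 0 1 * hP
      have e3 : s * (v 1 * w 1) = 0 := by
        linear_combination (-(v 1 * w 1)) * hlm - w 1 * v1 + v 1 * w1 + M 1 0 * hP
      have f1 := (mul_eq_zero.1 e1).resolve_left hs0
      have f2 := (mul_eq_zero.1 e2).resolve_left hs0
      have f3 := (mul_eq_zero.1 e3).resolve_left hs0
      have f4 : v 1 * w 0 = 0 := by linear_combination f1 - hP
      apply hv0
      ext i
      rcases eq_or_ne (w 0) 0 with c | c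
      · have c1 : w 1 ≠ 0 := by
          intro c1
          apply hw0
          ext j
          fin_cases j
          · exact c
          · exact c1
        fin_cases i
        · exact (mul_eq_zero.1 f1).resolve_right c1
        · exact (mul_eq_zero.1 f3).resolve_right c1
      · fin_cases i
        · exact (mul_eq_zero.1 f2).resolve_right c
        · exact (mul_eq_zero.1 f4).resolve_right c
    · intro h
      rw [h, sub_self] at hlm
      exact hs0 hlm.symm
    · ext i j
      fin_cases i <;> fin_cases j <;>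
        simp [Matrix.mul_apply, Fin.sum_univ_two, Matrix.diagonal]
      · linear_combination v0
      · linear_combination w0
      · linear_combination v1
      · linear_combination w1

/-- ROW 1bbd-SLF : a finite subgroup of `SL_2(K)` of order prime to the characteristic which
contains `-1` satisfies the hypotheses of the classification -/
theorem SLF {K : Type*} [Field K] [IsAlgClosed K] {G : Type*} [Group G] [Finite G]
    (hG : (Nat.card G : K) ≠ 0) (φ : G →* Matrix.SpecialLinearGroup (Fin 2) K)
    (hφ : Function.Injective φ) (z : G) (hz : (φ z).1 = -1) (h2 : (2 : K) ≠ 0) : CLhyp z := by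
  have key : ∀ g : G, g ≠ 1 → g ≠ z → IsCyclic (Subgroup.centralizer ({g} : Set G)) ∧
      ∀ h k : G,
      h ∈ Subgroup.normalizer ((Subgroup.centralizer ({g} : Set G) : Subgroup G) : Set G) →
      k ∈ Subgroup.normalizer ((Subgroup.centralizer ({g} : Set G) : Subgroup G) : Set G) →
      h * g ≠ g * h → k * g ≠ g * k → (h * k) * g = g * (h * k) ∧ h * h = z := by
    intro g hg1 hgz
    obtain ⟨P, l, m, hP, hlm, hMP⟩ := SLF_diag h2 (φ g).1 (φ g).2 hG
      (by
        have := congrArg Subtype.val (congrArg φ (pow_card_eq_one' (x := g)))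
        rw [map_pow, map_one] at this
        simpa using this)
      (fun h => hg1 (hφ (Subtype.ext (by rw [h, map_one]; rfl))))
      (fun h => hgz (hφ (Subtype.ext (by rw [h, hz]))))
    have hu : IsUnit P.det := isUnit_iff_ne_zero.2 hP
    have i1 : P⁻¹ * P = 1 := Matrix.nonsing_inv_mul P hu
    have i2 : P * P⁻¹ = 1 := Matrix.mul_nonsing_inv P hu
    let ψ : G →* Matrix (Fin 2) (Fin 2) K :=
      { toFun := fun h => P⁻¹ * (φ h).1 * P
        map_one' := by
          rw [map_one]
          show P⁻¹ * 1 * P = 1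
          rw [mul_one, i1]
        map_mul' := by
          intro x y
          rw [map_mul]
          show P⁻¹ * ((φ x).1 * (φ y).1) * P = (P⁻¹ * (φ x).1 * P) * (P⁻¹ * (φ y).1 * P)
          have : (P⁻¹ * (φ x).1 * P) * (P⁻¹ * (φ y).1 * P) =
              P⁻¹ * (φ x).1 * (P * P⁻¹) * (φ y).1 * P := by noncomm_ring
          rw [this, i2]
          noncomm_ring }
    have hψ : ∀ h, ψ h = P⁻¹ * (φ h).1 * P := fun h => rfl
    have hback : ∀ h, (φ h).1 = P * ψ h * P⁻¹ := by
      intro h
      rw [hψ]
      have : P * (P⁻¹ * (φ h).1 * P) * P⁻¹ = (P * P⁻¹) * (φ h).1 * (P * P⁻¹) := by noncomm_ring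
      rw [this, i2, one_mul, mul_one]
    refine SLF_core ψ ?_ ?_ z ?_ g hlm ?_
    · intro x y hxy
      apply hφ
      apply Subtype.ext
      rw [hback x, hback y, hxy]
    · intro h
      rw [hψ, Matrix.det_mul, Matrix.det_mul, (φ h).2, mul_one, ← Matrix.det_mul, i1,
        Matrix.det_one]
    · rw [hψ, hz, mul_neg, mul_one, neg_mul, i1]
    · rw [hψ, mul_assoc, hMP, ← mul_assoc, i1, one_mul]
  refine ⟨⟨?_, ?_⟩, ?_, fun g h1 hz' => (key g h1 hz').1, fun g h1 hz' => (key g h1 hz').2⟩
  · intro h
    rw [h, map_one] at hz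
    have h3 : (1 : Matrix (Fin 2) (Fin 2) K) = -1 := hz
    have h4 := congrFun (congrFun h3 0) 0
    simp at h4
    exact h2 (by linear_combination h4)
  · apply hφ
    apply Subtype.ext
    rw [map_mul, map_one]
    show (φ z).1 * (φ z).1 = 1
    rw [hz]
    simp
  · intro g
    apply hφ
    apply Subtype.ext
    rw [map_mul, map_mul]
    show (φ g).1 * (φ z).1 = (φ z).1 * (φ g).1
    rw [hz]
    simp

end Pool.Agent.Lib.MP_1bbd88_ag.Q
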