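import Pool.Agent.Lib.MP_1bbd88_ag.Q.NS.NB
import Pool.Agent.Lib.MP_1bbd88_ag.Q.NS.EMB
import Pool.Agent.Lib.MP_1bbd88_ag.Q.NS.SLF
import Pool.Agent.Lib.MP_1bbd88_ag.Q.NS.CL

set_option autoImplicit false

namespace Pool.Agent.Lib.MP_1bbd88_ag.Q

open Module

variable {K : Type*} [Field K] [IsAlgClosed K] {V : Type*} [AddCommGroup V] [Module K V]
  [FiniteDimensional K V] {H : Type*} [Group H] {ρ : H →* Module.End K V}

/-! ROW 1bbd-S2 : two elements of order 3 which do not commute -/

/-- a common eigenvector of `s` and `A`, if `A * A + A + 1 = 0` and `s` commutes with `A` -/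
private theorem S2_eig [Nontrivial V] (s A : Module.End K V) (hA : A * A + A + 1 = 0)
    (hsA : s * A = A * s) :
    ∃ (ω σ : K) (v : V), v ≠ 0 ∧ ω * ω + ω + 1 = 0 ∧ A v = ω • v ∧ s v = σ • v := by
  obtain ⟨σ, hσ⟩ := Module.End.exists_eigenvalue s
  obtain ⟨x, hx⟩ := hσ.exists_hasEigenvector
  have hx0 : x ≠ 0 := hx.2
  have hxs : s x = σ • x := hx.apply_eq_smul
  obtain ⟨ω, hω⟩ : ∃ ω : K, ω * ω + ω + 1 = 0 := by
    obtain ⟨ω, hω⟩ := IsAlgClosed.exists_root (Polynomial.X ^ 2 + Polynomial.X + 1 : Polynomial K)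
      (by
        have : (Polynomial.X ^ 2 + Polynomial.X + 1 : Polynomial K).degree = 2 := by
          compute_degree!
        rw [this]
        decide)
    refine ⟨ω, ?_⟩
    simp only [Polynomial.IsRoot.def, Polynomial.eval_add, Polynomial.eval_pow, Polynomial.eval_X,
      Polynomial.eval_one] at hω
    rw [← hω]
    ring
  have hAx : A (A x) = -(A x) - x := by
    have := congrArg (fun T : Module.End K V => T x) hA
    simp only [LinearMap.add_apply, Module.End.mul_apply, Module.End.one_apply,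
      LinearMap.zero_apply] at this
    have e : A (A x) = A (A x) + A x + x - A x - x := by abel
    rw [e, this]
    abel
  have hsAx : s (A x) = σ • A x := by
    have := congrArg (fun T : Module.End K V => T x) hsA
    simp only [Module.End.mul_apply] at this
    rw [this, hxs, map_smul]
  by_cases hy : A x = (-1 - ω) • x
  · exact ⟨-1 - ω, σ, x, hx0, by linear_combination hω, hy, hxs⟩
  · refine ⟨ω, σ, A x - (-1 - ω) • x, sub_ne_zero.2 hy, hω, ?_, ?_⟩
    · rw [map_sub, map_smul, hAx]
      have hω2 : ω * (-1 - ω) = 1 := by linear_combination -hω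
      rw [smul_sub, smul_smul, hω2]
      module
    · rw [map_sub, map_smul, hsAx, hxs, smul_sub, smul_comm]

/-- the matrices of `a` and `b` on a common invariant plane -/
theorem S2_plane (hρ : FR ρ) {a b : H} (ha1 : a ≠ 1) (ha : a ^ 3 = 1) (hb1 : b ≠ 1)
    (hb : b ^ 3 = 1) (hab : a * b ≠ b * a) :
    ∃ (ω σ : K) (v : V), ω * ω + ω + 1 = 0 ∧ LinearIndependent K ![v, ρ b v] ∧
      ρ a v = ω • v ∧ ρ a (ρ b v) = (σ - 1 - ω) • v + (-1 - ω) • ρ b v ∧
      ρ b (ρ b v) = (-1 : K) • v + (-1 : K) • ρ b v ∧ ρ (a * b) v + ρ (a * b)⁻¹ v = σ • v := by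
  have := hρ.ne
  have hA := NB_three hρ ha1 ha
  have hB := NB_three hρ hb1 hb
  have hT := NB_Tmul hρ ha1 ha hb1 hb
  set A := ρ a with hAdef
  set B := ρ b with hBdef
  have hA2 : A * A = -A - 1 := by
    have e : A * A = A * A + A + 1 - A - 1 := by abel
    rw [e, hA]; abel
  have hsA : (1 + A + B + A * B + B * A) * A = A * (1 + A + B + A * B + B * A) := by
    have e1 : (1 + A + B + A * B + B * A) * A = A + A * A + B * A + A * B * A + B * (A * A) := by
      noncomm_ring
    have e2 : A * (1 + A + B + A * B + B * A) = A + A * A + A * B + (A * A) * B + A * B * A := by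
      noncomm_ring
    rw [e1, e2, hA2]
    noncomm_ring
  obtain ⟨ω, σ, v, hv, hω, hav, hsv⟩ := S2_eig (1 + A + B + A * B + B * A) A hA hsA
  refine ⟨ω, σ, v, hω, ?_, hav, ?_, ?_, ?_⟩
  · rw [LinearIndependent.pair_iff]
    intro s t hst
    have ht : t = 0 := by
      by_contra ht
      have h1 : B v = (-(t⁻¹ * s)) • v := by
        have h2 : t⁻¹ • (s • v + t • B v) = 0 := by rw [hst, smul_zero]
        rw [smul_add, smul_smul, smul_smul, inv_mul_cancel₀ ht, one_smul] at h2
        rw [neg_smul]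
        exact eq_neg_of_add_eq_zero_right h2
      exact hab (NB_comm hρ hv hav h1)
    refine ⟨?_, ht⟩
    rw [ht, zero_smul, add_zero] at hst
    exact (smul_eq_zero.1 hst).resolve_right hv
  · simp only [LinearMap.add_apply, Module.End.mul_apply, Module.End.one_apply] at hsv
    rw [hav, map_smul] at hsv
    have e : A (B v) = (v + ω • v + B v + A (B v) + ω • B v) - v - ω • v - B v - ω • B v := by
      abel
    rw [e, hsv]
    module
  · have h1 := congrArg (fun T : Module.End K V => T v) hB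
    simp only [LinearMap.add_apply, Module.End.mul_apply, Module.End.one_apply,
      LinearMap.zero_apply] at h1
    have e : B (B v) = (B (B v) + B v + v) - B v - v := by abel
    rw [e, h1]
    module
  · rw [← LinearMap.add_apply, hT]
    exact hsv

/-- the values of `T` -/
private theorem S2_val (hρ : FR ρ) {z : H} (hz : Inv2 z) {h : H} {v : V} {τ : K} (hv : v ≠ 0)
    (hT : (ρ h + ρ h⁻¹) v = τ • v) (h1 : h ≠ 1) (hhz : h ≠ z)
    (ho : orderOf h ∣ 4 ∨ orderOf h ∣ 6 ∨ orderOf h ∣ 10) :
    (orderOf h = 3 ∧ τ = -1) ∨ (orderOf h = 4 ∧ τ = 0) ∨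
      (orderOf h = 5 ∧ (5 : K) ≠ 0 ∧ τ * τ + τ - 1 = 0) ∨ (orderOf h = 6 ∧ τ = 1) ∨
      (orderOf h = 10 ∧ τ * τ - τ - 1 = 0) := by
  have hval : ∀ c : K, ρ h + ρ h⁻¹ = c • (1 : Module.End K V) → τ = c := by
    intro c hc
    rw [hc] at hT
    simp only [LinearMap.smul_apply, Module.End.one_apply] at hT
    have : (c - τ) • v = 0 := by rw [sub_smul, hT, sub_self]
    have := (smul_eq_zero.1 this).resolve_right hv
    exact (sub_eq_zero.1 this).symm
  have hpos : 0 < orderOf h := by
    rcases ho with h' | h' | h' <;> exact Nat.pos_of_dvd_of_pos h' (by norm_num)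
  have hle : orderOf h ≤ 10 := by
    rcases ho with h' | h' | h' <;> exact (Nat.le_of_dvd (by norm_num) h').trans (by norm_num)
  have hne1 : orderOf h ≠ 1 := fun h' => h1 (orderOf_eq_one_iff.1 h')
  have hne2 : orderOf h ≠ 2 := by
    intro h'
    have h2 : h * h = 1 := by
      have := pow_orderOf_eq_one h
      rwa [h', pow_two] at this
    rcases NB_uniq hρ hz h2 with h3 | h3
    · exact h1 h3
    · exact hhz h3
  have hcases : orderOf h = 3 ∨ orderOf h = 4 ∨ orderOf h = 5 ∨ orderOf h = 6 ∨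
      orderOf h = 10 := by
    generalize orderOf h = n at *
    interval_cases n <;> revert ho <;> simp_all
  rcases hcases with h3 | h4 | h5 | h6 | h10
  · left
    refine ⟨h3, hval _ ?_⟩
    rw [NB_T3 hρ h1 (by rw [← h3]; exact pow_orderOf_eq_one h)]
    simp
  · right; left
    refine ⟨h4, hval _ ?_⟩
    rw [NB_T4 hρ h4, zero_smul]
  · right; right; left
    refine ⟨h5, ?_, ?_⟩
    · have := NB_order hρ h
      rw [h5] at this
      exact_mod_cast this
    · have hoz : orderOf z = 2 := orderOf_eq_prime (by rw [pow_two]; exact hz.2) hz.1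
      have hc : Commute z h := (NB_cen hρ hz h).symm
      have hzh : orderOf (z * h) = 10 := by
        rw [hc.orderOf_mul_eq_mul_orderOf_of_coprime (by rw [hoz, h5]; decide), hoz, h5]
      have hT10 := NB_T10 hρ hzh
      have hzi : z⁻¹ = z := inv_eq_of_mul_eq_one_left hz.2
      have e1 : ρ (z * h) + ρ (z * h)⁻¹ = -(ρ h + ρ h⁻¹) := by
        rw [mul_inv_rev, hzi, map_mul, map_mul, NB_neg hρ hz]
        noncomm_ring
      rw [e1] at hT10
      have hq : ∀ T : Module.End K V, T v = τ • v → -T * -T = -T + 1 →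
          (τ * τ + τ - 1) • v = 0 := by
        intro T hT' hq
        have h2 := congrArg (fun S : Module.End K V => S v) hq
        simp only [Module.End.mul_apply, LinearMap.neg_apply, map_neg, neg_neg,
          LinearMap.add_apply, Module.End.one_apply] at h2
        rw [hT', map_smul, hT'] at h2
        rw [sub_smul, add_smul, one_smul, mul_smul, h2]
        abel
      exact (smul_eq_zero.1 (hq _ hT hT10)).resolve_right hv
  · right; right; right; left
    refine ⟨h6, hval _ ?_⟩
    rw [NB_T6 hρ h6, one_smul]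
  · right; right; right; right
    refine ⟨h10, ?_⟩
    have hT10 := NB_T10 hρ h10
    have h2 := congrArg (fun T : Module.End K V => T v) hT10
    simp only [Module.End.mul_apply] at h2
    rw [LinearMap.add_apply (ρ h + ρ h⁻¹) 1, Module.End.one_apply, hT, map_smul, hT] at h2
    have h3 : (τ * τ - τ - 1) • v = 0 := by
      rw [sub_smul, sub_smul, one_smul, mul_smul, h2]
      abel
    exact (smul_eq_zero.1 h3).resolve_right hv

/-- the orders of the elements of the group generated by `a`, `b`, `z` -/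
private theorem S2_orders (hρ : FR ρ) {z a b : H} (hz : Inv2 z) (ha1 : a ≠ 1) (ha : a ^ 3 = 1)
    (hb1 : b ≠ 1) (hb : b ^ 3 = 1) (hab : a * b ≠ b * a) :
    ∀ g ∈ Subgroup.closure ({a, b, z} : Set H),
      orderOf g ∣ 4 ∨ orderOf g ∣ 6 ∨ orderOf g ∣ 10 := by
  have hfinH := NB_finite hρ
  obtain ⟨ω, σ, v, hω, hli, hav, habv, hbbv, -⟩ := S2_plane hρ ha1 ha hb1 hb hab
  have hzn := NB_neg hρ hz
  obtain ⟨φ, hφ, hφv⟩ := EMB hρ ({a, b, z} : Set H) v (ρ b v) hli (by
    intro s hs
    rcases hs with rfl | rfl | hs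
    · refine ⟨!![ω, σ - 1 - ω; 0, -1 - ω], ?_, ?_, ?_⟩
      · rw [Matrix.det_fin_two_of]
        linear_combination -hω
      · simp [hav]
      · simp [habv]
    · refine ⟨!![0, -1; 1, -1], ?_, ?_, ?_⟩
      · rw [Matrix.det_fin_two_of]
        ring
      · simp
      · simp [hbbv]
    · rw [Set.mem_singleton_iff] at hs
      subst hs
      refine ⟨!![-1, 0; 0, -1], ?_, ?_, ?_⟩
      · rw [Matrix.det_fin_two_of]
        ring
      · simp [hzn]
      · simp [hzn])
  have hma : a ∈ Subgroup.closure ({a, b, z} : Set H) := Subgroup.subset_closure (by simp)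
  have hmb : b ∈ Subgroup.closure ({a, b, z} : Set H) := Subgroup.subset_closure (by simp)
  have hmz : z ∈ Subgroup.closure ({a, b, z} : Set H) := Subgroup.subset_closure (by simp)
  have hφz : (φ ⟨z, hmz⟩).1 = -1 := by
    obtain ⟨h1, h2⟩ := hφv ⟨z, hmz⟩
    have e1 : ((φ ⟨z, hmz⟩).1 0 0 + 1) • v + (φ ⟨z, hmz⟩).1 1 0 • ρ b v = 0 := by
      have : ρ z v = -v := by rw [hzn]; rfl
      rw [this] at h1
      rw [add_smul, one_smul, add_right_comm, ← h1]
      abel
    have e2 : (φ ⟨z, hmz⟩).1 0 1 • v + ((φ ⟨z, hmz⟩).1 1 1 + 1) • ρ b v = 0 := by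
      have : ρ z (ρ b v) = -(ρ b v) := by rw [hzn]; rfl
      rw [this] at h2
      rw [add_smul, one_smul, ← add_assoc, ← h2]
      abel
    obtain ⟨f1, f2⟩ := LinearIndependent.pair_iff.1 hli _ _ e1
    obtain ⟨f3, f4⟩ := LinearIndependent.pair_iff.1 hli _ _ e2
    ext i j
    fin_cases i <;> fin_cases j
    · simpa using eq_neg_of_add_eq_zero_left f1
    · simpa using f3
    · simpa using f2
    · simpa using eq_neg_of_add_eq_zero_left f4
  have hcl := SLF (NB_sub hρ (Subgroup.closure ({a, b, z} : Set H))).tame φ hφ ⟨z, hmz⟩ hφz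
    (NB_two hρ hz)
  rcases CL hcl with ⟨A, hA, hcard⟩ | ⟨-, h⟩ | ⟨-, L0, hL0, hzL, h3⟩ | ⟨-, h, -⟩
  · exfalso
    have hmem : ∀ g : Subgroup.closure ({a, b, z} : Set H), g ^ 3 = 1 → g ∈ A := by
      intro g hg
      have hidx : A.index * Nat.card A = Nat.card (Subgroup.closure ({a, b, z} : Set H)) := by
        rw [mul_comm]; exact A.card_mul_index
      have hApos : 0 < Nat.card A := Nat.card_pos
      have hi2 : A.index ≤ 2 := by
        rw [← hidx] at hcard
        exact Nat.le_of_mul_le_mul_right hcard hApos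
      have hi0 : A.index ≠ 0 := by
        intro h0
        rw [h0, zero_mul] at hidx
        have : 0 < Nat.card (Subgroup.closure ({a, b, z} : Set H)) := Nat.card_pos
        omega
      have hi : A.index = 1 ∨ A.index = 2 := by omega
      rcases hi with hi | hi
      · rw [Subgroup.index_eq_one.1 hi]
        exact Subgroup.mem_top g
      · have h2 := Subgroup.mul_self_mem_of_index_two hi g
        have e : g = g ^ 3 * (g * g)⁻¹ := by group
        rw [e, hg, one_mul]
        exact A.inv_mem h2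
    have h1 := hA ⟨a, hma⟩ (hmem _ (Subtype.ext (by simpa using ha))) ⟨b, hmb⟩
      (hmem _ (Subtype.ext (by simpa using hb)))
    apply hab
    have := congrArg Subtype.val h1
    simpa using this
  · intro g hg
    have := h ⟨g, hg⟩
    rw [Subgroup.orderOf_mk] at this
    tauto
  · exfalso
    apply hL0
    rw [eq_top_iff, ← Subgroup.closure_closure_coe_preimage, Subgroup.closure_le]
    rintro ⟨g, hg⟩ hgS
    change g ∈ ({a, b, z} : Set H) at hgS
    rcases hgS with rfl | rfl | hgS
    · exact h3 _ (Subtype.ext (by simpa using ha))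
    · exact h3 _ (Subtype.ext (by simpa using hb))
    · rw [Set.mem_singleton_iff] at hgS
      subst hgS
      exact hzL
  · intro g hg
    have := h ⟨g, hg⟩
    rwa [Subgroup.orderOf_mk] at this

theorem S2 (hρ : FR ρ) {z a b : H} (hz : Inv2 z) (ha1 : a ≠ 1) (ha : a ^ 3 = 1) (hb1 : b ≠ 1)
    (hb : b ^ 3 = 1) (hab : a * b ≠ b * a) :
    (orderOf (a * b) = 4 ∧ orderOf (a * b⁻¹) = 6) ∨ (orderOf (a * b) = 6 ∧ orderOf (a * b⁻¹) = 4) ∨
      (orderOf (a * b) = 10 ∧ orderOf (a * b⁻¹) = 10) := by
  have hord := S2_orders hρ hz ha1 ha hb1 hb hab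
  have hma : a ∈ Subgroup.closure ({a, b, z} : Set H) := Subgroup.subset_closure (by simp)
  have hmb : b ∈ Subgroup.closure ({a, b, z} : Set H) := Subgroup.subset_closure (by simp)
  obtain ⟨ω, σ, v, hω, hli, hav, habv, hbbv, hσ⟩ := S2_plane hρ ha1 ha hb1 hb hab
  have hv : v ≠ 0 := hli.ne_zero 0
  have hbi1 : b⁻¹ ≠ 1 := fun h => hb1 (inv_eq_one.1 h)
  have hbi : b⁻¹ ^ 3 = 1 := by rw [inv_pow, hb, inv_one]
  have hT1 := NB_Tmul hρ ha1 ha hb1 hb
  have hT2 := NB_Tmul hρ ha1 ha hbi1 hbi
  have hTb := NB_T3 hρ hb1 hb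
  have hbinv : ρ b⁻¹ = -1 - ρ b := by rw [← hTb]; abel
  have hsum : ρ (a * b⁻¹) + ρ (a * b⁻¹)⁻¹ = 1 - (ρ (a * b) + ρ (a * b)⁻¹) := by
    rw [hT1, hT2, hbinv]
    noncomm_ring
  have hv1 : (ρ (a * b) + ρ (a * b)⁻¹) v = σ • v := hσ
  have hv2 : (ρ (a * b⁻¹) + ρ (a * b⁻¹)⁻¹) v = (1 - σ) • v := by
    rw [hsum, LinearMap.sub_apply, hv1, Module.End.one_apply, sub_smul, one_smul]
  have hcen := NB_cen hρ hz
  have n1 : a * b ≠ 1 := by
    intro h
    apply hab
    have : a = b⁻¹ := eq_inv_of_mul_eq_one_left h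
    rw [this]; group
  have n2 : a * b ≠ z := by
    intro h
    apply hab
    have : a = z * b⁻¹ := by rw [← h]; group
    rw [h, this]
    rw [← mul_assoc, hcen b]; group
  have n3 : a * b⁻¹ ≠ 1 := by
    intro h
    apply hab
    have : a = b := by simpa using eq_inv_of_mul_eq_one_left h
    rw [this]
  have n4 : a * b⁻¹ ≠ z := by
    intro h
    apply hab
    have : a = z * b := by rw [← h]; group
    rw [this, ← mul_assoc, hcen b]
  have hthree := NB_three_ne hρ ha1 ha
  have htwo := NB_two hρ hz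
  have c1 := S2_val hρ hz hv hv1 n1 n2 (hord _ (mul_mem hma hmb))
  have c2 := S2_val hρ hz hv hv2 n3 n4 (hord _ (mul_mem hma (inv_mem hmb)))
  rcases c1 with ⟨o1, t1⟩ | ⟨o1, t1⟩ | ⟨o1, f1, t1⟩ | ⟨o1, t1⟩ | ⟨o1, t1⟩ <;>
  rcases c2 with ⟨o2, t2⟩ | ⟨o2, t2⟩ | ⟨o2, f2, t2⟩ | ⟨o2, t2⟩ | ⟨o2, t2⟩
  · exact absurd (show (3 : K) = 0 by linear_combination t1 + t2) hthree
  · exact absurd (show (2 : K) = 0 by linear_combination t1 + t2) htwo
  · rw [t1] at t2
    exact absurd (show (5 : K) = 0 by linear_combination t2) f2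
  · exact absurd (show (1 : K) = 0 by linear_combination t1 + t2) one_ne_zero
  · rw [t1] at t2
    exact absurd (show (1 : K) = 0 by linear_combination t2) one_ne_zero
  · exact absurd (show (2 : K) = 0 by linear_combination t1 + t2) htwo
  · exact absurd (show (1 : K) = 0 by linear_combination t1 + t2) one_ne_zero
  · rw [t1] at t2
    exact absurd (show (1 : K) = 0 by linear_combination t2) one_ne_zero
  · exact Or.inl ⟨o1, o2⟩
  · rw [t1] at t2
    exact absurd (show (1 : K) = 0 by linear_combination -t2) one_ne_zero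
  · have hs : σ = 2 := by linear_combination -t2
    rw [hs] at t1
    exact absurd (show (5 : K) = 0 by linear_combination t1) f1
  · have hs : σ = 1 := by linear_combination -t2
    rw [hs] at t1
    exact absurd (show (1 : K) = 0 by linear_combination t1) one_ne_zero
  · have h4 : (2 : K) * (1 - 2 * σ) = 0 := by linear_combination t2 - t1
    have h5 : 1 - 2 * σ = 0 := (mul_eq_zero.1 h4).resolve_left htwo
    exact absurd (show (1 : K) = 0 by linear_combination -4 * t1 - (3 + 2 * σ) * h5) one_ne_zero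
  · have hs : σ = 0 := by linear_combination -t2
    rw [hs] at t1
    exact absurd (show (1 : K) = 0 by linear_combination -t1) one_ne_zero
  · have h4 : (2 : K) * σ = 0 := by linear_combination t1 - t2
    have h5 : σ = 0 := (mul_eq_zero.1 h4).resolve_left htwo
    rw [h5] at t1
    exact absurd (show (1 : K) = 0 by linear_combination -t1) one_ne_zero
  · exact absurd (show (1 : K) = 0 by linear_combination t1 + t2) one_ne_zero
  · exact Or.inr (Or.inl ⟨o1, o2⟩)
  · rw [t1] at t2
    exact absurd (show (1 : K) = 0 by linear_combination -t2) one_ne_zero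
  · exact absurd (show (1 : K) = 0 by linear_combination -t1 - t2) one_ne_zero
  · rw [t1] at t2
    exact absurd (show (1 : K) = 0 by linear_combination -t2) one_ne_zero
  · have hs : σ = 2 := by linear_combination -t2
    rw [hs] at t1
    exact absurd (show (1 : K) = 0 by linear_combination t1) one_ne_zero
  · have hs : σ = 1 := by linear_combination -t2
    rw [hs] at t1
    exact absurd (show (1 : K) = 0 by linear_combination -t1) one_ne_zero
  · have h4 : (2 : K) * (1 - σ) = 0 := by linear_combination t2 - t1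
    have h5 : 1 - σ = 0 := (mul_eq_zero.1 h4).resolve_left htwo
    exact absurd (show (1 : K) = 0 by linear_combination -t2 + (2 - σ) * h5) one_ne_zero
  · have hs : σ = 0 := by linear_combination -t2
    rw [hs] at t1
    exact absurd (show (1 : K) = 0 by linear_combination -t1) one_ne_zero
  · exact Or.inr (Or.inr ⟨o1, o2⟩)

end Pool.Agent.Lib.MP_1bbd88_ag.Q
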