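import Pool.Agent.Lib.MP_1bbd88_ag.Q.NS.S2

set_option autoImplicit false

namespace Pool.Agent.Lib.MP_1bbd88_ag.Q

open Module

variable {K : Type*} [Field K] [IsAlgClosed K] {V : Type*} [AddCommGroup V] [Module K V]
  [FiniteDimensional K V] {H : Type*} [Group H] {ρ : H →* Module.End K V}

theorem S2g_first (hρ : FR ρ) {z a b : H} (hz : Inv2 z) (ha1 : a ≠ 1) (ha : a ^ 3 = 1) (hb1 : b ≠ 1)
    (hb : b ^ 3 = 1) (hab : a * b ≠ b * a) (h10 : orderOf (a * b) = 10) :
    orderOf (a * (b * a * b⁻¹)) = 4 := by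
  obtain ⟨ω, σ, v, hω, hli, hav, haw, hbw, hT⟩ := S2_plane hρ ha1 ha hb1 hb hab
  set w : V := ρ b v with hw
  have hv0 : v ≠ 0 := hli.ne_zero 0
  have hmul : ∀ (x y : H) (t : V), ρ (x * y) t = ρ x (ρ y t) := by
    intro x y t
    rw [map_mul]
    rfl
  -- the relation of `σ`
  have hσ : σ * σ = σ + 1 := by
    have h1 := NB_T10 hρ h10
    have h2 := congrArg (fun F : Module.End K V => F v) h1
    have h3 : (ρ (a * b) + ρ (a * b)⁻¹) v = σ • v := hT
    have h4 : ((ρ (a * b) + ρ (a * b)⁻¹) * (ρ (a * b) + ρ (a * b)⁻¹)) v = (σ * σ) • v := by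
      rw [Module.End.mul_apply, h3, map_smul, h3, smul_smul]
    have h5 : ((ρ (a * b) + ρ (a * b)⁻¹) + 1) v = (σ + 1) • v := by
      rw [LinearMap.add_apply, h3, Module.End.one_apply, add_smul, one_smul]
    have h6 : (σ * σ) • v = (σ + 1) • v := by
      rw [← h4, ← h5]
      exact h2
    exact smul_left_injective K hv0 h6
  -- the inverse of `b`
  have hbiw : ρ b⁻¹ w = v := by
    rw [hw, ← hmul, inv_mul_cancel, map_one, Module.End.one_apply]
  have hbiv : ρ b⁻¹ v = (-1 : K) • v + (-1 : K) • w := by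
    have h1 : ρ b⁻¹ (ρ b w) = w := by
      rw [← hmul, inv_mul_cancel, map_one, Module.End.one_apply]
    rw [hbw, map_add, map_smul, map_smul, hbiw] at h1
    have h2 : ρ b⁻¹ v = -((-1 : K) • ρ b⁻¹ v + (-1 : K) • v) + (-1 : K) • v := by module
    rw [h1] at h2
    rw [h2]
    module
  set h : H := a * (b * a * b⁻¹) with hh
  have hh' : ∀ t : V, ρ h t = ρ a (ρ b (ρ a (ρ b⁻¹ t))) := by
    intro t
    rw [hh, hmul, hmul, hmul]
  have hv : ρ h v = (-1 : K) • v + (σ * (1 + ω) - 1) • w := by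
    rw [hh', hbiv]
    simp only [map_add, map_smul, hav, haw, hbw, ← hw]
    have e1 : (-1 : K) = -ω - ω ^ 2 - (σ - 1 - ω) * (σ + ω) := by
      linear_combination hσ
    have e2 : σ * (1 + ω) - 1 = (1 + ω) * (σ + ω) := by
      linear_combination (-1 : K) * hω
    calc _ = (-ω - ω ^ 2 - (σ - 1 - ω) * (σ + ω)) • v + ((1 + ω) * (σ + ω)) • w := by module
      _ = _ := by rw [← e1, ← e2]
  have hwv : ρ h w = (ω * σ + 1) • v + (1 : K) • w := by
    rw [hh', hbiw]
    simp only [map_add, map_smul, hav, haw, hbw, ← hw]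
    have e1 : ω * σ + 1 = ω * (σ - 1 - ω) := by
      linear_combination hω
    have e2 : (1 : K) = ω * (-1 - ω) := by
      linear_combination hω
    calc _ = (ω * (σ - 1 - ω)) • v + (ω * (-1 - ω)) • w := by module
      _ = _ := by rw [← e1, ← e2]
  have hhh : ρ (h * h) v = ρ z v := by
    rw [hmul, hv, map_add, map_smul, map_smul, hv, hwv, NB_neg hρ hz]
    have e1 : 1 + (σ * (1 + ω) - 1) * (ω * σ + 1) = -1 := by
      linear_combination σ ^ 2 * hω - hσ
    calc _ = (1 + (σ * (1 + ω) - 1) * (ω * σ + 1)) • v := by module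
      _ = (-1 : K) • v := by rw [e1]
      _ = _ := by simp
  have hz2 : h * h = z := NB_eq hρ hv0 hhh
  have h4 : orderOf h = 2 ^ (1 + 1) := by
    apply orderOf_eq_prime_pow
    · rw [pow_one, pow_two, hz2]
      exact hz.1
    · have : h ^ 2 ^ (1 + 1) = (h * h) * (h * h) := by
        rw [show (2 : ℕ) ^ (1 + 1) = 2 + 2 by norm_num, pow_add, pow_two]
      rw [this, hz2, hz.2]
  rw [h4]
  norm_num

/-- ROW 1bbd-S2g -/
theorem S2g (hρ : FR ρ) {z a b : H} (hz : Inv2 z) (ha1 : a ≠ 1) (ha : a ^ 3 = 1) (hb1 : b ≠ 1)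
    (hb : b ^ 3 = 1) (hab : a * b ≠ b * a) (h10 : orderOf (a * b) = 10) :
    orderOf (a * (b * a * b⁻¹)) = 4 ∧ orderOf (a * (b⁻¹ * a * b)) = 4 ∧
      orderOf ((b * a * b⁻¹) * (b⁻¹ * a * b)) = 4 := by
  have h1 := S2g_first hρ hz ha1 ha hb1 hb hab h10
  have hbb : b⁻¹ * b⁻¹ = b := by
    have h2 : b * b * b = 1 := by
      rw [← pow_two, ← pow_succ]
      exact hb
    rw [← mul_inv_rev]
    exact inv_eq_of_mul_eq_one_right h2
  refine ⟨h1, ?_, ?_⟩
  · have hb1' : b⁻¹ ≠ 1 := inv_ne_one.2 hb1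
    have hb' : b⁻¹ ^ 3 = 1 := by rw [inv_pow, hb, inv_one]
    have hab' : a * b⁻¹ ≠ b⁻¹ * a := by
      intro h2
      apply hab
      have h3 : b * (a * b⁻¹) * b = b * (b⁻¹ * a) * b := by rw [h2]
      have h4 : b * (a * b⁻¹) * b = b * a := by group
      have h5 : b * (b⁻¹ * a) * b = a * b := by group
      rw [h4, h5] at h3
      exact h3.symm
    have h10' : orderOf (a * b⁻¹) = 10 := by
      rcases S2 hρ hz ha1 ha hb1 hb hab with h2 | h2 | h2
      · rw [h10] at h2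
        exact absurd h2.1 (by norm_num)
      · rw [h10] at h2
        exact absurd h2.1 (by norm_num)
      · exact h2.2
    have h2 := S2g_first hρ hz ha1 ha hb1' hb' hab' h10'
    rw [inv_inv] at h2
    exact h2
  · have h2 : (b * a * b⁻¹) * (b⁻¹ * a * b) = b * (a * (b * a * b⁻¹)) * b⁻¹ := by
      calc (b * a * b⁻¹) * (b⁻¹ * a * b) = b * a * (b⁻¹ * b⁻¹) * a * b := by group
        _ = b * a * b * a * b := by rw [hbb]
        _ = b * a * b * a * (b⁻¹ * b⁻¹) := by rw [hbb]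
        _ = b * (a * (b * a * b⁻¹)) * b⁻¹ := by group
    rw [h2]
    have h3 : b * (a * (b * a * b⁻¹)) * b⁻¹ = MulAut.conj b (a * (b * a * b⁻¹)) := rfl
    rw [h3, MulEquiv.orderOf_eq]
    exact h1

end Pool.Agent.Lib.MP_1bbd88_ag.Q
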