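import Pool.Agent.Lib.MP_1bbd88_ag.Q.NS.S2
import Pool.Agent.Lib.MP_1bbd88_ag.Q.NS.BLK

set_option autoImplicit false

namespace Pool.Agent.Lib.MP_1bbd88_ag.Q

open Module

private theorem S4_comb {K : Type*} [Field K] (h2 : (2 : K) ≠ 0) (h3 : (3 : K) ≠ 0) (x y z : K)
    (e1 : x + y + z = 1) (e2 : x * x + y * y + z * z = 3)
    (hx : x = 2 ∨ x = 0 ∨ x = 1 ∨ (x * x = x + 1 ∧ (5 : K) ≠ 0))
    (hy : y = 2 ∨ y = 0 ∨ y = 1 ∨ (y * y = y + 1 ∧ (5 : K) ≠ 0))
    (hz : z = 2 ∨ z = 0 ∨ z = 1 ∨ (z * z = z + 1 ∧ (5 : K) ≠ 0)) :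
    (x = 0 ∧ y * y = y + 1 ∧ z * z = z + 1) ∨ (x * x = x + 1 ∧ y = 0 ∧ z * z = z + 1) ∨
      (x * x = x + 1 ∧ y * y = y + 1 ∧ z = 0) := by
  rcases hx with rfl | rfl | rfl | ⟨hx, h5⟩ <;> rcases hy with rfl | rfl | rfl | ⟨hy, h5'⟩ <;>
    rcases hz with rfl | rfl | rfl | ⟨hz, h5''⟩ <;> grind

/-- the value and the order -/
private def S4_D {K : Type*} [Field K] (x : K) (n : ℕ) : Prop :=
  x = 2 ∨ (x = 0 ∧ n = 4) ∨ x = 1 ∨ ((x * x = x + 1 ∧ (5 : K) ≠ 0) ∧ n = 10)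

private theorem S4_D_w {K : Type*} [Field K] {x : K} {n : ℕ} (h : S4_D x n) :
    x = 2 ∨ x = 0 ∨ x = 1 ∨ (x * x = x + 1 ∧ (5 : K) ≠ 0) := by
  rcases h with h | h | h | h
  · exact Or.inl h
  · exact Or.inr (Or.inl h.1)
  · exact Or.inr (Or.inr (Or.inl h))
  · exact Or.inr (Or.inr (Or.inr h.1))

private theorem S4_D_0 {K : Type*} [Field K] (h2 : (2 : K) ≠ 0) {x : K} {n : ℕ} (h : S4_D x n)
    (hx : x = 0) : n = 4 := by
  rcases h with h | h | h | h
  · exact absurd (h.symm.trans hx) h2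
  · exact h.2
  · exact absurd (h.symm.trans hx) one_ne_zero
  · exfalso
    have := h.1.1
    rw [hx] at this
    simp at this

private theorem S4_D_10 {K : Type*} [Field K] {x : K} {n : ℕ} (h : S4_D x n)
    (hx : x * x = x + 1) : n = 10 := by
  rcases h with h | h | h | h
  · exfalso; rw [h] at hx
    exact one_ne_zero (by linear_combination hx : (1 : K) = 0)
  · exfalso; rw [h.1] at hx; simp at hx
  · exfalso; rw [h] at hx
    exact one_ne_zero (by linear_combination -hx : (1 : K) = 0)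
  · exact h.2

variable {K : Type*} [Field K] [IsAlgClosed K] {V : Type*} [AddCommGroup V] [Module K V]
  [FiniteDimensional K V] {H : Type*} [Group H] {ρ : H →* Module.End K V}

private theorem S4_cls (hρ : FR ρ) {z a u u' : H} (hz : Inv2 z) (ha1 : a ≠ 1) (ha : a ^ 3 = 1)
    (hu : u ∈ UU z a) (hu' : u' ∈ UU z a) (hne : u' ≠ u) (v : V) (hv : v ≠ 0) (σ : K)
    (hσ : (1 + ρ u * ρ u' + ρ u' * ρ u) v = σ • v) :
    S4_D σ (orderOf ((a⁻¹ * u) * (a⁻¹ * u'))) := by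
  obtain ⟨b1, b3, -⟩ := TQ_b hρ hz ha1 ha hu
  obtain ⟨c1, c3, -⟩ := TQ_b hρ hz ha1 ha hu'
  have hT := TQ_T hρ hz ha1 ha hu hu'
  rw [← hT] at hσ
  by_cases hcomm : (a⁻¹ * u) * (a⁻¹ * u') = (a⁻¹ * u') * (a⁻¹ * u)
  · rcases NB_ord3 hρ b1 b3 c1 c3 hcomm with h | h
    · exact absurd (mul_left_cancel h) hne
    · left
      rw [h, mul_inv_cancel, NB_T1] at hσ
      have : (2 : K) • v = σ • v := by
        rw [← hσ]
        simp [Module.End.ofNat_apply, ofNat_smul_eq_nsmul]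
      exact (smul_left_injective K hv this).symm
  · rcases S2 hρ hz b1 b3 c1 c3 hcomm with h | h | h
    · right; left
      refine ⟨?_, h.1⟩
      rw [NB_T4 hρ h.1, LinearMap.zero_apply] at hσ
      rcases smul_eq_zero.1 hσ.symm with h0 | h0
      · exact h0
      · exact absurd h0 hv
    · right; right; left
      rw [NB_T6 hρ h.1] at hσ
      have : (1 : K) • v = σ • v := by rw [← hσ, one_smul, Module.End.one_apply]
      exact (smul_left_injective K hv this).symm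
    · right; right; right
      refine ⟨⟨?_, ?_⟩, h.1⟩
      · have h10 := NB_T10 hρ h.1
        have h11 := congrArg (fun f : Module.End K V => f v) h10
        simp only [Module.End.mul_apply] at h11
        rw [hσ, map_smul, hσ, LinearMap.add_apply, hσ, Module.End.one_apply, smul_smul] at h11
        have : (σ * σ) • v = (σ + 1) • v := by rw [h11, add_smul, one_smul]
        exact smul_left_injective K hv this
      · intro h5
        apply NB_order hρ ((a⁻¹ * u) * (a⁻¹ * u'))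
        rw [h.1]
        have : ((10 : ℕ) : K) = 2 * 5 := by norm_num
        rw [this, h5, mul_zero]

omit [IsAlgClosed K] in
private theorem S4_sum (h3 : (3 : K) ≠ 0) {ω β γ : K} (hω : ω * ω + ω + 1 = 0) (hβ : β * γ = 1) :
    (1 / 3 - 2 / 3 * (1 * 1 * β + 1 * γ)) + (1 / 3 - 2 / 3 * (ω * ω * β + ω * γ)) +
      (1 / 3 - 2 / 3 * ((ω * ω) * (ω * ω) * β + (ω * ω) * γ)) = 1 ∧
    (1 / 3 - 2 / 3 * (1 * 1 * β + 1 * γ)) * (1 / 3 - 2 / 3 * (1 * 1 * β + 1 * γ)) +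
      (1 / 3 - 2 / 3 * (ω * ω * β + ω * γ)) * (1 / 3 - 2 / 3 * (ω * ω * β + ω * γ)) +
      (1 / 3 - 2 / 3 * ((ω * ω) * (ω * ω) * β + (ω * ω) * γ)) *
        (1 / 3 - 2 / 3 * ((ω * ω) * (ω * ω) * β + (ω * ω) * γ)) = 3 := by
  constructor
  · grind
  · grind

/-- ROW 1bbd-S4 : two elements of `UU z a` which are not conjugate by a power of `a` -/
theorem S4 (hρ : FR ρ) {z a u u' : H} (hz : Inv2 z) (ha1 : a ≠ 1) (ha : a ^ 3 = 1)
    (hu : u ∈ UU z a) (hu' : u' ∈ UU z a) (hs : Sep a u u') :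
    ∃ k < 3, orderOf ((a⁻¹ * u) * (a⁻¹ * cj a k u')) = 4 ∧
      ∀ j < 3, j ≠ k → orderOf ((a⁻¹ * u) * (a⁻¹ * cj a j u')) = 10 := by
  have h2 := NB_two hρ hz
  have h3 := NB_three_ne hρ ha1 ha
  obtain ⟨θ, hθ⟩ := IsAlgClosed.exists_eq_mul_self (-3 : K)
  obtain ⟨ω, hω'⟩ : ∃ ω : K, 1 + 2 * ω = θ := ⟨(θ - 1) / 2, by field_simp; ring⟩
  have hω : ω * ω + ω + 1 = 0 := by
    have h4 : (2 : K) * 2 * (ω * ω + ω + 1) = 0 := by
      linear_combination (1 + 2 * ω + θ) * hω' - hθ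
    exact (mul_eq_zero.1 h4).resolve_left (mul_ne_zero h2 h2)
  have hω3 : ω * ω * ω = 1 := by linear_combination (ω - 1) * hω
  have hωω : -1 - ω = ω * ω := by linear_combination -hω
  have hd : (1 + 2 * ω) ≠ 0 := by
    intro h0
    apply h3
    linear_combination -(1 + 2 * ω) * h0 + 4 * hω
  obtain ⟨W, e, hW, hea, heu, hB⟩ := BLK hρ hz ha1 ha hu hω
  obtain ⟨B, B', hBB', hB'B, heu'⟩ := hB u' hu'
  obtain ⟨P, hPdef⟩ : ∃ P : K, P = 1 / (1 + 2 * ω) := ⟨_, rfl⟩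
  rw [← hPdef] at heu heu'
  have hP : P * P = -1 / 3 := by
    rw [hPdef]
    field_simp
    linear_combination 4 * hω
  obtain ⟨β, hβ⟩ := Module.End.exists_eigenvalue B
  obtain ⟨x, hx⟩ := hβ.exists_hasEigenvector
  have hBx : B x = β • x := hx.apply_eq_smul
  have hx0 : x ≠ 0 := hx.2
  have hB'B' : ∀ y, B' (B y) = y := fun y => by
    have := congrArg (fun f : Module.End K W => f y) hB'B
    simpa using this
  have hβ0 : β ≠ 0 := by
    intro h0
    apply hx0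
    rw [← hB'B' x, hBx, h0, zero_smul, map_zero]
  have hB'x : B' x = β⁻¹ • x := by
    have := hB'B' x
    rw [hBx, map_smul] at this
    rw [← this, smul_smul, inv_mul_cancel₀ hβ0, one_smul, this]
  -- the action in coordinates
  have ha' : ∀ y1 y2, ρ a (e.symm (y1, y2)) = e.symm (ω • y1, (ω * ω) • y2) := by
    intro y1 y2
    apply e.injective
    rw [hea, e.apply_symm_apply, hωω]
  have hu1 : ∀ y1 y2, ρ u (e.symm (y1, y2)) = e.symm (P • y1 - (2 / 3 : K) • y2, y1 - P • y2) := by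
    intro y1 y2
    apply e.injective
    rw [heu, e.apply_symm_apply]
  have hu'1 : ∀ y1 y2, ρ u' (e.symm (y1, y2)) =
      e.symm (P • y1 - (2 / 3 : K) • B' y2, B y1 - P • y2) := by
    intro y1 y2
    apply e.injective
    rw [heu', e.apply_symm_apply]
  have hpow : ∀ (j : ℕ) (y1 y2), ρ (a ^ j) (e.symm (y1, y2)) =
      e.symm (ω ^ j • y1, (ω ^ j * ω ^ j) • y2) := by
    intro j
    induction j with
    | zero => intro y1 y2; simp
    | succ j ih =>
      intro y1 y2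
      rw [pow_succ, map_mul, Module.End.mul_apply, ha', ih, smul_smul, smul_smul]
      congr 3 <;> ring
  have hc3 : ∀ j : ℕ, ω ^ j * ω ^ j * ω ^ j = 1 := by
    intro j
    rw [← mul_pow, ← mul_pow, hω3, one_pow]
  have hinv : ∀ (j : ℕ) (y1 y2), ρ (a ^ j)⁻¹ (e.symm (y1, y2)) =
      e.symm ((ω ^ j * ω ^ j) • y1, ω ^ j • y2) := by
    intro j y1 y2
    have h1 := hpow j ((ω ^ j * ω ^ j) • y1) (ω ^ j • y2)
    rw [smul_smul, smul_smul] at h1
    have e1 : ω ^ j * (ω ^ j * ω ^ j) = 1 := by rw [← mul_assoc]; exact hc3 j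
    rw [e1, hc3, one_smul, one_smul] at h1
    rw [← h1, ← Module.End.mul_apply, ← map_mul, inv_mul_cancel, map_one, Module.End.one_apply]
  have hcj : ∀ (j : ℕ) (y1 y2), ρ (cj a j u') (e.symm (y1, y2)) =
      e.symm (P • y1 - (2 / 3 : K) • ω ^ j • B' y2, (ω ^ j * ω ^ j) • B y1 - P • y2) := by
    intro j y1 y2
    have e1 := hc3 j
    rw [cj, map_mul, map_mul, Module.End.mul_apply, Module.End.mul_apply, hpow, hu'1, hinv]
    congr 2
    · rw [map_smul]
      have e2 : (ω ^ j * ω ^ j) • (P • ω ^ j • y1 - (2 / 3 : K) • (ω ^ j * ω ^ j) • B' y2) =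
        (ω ^ j * ω ^ j * ω ^ j) • (P • y1) - (ω ^ j * ω ^ j * ω ^ j) • (2 / 3 : K) • ω ^ j • B' y2 := by
          module
      rw [e2, e1, one_smul, one_smul]
    · rw [map_smul]
      have e2 : ω ^ j • (ω ^ j • B y1 - P • (ω ^ j * ω ^ j) • y2) =
        (ω ^ j * ω ^ j) • B y1 - (ω ^ j * ω ^ j * ω ^ j) • P • y2 := by
          module
      rw [e2, e1, one_smul]
  have hval : ∀ j : ℕ, (1 + ρ u * ρ (cj a j u') + ρ (cj a j u') * ρ u) (e.symm (x, 0)) =
      (1 / 3 - 2 / 3 * (ω ^ j * ω ^ j * β + ω ^ j * β⁻¹)) • e.symm (x, 0) := by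
    intro j
    rw [LinearMap.add_apply, LinearMap.add_apply, Module.End.one_apply, Module.End.mul_apply,
      Module.End.mul_apply, hcj, hu1, hu1, hcj, ← map_add, ← map_add]
    rw [← map_smul e.symm (1 / 3 - 2 / 3 * (ω ^ j * ω ^ j * β + ω ^ j * β⁻¹)) (x, (0 : W))]
    refine congrArg e.symm (Prod.ext ?_ ?_)
    · simp only [map_zero, smul_zero, sub_zero, hBx, hB'x, map_smul, Prod.mk_add_mk, Prod.smul_mk]
      have : x + (P • P • x - (2 / 3 : K) • (ω ^ j * ω ^ j) • β • x) +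
          (P • P • x - (2 / 3 : K) • ω ^ j • β⁻¹ • x) =
          (1 + 2 * (P * P) - 2 / 3 * (ω ^ j * ω ^ j * β + ω ^ j * β⁻¹)) • x := by module
      rw [this]
      have h13 : 1 + 2 * (P * P) = 1 / 3 := by
        rw [hP]
        field_simp
        ring
      rw [h13]
    · simp only [map_zero, smul_zero, sub_zero, hBx, map_smul, Prod.mk_add_mk, Prod.smul_mk]
      module
  have hv : e.symm (x, (0 : W)) ≠ 0 := by
    intro h0
    have h1 := congrArg e h0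
    rw [e.apply_symm_apply, map_zero] at h1
    exact hx0 (congrArg Prod.fst h1)
  have hD : ∀ j : ℕ, S4_D (1 / 3 - 2 / 3 * (ω ^ j * ω ^ j * β + ω ^ j * β⁻¹))
      (orderOf ((a⁻¹ * u) * (a⁻¹ * cj a j u'))) := fun j =>
    S4_cls hρ hz ha1 ha hu (TQ_cj (NB_cen hρ hz) hu' j) (hs j) _ hv _ (hval j)
  obtain ⟨s1, s2⟩ := S4_sum h3 hω (mul_inv_cancel₀ hβ0)
  have D0 := hD 0
  have D1 := hD 1
  have D2 := hD 2
  rw [pow_zero] at D0
  rw [pow_one] at D1
  rw [pow_two] at D2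
  rcases S4_comb h2 h3 _ _ _ s1 s2 (S4_D_w D0) (S4_D_w D1) (S4_D_w D2) with
    ⟨t0, t1, t2⟩ | ⟨t0, t1, t2⟩ | ⟨t0, t1, t2⟩
  · refine ⟨0, by norm_num, S4_D_0 h2 D0 t0, ?_⟩
    intro j hj hj0
    interval_cases j
    · exact absurd rfl hj0
    · exact S4_D_10 D1 t1
    · exact S4_D_10 D2 t2
  · refine ⟨1, by norm_num, S4_D_0 h2 D1 t1, ?_⟩
    intro j hj hj0
    interval_cases j
    · exact S4_D_10 D0 t0
    · exact absurd rfl hj0
    · exact S4_D_10 D2 t2
  · refine ⟨2, by norm_num, S4_D_0 h2 D2 t2, ?_⟩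
    intro j hj hj0
    interval_cases j
    · exact S4_D_10 D0 t0
    · exact S4_D_10 D1 t1
    · exact absurd rfl hj0

end Pool.Agent.Lib.MP_1bbd88_ag.Q
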