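import Pool.Agent.Lib.MP_1bbd88_ag.Q.NS.S4

set_option autoImplicit false

namespace Pool.Agent.Lib.MP_1bbd88_ag.Q

open Module

section S5alg

variable {K : Type*} [Field K] {W : Type*} [AddCommGroup W] [Module K W]

/-- the two operators do not commute -/
theorem S5_comm (hW : Nontrivial W) (h2 : (2 : K) ≠ 0) (h3 : (3 : K) ≠ 0) {β γ : Module.End K W}
    (hβ : ∀ x, β (β x) = β x - (4 : K) • x) (hγ : ∀ x, γ (γ x) = γ x - (4 : K) • x)
    {s t : K} (hst : (s = 1 ∧ t = 1) ∨ (s * s + s + 1 = 0 ∧ t = -1 - s))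
    (hR : ∀ x, s • (γ x - β (γ x)) + t • (β x - γ (β x)) = (2 : K) • x)
    (hc : ∀ x, β (γ x) = γ (β x)) : False := by
  by_cases h : ∀ x, γ x - x + β x = 0
  · obtain ⟨x, hx⟩ := exists_ne (0 : W)
    have h1 : γ x = x - β x := by linear_combination (norm := module) h x
    have h4 : β (γ x) = (4 : K) • x := by
      rw [h1, map_sub, hβ]
      module
    have hRx := hR x
    rw [← hc, h4, h1] at hRx
    rcases hst with ⟨hs, ht⟩ | ⟨hs, ht⟩
    · rw [hs, ht] at hRx
      have h5 : ((3 : K) * 3) • x = 0 := by linear_combination (norm := module) -hRx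
      rcases smul_eq_zero.1 h5 with h6 | h6
      · exact (mul_ne_zero h3 h3) h6
      · exact hx h6
    · rw [ht] at hRx
      have h5 : (3 : K) • (β x + s • x) = 0 := by
        have h7 : (1 + 2 * s) * (1 + 2 * s) = -3 := by linear_combination 4 * hs
        have h8 : (1 + 2 * s) • β x = (s + 2) • x := by
          linear_combination (norm := module) -hRx
        have h9 : ((1 + 2 * s) * (1 + 2 * s)) • β x = ((1 + 2 * s) * (s + 2)) • x := by
          rw [mul_smul, h8, mul_smul]
        rw [h7] at h9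
        have h10 : (1 + 2 * s) * (s + 2) = 3 * s := by linear_combination 2 * hs
        rw [h10] at h9
        linear_combination (norm := module) -h9
      have h6 : β x = (-s) • x := by
        rcases smul_eq_zero.1 h5 with h6 | h6
        · exact absurd h6 h3
        · linear_combination (norm := module) h6
      have h11 := hβ x
      rw [h6, map_smul, h6] at h11
      have h12 : (s * s + s + 1) • x = 0 := by rw [hs, zero_smul]
      have h13 : (3 : K) • x = 0 := by linear_combination (norm := module) h11 - h12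
      rcases smul_eq_zero.1 h13 with h6 | h6
      · exact h3 h6
      · exact hx h6
  · push Not at h
    obtain ⟨y, hy⟩ := h
    set x := γ y - y + β y with hxd
    have h1 : γ x = β x := by
      rw [hxd]
      simp only [map_add, map_sub]
      rw [hβ, hγ, hc]
      module
    have hRx := hR x
    rw [h1, hβ, ← hc, h1, hβ] at hRx
    rcases hst with ⟨hs, ht⟩ | ⟨hs, ht⟩
    · rw [hs, ht] at hRx
      have h5 : ((2 : K) * 3) • x = 0 := by linear_combination (norm := module) hRx
      rcases smul_eq_zero.1 h5 with h6 | h6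
      · exact (mul_ne_zero h2 h3) h6
      · exact hy h6
    · rw [ht] at hRx
      have h5 : ((2 : K) * 3) • x = 0 := by linear_combination (norm := module) -hRx
      rcases smul_eq_zero.1 h5 with h6 | h6
      · exact (mul_ne_zero h2 h3) h6
      · exact hy h6

/-- the shift is trivial -/
theorem S5_shift (hW : Nontrivial W) (h2 : (2 : K) ≠ 0) (h3 : (3 : K) ≠ 0) {β γ : Module.End K W}
    (hβ : ∀ x, β (β x) = β x - (4 : K) • x) (hγ : ∀ x, γ (γ x) = γ x - (4 : K) • x)
    {s t : K} (hst : (s = 1 ∧ t = 1) ∨ (s * s + s + 1 = 0 ∧ t = -1 - s))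
    (hR : ∀ x, s • (γ x - β (γ x)) + t • (β x - γ (β x)) = (2 : K) • x) : s = 1 ∧ t = 1 := by
  rcases hst with h | ⟨hs, ht⟩
  · exact h
  · exfalso
    have hne : s - t ≠ 0 := by
      intro h
      have h7 : (1 + 2 * s) * (1 + 2 * s) = -3 := by linear_combination 4 * hs
      rw [ht] at h
      apply h3
      have h8 : 1 + 2 * s = 0 := by linear_combination h
      rw [h8] at h7
      linear_combination h7
    have h1 : ∀ x, β (γ (β x)) = γ (β (β x)) := by
      intro x
      have e1 := congrArg β (hR x)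
      have e2 := hR (β x)
      simp only [map_add, map_sub, map_smul] at e1
      rw [hβ (γ x), hβ x] at e1
      rw [hβ x, map_sub, map_smul] at e2
      have e3 : (s - t) • (β (γ (β x)) - (γ (β x) - (4 : K) • γ x)) = 0 := by
        linear_combination (norm := module) e1 - e2
      rcases smul_eq_zero.1 e3 with h6 | h6
      · exact absurd h6 hne
      · rw [hβ x, map_sub, map_smul]
        linear_combination (norm := module) h6
    have hc : ∀ x, β (γ x) = γ (β x) := by
      intro x
      have e1 := h1 (x - β x)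
      have e2 : β (x - β x) = (4 : K) • x := by rw [map_sub, hβ]; module
      rw [e2] at e1
      simp only [map_smul] at e1
      have h4 : (4 : K) ≠ 0 := by
        have : (4 : K) = 2 * 2 := by norm_num
        rw [this]; exact mul_ne_zero h2 h2
      have e3 : (4 : K) • (β (γ x) - γ (β x)) = 0 := by
        linear_combination (norm := module) e1
      rcases smul_eq_zero.1 e3 with h6 | h6
      · exact absurd h6 h4
      · exact sub_eq_zero.1 h6
    exact S5_comm hW h2 h3 hβ hγ (Or.inr ⟨hs, ht⟩) hR hc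

/-- the product has order three -/
theorem S5_three (h2 : (2 : K) ≠ 0) (h3 : (3 : K) ≠ 0) {β γ G : Module.End K W}
    (hβ : ∀ x, β (β x) = β x - (4 : K) • x) (hγ : ∀ x, γ (γ x) = γ x - (4 : K) • x)
    (hR : ∀ x, (γ x - β (γ x)) + (β x - γ (β x)) = (2 : K) • x)
    (hG : ∀ x, (6 : K) • G x = γ x - (2 : K) • x + β (γ x) - (2 : K) • β x) :
    ∀ x, G (G x) + G x + x = 0 := by
  have h6 : (6 : K) ≠ 0 := by
    have : (6 : K) = 2 * 3 := by norm_num
    rw [this]; exact mul_ne_zero h2 h3
  have hcb : ∀ x, γ (β x) = -β (γ x) + β x + γ x - (2 : K) • x := by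
    intro x
    linear_combination (norm := module) -(hR x)
  intro x
  have e1 : ((6 : K) * 6) • (G (G x) + G x + x) = 0 := by
    have e2 : ((6 : K) * 6) • (G (G x) + G x + x) =
        (6 : K) • G ((6 : K) • G x) + (6 : K) • ((6 : K) • G x) + ((6 : K) * 6) • x := by
      rw [map_smul]; module
    rw [e2, hG, hG]
    simp only [map_add, map_sub, map_smul, map_neg, hβ, hγ, hcb]
    module
  rcases smul_eq_zero.1 e1 with h7 | h7
  · exact absurd h7 (mul_ne_zero h6 h6)
  · exact h7

/-- the product is not a scalar -/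
theorem S5_scalar (h2 : (2 : K) ≠ 0) (h3 : (3 : K) ≠ 0) {β γ G : Module.End K W}
    (hβ : ∀ x, β (β x) = β x - (4 : K) • x)
    (hG : ∀ x, (6 : K) • G x = γ x - (2 : K) • x + β (γ x) - (2 : K) • β x) {c : K}
    (hc : ∀ x, G x = c • x) : ∀ x, β (γ x) = γ (β x) := by
  have h6 : (6 : K) ≠ 0 := by
    have : (6 : K) = 2 * 3 := by norm_num
    rw [this]; exact mul_ne_zero h2 h3
  have h1 : ∀ x, γ x = (2 : K) • x + c • ((2 : K) • x - β x) := by
    intro x
    have e1 := hG x
    rw [hc] at e1
    have e2 := congrArg β e1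
    simp only [map_add, map_sub, map_smul, hβ] at e2
    have e3 : (6 : K) • (γ x - ((2 : K) • x + c • ((2 : K) • x - β x))) = 0 := by
      linear_combination (norm := module) e2 - (2 : K) • e1
    rcases smul_eq_zero.1 e3 with h7 | h7
    · exact absurd h7 h6
    · exact sub_eq_zero.1 h7
  intro x
  rw [h1 x, h1 (β x)]
  simp only [map_add, map_sub, map_smul]

end S5alg

variable {K : Type*} [Field K] [IsAlgClosed K] {V : Type*} [AddCommGroup V] [Module K V]
  [FiniteDimensional K V] {H : Type*} [Group H] {ρ : H →* Module.End K V}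

theorem S5_cj_cj {a : H} (k l : ℕ) (u : H) : cj a k (cj a l u) = cj a (l + k) u := by
  unfold cj
  rw [pow_add, mul_inv_rev]
  group

theorem S5_cj_period {a : H} (ha : a ^ 3 = 1) (k : ℕ) (u : H) : cj a (3 * k) u = u := by
  unfold cj
  rw [pow_mul, ha, one_pow]
  group

/-- the case where the products of the representatives have order 4 -/
theorem S5_core (hρ : FR ρ) {z a u u' u'' : H} (hz : Inv2 z) (ha1 : a ≠ 1) (ha : a ^ 3 = 1)
    (hu : u ∈ UU z a) (hu' : u' ∈ UU z a) (hu'' : u'' ∈ UU z a)
    (h4' : orderOf ((a⁻¹ * u) * (a⁻¹ * u')) = 4) (h4'' : orderOf ((a⁻¹ * u) * (a⁻¹ * u'')) = 4)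
    {k : ℕ} (hk : k < 3) (h4 : orderOf ((a⁻¹ * u') * (a⁻¹ * cj a k u'')) = 4) : False := by
  have h2 : (2 : K) ≠ 0 := NB_two hρ hz
  have h3 : (3 : K) ≠ 0 := NB_three_ne hρ ha1 ha
  obtain ⟨ω, hω⟩ : ∃ ω : K, ω * ω + ω + 1 = 0 := by
    have hdeg : (Polynomial.X ^ 2 + Polynomial.X + 1 : Polynomial K).degree ≠ 0 := by
      have : (Polynomial.X ^ 2 + Polynomial.X + 1 : Polynomial K).degree = 2 := by compute_degree!
      rw [this]; norm_num
    obtain ⟨ω, hω⟩ := IsAlgClosed.exists_root _ hdeg
    refine ⟨ω, ?_⟩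
    simp only [Polynomial.IsRoot.def, Polynomial.eval_add, Polynomial.eval_pow,
      Polynomial.eval_X, Polynomial.eval_one] at hω
    linear_combination hω
  obtain ⟨W, e, hWn, fa, fu, fall⟩ := BLK hρ hz ha1 ha hu hω
  obtain ⟨B, B', hBB', hB'B, fu'⟩ := fall u' hu'
  obtain ⟨C, C', hCC', hC'C, fu''⟩ := fall u'' hu''
  have hd : (1 + 2 * ω) * (1 + 2 * ω) = -3 := by linear_combination 4 * hω
  have hd0 : 1 + 2 * ω ≠ 0 := by
    intro h
    rw [h] at hd
    apply h3
    linear_combination hd
  obtain ⟨p, hp⟩ : ∃ p : K, p = 1 / (1 + 2 * ω) := ⟨_, rfl⟩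
  obtain ⟨q, hq⟩ : ∃ q : K, q = 2 / 3 := ⟨_, rfl⟩
  rw [← hp, ← hq] at fu
  rw [← hp, ← hq] at fu'
  rw [← hp, ← hq] at fu''
  have hp1 : p * (1 + 2 * ω) = 1 := by rw [hp]; field_simp
  have hp2 : 3 * (p * p) = -1 := by
    linear_combination (p * p) * hd - (p * (1 + 2 * ω) + 1) * hp1
  have hq3 : 3 * q = 2 := by rw [hq]; field_simp
  -- matrices
  obtain ⟨MM, hMM⟩ : ∃ MM : H → W × W → W × W, ∀ g w, MM g w = e (ρ g (e.symm w)) :=
    ⟨fun g w => e (ρ g (e.symm w)), fun _ _ => rfl⟩
  have hmul : ∀ g h w, MM (g * h) w = MM g (MM h w) := by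
    intro g h w
    simp only [hMM, map_mul, Module.End.mul_apply, LinearEquiv.symm_apply_apply]
  have hinj : ∀ g h : H, ∀ w : W × W, w ≠ 0 → MM g w = MM h w → g = h := by
    intro g h w hw hgh
    rw [hMM, hMM] at hgh
    have hv : e.symm w ≠ 0 := by
      intro h0
      apply hw
      rw [← e.apply_symm_apply w, h0, map_zero]
    exact NB_eq hρ hv (e.injective hgh)
  have fa : ∀ x y, MM a (x, y) = (ω • x, (-1 - ω) • y) := fun x y => by rw [hMM]; exact fa x y
  have fu : ∀ x y, MM u (x, y) = (p • x - q • y, x - p • y) := fun x y => by rw [hMM]; exact fu x y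
  have fu' : ∀ x y, MM u' (x, y) = (p • x - q • B' y, B x - p • y) :=
    fun x y => by rw [hMM]; exact fu' x y
  have fu'' : ∀ x y, MM u'' (x, y) = (p • x - q • C' y, C x - p • y) :=
    fun x y => by rw [hMM]; exact fu'' x y
  -- the relation for products of order 4
  have hfour : ∀ t1 ∈ UU z a, ∀ t2 ∈ UU z a, orderOf ((a⁻¹ * t1) * (a⁻¹ * t2)) = 4 →
      ∀ w, w + MM t1 (MM t2 w) + MM t2 (MM t1 w) = 0 := by
    intro t1 ht1 t2 ht2 ho w
    have h := TQ_T hρ hz ha1 ha ht1 ht2
    rw [NB_T4 hρ ho] at h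
    have h5 := LinearMap.congr_fun h (e.symm w)
    have h6 := congrArg e h5
    simp only [LinearMap.zero_apply, LinearMap.add_apply, Module.End.one_apply,
      Module.End.mul_apply, map_zero, map_add, LinearEquiv.apply_symm_apply] at h6
    rw [← hmul, ← hmul, hMM, hMM, map_mul, map_mul, Module.End.mul_apply, Module.End.mul_apply]
    exact h6.symm
  -- the operators
  obtain ⟨β, hβd⟩ : ∃ β : Module.End K W, β = (2 : K) • B := ⟨_, rfl⟩
  obtain ⟨γ, hγd⟩ : ∃ γ : Module.End K W, γ = (2 : K) • C := ⟨_, rfl⟩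
  have hβe : ∀ x, (2 : K) • B x = β x := fun x => by rw [hβd]; rfl
  have hγe : ∀ x, (2 : K) • C x = γ x := fun x => by rw [hγd]; rfl
  have hB'e : ∀ x, (2 : K) • B' x = x - β x := by
    intro x
    have h := congrArg Prod.fst (hfour u hu u' hu' h4' (x, 0))
    rw [fu', fu, fu, fu'] at h
    simp only [map_zero, smul_zero, sub_zero, Prod.fst_add, Prod.fst_zero] at h
    have h5 : (3 * (p * p)) • x = (-1 : K) • x := by rw [hp2]
    have h6 : (3 * q) • B x = (2 : K) • B x := by rw [hq3]
    have h7 : (3 * q) • B' x = (2 : K) • B' x := by rw [hq3]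
    rw [← hβe]
    linear_combination (norm := module) (-3 : K) • h + (2 : K) • h5 - h6 - h7
  have hC'e : ∀ x, (2 : K) • C' x = x - γ x := by
    intro x
    have h := congrArg Prod.fst (hfour u hu u'' hu'' h4'' (x, 0))
    rw [fu'', fu, fu, fu''] at h
    simp only [map_zero, smul_zero, sub_zero, Prod.fst_add, Prod.fst_zero] at h
    have h5 : (3 * (p * p)) • x = (-1 : K) • x := by rw [hp2]
    have h6 : (3 * q) • C x = (2 : K) • C x := by rw [hq3]
    have h7 : (3 * q) • C' x = (2 : K) • C' x := by rw [hq3]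
    rw [← hγe]
    linear_combination (norm := module) (-3 : K) • h + (2 : K) • h5 - h6 - h7
  have hβ : ∀ x, β (β x) = β x - (4 : K) • x := by
    intro x
    have h1 : B (B' x) = x := LinearMap.congr_fun hBB' x
    have h5 : β ((2 : K) • B' x) = (4 : K) • x := by
      rw [map_smul, ← hβe, h1]; module
    rw [hB'e, map_sub] at h5
    linear_combination (norm := module) -h5
  have hγ : ∀ x, γ (γ x) = γ x - (4 : K) • x := by
    intro x
    have h1 : C (C' x) = x := LinearMap.congr_fun hCC' x
    have h5 : γ ((2 : K) • C' x) = (4 : K) • x := by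
      rw [map_smul, ← hγe, h1]; module
    rw [hC'e, map_sub] at h5
    linear_combination (norm := module) -h5
  -- the shift
  obtain ⟨s, t, hst, f3⟩ : ∃ s t : K, ((s = 1 ∧ t = 1) ∨ (s * s + s + 1 = 0 ∧ t = -1 - s)) ∧
      ∀ x y, MM (cj a k u'') (x, y) = (p • x - (t * q) • C' y, s • C x - p • y) := by
    have hw3 : ω * ω * ω = 1 := by linear_combination (ω - 1) * hω
    interval_cases k
    · refine ⟨1, 1, Or.inl ⟨rfl, rfl⟩, fun x y => ?_⟩
      have : cj a 0 u'' = u'' := by simp [cj]
      rw [this, fu'', one_smul, one_mul]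
    · refine ⟨-1 - ω, ω, Or.inr ⟨by linear_combination hω, by ring⟩, fun x y => ?_⟩
      have : cj a 1 u'' = a * a * u'' * a := by
        have h1 : a⁻¹ = a * a := by
          rw [inv_eq_iff_mul_eq_one, ← mul_assoc]
          rw [pow_succ, pow_two] at ha
          exact ha
        simp only [cj, pow_one]
        rw [h1]
      rw [this, hmul, hmul, hmul, fa, fu'', fa, fa]
      apply Prod.ext
      · simp only [map_smul]
        have h5 : (ω * ω * ω) • x = (1 : K) • x := by rw [hw3]
        have h6 : (ω * ω * (-1 - ω)) • C' y = ω • C' y := by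
          congr 1; linear_combination (-ω) * hω
        linear_combination (norm := module) p • h5 - q • h6
      · simp only [map_smul]
        have h5 : ((-1 - ω) * (-1 - ω) * ω) • C x = (-1 - ω) • C x := by
          congr 1; linear_combination (ω + 1) * hω
        have h6 : ((-1 - ω) * (-1 - ω) * (-1 - ω)) • y = (1 : K) • y := by
          congr 1; linear_combination (-(ω + 2)) * hω
        linear_combination (norm := module) h5 - p • h6
    · refine ⟨ω, -1 - ω, Or.inr ⟨hω, rfl⟩, fun x y => ?_⟩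
      have : cj a 2 u'' = a * u'' * (a * a) := by
        have h1 : (a ^ 2)⁻¹ = a := by
          rw [inv_eq_iff_mul_eq_one, ← pow_succ]
          exact ha
        simp only [cj]
        rw [h1, pow_two]
      rw [this, hmul, hmul, hmul, fa, fa, fu'', fa]
      apply Prod.ext
      · simp only [map_smul]
        have h5 : (ω * ω * ω) • x = (1 : K) • x := by rw [hw3]
        have h6 : (ω * (-1 - ω) * (-1 - ω)) • C' y = (-1 - ω) • C' y := by
          congr 1; linear_combination (ω + 1) * hω
        linear_combination (norm := module) p • h5 - q • h6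
      · simp only [map_smul]
        have h5 : ((-1 - ω) * ω * ω) • C x = ω • C x := by
          congr 1; linear_combination (-ω) * hω
        have h6 : ((-1 - ω) * (-1 - ω) * (-1 - ω)) • y = (1 : K) • y := by
          congr 1; linear_combination (-(ω + 2)) * hω
        linear_combination (norm := module) h5 - p • h6
  have hcz := NB_cen hρ hz
  have hR : ∀ x, s • (γ x - β (γ x)) + t • (β x - γ (β x)) = (2 : K) • x := by
    intro x
    have h := congrArg Prod.fst (hfour u' hu' _ (TQ_cj hcz hu'' k) h4 (x, 0))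
    rw [f3, fu', fu', f3] at h
    simp only [map_zero, smul_zero, sub_zero, Prod.fst_add, Prod.fst_zero, map_smul] at h
    have h5 : (3 * (p * p)) • x = (-1 : K) • x := by rw [hp2]
    have h6 : (3 * q) • B' (C x) = (2 : K) • B' (C x) := by rw [hq3]
    have h7 : (3 * q) • C' (B x) = (2 : K) • C' (B x) := by rw [hq3]
    have h8 : (2 : K) • ((2 : K) • B' (C x)) = γ x - β (γ x) := by
      rw [hB'e, ← hγe, map_smul]; module
    have h9 : (2 : K) • ((2 : K) • C' (B x)) = β x - γ (β x) := by
      rw [hC'e, ← hβe, map_smul]; module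
    linear_combination (norm := module) (-6 : K) • h + (4 : K) • h5 - (2 * s) • h6 -
      (2 * t) • h7 - s • h8 - t • h9
  obtain ⟨hs1, ht1⟩ := S5_shift hWn h2 h3 hβ hγ hst hR
  rw [hs1, ht1] at hR
  -- the product of order three
  obtain ⟨G, hGd⟩ : ∃ G : Module.End K W, ∀ x, G x = q • ((C x - x) - B' (C x - x)) :=
    ⟨q • ((1 - B') * (C - 1)), fun x => by
      simp only [LinearMap.smul_apply, Module.End.mul_apply, LinearMap.sub_apply,
        Module.End.one_apply]⟩
  have hG : ∀ x, (6 : K) • G x = γ x - (2 : K) • x + β (γ x) - (2 : K) • β x := by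
    intro x
    rw [hGd]
    have h5 : (3 * q) • ((C x - x) - B' (C x - x)) = (2 : K) • ((C x - x) - B' (C x - x)) := by
      rw [hq3]
    have h6 := hB'e (C x - x)
    have h7 : β (C x - x) = B (γ x) - β x := by
      rw [map_sub, ← hβe (C x), ← hγe, map_smul]
    have h8 := hβe (γ x)
    have h9 := hγe x
    linear_combination (norm := module) (2 : K) • h5 - (2 : K) • h6 + (2 : K) • h7 + h8 + h9
  have hG3 := S5_three h2 h3 hβ hγ (fun x => by
    have := hR x
    rwa [one_smul, one_smul] at this) hG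
  have hUu : ∀ t ∈ UU z a, orderOf ((a⁻¹ * u) * (a⁻¹ * t)) = 4 → ∀ w,
      MM (u * t * u) w = MM t w - MM u w := by
    intro t ht ho w
    have h := hfour u hu t ht ho (MM u w)
    have h5 : MM t (MM u (MM u w)) = - MM t w := by
      have h6 : MM u (MM u w) = -w := by
        rw [← hmul, hMM]
        have := LinearMap.congr_fun (NB_sq hρ hz hu.1) (e.symm w)
        rw [map_mul, this]
        simp
      rw [h6, hMM, hMM]
      simp
    rw [h5] at h
    rw [hmul, hmul]
    linear_combination (norm := module) h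
  obtain ⟨g, hgd⟩ : ∃ g : H, g = (u * u' * u) * (u * u'' * u) := ⟨_, rfl⟩
  have hg : ∀ x, MM g (x, 0) = (G x, 0) := by
    intro x
    rw [hgd, hmul, hUu u'' hu'' h4'', fu'', fu]
    have e1 : ((p • x - q • C' 0, C x - p • (0 : W)) - (p • x - q • (0 : W), x - p • (0 : W)) :
        W × W) = (0, C x - x) := by
      apply Prod.ext <;> simp
    rw [e1, hUu u' hu' h4', fu', fu, hGd]
    apply Prod.ext
    · simp only [Prod.fst_sub]
      module
    · simp
  have hg3 : g ^ 3 = 1 := by
    obtain ⟨x, hx⟩ := exists_ne (0 : W)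
    apply hinj _ _ (x, 0) (by simpa [Prod.ext_iff] using hx)
    have e1 : MM 1 (x, 0) = (x, 0) := by rw [hMM]; simp
    rw [e1, pow_succ, pow_two, hmul, hmul, hg, hg, hg]
    congr 1
    have e2 := hG3 x
    have e3 := hG3 (G x)
    linear_combination (norm := module) e3 - e2
  have hg1 : g ≠ 1 := by
    intro h
    obtain ⟨x, hx⟩ := exists_ne (0 : W)
    have e1 : MM 1 (x, 0) = (x, 0) := by rw [hMM]; simp
    have e2 := hg x
    rw [h, e1] at e2
    have e3 : G x = x := (congrArg Prod.fst e2).symm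
    have e4 := hG3 x
    rw [e3, e3] at e4
    have e5 : (3 : K) • x = 0 := by linear_combination (norm := module) e4
    rcases smul_eq_zero.1 e5 with h6 | h6
    · exact h3 h6
    · exact hx h6
  have hga : a * g = g * a := by
    obtain ⟨x, hx⟩ := exists_ne (0 : W)
    apply hinj _ _ (x, 0) (by simpa [Prod.ext_iff] using hx)
    rw [hmul, hmul, hg, fa, fa, smul_zero, hg, map_smul]
  have hsc : ∃ c : K, ∀ x, G x = c • x := by
    rcases NB_ord3 hρ ha1 ha hg1 hg3 hga with h | h
    · refine ⟨ω, fun x => ?_⟩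
      have e1 := hg x
      rw [h, fa] at e1
      exact (congrArg Prod.fst e1).symm
    · have h1 : a⁻¹ = a * a := by
        rw [inv_eq_iff_mul_eq_one, ← mul_assoc]
        rw [pow_succ, pow_two] at ha
        exact ha
      refine ⟨ω * ω, fun x => ?_⟩
      have e1 := hg x
      rw [h, h1, hmul, fa, fa] at e1
      have e2 := (congrArg Prod.fst e1).symm
      simp only [smul_smul] at e2
      exact e2
  obtain ⟨c, hc⟩ := hsc
  exact S5_comm hWn h2 h3 hβ hγ (Or.inl ⟨rfl, rfl⟩) hR (S5_scalar h2 h3 hβ hG hc)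

/-- ROW 1bbd-S5 : no three elements of `UU z a` are pairwise not conjugate by powers of `a` -/
theorem S5 (hρ : FR ρ) {z a u u' u'' : H} (hz : Inv2 z) (ha1 : a ≠ 1) (ha : a ^ 3 = 1)
    (hu : u ∈ UU z a) (hu' : u' ∈ UU z a) (hu'' : u'' ∈ UU z a) (hs : Sep a u u')
    (hs' : Sep a u u'') (hs'' : Sep a u' u'') : False := by
  have hcz := NB_cen hρ hz
  obtain ⟨k, hk, h4', -⟩ := S4 hρ hz ha1 ha hu hu' hs
  obtain ⟨l, hl, h4'', -⟩ := S4 hρ hz ha1 ha hu hu'' hs'
  have hsn : Sep a (cj a k u') (cj a l u'') := by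
    intro m h
    apply hs'' (l + m + 2 * k)
    rw [S5_cj_cj] at h
    have h1 := congrArg (cj a (2 * k)) h
    rw [S5_cj_cj, S5_cj_cj] at h1
    have h2 : k + 2 * k = 3 * k := by ring
    rw [h2, S5_cj_period ha] at h1
    exact h1
  obtain ⟨m, hm, h4, -⟩ := S4 hρ hz ha1 ha (TQ_cj hcz hu' k) (TQ_cj hcz hu'' l) hsn
  exact S5_core hρ hz ha1 ha hu (TQ_cj hcz hu' k) (TQ_cj hcz hu'' l) h4' h4'' hm h4

end Pool.Agent.Lib.MP_1bbd88_ag.Q
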