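import Pool.Agent.Lib.MP_1bbd88_ag.Q.NS.S4

set_option autoImplicit false

namespace Pool.Agent.Lib.MP_1bbd88_ag.Q

open Module

/-- elements of order dividing 3 lie in every subgroup of index at most 2 -/
theorem S6a_index {G : Type*} [Group G] [Finite G] (A : Subgroup G)
    (hA : Nat.card G ≤ 2 * Nat.card A) {g : G} (hg : g ^ 3 = 1) : g ∈ A := by
  have h1 : A.index * Nat.card A = Nat.card G := A.index_mul_card
  have h2 : 0 < Nat.card A := Nat.card_pos
  have h3 : A.index ≤ 2 := by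
    by_contra hcon
    push Not at hcon
    have : 3 * Nat.card A ≤ A.index * Nat.card A := Nat.mul_le_mul_right _ hcon
    omega
  have h4 : A.index ≠ 0 := Subgroup.index_ne_zero_of_finite
  have h5 : g * g ∈ A := by
    have : A.index = 1 ∨ A.index = 2 := by omega
    rcases this with h | h
    · rw [Subgroup.index_eq_one] at h
      rw [h]; exact Subgroup.mem_top _
    · exact Subgroup.mul_self_mem_of_index_two h g
  have h6 : g = (g * g) * (g * g) := by
    have : (g * g) * (g * g) = g ^ 3 * g := by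
      simp only [pow_succ, pow_zero, one_mul, mul_assoc]
    rw [this, hg, one_mul]
  rw [h6]
  exact A.mul_mem h5 h5

theorem S6a_card {H : Type*} [Group H] (L : Subgroup H) (P : H → Prop) (Q : L → Prop)
    (hPQ : ∀ g : L, Q g ↔ P (g : H)) :
    Nat.card {g : H // g ∈ L ∧ P g} = Nat.card {g : L // Q g} := by
  refine Nat.card_congr ⟨fun g => ⟨⟨g.1, g.2.1⟩, (hPQ _).2 g.2.2⟩,
    fun g => ⟨g.1.1, g.1.2, (hPQ _).1 g.2⟩, fun g => rfl, fun g => rfl⟩

variable {K : Type*} [Field K] [IsAlgClosed K] {V : Type*} [AddCommGroup V] [Module K V]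
  [FiniteDimensional K V] {H : Type*} [Group H] {ρ : H →* Module.End K V}

/-- `CLhyp` for the group generated by `a, u, u'` -/
theorem S6a_hyp (hρ : FR ρ) {z a u u' : H} (hz : Inv2 z) (ha1 : a ≠ 1) (ha : a ^ 3 = 1)
    (hu : u ∈ UU z a) (hu' : u' ∈ UU z a) :
    ∃ hzL : z ∈ Subgroup.closure ({a, u, u'} : Set H),
      CLhyp (⟨z, hzL⟩ : Subgroup.closure ({a, u, u'} : Set H)) := by
  have h2 : (2 : K) ≠ 0 := NB_two hρ hz
  have h3 : (3 : K) ≠ 0 := NB_three_ne hρ ha1 ha
  obtain ⟨b1, b2, b3⟩ := TQ_b hρ hz ha1 ha hu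
  obtain ⟨ω, _, _, hω, _⟩ := S2_plane hρ ha1 ha b1 b2 b3
  obtain ⟨W, e, hW, ea, eu, hB⟩ := BLK hρ hz ha1 ha hu hω
  obtain ⟨B, B', _, hB'B, eu'⟩ := hB u' hu'
  obtain ⟨β, hβ⟩ := Module.End.exists_eigenvalue B
  obtain ⟨v, hv⟩ := hβ.exists_hasEigenvector
  have hBv : B v = β • v := hv.apply_eq_smul
  have hv0 : v ≠ 0 := hv.2
  have hB'v : β • B' v = v := by
    have := congrArg (fun f : Module.End K W => f v) hB'B
    simpa [hBv] using this
  have hβ0 : β ≠ 0 := by
    rintro rfl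
    rw [zero_smul] at hB'v
    exact hv0 hB'v.symm
  have hB'v' : B' v = β⁻¹ • v := by
    rw [← hB'v, smul_smul, inv_mul_cancel₀ hβ0, one_smul, hB'v]
  set S : Set H := {a, u, u'} with hS
  set p : V := e.symm (v, 0) with hp
  set q : V := e.symm (0, v) with hq
  have hpq : LinearIndependent K ![p, q] := by
    rw [LinearIndependent.pair_iff]
    intro s t hst
    have := congrArg e hst
    rw [map_add, map_smul, map_smul, hp, hq, e.apply_symm_apply, e.apply_symm_apply, map_zero] at this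
    have e1 := congrArg Prod.fst this
    have e2 := congrArg Prod.snd this
    simp only [Prod.fst_add, Prod.smul_fst, Prod.snd_add, Prod.smul_snd, smul_zero, add_zero,
      zero_add, Prod.fst_zero, Prod.snd_zero] at e1 e2
    exact ⟨(smul_eq_zero.1 e1).resolve_right hv0, (smul_eq_zero.1 e2).resolve_right hv0⟩
  -- a vector of the plane
  have comb : ∀ s t : K, e.symm (s • v, t • v) = s • p + t • q := by
    intro s t
    rw [hp, hq, ← map_smul, ← map_smul, ← map_add]
    congr 1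
    simp
  have hω2 : (1 + 2 * ω) * (1 + 2 * ω) = -3 := by linear_combination 4 * hω
  have hω3 : 1 + 2 * ω ≠ 0 := by
    intro h
    rw [h, mul_zero] at hω2
    exact h3 (by linear_combination hω2)
  have hπ : 1 / (1 + 2 * ω) * (1 / (1 + 2 * ω)) = -(1 / 3) := by
    rw [div_mul_div_comm, hω2, one_mul, div_neg]
  have h13 : (2 / 3 : K) + 1 / 3 = 1 := by
    rw [← add_div, div_eq_one_iff_eq h3]; norm_num
  have act : ∀ (g : H) (x y : W) (s t : K), e (ρ g (e.symm (x, y))) = (s • v, t • v) →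
      ρ g (e.symm (x, y)) = s • p + t • q := by
    intro g x y s t h
    rw [← comb, ← h, e.symm_apply_apply]
  obtain ⟨φ, hφ, hφe⟩ := EMB hρ S p q hpq (by
    intro s hs
    rcases hs with rfl | rfl | hs
    · refine ⟨!![ω, 0; 0, -1 - ω], ?_, ?_, ?_⟩
      · rw [Matrix.det_fin_two_of]; linear_combination -hω
      · have := act s v 0 ω 0 (by rw [ea]; simp)
        simpa using this
      · have := act s 0 v 0 (-1 - ω) (by rw [ea]; simp)
        simpa using this
    · refine ⟨!![1 / (1 + 2 * ω), -(2 / 3); 1, -(1 / (1 + 2 * ω))], ?_, ?_, ?_⟩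
      · rw [Matrix.det_fin_two_of]
        linear_combination (-1) * hπ + h13
      · have := act s v 0 (1 / (1 + 2 * ω)) 1 (by rw [eu]; simp)
        simpa using this
      · have := act s 0 v (-(2 / 3)) (-(1 / (1 + 2 * ω))) (by rw [eu]; simp)
        simpa using this
    · have hs' : s = u' := hs
      subst hs'
      refine ⟨!![1 / (1 + 2 * ω), -(2 / 3) * β⁻¹; β, -(1 / (1 + 2 * ω))], ?_, ?_, ?_⟩
      · rw [Matrix.det_fin_two_of]
        have e1 : -(2 / 3) * β⁻¹ * β = -(2 / 3) := by rw [mul_assoc, inv_mul_cancel₀ hβ0, mul_one]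
        linear_combination (-1) * hπ + h13 - e1
      · have := act s v 0 (1 / (1 + 2 * ω)) β (by rw [eu']; simp [hBv])
        simpa using this
      · have := act s 0 v (-(2 / 3) * β⁻¹) (-(1 / (1 + 2 * ω))) (by
          rw [eu']; simp [hB'v', smul_smul])
        simpa using this)
  have hzL : z ∈ Subgroup.closure S := by
    rw [← hu.1]
    have : u ∈ Subgroup.closure S := Subgroup.subset_closure (by rw [hS]; simp)
    exact Subgroup.mul_mem _ this this
  refine ⟨hzL, ?_⟩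
  have hfin : Finite H := NB_finite hρ
  refine SLF (K := K) ?_ φ hφ _ ?_ h2
  · exact NB_dvd hρ (Subgroup.card_subgroup_dvd_card _)
  · obtain ⟨f1, f2⟩ := hφe ⟨z, hzL⟩
    have hzn : ρ z = -1 := NB_neg hρ hz
    have g1 : ρ z p = -p := by rw [hzn]; rfl
    have g2 : ρ z q = -q := by rw [hzn]; rfl
    change ρ z p = _ at f1
    change ρ z q = _ at f2
    rw [g1] at f1
    rw [g2] at f2
    rw [LinearIndependent.pair_iff] at hpq
    have k1 := hpq ((φ ⟨z, hzL⟩).1 0 0 + 1) ((φ ⟨z, hzL⟩).1 1 0) (by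
      rw [add_smul, one_smul, add_right_comm, ← f1]; simp)
    have k2 := hpq ((φ ⟨z, hzL⟩).1 0 1) ((φ ⟨z, hzL⟩).1 1 1 + 1) (by
      rw [add_smul, one_smul, ← add_assoc, ← f2]; simp)
    ext i j
    fin_cases i <;> fin_cases j
    · simpa using eq_neg_of_add_eq_zero_left k1.1
    · simpa using k2.1
    · simpa using k1.2
    · simpa using eq_neg_of_add_eq_zero_left k2.2

/-- ROW 1bbd-S6a : the group generated by `a, u, u'` -/
theorem S6a (hρ : FR ρ) {z a u u' : H} (hz : Inv2 z) (ha1 : a ≠ 1) (ha : a ^ 3 = 1)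
    (hu : u ∈ UU z a) (hu' : u' ∈ UU z a) (hs : Sep a u u') :
    Nat.card (Subgroup.closure {a, u, u'}) = 120 ∧
      Nat.card {g : H // g ∈ Subgroup.closure {a, u, u'} ∧ g * g = z} = 30 ∧
      Nat.card {g : H // g ∈ Subgroup.closure {a, u, u'} ∧ g ^ 3 = 1} = 21 ∧
      ∀ g ∈ Subgroup.closure {a, u, u'}, orderOf g ∣ 4 ∨ orderOf g ∣ 6 ∨ orderOf g ∣ 10 := by
  obtain ⟨hzL, hcl⟩ := S6a_hyp hρ hz ha1 ha hu hu'
  have hfin : Finite H := NB_finite hρ
  set L : Subgroup H := Subgroup.closure ({a, u, u'} : Set H) with hL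
  have haL : a ∈ L := Subgroup.subset_closure (by simp)
  have huL : u ∈ L := Subgroup.subset_closure (by simp)
  have huL' : u' ∈ L := Subgroup.subset_closure (by simp)
  have hbL : a⁻¹ * u ∈ L := L.mul_mem (L.inv_mem haL) huL
  have hbL' : a⁻¹ * u' ∈ L := L.mul_mem (L.inv_mem haL) huL'
  obtain ⟨b1, b2, b3⟩ := TQ_b hρ hz ha1 ha hu
  have ca : (⟨a, haL⟩ : L) ^ 3 = 1 := Subtype.ext ha
  have cb : (⟨a⁻¹ * u, hbL⟩ : L) ^ 3 = 1 := Subtype.ext hu.2
  have cb' : (⟨a⁻¹ * u', hbL'⟩ : L) ^ 3 = 1 := Subtype.ext hu'.2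
  rcases CL hcl with ⟨A, hA, hcard⟩ | ⟨_, hord⟩ | ⟨_, L0, htop, _, h0⟩ | ⟨hc, hord, hsq, hcu⟩
  · exfalso
    have m1 := S6a_index A hcard ca
    have m2 := S6a_index A hcard cb
    exact b3 (congrArg Subtype.val (hA _ m1 _ m2))
  · exfalso
    obtain ⟨k, hk, _, hj⟩ := S4 hρ hz ha1 ha hu hu' hs
    have : ∃ j, j < 3 ∧ j ≠ k := by
      by_cases h : k = 0
      · exact ⟨1, by norm_num, by omega⟩
      · exact ⟨0, by norm_num, fun h' => h h'.symm⟩
    obtain ⟨j, hj3, hjk⟩ := this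
    have h10 := hj j hj3 hjk
    have hcj : cj a j u' ∈ L :=
      L.mul_mem (L.mul_mem (L.inv_mem (L.pow_mem haL j)) huL') (L.pow_mem haL j)
    have hm : (a⁻¹ * u) * (a⁻¹ * cj a j u') ∈ L :=
      L.mul_mem hbL (L.mul_mem (L.inv_mem haL) hcj)
    have := hord ⟨_, hm⟩
    rw [Subgroup.orderOf_mk, h10] at this
    norm_num at this
  · exfalso
    apply htop
    have hle : L ≤ L0.map L.subtype := by
      refine (Subgroup.closure_le (L0.map L.subtype)).2 ?_
      have ma : a ∈ L0.map L.subtype := ⟨⟨a, haL⟩, h0 _ ca, rfl⟩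
      have mb : a⁻¹ * u ∈ L0.map L.subtype := ⟨⟨a⁻¹ * u, hbL⟩, h0 _ cb, rfl⟩
      have mb' : a⁻¹ * u' ∈ L0.map L.subtype := ⟨⟨a⁻¹ * u', hbL'⟩, h0 _ cb', rfl⟩
      rintro x (rfl | rfl | hx)
      · exact ma
      · have := (L0.map L.subtype).mul_mem ma mb
        rwa [mul_inv_cancel_left] at this
      · have hx' : x = u' := hx
        subst hx'
        have := (L0.map L.subtype).mul_mem ma mb'
        rwa [mul_inv_cancel_left] at this
    rw [eq_top_iff]
    intro g _
    obtain ⟨g', hg', e⟩ := hle g.2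
    have : g' = g := Subtype.ext e
    rwa [← this]
  · refine ⟨hc, ?_, ?_, ?_⟩
    · rw [← hsq]
      exact S6a_card L (fun g => g * g = z) _ (fun g => Subtype.ext_iff)
    · rw [← hcu]
      exact S6a_card L (fun g => g ^ 3 = 1) _ (fun g => Subtype.ext_iff)
    · intro g hg
      have := hord ⟨g, hg⟩
      rwa [Subgroup.orderOf_mk] at this

end Pool.Agent.Lib.MP_1bbd88_ag.Q
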