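import Pool.Agent.Lib.MP_1bbd88_ag.Q.NS.S5
import Pool.Agent.Lib.MP_1bbd88_ag.Q.NS.S6a

set_option autoImplicit false

namespace Pool.Agent.Lib.MP_1bbd88_ag.Q

open Module

variable {K : Type*} [Field K] [IsAlgClosed K] {V : Type*} [AddCommGroup V] [Module K V]
  [FiniteDimensional K V] {H : Type*} [Group H] {ρ : H →* Module.End K V}

/-- if `u` is a conjugate of `w` by a power of `a` then `w` is one of the three conjugates of `u` -/
theorem S6b_cj {a u w : H} (ha : a ^ 3 = 1) {k : ℕ} (h : cj a k w = u) :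
    ∃ j : Fin 3, w = cj a j u := by
  have h1 : a ^ ((2 * k) % 3) = (a ^ k)⁻¹ := by
    have h2 : a ^ ((2 * k) % 3) = a ^ (2 * k) := by
      conv_rhs => rw [← Nat.div_add_mod (2 * k) 3, pow_add, pow_mul, ha, one_pow, one_mul]
    rw [h2]
    apply eq_inv_of_mul_eq_one_left
    rw [← pow_add, show 2 * k + k = 3 * k by ring, pow_mul, ha, one_pow]
  refine ⟨⟨(2 * k) % 3, Nat.mod_lt _ (by norm_num)⟩, ?_⟩
  unfold cj at h ⊢
  rw [← h]
  simp only [h1]
  group

/-- the six elements -/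
def S6b_F (a u u' : H) (p : Bool × Fin 3) : H := cj a p.2 (if p.1 then u else u')

theorem S6b_cover (hρ : FR ρ) {z a u u' : H} (hz : Inv2 z) (ha1 : a ≠ 1) (ha : a ^ 3 = 1)
    (hu : u ∈ UU z a) (hu' : u' ∈ UU z a) (hs : Sep a u u') {w : H} (hw : w ∈ UU z a) :
    ∃ p, w = S6b_F a u u' p := by
  by_cases h1 : Sep a u w
  · by_cases h2 : Sep a u' w
    · exact (S5 hρ hz ha1 ha hu hu' hw hs h1 h2).elim
    · unfold Sep at h2
      push Not at h2
      obtain ⟨k, hk⟩ := h2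
      obtain ⟨j, hj⟩ := S6b_cj ha hk
      exact ⟨(false, j), by simpa [S6b_F] using hj⟩
  · unfold Sep at h1
    push Not at h1
    obtain ⟨k, hk⟩ := h1
    obtain ⟨j, hj⟩ := S6b_cj ha hk
    exact ⟨(true, j), by simpa [S6b_F] using hj⟩

theorem S6b_F_mem {a u u' : H} (p : Bool × Fin 3) :
    S6b_F a u u' p ∈ Subgroup.closure {a, u, u'} := by
  have h1 : a ∈ Subgroup.closure ({a, u, u'} : Set H) := Subgroup.subset_closure (by simp)
  have h2 : u ∈ Subgroup.closure ({a, u, u'} : Set H) := Subgroup.subset_closure (by simp)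
  have h3 : u' ∈ Subgroup.closure ({a, u, u'} : Set H) := Subgroup.subset_closure (by simp)
  unfold S6b_F cj
  refine mul_mem (mul_mem (inv_mem (pow_mem h1 _)) ?_) (pow_mem h1 _)
  split_ifs <;> assumption

open scoped Pointwise in
/-- `c` is conjugate in `L` to `a` or to `a⁻¹` -/
theorem S6b_conj (L : Subgroup H) (hL : Nat.card L = 120) {a c : H} (haL : a ∈ L) (ha1 : a ≠ 1)
    (ha : a ^ 3 = 1) (hc : c ∈ L) (hc1 : c ≠ 1) (hc3 : c ^ 3 = 1) :
    ∃ g ∈ L, c = g * a * g⁻¹ ∨ c = g * a⁻¹ * g⁻¹ := by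
  have : Finite L := Nat.finite_of_card_ne_zero (by rw [hL]; norm_num)
  have : Fact (Nat.Prime 3) := ⟨by norm_num⟩
  have hfac : (Nat.card L).factorization 3 = 1 := by
    rw [hL]
    have h1 : (120 : ℕ) = 3 * 40 := by norm_num
    rw [h1, Nat.factorization_mul (by norm_num) (by norm_num)]
    simp only [Finsupp.coe_add, Pi.add_apply]
    rw [Nat.Prime.factorization_self (by norm_num),
      Nat.factorization_eq_zero_of_not_dvd (by norm_num)]
  have hcard : ∀ x : L, x ≠ 1 → x ^ 3 = 1 →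
      Nat.card (Subgroup.zpowers x) = 3 ^ (Nat.card L).factorization 3 := by
    intro x hx1 hx3
    rw [Nat.card_zpowers, hfac, pow_one]
    exact orderOf_eq_prime hx3 hx1
  have hA : (⟨a, haL⟩ : L) ≠ 1 := fun h => ha1 (congrArg Subtype.val h)
  have hA3 : (⟨a, haL⟩ : L) ^ 3 = 1 := Subtype.ext ha
  have hC : (⟨c, hc⟩ : L) ≠ 1 := fun h => hc1 (congrArg Subtype.val h)
  have hC3 : (⟨c, hc⟩ : L) ^ 3 = 1 := Subtype.ext hc3
  obtain ⟨g, hg⟩ := MulAction.exists_smul_eq L (Sylow.ofCard _ (hcard _ hA hA3))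
    (Sylow.ofCard _ (hcard _ hC hC3))
  have hmem : (⟨c, hc⟩ : L) ∈ (g • (Sylow.ofCard _ (hcard _ hA hA3)) : Sylow 3 L) := by
    rw [hg]
    exact Subgroup.mem_zpowers _
  have hmem2 : (⟨c, hc⟩ : L) ∈ MulAut.conj g • (Subgroup.zpowers (⟨a, haL⟩ : L)) := hmem
  rw [Subgroup.mem_smul_pointwise_iff_exists] at hmem2
  obtain ⟨s, hs, hsc⟩ := hmem2
  rw [Subgroup.mem_zpowers_iff] at hs
  obtain ⟨n, rfl⟩ := hs
  have hsc' : (g : H) * a ^ n * (g : H)⁻¹ = c := by
    have := congrArg Subtype.val hsc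
    simpa [MulAut.smul_def] using this
  refine ⟨g, g.2, ?_⟩
  have hn : a ^ n = a ^ (n % 3) := by
    conv_lhs => rw [← Int.mul_ediv_add_emod n 3, zpow_add, zpow_mul]
    have : a ^ (3 : ℤ) = 1 := by exact_mod_cast ha
    rw [this, one_zpow, one_mul]
  have h3 : n % 3 = 0 ∨ n % 3 = 1 ∨ n % 3 = 2 := by omega
  rcases h3 with h | h | h
  · rw [hn, h] at hsc'
    exact (hc1 (by rw [← hsc']; simp)).elim
  · rw [hn, h] at hsc'
    left
    rw [← hsc', zpow_one]
  · rw [hn, h] at hsc'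
    right
    rw [← hsc']
    have : a ^ (2 : ℤ) = a⁻¹ := by
      apply eq_inv_of_mul_eq_one_left
      have h2 : a ^ (2 : ℤ) * a = a ^ 3 := by
        rw [show (2 : ℤ) = ((2 : ℕ) : ℤ) by rfl, zpow_natCast, ← pow_succ]
      rw [h2, ha]
    rw [this]

/-- ROW 1bbd-S6b : for the elements `c` of order 3 of `L`, the set `UU z c` has at most 6 elements,
all in `L` -/
theorem S6b (hρ : FR ρ) {z a u u' : H} (hz : Inv2 z) (ha1 : a ≠ 1) (ha : a ^ 3 = 1)
    (hu : u ∈ UU z a) (hu' : u' ∈ UU z a) (hs : Sep a u u') {c : H}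
    (hc : c ∈ Subgroup.closure {a, u, u'}) (hc1 : c ≠ 1) (hc3 : c ^ 3 = 1) :
    UU z c ⊆ (Subgroup.closure {a, u, u'} : Set H) ∧ Nat.card (UU z c) ≤ 6 := by
  have hL := (S6a hρ hz ha1 ha hu hu' hs).1
  have haL : a ∈ Subgroup.closure ({a, u, u'} : Set H) := Subgroup.subset_closure (by simp)
  have huL : u ∈ Subgroup.closure ({a, u, u'} : Set H) := Subgroup.subset_closure (by simp)
  have hzL : z ∈ Subgroup.closure ({a, u, u'} : Set H) := by
    have h : u * u = z := hu.1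
    rw [← h]
    exact mul_mem huL huL
  have hzc := NB_cen hρ hz
  obtain ⟨g, hg, hcg⟩ := S6b_conj _ hL haL ha1 ha hc hc1 hc3
  have key : ∃ F : Bool × Fin 3 → H, (∀ p, F p ∈ Subgroup.closure ({a, u, u'} : Set H)) ∧
      ∀ v ∈ UU z c, ∃ p, v = F p := by
    rcases hcg with hcg | hcg
    · refine ⟨fun p => g * S6b_F a u u' p * g⁻¹, fun p => mul_mem (mul_mem hg (S6b_F_mem p))
        (inv_mem hg), fun v hv => ?_⟩
      have h1 := TQ_conj hzc hv g⁻¹
      have h2 : g⁻¹ * c * g⁻¹⁻¹ = a := by rw [hcg]; group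
      rw [h2] at h1
      obtain ⟨p, hp⟩ := S6b_cover hρ hz ha1 ha hu hu' hs h1
      refine ⟨p, ?_⟩
      simp only [← hp]
      group
    · refine ⟨fun p => g * (z * S6b_F a u u' p) * g⁻¹, fun p => mul_mem (mul_mem hg
        (mul_mem hzL (S6b_F_mem p))) (inv_mem hg), fun v hv => ?_⟩
      have h1 := TQ_conj hzc hv g⁻¹
      have h2 : g⁻¹ * c * g⁻¹⁻¹ = a⁻¹ := by rw [hcg]; group
      rw [h2] at h1
      have h3 := TQ_inv hρ hz (inv_ne_one.mpr ha1) (by rw [inv_pow, ha, inv_one]) h1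
      rw [inv_inv] at h3
      obtain ⟨p, hp⟩ := S6b_cover hρ hz ha1 ha hu hu' hs h3
      refine ⟨p, ?_⟩
      simp only [← hp]
      have hzz : z * (z * (g⁻¹ * v * g⁻¹⁻¹)) = g⁻¹ * v * g⁻¹⁻¹ := by
        rw [← mul_assoc, hz.2, one_mul]
      rw [hzz]
      group
  obtain ⟨F, hF1, hF2⟩ := key
  refine ⟨fun v hv => ?_, ?_⟩
  · obtain ⟨p, rfl⟩ := hF2 v hv
    exact hF1 p
  · have hsub : UU z c ⊆ Set.range F := fun v hv => by
      obtain ⟨p, hp⟩ := hF2 v hv
      exact ⟨p, hp.symm⟩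
    calc Nat.card (UU z c) ≤ Nat.card (Set.range F) :=
          Nat.card_mono (Set.finite_range F) hsub
      _ ≤ Nat.card (Bool × Fin 3) := Finite.card_range_le F
      _ = 6 := by simp

end Pool.Agent.Lib.MP_1bbd88_ag.Q
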