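import Pool.Agent.Lib.MP_1bbd88_ag.Q.NS.S6b
import Pool.Agent.Lib.MP_1bbd88_ag.Q.NS.S2g

set_option autoImplicit false

namespace Pool.Agent.Lib.MP_1bbd88_ag.Q

open Module

variable {K : Type*} [Field K] [IsAlgClosed K] {V : Type*} [AddCommGroup V] [Module K V]
  [FiniteDimensional K V] {H : Type*} [Group H] {ρ : H →* Module.End K V}

theorem S6c_cube_conj (b c : H) : (b * c * b⁻¹) ^ 3 = b * c ^ 3 * b⁻¹ := by
  rw [conj_pow]

/-- a conjugation of order 3 of a set with 21 elements fixes two elements -/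
theorem S6c_fix (L : Subgroup H) (h21 : Nat.card {g : H // g ∈ L ∧ g ^ 3 = 1} = 21) {b : H}
    (hb : b ^ 3 = 1) (hc : ∀ c ∈ L, c ^ 3 = 1 → b * c * b⁻¹ ∈ L) :
    ∃ c ∈ L, c ^ 3 = 1 ∧ c ≠ 1 ∧ b * c * b⁻¹ = c := by
  classical
  by_contra hcon
  push Not at hcon
  let X := {g : H // g ∈ L ∧ g ^ 3 = 1}
  have : Finite X := Nat.finite_of_card_ne_zero (by rw [h21]; norm_num)
  have : Fintype X := Fintype.ofFinite X
  let f : Function.End X := fun g => ⟨b * g.1 * b⁻¹, hc g.1 g.2.1 g.2.2, by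
    rw [S6c_cube_conj, g.2.2]; group⟩
  have hf : f ^ 3 ^ 1 = 1 := by
    rw [pow_one]
    funext g
    apply Subtype.ext
    have e : ((f ^ 3) g).1 = b * (b * (b * g.1 * b⁻¹) * b⁻¹) * b⁻¹ := rfl
    have hb' : b * b * b = 1 := by rw [← hb, pow_succ, pow_two]
    have hbi : b⁻¹ * b⁻¹ * b⁻¹ = 1 := by rw [← inv_one, ← hb']; group
    rw [e]
    calc b * (b * (b * g.1 * b⁻¹) * b⁻¹) * b⁻¹ = (b * b * b) * g.1 * (b⁻¹ * b⁻¹ * b⁻¹) := by
          group
      _ = g.1 := by rw [hb', hbi, one_mul, mul_one]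
  have : Fact (Nat.Prime 3) := ⟨Nat.prime_three⟩
  have hmod := Equiv.Perm.card_fixedPoints_modEq (f := f) (p := 3) (n := 1) hf
  have hX : Fintype.card X = 21 := by rw [← Nat.card_eq_fintype_card]; exact h21
  have h1 : Fintype.card (Function.fixedPoints f) = 1 := by
    rw [Fintype.card_eq_one_iff]
    refine ⟨⟨⟨1, L.one_mem, one_pow 3⟩, ?_⟩, ?_⟩
    · apply Subtype.ext
      change b * 1 * b⁻¹ = 1
      group
    · rintro ⟨g, hg⟩
      have hg' : b * g.1 * b⁻¹ = g.1 := congrArg Subtype.val hg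
      apply Subtype.ext
      apply Subtype.ext
      by_contra hne
      exact hcon g.1 g.2.1 g.2.2 hne hg'
  rw [hX, h1] at hmod
  exact absurd hmod (by decide)

/-- ROW 1bbd-S6c : `L` contains all elements of order 3 of `H` and is normal -/
theorem S6c (hρ : FR ρ) {z a u u' : H} (hz : Inv2 z) (ha1 : a ≠ 1) (ha : a ^ 3 = 1)
    (hu : u ∈ UU z a) (hu' : u' ∈ UU z a) (hs : Sep a u u') :
    (∀ b : H, b ^ 3 = 1 → b ∈ Subgroup.closure {a, u, u'}) ∧
      (Subgroup.closure {a, u, u'}).Normal := by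
  have hall : ∀ b : H, b ^ 3 = 1 → b ∈ Subgroup.closure {a, u, u'} := by
    intro b hb
    by_contra hbL
    set L := Subgroup.closure {a, u, u'} with hL
    have hb1 : b ≠ 1 := fun h => hbL (h ▸ L.one_mem)
    have hncomm : ∀ c ∈ L, c ^ 3 = 1 → c ≠ 1 → c * b ≠ b * c := by
      intro c hc hc3 hc1 hcb
      rcases NB_ord3 hρ hc1 hc3 hb1 hb hcb with h | h
      · exact hbL (h ▸ hc)
      · exact hbL (h ▸ L.inv_mem hc)
    have hsub : ∀ c ∈ L, c ^ 3 = 1 → c ≠ 1 → UU z c ⊆ (L : Set H) := fun c hc hc3 hc1 =>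
      (S6b hρ hz ha1 ha hu hu' hs hc hc1 hc3).1
    have hconj : ∀ c ∈ L, c ^ 3 = 1 → b * c * b⁻¹ ∈ L := by
      intro c hc hc3
      by_cases hc1 : c = 1
      · rw [hc1]; simp
      have hm := hsub c hc hc3 hc1
      rcases S2 hρ hz hc1 hc3 hb1 hb (hncomm c hc hc3 hc1) with ⟨h, -⟩ | ⟨-, h⟩ | ⟨h, -⟩
      · exfalso
        have h2 : c * b ∈ L := hm (TQ_of_four hρ hz hb h)
        exact hbL ((L.mul_mem_cancel_left hc).1 h2)
      · exfalso
        have hb' : (b⁻¹) ^ 3 = 1 := by rw [inv_pow, hb, inv_one]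
        have h2 : c * b⁻¹ ∈ L := hm (TQ_of_four hρ hz hb' h)
        exact hbL (L.inv_mem_iff.1 ((L.mul_mem_cancel_left hc).1 h2))
      · have h4 := (S2g hρ hz hc1 hc3 hb1 hb (hncomm c hc hc3 hc1) h).1
        have h3 : (b * c * b⁻¹) ^ 3 = 1 := by rw [S6c_cube_conj, hc3]; group
        have h2 : c * (b * c * b⁻¹) ∈ L := hm (TQ_of_four hρ hz h3 h4)
        exact (L.mul_mem_cancel_left hc).1 h2
    obtain ⟨c, hc, hc3, hc1, hfix⟩ := S6c_fix L (S6a hρ hz ha1 ha hu hu' hs).2.2.1 hb hconj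
    refine hncomm c hc hc3 hc1 ?_
    nth_rewrite 1 [← hfix]
    group
  refine ⟨hall, ⟨?_⟩⟩
  intro n hn g
  have hle : Subgroup.closure {a, u, u'} ≤
      (Subgroup.closure {a, u, u'}).comap (MulAut.conj g).toMonoidHom := by
    rw [Subgroup.closure_le]
    have hga : g * a * g⁻¹ ∈ Subgroup.closure {a, u, u'} :=
      hall _ (by rw [S6c_cube_conj, ha]; group)
    have hgu : ∀ w ∈ UU z a, g * w * g⁻¹ ∈ Subgroup.closure {a, u, u'} := by
      intro w hw
      have h1 : g * (a⁻¹ * w) * g⁻¹ ∈ Subgroup.closure {a, u, u'} :=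
        hall _ (by rw [S6c_cube_conj, hw.2]; group)
      have h2 : g * w * g⁻¹ = (g * a * g⁻¹) * (g * (a⁻¹ * w) * g⁻¹) := by group
      rw [h2]
      exact Subgroup.mul_mem _ hga h1
    intro x hx
    rcases hx with rfl | rfl | rfl
    · exact hga
    · exact hgu _ hu
    · exact hgu _ hu'
  exact hle hn

end Pool.Agent.Lib.MP_1bbd88_ag.Q
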