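import Pool.Agent.Lib.MP_1bbd88_ag.Q.NS.NDefs

set_option autoImplicit false

namespace Pool.Agent.Lib.MP_1bbd88_ag.Q

theorem TG_arith {n : ℕ} {i j : ℤ} (h1 : (2 : ℤ) ^ n ∣ j * (i - 1))
    (h2 : ∀ k : ℤ, ¬ (2 : ℤ) ^ n ∣ j + k * (i + 1)) (h3 : ¬ (2 : ℤ) ^ n ∣ i - 1)
    (h4 : ¬ (2 : ℤ) ∣ i) : (2 : ℤ) ^ n ∣ i + 1 ∧ (2 : ℤ) ^ n ∣ 2 * j := by
  have hg1 : Int.gcd (i + 1) ((2 : ℤ) ^ n) ∣ 2 ^ n := by
    have := Int.gcd_dvd_right (i + 1) ((2 : ℤ) ^ n)
    exact_mod_cast this
  obtain ⟨m, hm, hgm⟩ := (Nat.dvd_prime_pow Nat.prime_two).1 hg1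
  have hgi : ((2 : ℤ) ^ m) ∣ i + 1 := by
    have := Int.gcd_dvd_left (i + 1) ((2 : ℤ) ^ n)
    rw [hgm] at this
    exact_mod_cast this
  have hgj : ¬ ((2 : ℤ) ^ m) ∣ j := by
    rintro ⟨t, ht⟩
    have hb := Int.gcd_eq_gcd_ab (i + 1) ((2 : ℤ) ^ n)
    rw [hgm] at hb
    push_cast at hb
    apply h2 (-(Int.gcdA (i + 1) ((2 : ℤ) ^ n) * t))
    refine ⟨Int.gcdB (i + 1) ((2 : ℤ) ^ n) * t, ?_⟩
    rw [ht, hb]
    ring
  by_cases h4' : (4 : ℤ) ∣ i - 1
  · exfalso
    have hm1 : m ≤ 1 := by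
      by_contra hc
      have h5 : (4 : ℤ) ∣ 2 ^ m := by
        have : (4 : ℤ) = 2 ^ 2 := by norm_num
        rw [this]
        exact pow_dvd_pow _ (by omega)
      have h6 := h5.trans hgi
      omega
    have hj : ¬ (2 : ℤ) ∣ j := by
      intro hj
      apply hgj
      interval_cases m
      · simp
      · simpa using hj
    have hcop : IsCoprime ((2 : ℤ) ^ n) j := by
      apply IsCoprime.pow_left
      exact (Prime.coprime_iff_not_dvd Int.prime_two).2 hj
    exact h3 (hcop.dvd_of_dvd_mul_left h1)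
  · obtain ⟨w, hw⟩ : (2 : ℤ) ∣ i - 1 := by omega
    have hwodd : ¬ (2 : ℤ) ∣ w := by
      rintro ⟨t, ht⟩
      apply h4'
      exact ⟨t, by rw [hw, ht]; ring⟩
    have hcop : IsCoprime ((2 : ℤ) ^ n) w := by
      apply IsCoprime.pow_left
      exact (Prime.coprime_iff_not_dvd Int.prime_two).2 hwodd
    have h5 : (2 : ℤ) ^ n ∣ 2 * j := by
      apply hcop.dvd_of_dvd_mul_right
      have : 2 * j * w = j * (i - 1) := by rw [hw]; ring
      rw [this]
      exact h1
    refine ⟨?_, h5⟩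
    have hmn : m = n := by
      by_contra hne
      have hlt : m + 1 ≤ n := by omega
      have h6 : (2 : ℤ) ^ (m + 1) ∣ 2 * j := (pow_dvd_pow _ hlt).trans h5
      rw [pow_succ, mul_comm] at h6
      exact hgj (Int.dvd_of_mul_dvd_mul_left (by norm_num) h6)
    rw [← hmn]
    exact hgi

/-- a maximal normal commutative subgroup of a nilpotent group is its own centraliser -/
theorem TG_self {G : Type*} [Group G] [Finite G] [Group.IsNilpotent G] : ∃ C : Subgroup G,
    C.Normal ∧ Comm C ∧ ∀ x : G, (∀ c ∈ C, x * c = c * x) → x ∈ C := by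
  have hne : {B : Subgroup G | B.Normal ∧ Comm B}.Nonempty := by
    refine ⟨⊥, inferInstance, ?_⟩
    intro x hx y hy
    rw [Subgroup.mem_bot] at hx hy
    rw [hx, hy]
  obtain ⟨C, hC⟩ := (Set.toFinite {B : Subgroup G | B.Normal ∧ Comm B}).exists_maximal hne
  obtain ⟨hCn, hCc⟩ := hC.prop
  refine ⟨C, hCn, hCc, ?_⟩
  intro x0 hx0
  by_contra hx0C
  obtain ⟨N, hN⟩ := Group.IsNilpotent.nilpotent G
  have hex : ∃ n : ℕ, ∃ x : G, (∀ c ∈ C, x * c = c * x) ∧ x ∉ C ∧
      x ∈ Subgroup.upperCentralSeries G n := ⟨N, x0, hx0, hx0C, by rw [hN]; trivial⟩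
  classical
  obtain ⟨x, hx, hxC, hxn⟩ := Nat.find_spec hex
  obtain ⟨m, hm⟩ : ∃ m, Nat.find hex = m := ⟨_, rfl⟩
  have hmin : ∀ k < m, ∀ y : G, (∀ c ∈ C, y * c = c * y) →
      y ∈ Subgroup.upperCentralSeries G k → y ∈ C := by
    intro k hk y hy hyk
    by_contra hyC
    have := Nat.find_min hex (by rw [hm]; exact hk)
    exact this ⟨y, hy, hyC, hyk⟩
  rw [hm] at hxn
  rcases m with _ | m
  · rw [Subgroup.upperCentralSeries_zero, Subgroup.mem_bot] at hxn
    rw [hxn] at hxC
    exact hxC C.one_mem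
  rw [Subgroup.mem_upperCentralSeries_succ_iff] at hxn
  -- commutators with `x` are in `C`
  have hcomm : ∀ g : G, x * g * x⁻¹ * g⁻¹ ∈ C := by
    intro g
    apply hmin m (Nat.lt_succ_self m) _ _ (by simpa [commutatorElement_def] using hxn g)
    intro c hc
    have h1 : ∀ c ∈ C, x * c * x⁻¹ = c := by
      intro c hc
      rw [hx c hc]; group
    have h1' : ∀ c ∈ C, x⁻¹ * c * x = c := by
      intro c hc
      rw [mul_assoc, ← hx c hc]; group
    have h2 : g⁻¹ * c * g ∈ C := by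
      have := hCn.conj_mem c hc g⁻¹
      simpa using this
    have e1 := h1' _ h2
    have e2 : x * g * x⁻¹ * g⁻¹ * c * (x * g * x⁻¹ * g⁻¹)⁻¹ = c := by
      have e3 : x * g * x⁻¹ * g⁻¹ * c * (x * g * x⁻¹ * g⁻¹)⁻¹ =
          x * (g * (x⁻¹ * (g⁻¹ * c * g) * x) * g⁻¹) * x⁻¹ := by group
      rw [e3, e1]
      have e4 : g * (g⁻¹ * c * g) * g⁻¹ = c := by group
      rw [e4]
      exact h1 c hc
    rw [mul_inv_eq_iff_eq_mul] at e2
    exact e2
  -- the larger subgroup
  set S : Set G := (C : Set G) ∪ {x} with hS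
  have hD : Subgroup.closure S ∈ {B : Subgroup G | B.Normal ∧ Comm B} := by
    constructor
    · refine ⟨fun n hn g => ?_⟩
      refine Subgroup.closure_induction (p := fun n _ => g * n * g⁻¹ ∈ Subgroup.closure S)
        ?_ ?_ ?_ ?_ hn
      · intro s hs
        rcases hs with hs | hs
        · exact Subgroup.subset_closure (Or.inl (hCn.conj_mem s hs g))
        · rw [Set.mem_singleton_iff] at hs
          rw [hs]
          have h1 := hcomm g
          have h2 : g * x * g⁻¹ = (x * g * x⁻¹ * g⁻¹)⁻¹ * x := by group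
          rw [h2]
          exact Subgroup.mul_mem _ (Subgroup.inv_mem _ (Subgroup.subset_closure (Or.inl h1)))
            (Subgroup.subset_closure (Or.inr rfl))
      · simpa using (Subgroup.closure S).one_mem
      · intro a b _ _ ha hb
        have : g * (a * b) * g⁻¹ = (g * a * g⁻¹) * (g * b * g⁻¹) := by group
        rw [this]
        exact Subgroup.mul_mem _ ha hb
      · intro a _ ha
        have : g * a⁻¹ * g⁻¹ = (g * a * g⁻¹)⁻¹ := by group
        rw [this]
        exact Subgroup.inv_mem _ ha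
    · have hSc : ∀ a ∈ S, ∀ b ∈ S, a * b = b * a := by
        intro a ha b hb
        rcases ha with ha | ha <;> rcases hb with hb | hb
        · exact hCc a ha b hb
        · rw [Set.mem_singleton_iff] at hb
          rw [hb]; exact (hx a ha).symm
        · rw [Set.mem_singleton_iff] at ha
          rw [ha]; exact hx b hb
        · rw [Set.mem_singleton_iff] at ha hb
          rw [ha, hb]
      have h1 : Subgroup.closure S ≤ Subgroup.centralizer S := by
        rw [Subgroup.closure_le]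
        intro a ha
        rw [SetLike.mem_coe, Subgroup.mem_centralizer_iff]
        intro b hb
        exact hSc b hb a ha
      intro a ha b hb
      have h2 := Subgroup.closure_le_centralizer_centralizer S hb
      rw [Subgroup.mem_centralizer_iff] at h2
      exact h2 a (h1 ha)
  have hle : C ≤ Subgroup.closure S := fun c hc => Subgroup.subset_closure (Or.inl hc)
  have := hC.le_of_ge hD hle
  exact hxC (this (Subgroup.subset_closure (Or.inr rfl)))

/-- ROW 1bbd-TG : 2-groups all of whose commutative subgroups are cyclic -/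
theorem TG {G : Type*} [Group G] [Finite G] (hG : IsPGroup 2 G)
    (hcyc : ∀ B : Subgroup G, Comm B → IsCyclic B) (hn : ¬ IsCyclic G) {z : G} (hz : Inv2 z) :
    ∃ C : Subgroup G, IsCyclic C ∧ C.index = 2 ∧ 4 ∣ Nat.card C ∧
      ∀ y, y ∉ C → y * y = z ∧ ∀ c ∈ C, y * c * y⁻¹ = c⁻¹ := by
  haveI : Fact (Nat.Prime 2) := ⟨Nat.prime_two⟩
  haveI := hG.isNilpotent
  haveI : Nontrivial G := ⟨⟨z, 1, hz.1⟩⟩
  -- commuting involutions are equal
  have hinv : ∀ w v : G, w ≠ 1 → w * w = 1 → v ≠ 1 → v * v = 1 → w * v = v * w → w = v := by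
    intro w v hw1 hw hv1 hv hwv
    have hcomm : ∀ a ∈ ({w, v} : Set G), ∀ b ∈ ({w, v} : Set G), a * b = b * a := by
      intro a ha b hb
      rcases ha with rfl | ha <;> rcases hb with rfl | hb
      · rfl
      · rw [Set.mem_singleton_iff] at hb; rw [hb, hwv]
      · rw [Set.mem_singleton_iff] at ha; rw [ha, hwv]
      · rw [Set.mem_singleton_iff] at ha hb; rw [ha, hb]
    have hB : Comm (Subgroup.closure ({w, v} : Set G)) := by
      have h1 : Subgroup.closure ({w, v} : Set G) ≤ Subgroup.centralizer ({w, v} : Set G) := by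
        rw [Subgroup.closure_le]
        intro a ha
        rw [SetLike.mem_coe, Subgroup.mem_centralizer_iff]
        intro b hb
        exact hcomm b hb a ha
      intro a ha b hb
      have h2 := Subgroup.closure_le_centralizer_centralizer _ hb
      rw [Subgroup.mem_centralizer_iff] at h2
      exact h2 a (h1 ha)
    haveI := hcyc _ hB
    obtain ⟨⟨c, hcB⟩, hc⟩ := IsCyclic.exists_generator (α := Subgroup.closure ({w, v} : Set G))
    have hw' : ∃ k : ℤ, c ^ k = w := by
      obtain ⟨k, hk⟩ := hc ⟨w, Subgroup.subset_closure (Or.inl rfl)⟩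
      exact ⟨k, by simpa using congrArg Subtype.val hk⟩
    have hv' : ∃ k : ℤ, c ^ k = v := by
      obtain ⟨k, hk⟩ := hc ⟨v, Subgroup.subset_closure (Or.inr rfl)⟩
      exact ⟨k, by simpa using congrArg Subtype.val hk⟩
    obtain ⟨k, hk⟩ := hw'
    obtain ⟨l, hl⟩ := hv'
    have hd : ∀ m : ℤ, c ^ m = 1 ↔ (orderOf c : ℤ) ∣ m := fun m =>
      orderOf_dvd_iff_zpow_eq_one.symm
    have h1 : (orderOf c : ℤ) ∣ 2 * k := by
      rw [← hd, two_mul, zpow_add, hk, hw]
    have h2 : (orderOf c : ℤ) ∣ 2 * l := by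
      rw [← hd, two_mul, zpow_add, hl, hv]
    have h3 : ¬ (orderOf c : ℤ) ∣ k := by
      rw [← hd, hk]; exact hw1
    have h4 : ¬ (orderOf c : ℤ) ∣ l := by
      rw [← hd, hl]; exact hv1
    have h5 : (orderOf c : ℤ) ∣ k - l := by
      obtain ⟨s, hs⟩ := h1
      obtain ⟨t, ht⟩ := h2
      have hso : ¬ (2 : ℤ) ∣ s := by
        rintro ⟨r, hr⟩
        apply h3
        exact ⟨r, by rw [hr] at hs; linarith⟩
      have hto : ¬ (2 : ℤ) ∣ t := by
        rintro ⟨r, hr⟩
        apply h4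
        exact ⟨r, by rw [hr] at ht; linarith⟩
      obtain ⟨r, hr⟩ : (2 : ℤ) ∣ s - t := by omega
      refine ⟨r, ?_⟩
      have h7 : 2 * (k - l) = 2 * ((orderOf c : ℤ) * r) := by
        have : 2 * (k - l) = (orderOf c : ℤ) * (s - t) := by rw [mul_sub, mul_sub, hs, ht]
        rw [this, hr]; ring
      linarith
    rw [← hk, ← hl]
    rw [← sub_add_cancel k l, zpow_add, (hd _).2 h5, one_mul]
  -- the central involution
  have hcen : Nontrivial (Subgroup.center G) := hG.center_nontrivial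
  obtain ⟨⟨w0, hw0c⟩, hw01, hw0⟩ : ∃ w : Subgroup.center G, w ≠ 1 ∧ w * w = 1 := by
    have hd : 2 ∣ Nat.card (Subgroup.center G) := by
      have h1 := (hG.to_subgroup (Subgroup.center G)).nontrivial_iff_card.1 hcen
      obtain ⟨k, hk, hk'⟩ := h1
      rw [hk']
      exact dvd_pow_self 2 hk.ne'
    obtain ⟨w, hw⟩ := exists_prime_orderOf_dvd_card' 2 hd
    refine ⟨w, ?_, ?_⟩
    · intro h
      rw [h, orderOf_one] at hw
      norm_num at hw
    · rw [← pow_two, ← hw, pow_orderOf_eq_one]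
  have hw01' : w0 ≠ 1 := fun h => hw01 (Subtype.ext h)
  have hw0' : w0 * w0 = 1 := by simpa using congrArg Subtype.val hw0
  rw [Subgroup.mem_center_iff] at hw0c
  have huniq : ∀ w : G, w * w = 1 → w = 1 ∨ w = z := by
    intro w hw
    by_cases h1 : w = 1
    · exact Or.inl h1
    · right
      rw [hinv w w0 h1 hw hw01' hw0' (hw0c w), ← hinv z w0 hz.1 hz.2 hw01' hw0' (hw0c z)]
  have hzw : z = w0 := hinv z w0 hz.1 hz.2 hw01' hw0' (hw0c z)
  have hzc : ∀ g : G, z * g = g * z := by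
    intro g
    rw [hzw]; exact (hw0c g).symm
  -- the maximal normal commutative subgroup
  obtain ⟨C, hCn, hCc, hself⟩ := TG_self (G := G)
  haveI hCcyc := hcyc C hCc
  have hzC : z ∈ C := hself z fun c _ => hzc c
  obtain ⟨⟨c0, hc0C⟩, hgen⟩ := IsCyclic.exists_generator (α := C)
  have hgen' : ∀ c ∈ C, ∃ k : ℤ, c0 ^ k = c := by
    intro c hc
    obtain ⟨k, hk⟩ := hgen ⟨c, hc⟩
    exact ⟨k, by simpa using congrArg Subtype.val hk⟩
  obtain ⟨n, hn2⟩ : ∃ n : ℕ, orderOf c0 = 2 ^ n := by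
    obtain ⟨k, hk⟩ := hG c0
    obtain ⟨m, -, hm⟩ := (Nat.dvd_prime_pow Nat.prime_two).1 (orderOf_dvd_of_pow_eq_one hk)
    exact ⟨m, hm⟩
  have hcard : Nat.card C = 2 ^ n := by
    rw [← hn2, ← Subgroup.orderOf_mk (a := c0) hc0C, orderOf_eq_card_of_forall_mem_zpowers hgen]
  have hd : ∀ m : ℤ, c0 ^ m = 1 ↔ (2 : ℤ) ^ n ∣ m := by
    intro m
    rw [← orderOf_dvd_iff_zpow_eq_one, hn2]
    push_cast
    rfl
  have hn1 : 1 ≤ n := by
    by_contra h
    have h0 : n = 0 := by omega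
    obtain ⟨k, hk⟩ := hgen' z hzC
    apply hz.1
    rw [← hk, hd, h0]
    simp
  have hconj : ∀ y : G, ∃ i : ℤ, y * c0 * y⁻¹ = c0 ^ i := by
    intro y
    obtain ⟨k, hk⟩ := hgen' _ (hCn.conj_mem c0 hc0C y)
    exact ⟨k, hk.symm⟩
  have hconjz : ∀ (y : G) (i : ℤ), y * c0 * y⁻¹ = c0 ^ i → ∀ m : ℤ,
      y * c0 ^ m * y⁻¹ = c0 ^ (i * m) := by
    intro y i h m
    rw [zpow_mul, ← h, conj_zpow]
  have hcentr : ∀ y : G, y * c0 * y⁻¹ = c0 → y ∈ C := by
    intro y h
    apply hself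
    intro c hc
    obtain ⟨m, hm⟩ := hgen' c hc
    have h1 := hconjz y 1 (by rw [h, zpow_one]) m
    rw [one_mul, hm, mul_inv_eq_iff_eq_mul] at h1
    exact h1
  -- elements with square in `C`
  have hsq : ∀ y : G, y ∉ C → y * y ∈ C → y * y = z ∧ ∀ c ∈ C, y * c * y⁻¹ = c⁻¹ := by
    intro y hy hyy
    obtain ⟨i, hi⟩ := hconj y
    obtain ⟨j, hj⟩ := hgen' _ hyy
    have e1 : (2 : ℤ) ^ n ∣ j * (i - 1) := by
      rw [← hd]
      have h1 := hconjz y i hi j
      rw [hj] at h1
      have h2 : y * (y * y) * y⁻¹ = y * y := by group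
      rw [h2, ← hj] at h1
      have h3 : j * (i - 1) = i * j - j := by ring
      rw [h3, zpow_sub, ← h1, mul_inv_cancel]
    have e2 : ∀ k : ℤ, ¬ (2 : ℤ) ^ n ∣ j + k * (i + 1) := by
      intro k hk
      rw [← hd] at hk
      have h1 : (y * c0 ^ k) * (y * c0 ^ k) = 1 := by
        have h2 : (y * c0 ^ k) * (y * c0 ^ k) = (y * c0 ^ k * y⁻¹) * (y * y) * c0 ^ k := by group
        rw [h2, hconjz y i hi k, ← hj, ← zpow_add, ← zpow_add, ← hk]
        congr 1
        ring
      have hmem : y * c0 ^ k ∈ C := by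
        rcases huniq _ h1 with h | h
        · rw [h]; exact C.one_mem
        · rw [h]; exact hzC
      apply hy
      have h5 : y = (y * c0 ^ k) * (c0 ^ k)⁻¹ := by group
      rw [h5]
      exact C.mul_mem hmem (C.inv_mem (C.zpow_mem hc0C k))
    have e3 : ¬ (2 : ℤ) ^ n ∣ i - 1 := by
      intro h
      rw [← hd] at h
      apply hy
      apply hcentr
      rw [hi]
      rw [← sub_add_cancel i 1, zpow_add, h, one_mul, zpow_one]
    have e4 : ¬ (2 : ℤ) ∣ i := by
      rintro ⟨r, hr⟩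
      have h1 := hconjz y i hi (2 ^ (n - 1))
      have h2 : i * 2 ^ (n - 1) = 2 ^ n * r := by
        have : (2 : ℤ) ^ n = 2 * 2 ^ (n - 1) := by
          rw [← pow_succ', Nat.sub_add_cancel hn1]
        rw [this, hr]; ring
      have h3 : c0 ^ (i * 2 ^ (n - 1)) = 1 := by rw [hd, h2]; exact dvd_mul_right _ _
      rw [h3] at h1
      have h4 : c0 ^ ((2 : ℤ) ^ (n - 1)) = 1 := by
        rw [mul_inv_eq_one] at h1
        exact mul_left_cancel (h1.trans (mul_one y).symm)
      rw [hd] at h4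
      have h5 := Int.le_of_dvd (by positivity) h4
      have h6 : (2 : ℤ) ^ (n - 1) < 2 ^ n := by
        apply pow_lt_pow_right₀ (by norm_num)
        omega
      omega
    obtain ⟨f1, f2⟩ := TG_arith e1 e2 e3 e4
    constructor
    · have h1 : (y * y) * (y * y) = 1 := by
        rw [← hj, ← zpow_add, ← two_mul, hd]
        exact f2
      rcases huniq _ h1 with h | h
      · exfalso
        apply e2 0
        rw [zero_mul, add_zero, ← hd, hj, h]
      · exact h
    · intro c hc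
      obtain ⟨m, hm⟩ := hgen' c hc
      have h1 := hconjz y i hi m
      rw [hm] at h1
      rw [h1, ← hm, eq_inv_iff_mul_eq_one, ← zpow_add, hd]
      have : i * m + m = (i + 1) * m := by ring
      rw [this]
      exact Dvd.dvd.mul_right f1 m
  -- `C` is not of order two, if it is proper
  have hn2' : ∀ y : G, y ∉ C → y * y ∈ C → 2 ≤ n := by
    intro y hy hyy
    by_contra h
    have h1 : n = 1 := by omega
    apply hy
    apply hcentr
    rw [(hsq y hy hyy).2 c0 hc0C, inv_eq_iff_mul_eq_one, ← pow_two]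
    have : c0 ^ ((2 : ℤ)) = 1 := by rw [hd, h1, pow_one]
    exact_mod_cast this
  -- all elements outside `C` have squares in `C`
  have hall : ∀ y : G, y ∉ C → y * y ∈ C := by
    intro y hy
    classical
    have hex : ∃ k : ℕ, y ^ 2 ^ k ∈ C := by
      obtain ⟨k, hk⟩ := hG y
      exact ⟨k, by rw [hk]; exact C.one_mem⟩
    obtain ⟨m, hm⟩ : ∃ m, Nat.find hex = m := ⟨_, rfl⟩
    have hspec := Nat.find_spec hex
    rw [hm] at hspec
    have hmin : ∀ k < m, y ^ 2 ^ k ∉ C := fun k hk => Nat.find_min hex (by rw [hm]; exact hk)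
    rcases m with _ | _ | m
    · simp at hspec
      exact absurd hspec hy
    · have : y * y = y ^ 2 ^ (0 + 1) := by simp [pow_two]
      rw [this]; exact hspec
    · exfalso
      set w := y ^ 2 ^ m with hw
      have hww : w * w = y ^ 2 ^ (m + 1) := by
        rw [hw, ← pow_add]; congr 1; ring
      have hwwww : (w * w) * (w * w) = y ^ 2 ^ (m + 1 + 1) := by
        rw [hww, ← pow_add]; congr 1; ring
      have hx : w * w ∉ C := by rw [hww]; exact hmin _ (by omega)
      have hxx : (w * w) * (w * w) ∈ C := by rw [hwwww]; exact hspec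
      have hn22 := hn2' _ hx hxx
      obtain ⟨i, hi⟩ := hconj w
      have h1 := (hsq _ hx hxx).2 c0 hc0C
      have h2 : (w * w) * c0 * (w * w)⁻¹ = c0 ^ (i * i) := by
        have : (w * w) * c0 * (w * w)⁻¹ = w * (w * c0 * w⁻¹) * w⁻¹ := by group
        rw [this, hi, hconjz w i hi]
      rw [h2, eq_inv_iff_mul_eq_one] at h1
      have h3 : c0 ^ (i * i + 1) = 1 := by rw [zpow_add, zpow_one]; exact h1
      rw [hd] at h3
      have h4 : (4 : ℤ) ∣ i * i + 1 := by
        refine Dvd.dvd.trans ?_ h3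
        have : (4 : ℤ) = 2 ^ 2 := by norm_num
        rw [this]
        exact pow_dvd_pow _ hn22
      rcases Int.even_or_odd' i with ⟨r, hr | hr⟩
      · rw [hr] at h4
        have : (4 : ℤ) ∣ 1 := by
          have h5 : (4 : ℤ) ∣ 2 * r * (2 * r) := ⟨r * r, by ring⟩
          exact (Int.dvd_add_right h5).1 h4
        omega
      · rw [hr] at h4
        have h5 : (2 * r + 1) * (2 * r + 1) + 1 = 4 * (r * r + r) + 2 := by ring
        rw [h5] at h4
        omega
  have hCtop : ∃ y : G, y ∉ C := by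
    by_contra h
    push Not at h
    apply hn
    exact isCyclic_of_surjective C.subtype (fun g => ⟨⟨g, h g⟩, rfl⟩)
  obtain ⟨y0, hy0⟩ := hCtop
  refine ⟨C, hCcyc, ?_, ?_, fun y hy => hsq y hy (hall y hy)⟩
  · rw [Subgroup.index_eq_two_iff_exists_notMem_and]
    refine ⟨y0, hy0, fun b => ?_⟩
    by_cases hb : b ∈ C
    · exact Or.inr hb
    · left
      apply hcentr
      have h1 := (hsq y0 hy0 (hall y0 hy0)).2 c0 hc0C
      have h2 := (hsq b hb (hall b hb)).2 _ (C.inv_mem hc0C)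
      have h3 : b * y0 * c0 * (b * y0)⁻¹ = b * (y0 * c0 * y0⁻¹) * b⁻¹ := by group
      rw [h3, h1, h2, inv_inv]
  · rw [hcard]
    have : 4 = 2 ^ 2 := by norm_num
    rw [this]
    exact pow_dvd_pow _ (hn2' y0 hy0 (hall y0 hy0))

end Pool.Agent.Lib.MP_1bbd88_ag.Q
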