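import Pool.Agent.Lib.MP_1bbd88_ag.Q.NS.NDefs

set_option autoImplicit false

namespace Pool.Agent.Lib.MP_1bbd88_ag.Q

/-- ROW 1bbd-TT : transfer by the sign of the action on the cosets of `C` -/
theorem TT {E : Type*} [Group E] [Finite E] (hE : commutator E = ⊤) (S : Sylow 2 E)
    (C : Subgroup E) (hCS : C ≤ (S : Subgroup E)) (hidx : Nat.card S = 2 * Nat.card C) {z : E}
    (hz : Inv2 z) (hzc : ∀ g : E, g * z = z * g) (hzC : z ∈ C) {y : E} (hyy : y * y = z) :
    ∃ g : E, g * y * g⁻¹ ∈ C := by
  classical
  by_contra hne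
  push Not at hne
  have _hfin : Finite (E ⧸ C) := inferInstance
  let _hft : Fintype (E ⧸ C) := Fintype.ofFinite _
  let f : E →* ℤˣ := (Equiv.Perm.sign).comp (MulAction.toPermHom E (E ⧸ C))
  have hf : ∀ g, f g = 1 := by
    intro g
    have h := Abelianization.commutator_subset_ker f
    rw [hE] at h
    exact h (Subgroup.mem_top g)
  let σ : Equiv.Perm (E ⧸ C) := MulAction.toPermHom E (E ⧸ C) y
  have hσ2 : σ ^ 2 = 1 := by
    have h1 : σ ^ 2 = MulAction.toPermHom E (E ⧸ C) z := by
      rw [← hyy, map_mul, pow_two]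
    rw [h1]
    ext q
    induction q using QuotientGroup.induction_on with
    | H g =>
      show z • (QuotientGroup.mk g : E ⧸ C) = QuotientGroup.mk g
      rw [show z • (QuotientGroup.mk g : E ⧸ C) = QuotientGroup.mk (z * g) from rfl,
        QuotientGroup.eq]
      have : (z * g)⁻¹ * g = z⁻¹ := by
        rw [← hzc g]; group
      rw [this]
      exact C.inv_mem hzC
  have hσfix : ∀ q, σ q ≠ q := by
    intro q
    induction q using QuotientGroup.induction_on with
    | H g =>
      intro h
      have h2 : (QuotientGroup.mk (y * g) : E ⧸ C) = QuotientGroup.mk g := h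
      rw [QuotientGroup.eq] at h2
      apply hne g⁻¹
      have : g⁻¹ * y * g⁻¹⁻¹ = ((y * g)⁻¹ * g)⁻¹ := by group
      rw [this]
      exact C.inv_mem h2
  have hσ1 : σ ≠ 1 := by
    intro h
    apply hσfix (QuotientGroup.mk 1)
    rw [h]; rfl
  have hord : orderOf σ = 2 := orderOf_eq_prime hσ2 hσ1
  obtain ⟨n, hn⟩ := Equiv.Perm.cycleType_prime_order (σ := σ) (by rw [hord]; exact Nat.prime_two)
  have hsum := Equiv.Perm.sum_cycleType σ
  have hsupp : σ.support = Finset.univ := by
    ext q
    simp [hσfix q]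
  rw [hsupp, Finset.card_univ, hn, hord, Multiset.sum_replicate, smul_eq_mul] at hsum
  have hsign := Equiv.Perm.sign_of_cycleType σ
  have hs1 : Equiv.Perm.sign σ = 1 := hf y
  rw [hs1, hn, hord, Multiset.sum_replicate, Multiset.card_replicate, smul_eq_mul] at hsign
  have hcardX : Fintype.card (E ⧸ C) = C.index := by
    rw [← Nat.card_eq_fintype_card]; rfl
  have h1 : C.index * Nat.card C = Nat.card E := by
    rw [mul_comm]; exact C.card_mul_index
  have h2 : (S : Subgroup E).index * Nat.card S = Nat.card E := by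
    rw [mul_comm]; exact (S : Subgroup E).card_mul_index
  have hpos : 0 < Nat.card C := Nat.card_pos
  have h3 : C.index = 2 * (S : Subgroup E).index := by
    have h4 : C.index * Nat.card C = (2 * (S : Subgroup E).index) * Nat.card C := by
      rw [h1, ← h2, hidx]; ring
    exact Nat.eq_of_mul_eq_mul_right hpos h4
  have hodd : ¬ 2 ∣ (S : Subgroup E).index := S.not_dvd_index
  have h5 : n + 1 = (S : Subgroup E).index := by
    have : (n + 1) * 2 = 2 * (S : Subgroup E).index := by rw [hsum, hcardX, h3]
    omega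
  have h6 : Odd ((n + 1) * 2 + (n + 1)) := by
    rw [← Nat.not_even_iff_odd]
    intro he
    apply hodd
    rw [← h5]
    rw [even_iff_two_dvd] at he
    omega
  rw [h6.neg_one_pow] at hsign
  exact absurd hsign (by decide)

end Pool.Agent.Lib.MP_1bbd88_ag.Q
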