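import Pool.Agent.Lib.MP_1bbd88_ag.Q.NS.NB
import Pool.Agent.Lib.MP_1bbd88_ag.Q.NS.PG
import Pool.Agent.Lib.MP_1bbd88_ag.Q.NS.TG
import Pool.Agent.Lib.MP_1bbd88_ag.Q.NS.TT

set_option autoImplicit false

namespace Pool.Agent.Lib.MP_1bbd88_ag.Q

theorem S7a_sub {E : Type*} [Group E] (hcyc : ∀ B : Subgroup E, Comm B → IsCyclic B)
    (S : Subgroup E) : ∀ B : Subgroup S, Comm B → IsCyclic B := by
  intro B hB
  have hB' : Comm (B.map S.subtype) := by
    rintro _ ⟨u, hu, rfl⟩ _ ⟨v, hv, rfl⟩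
    rw [← map_mul, hB u hu v hv, map_mul]
  have hcB := hcyc _ hB'
  exact (MulEquiv.isCyclic (B.equivMapOfInjective S.subtype S.subtype_injective)).2 hcB

/-- an element which permutes three classes of elements cyclically has order divisible by 3 -/
theorem S7a_cycle {E : Type*} [Group E] {x y z g e1 e2 : E} (hzc : ∀ g : E, g * z = z * g)
    (hzz : z * z = 1) (hz1 : z ≠ 1) (hx : x * x = z) (hy : y * y = z)
    (hyx : y * x = z * (x * y)) (he1 : e1 = 1 ∨ e1 = z) (he2 : e2 = 1 ∨ e2 = z)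
    (h1 : g * x * g⁻¹ = e1 * (x * y)) (h2 : g * y * g⁻¹ = e2 * x) : 3 ∣ orderOf g := by
  have c1 : ∀ a : E, a * e1 = e1 * a := by
    rcases he1 with rfl | rfl
    · intro a; rw [mul_one, one_mul]
    · exact hzc
  have c2 : ∀ a : E, a * e2 = e2 * a := by
    rcases he2 with rfl | rfl
    · intro a; rw [mul_one, one_mul]
    · exact hzc
  have s1 : e1 * e1 = 1 := by rcases he1 with rfl | rfl <;> simp [hzz]
  have s2 : e2 * e2 = 1 := by rcases he2 with rfl | rfl <;> simp [hzz]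
  have hxyx : x * y * x = y := by
    calc x * y * x = x * (y * x) := mul_assoc _ _ _
      _ = x * (z * (x * y)) := by rw [hyx]
      _ = (x * z) * (x * y) := by simp only [mul_assoc]
      _ = z * (x * x) * y := by rw [hzc]; simp only [mul_assoc]
      _ = y := by rw [hx, hzz, one_mul]
  set c : E →* E := (MulAut.conj g).toMonoidHom with hc
  have ca : ∀ a, c a = g * a * g⁻¹ := fun a => rfl
  have cx : c x = e1 * (x * y) := h1
  have cy : c y = e2 * x := h2
  have ce1 : c e1 = e1 := by rw [ca, c1]; group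
  have ce2 : c e2 = e2 := by rw [ca, c2]; group
  have cc : c (c x) = e2 * y := by
    rw [cx, map_mul, map_mul, cx, cy, ce1]
    calc e1 * (e1 * (x * y) * (e2 * x)) = (e1 * e1) * (x * y * (e2 * x)) := by
          simp only [mul_assoc]
      _ = x * y * (e2 * x) := by rw [s1, one_mul]
      _ = (x * y * e2) * x := by simp only [mul_assoc]
      _ = e2 * (x * y * x) := by rw [c2]; simp only [mul_assoc]
      _ = e2 * y := by rw [hxyx]
  have ccc : c (c (c x)) = x := by
    rw [cc, map_mul, ce2, cy, ← mul_assoc, s2, one_mul]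
  have hcomm3 : Commute (g ^ 3) x := by
    have e : g ^ 3 * x * (g ^ 3)⁻¹ = x := by
      have : c (c (c x)) = g ^ 3 * x * (g ^ 3)⁻¹ := by
        rw [ca, ca, ca]
        simp only [pow_succ, pow_zero, one_mul, mul_inv_rev, mul_assoc]
      rw [← this, ccc]
    rw [Commute, SemiconjBy]
    exact mul_inv_eq_iff_eq_mul.1 e
  by_contra hnd
  have hcop : Nat.Coprime 3 (orderOf g) := (Nat.Prime.coprime_iff_not_dvd Nat.prime_three).2 hnd
  obtain ⟨m, hm⟩ := exists_pow_eq_self_of_coprime hcop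
  have hcg : Commute g x := by
    have := hcomm3.pow_left m
    rwa [hm] at this
  have e3 : g * x * g⁻¹ = x := by rw [hcg.eq]; group
  rw [h1] at e3
  have e4 : x * (e1 * y) = x * 1 := by
    rw [mul_one, ← mul_assoc, c1]
    rw [← mul_assoc] at e3
    exact e3
  have e5 : e1 * y = 1 := mul_left_cancel e4
  have e6 : y = e1 := by
    calc y = (e1 * e1) * y := by rw [s1, one_mul]
      _ = e1 * (e1 * y) := by rw [mul_assoc]
      _ = e1 := by rw [e5, mul_one]
  rw [e6, s1] at hy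
  exact hz1 hy.symm

theorem S7a_notZ {E : Type*} [Group E] [Finite E] [Nontrivial E] (hE : commutator E = ⊤) :
    ¬ IsZGroup E := by
  intro h
  exact (IsZGroup.commutator_lt E).ne hE

theorem S7a_ex {E : Type*} [Group E] [Finite E] [Nontrivial E] (hE : commutator E = ⊤)
    (hcyc : ∀ B : Subgroup E, Comm B → IsCyclic B) :
    ∃ S : Sylow 2 E, ¬ IsCyclic S := by
  by_contra hall
  push Not at hall
  apply S7a_notZ hE
  refine ⟨fun p hp P => ?_⟩
  by_cases h2 : p = 2
  · subst h2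
    exact hall P
  · have : Fact p.Prime := ⟨hp⟩
    exact PG h2 P.isPGroup' (S7a_sub hcyc P)

theorem S7a_inv {E : Type*} [Group E] [Finite E] {S : Sylow 2 E} (hS : ¬ IsCyclic S) :
    ∃ z : E, Inv2 z ∧ z ∈ (S : Subgroup E) := by
  have hnt : Nontrivial S := by
    rw [← not_subsingleton_iff_nontrivial]
    intro h
    exact hS inferInstance
  have h2 : 2 ∣ Nat.card S := by
    rcases S.isPGroup'.card_eq_or_dvd with h | h
    · exfalso
      have := (Nat.card_eq_one_iff_unique.1 h).1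
      exact not_subsingleton S this
    · exact h
  have : Fact (Nat.Prime 2) := ⟨Nat.prime_two⟩
  obtain ⟨z, hz⟩ := exists_prime_orderOf_dvd_card' 2 h2
  refine ⟨z, ⟨?_, ?_⟩, z.2⟩
  · intro h
    have : z = 1 := Subtype.ext h
    rw [this, orderOf_one] at hz
    omega
  · have h := pow_orderOf_eq_one z
    rw [hz, pow_two] at h
    exact congrArg Subtype.val h

/-- elements of order 4 in a cyclic group -/
theorem S7a_x {C : Type*} [Group C] [Finite C] [IsCyclic C] (hC : IsPGroup 2 C)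
    (h4 : 4 ∣ Nat.card C) :
    ∃ x : C, orderOf x = 4 ∧ ((∃ v : C, v * v = x) ∨ Nat.card C = 4) := by
  obtain ⟨g, hg⟩ := IsCyclic.exists_ofOrder_eq_natCard (α := C)
  have hpos : 0 < Nat.card C := Nat.card_pos
  by_cases h8 : 8 ∣ Nat.card C
  · obtain ⟨t, ht⟩ := h8
    have htpos : t ≠ 0 := by rintro rfl; omega
    refine ⟨g ^ (2 * t), ?_, Or.inl ⟨g ^ t, ?_⟩⟩
    · rw [orderOf_pow_of_dvd (by omega) (by rw [hg, ht]; exact ⟨4, by ring⟩), hg, ht]
      rw [show 8 * t = 4 * (2 * t) by ring]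
      exact Nat.mul_div_cancel _ (by omega)
    · rw [← pow_add]; congr 1; ring
  · obtain ⟨t, ht⟩ := h4
    have htpos : t ≠ 0 := by rintro rfl; omega
    refine ⟨g ^ t, ?_, Or.inr ?_⟩
    · rw [orderOf_pow_of_dvd htpos (by rw [hg, ht]; exact ⟨4, by ring⟩), hg, ht]
      exact Nat.mul_div_cancel _ (by omega)
    · have : Fact (Nat.Prime 2) := ⟨Nat.prime_two⟩
      obtain ⟨n, hn⟩ := IsPGroup.iff_card.1 hC
      have hn3 : n < 3 := by
        by_contra hge
        apply h8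
        rw [hn]
        exact pow_dvd_pow 2 (by omega : 3 ≤ n)
      interval_cases n
      · rw [hn] at ht; omega
      · rw [hn] at ht; omega
      · rw [hn]; norm_num

theorem S7a_four {E : Type*} [Group E] {z x w : E} (hinv : ∀ w : E, w * w = 1 → w = 1 ∨ w = z)
    (hx : x * x = z) (hw : w * w = z) (hxw : x * w = w * x) :
    ∃ e, (e = 1 ∨ e = z) ∧ w = e * x := by
  refine ⟨w * x⁻¹, hinv _ ?_, by group⟩
  have h1 : x⁻¹ * w = w * x⁻¹ := by
    rw [inv_mul_eq_iff_eq_mul, ← mul_assoc, hxw]; group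
  calc w * x⁻¹ * (w * x⁻¹) = w * (x⁻¹ * w) * x⁻¹ := by simp only [mul_assoc]
    _ = (w * w) * (x * x)⁻¹ := by rw [h1]; group
    _ = 1 := by rw [hw, hx]; group

/-- the elements `g` with `g x g⁻¹ = x` or `z x` -/
def S7a_N {E : Type*} [Group E] (z x : E) (hzc : ∀ g : E, g * z = z * g) (hzz : z * z = 1) :
    Subgroup E where
  carrier := {g | g * x * g⁻¹ = x ∨ g * x * g⁻¹ = z * x}
  one_mem' := by left; group
  mul_mem' := by
    intro a b ha hb
    have e : a * b * x * (a * b)⁻¹ = a * (b * x * b⁻¹) * a⁻¹ := by group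
    show a * b * x * (a * b)⁻¹ = x ∨ a * b * x * (a * b)⁻¹ = z * x
    rw [e]
    rcases hb with hb | hb
    · rw [hb]; exact ha
    · rw [hb]
      have e2 : a * (z * x) * a⁻¹ = z * (a * x * a⁻¹) := by
        rw [← mul_assoc a z x, hzc]; simp only [mul_assoc]
      rw [e2]
      rcases ha with ha | ha
      · right; rw [ha]
      · left; rw [ha, ← mul_assoc, hzz, one_mul]
  inv_mem' := by
    intro a ha
    show a⁻¹ * x * a⁻¹⁻¹ = x ∨ a⁻¹ * x * a⁻¹⁻¹ = z * x
    rcases ha with ha | ha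
    · left
      conv_lhs => rw [← ha]
      group
    · right
      have h1 : a⁻¹ * (z * x) * a = x := by rw [← ha]; group
      have h2 : a⁻¹ * (z * x) * a = z * (a⁻¹ * x * a) := by
        rw [← mul_assoc a⁻¹ z x, hzc]; simp only [mul_assoc]
      rw [h2] at h1
      rw [inv_inv]
      calc a⁻¹ * x * a = (z * z) * (a⁻¹ * x * a) := by rw [hzz, one_mul]
        _ = z * (z * (a⁻¹ * x * a)) := by simp only [mul_assoc]
        _ = z * x := by rw [h1]

theorem S7a_sylow {E : Type*} [Group E] [Finite E] (S : Sylow 2 E) (N : Subgroup E)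
    (hSN : (S : Subgroup E) ≤ N) (h : E) {a b : E} (ha : a ∈ (S : Subgroup E))
    (hb : b ∈ (S : Subgroup E)) (haN : h * a * h⁻¹ ∈ N) (hbN : h * b * h⁻¹ ∈ N) :
    ∃ n ∈ N, n⁻¹ * (h * a * h⁻¹) * n ∈ (S : Subgroup E) ∧
      n⁻¹ * (h * b * h⁻¹) * n ∈ (S : Subgroup E) := by
  have _hp : Fact (Nat.Prime 2) := ⟨Nat.prime_two⟩
  let P : Subgroup E := Subgroup.closure {h * a * h⁻¹, h * b * h⁻¹}
  have hPS : P ≤ ((h • S : Sylow 2 E) : Subgroup E) := by
    rw [Subgroup.closure_le]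
    rintro u (rfl | rfl)
    · rw [SetLike.mem_coe, Sylow.coe_subgroup_smul, Subgroup.mem_pointwise_smul_iff_inv_smul_mem]
      have : (MulAut.conj h)⁻¹ • (h * a * h⁻¹) = a := by
        rw [← map_inv, MulAut.smul_def, MulAut.conj_apply]; group
      rw [this]; exact ha
    · rw [SetLike.mem_coe, Sylow.coe_subgroup_smul, Subgroup.mem_pointwise_smul_iff_inv_smul_mem]
      have : (MulAut.conj h)⁻¹ • (h * b * h⁻¹) = b := by
        rw [← map_inv, MulAut.smul_def, MulAut.conj_apply]; group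
      rw [this]; exact hb
  have hP2 : IsPGroup 2 P := (h • S : Sylow 2 E).isPGroup'.to_le hPS
  have hPN : IsPGroup 2 (P.comap N.subtype) := hP2.comap_subtype
  obtain ⟨T, hT⟩ := hPN.exists_le_sylow
  obtain ⟨n, hn⟩ := MulAction.exists_smul_eq N (S.subtype hSN) T
  have hmem : ∀ u : E, u ∈ P → u ∈ N → (n : E)⁻¹ * u * n ∈ (S : Subgroup E) := by
    intro u hu huN
    have h1 : (⟨u, huN⟩ : N) ∈ (T : Subgroup N) := hT hu
    rw [← hn, Sylow.coe_subgroup_smul, Subgroup.mem_pointwise_smul_iff_inv_smul_mem] at h1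
    have hmN : (n : E)⁻¹ * u * n ∈ N := N.mul_mem (N.mul_mem (N.inv_mem n.2) huN) n.2
    have h2 : (MulAut.conj n)⁻¹ • (⟨u, huN⟩ : N) = ⟨(n : E)⁻¹ * u * n, hmN⟩ := by
      rw [← map_inv, MulAut.smul_def, MulAut.conj_apply]
      apply Subtype.ext
      show (n : E)⁻¹ * u * ((n : E)⁻¹)⁻¹ = (n : E)⁻¹ * u * n
      rw [inv_inv]
    rw [h2] at h1
    exact h1
  exact ⟨n, n.2, hmem _ (Subgroup.subset_closure (by simp)) haN,
    hmem _ (Subgroup.subset_closure (by simp)) hbN⟩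

/-- the final step: `h` normalises `S` and swaps the classes of `x` and `y` -/
theorem S7a_last {E : Type*} [Group E] [Finite E] (S : Sylow 2 E) {N : Subgroup E}
    (hSN : (S : Subgroup E) ≤ N) {h : E} (hh : h ^ 2 ∈ N)
    (hnor : ∀ s ∈ (S : Subgroup E), h * s * h⁻¹ ∈ (S : Subgroup E)) : h ∈ N := by
  have _hp : Fact (Nat.Prime 2) := ⟨Nat.prime_two⟩
  have hpos : orderOf h ≠ 0 := (orderOf_pos h).ne'
  obtain ⟨k, m, hm, hkm⟩ := Nat.exists_eq_two_pow_mul_odd hpos
  have h1 : (h ^ m) ^ (2 ^ k) = 1 := by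
    rw [← pow_mul, mul_comm m, ← hkm, pow_orderOf_eq_one]
  have hP : IsPGroup 2 (Subgroup.zpowers (h ^ m)) := by
    intro g
    obtain ⟨g, j, rfl⟩ := g
    refine ⟨k, Subtype.ext ?_⟩
    show ((h ^ m) ^ j) ^ (2 ^ k) = 1
    rw [← zpow_natCast, ← zpow_mul, mul_comm, zpow_mul, zpow_natCast, h1, one_zpow]
  have hn1 : h ∈ Subgroup.normalizer ((S : Subgroup E) : Set E) :=
    Subgroup.mem_normalizer_fintype hnor
  have hn2 : h ^ m ∈ Subgroup.zpowers (h ^ m) ⊓ Subgroup.normalizer ((S : Subgroup E) : Set E) :=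
    ⟨Subgroup.mem_zpowers _, Subgroup.pow_mem _ hn1 m⟩
  have hn3 := hP.inf_normalizer_sylow S
  have hn4 : h ^ m ∈ (S : Subgroup E) := by
    have : h ^ m ∈ Subgroup.zpowers (h ^ m) ⊓ (S : Subgroup E) := by
      rw [← hn3]; exact hn2
    exact this.2
  obtain ⟨j, hj⟩ := hm
  have h5 : h ^ m ∈ N := hSN hn4
  have h6 : (h ^ 2) ^ j ∈ N := N.pow_mem hh j
  have h7 : h = ((h ^ 2) ^ j)⁻¹ * h ^ m := by
    rw [hj, pow_succ h (2 * j), pow_mul, inv_mul_cancel_left]
  rw [h7]
  exact N.mul_mem (N.inv_mem h6) h5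

theorem S7a {E : Type*} [Group E] [Finite E] [Nontrivial E] (hE : commutator E = ⊤)
    (hcyc : ∀ B : Subgroup E, Comm B → IsCyclic B)
    (hinv : ∀ z w : E, Inv2 z → w * w = 1 → w = 1 ∨ w = z) :
    (∃ z : E, Inv2 z) ∧ 3 ∣ Nat.card E := by
  obtain ⟨S, hS⟩ := S7a_ex hE hcyc
  obtain ⟨z, hz, hzS⟩ := S7a_inv hS
  refine ⟨⟨z, hz⟩, ?_⟩
  have hzz : z * z = 1 := hz.2
  have hz1 : z ≠ 1 := hz.1
  have hI : ∀ w : E, w * w = 1 → w = 1 ∨ w = z := fun w hw => hinv z w hz hw
  have hzc : ∀ g : E, g * z = z * g := by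
    intro g
    have h1 : (g * z * g⁻¹) * (g * z * g⁻¹) = 1 := by
      calc (g * z * g⁻¹) * (g * z * g⁻¹) = g * (z * z) * g⁻¹ := by group
        _ = 1 := by rw [hzz]; group
    rcases hI _ h1 with h | h
    · exfalso; apply hz1
      have h2 : g * z = g := by rw [mul_inv_eq_iff_eq_mul, one_mul] at h; exact h
      exact mul_eq_left.1 h2
    · exact mul_inv_eq_iff_eq_mul.1 h
  have hS2 : IsPGroup 2 S := S.isPGroup'
  obtain ⟨C', hC'c, hC'i, hC'4, hC'y⟩ := TG hS2 (S7a_sub hcyc S) hS (z := ⟨z, hzS⟩)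
    ⟨fun h => hz1 (congrArg Subtype.val h), Subtype.ext hzz⟩
  have hCmem : ∀ (u : E) (hu : u ∈ (S : Subgroup E)),
      u ∈ C'.map (S : Subgroup E).subtype ↔ (⟨u, hu⟩ : S) ∈ C' := by
    intro u hu
    constructor
    · rintro ⟨v, hv, hvu⟩
      have : (⟨u, hu⟩ : S) = v := Subtype.ext hvu.symm
      rw [this]; exact hv
    · intro h
      exact ⟨_, h, rfl⟩
  set C : Subgroup E := C'.map (S : Subgroup E).subtype with hCdef
  have hCS : C ≤ (S : Subgroup E) := by
    rintro _ ⟨v, _, rfl⟩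
    exact v.2
  have hcardC : Nat.card C = Nat.card C' :=
    Nat.card_congr (C'.equivMapOfInjective (S : Subgroup E).subtype
      (S : Subgroup E).subtype_injective).toEquiv.symm
  have hidx : Nat.card S = 2 * Nat.card C := by
    have h1 := C'.card_mul_index
    rw [hC'i, mul_comm] at h1
    rw [hcardC, h1]
  have hyC : ∀ y ∈ (S : Subgroup E), y ∉ C → y * y = z ∧ ∀ c ∈ C, y * c * y⁻¹ = c⁻¹ := by
    intro y hy hyn
    rw [hCmem y hy] at hyn
    obtain ⟨h1, h2⟩ := hC'y _ hyn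
    refine ⟨congrArg Subtype.val h1, ?_⟩
    intro c hc
    have hc2 := hCS hc
    rw [hCmem c hc2] at hc
    exact congrArg Subtype.val (h2 _ hc)
  have hCcomm : ∀ a ∈ C, ∀ b ∈ C, a * b = b * a := by
    rintro _ ⟨a, ha, rfl⟩ _ ⟨b, hb, rfl⟩
    have := IsCyclic.commGroup (α := C')
    have h1 : (⟨a, ha⟩ : C') * ⟨b, hb⟩ = ⟨b, hb⟩ * ⟨a, ha⟩ := by
      obtain ⟨g, hg⟩ := hC'c.exists_generator
      obtain ⟨i, hi⟩ := hg ⟨a, ha⟩
      obtain ⟨j, hj⟩ := hg ⟨b, hb⟩
      have hi' : g ^ i = (⟨a, ha⟩ : C') := hi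
      have hj' : g ^ j = (⟨b, hb⟩ : C') := hj
      rw [← hi', ← hj', ← zpow_add, ← zpow_add, add_comm]
    have h2 : a * b = b * a := congrArg Subtype.val h1
    exact congrArg Subtype.val h2
  have hzC : z ∈ C := by
    by_contra hn
    have := (hyC z hzS hn).1
    exact hz1 (mul_eq_left.1 this)
  -- an element of order 4
  obtain ⟨x', hx'o, hx'v⟩ := S7a_x (hS2.to_subgroup C') hC'4
  obtain ⟨x, hxC, hxx, hxv⟩ : ∃ x ∈ C, x * x = z ∧ ((∃ v ∈ C, v * v = x) ∨ Nat.card C = 4) := by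
    refine ⟨((x' : S) : E), ⟨x', x'.2, rfl⟩, ?_, ?_⟩
    · have h4 : x' ^ 4 = 1 := by rw [← hx'o]; exact pow_orderOf_eq_one x'
      have h4' : (((x' : S) : E) * ((x' : S) : E)) * (((x' : S) : E) * ((x' : S) : E)) = 1 := by
        have := congrArg (fun t : C' => ((t : S) : E)) h4
        simp only [pow_succ, pow_zero, one_mul] at this
        simpa [mul_assoc] using this
      rcases hI _ h4' with h | h
      · exfalso
        have h2 : x' ^ 2 = 1 := by
          apply Subtype.ext; apply Subtype.ext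
          simpa [pow_two] using h
        have h3 := orderOf_dvd_of_pow_eq_one h2
        rw [hx'o] at h3
        omega
      · exact h
    · rcases hx'v with ⟨v, hv⟩ | h
      · left
        exact ⟨((v : S) : E), ⟨v, v.2, rfl⟩, congrArg (fun t : C' => ((t : S) : E)) hv⟩
      · right; rw [hcardC, h]
  -- an element outside C
  obtain ⟨y, hyS, hyn⟩ : ∃ y ∈ (S : Subgroup E), y ∉ C := by
    by_contra hall
    push Not at hall
    have h1 : C = (S : Subgroup E) := le_antisymm hCS hall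
    have h2 : Nat.card C = Nat.card S := by rw [h1]
    have h3 : 0 < Nat.card C := Nat.card_pos
    omega
  have hyy := (hyC y hyS hyn).1
  have hyinv := (hyC y hyS hyn).2
  have hxinv : x⁻¹ = z * x := by
    rw [inv_eq_iff_mul_eq_one]
    calc x * (z * x) = (x * z) * x := by rw [mul_assoc]
      _ = z * (x * x) := by rw [hzc, mul_assoc]
      _ = 1 := by rw [hxx, hzz]
  have key : ∀ u ∈ (S : Subgroup E), u ∉ C → u * x = z * (x * u) := by
    intro u hu hun
    have h1 := (hyC u hu hun).2 x hxC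
    rw [mul_inv_eq_iff_eq_mul, hxinv, mul_assoc] at h1
    exact h1
  have hyx := key y hyS hyn
  obtain ⟨h, hhC⟩ := TT hE S C hCS hidx hz hzc hzC hyy
  have hq : (h * y * h⁻¹) * (h * y * h⁻¹) = z := by
    calc (h * y * h⁻¹) * (h * y * h⁻¹) = h * (y * y) * h⁻¹ := by group
      _ = z := by rw [hyy, hzc]; group
  obtain ⟨δ, hδ, hδx⟩ := S7a_four hI hxx hq (hCcomm x hxC _ hhC)
  have hδc : ∀ a : E, a * δ = δ * a := by
    rcases hδ with rfl | rfl
    · intro a; rw [mul_one, one_mul]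
    · exact hzc
  have hδδ : δ * δ = 1 := by rcases hδ with rfl | rfl <;> simp [hzz]
  have hxδ : x = δ * (h * y * h⁻¹) := by
    rw [hδx, ← mul_assoc, hδδ, one_mul]
  let N := S7a_N z x hzc hzz
  have hNdef : ∀ g : E, g ∈ N ↔ (g * x * g⁻¹ = x ∨ g * x * g⁻¹ = z * x) := fun g => Iff.rfl
  have hSN : (S : Subgroup E) ≤ N := by
    intro s hs
    rw [hNdef]
    by_cases hsC : s ∈ C
    · left
      rw [hCcomm s hsC x hxC, mul_inv_cancel_right]
    · right
      rw [(hyC s hs hsC).2 x hxC, hxinv]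
  have hN1 : h * x * h⁻¹ ∈ N := by
    rw [hNdef]; right
    have e1 : x * y * x⁻¹ = z * y := by
      rw [mul_inv_eq_iff_eq_mul, mul_assoc, hyx, ← mul_assoc, hzz, one_mul]
    calc h * x * h⁻¹ * x * (h * x * h⁻¹)⁻¹
        = h * x * h⁻¹ * (δ * (h * y * h⁻¹)) * (h * x * h⁻¹)⁻¹ := by rw [← hxδ]
      _ = δ * (h * (x * y * x⁻¹) * h⁻¹) := by
          rw [← mul_assoc (h * x * h⁻¹) δ, hδc]; group
      _ = δ * (z * (h * y * h⁻¹)) := by
          rw [e1, ← mul_assoc h z y, hzc]; simp only [mul_assoc]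
      _ = z * (δ * (h * y * h⁻¹)) := by
          rw [← mul_assoc, hzc, mul_assoc]
      _ = z * x := by rw [← hxδ]
  have hN2 : h * y * h⁻¹ ∈ N := hSN (hCS hhC)
  have hxS : x ∈ (S : Subgroup E) := hCS hxC
  obtain ⟨n, hnN, hn1, hn2⟩ := S7a_sylow S N hSN h hxS hyS hN1 hN2
  obtain ⟨k, hkdef⟩ : ∃ k : E, k = n⁻¹ * h := ⟨_, rfl⟩
  have hk1 : k * x * k⁻¹ ∈ (S : Subgroup E) := by
    rw [hkdef]
    have : n⁻¹ * h * x * (n⁻¹ * h)⁻¹ = n⁻¹ * (h * x * h⁻¹) * n := by group
    rw [this]; exact hn1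
  obtain ⟨ε, hε, hkε⟩ : ∃ ε : E, (ε = 1 ∨ ε = z) ∧ k * y * k⁻¹ = ε * x := by
    have e1 : k * y * k⁻¹ = δ * (n⁻¹ * x * n⁻¹⁻¹) := by
      rw [hkdef]
      calc n⁻¹ * h * y * (n⁻¹ * h)⁻¹ = n⁻¹ * (h * y * h⁻¹) * n⁻¹⁻¹ := by group
        _ = n⁻¹ * (δ * x) * n⁻¹⁻¹ := by rw [hδx]
        _ = δ * (n⁻¹ * x * n⁻¹⁻¹) := by
            rw [← mul_assoc n⁻¹ δ x, hδc]; simp only [mul_assoc]
    rcases (hNdef _).1 (N.inv_mem hnN) with h2 | h2
    · exact ⟨δ, hδ, by rw [e1, h2]⟩
    · refine ⟨δ * z, ?_, by rw [e1, h2, mul_assoc]⟩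
      rcases hδ with rfl | rfl
      · right; rw [one_mul]
      · left; exact hzz
  have hεc : ∀ a : E, a * ε = ε * a := by
    rcases hε with rfl | rfl
    · intro a; rw [mul_one, one_mul]
    · exact hzc
  have hεε : ε * ε = 1 := by rcases hε with rfl | rfl <;> simp [hzz]
  obtain ⟨y1, hy1⟩ : ∃ y1 : E, y1 = k * x * k⁻¹ := ⟨_, rfl⟩
  rw [← hy1] at hk1
  have hyxne : y * x ≠ x * y := by
    intro h2
    rw [h2] at hyx
    exact hz1 (mul_eq_right.1 hyx.symm)
  have hy1n : y1 ∉ C := by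
    intro hc
    have h2 : y1 * x = x * y1 := hCcomm _ hc _ hxC
    apply hyxne
    have h3 : (k * y * k⁻¹) * (k * x * k⁻¹) = (k * x * k⁻¹) * (k * y * k⁻¹) := by
      rw [hkε, ← hy1, mul_assoc, ← mul_assoc y1 ε x, hεc, mul_assoc, h2]
    have h4 : k * (y * x) * k⁻¹ = k * (x * y) * k⁻¹ := by
      calc k * (y * x) * k⁻¹ = (k * y * k⁻¹) * (k * x * k⁻¹) := by group
        _ = (k * x * k⁻¹) * (k * y * k⁻¹) := h3
        _ = k * (x * y) * k⁻¹ := by group
    exact mul_left_cancel (mul_right_cancel h4)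
  have hkx : k⁻¹ * x * k = ε * y := by
    have h2 : ε * x * k = k * y := by rw [← hkε]; group
    calc k⁻¹ * x * k = k⁻¹ * (ε * (ε * x * k)) := by
          rw [← mul_assoc ε, ← mul_assoc ε, hεε, one_mul, mul_assoc]
      _ = k⁻¹ * (ε * (k * y)) := by rw [h2]
      _ = k⁻¹ * k * ε * y := by rw [← mul_assoc ε, ← hεc]; simp only [mul_assoc]
      _ = ε * y := by group
  have hky1 : k⁻¹ * y1 * k = x := by rw [hy1]; group
  rcases hxv with ⟨v, hvC, hvx⟩ | hC4
  · -- the case of a square root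
    have hvx' : v * x * v⁻¹ = x := by
      rw [hCcomm v hvC x hxC]; group
    have hvu : ∀ u ∈ (S : Subgroup E), u ∉ C → v * u * v⁻¹ = x * u := by
      intro u hu hun
      have h2 := (hyC u hu hun).2 v⁻¹ (C.inv_mem hvC)
      rw [inv_inv, mul_inv_eq_iff_eq_mul] at h2
      calc v * u * v⁻¹ = v * (u * v⁻¹) := by group
        _ = v * (v * u) := by rw [h2]
        _ = x * u := by rw [← mul_assoc, hvx]
    have g1 : (k⁻¹ * v * k) * v * x * ((k⁻¹ * v * k) * v)⁻¹ = (ε * z) * (x * y) := by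
      calc (k⁻¹ * v * k) * v * x * ((k⁻¹ * v * k) * v)⁻¹
          = k⁻¹ * v * k * (v * x * v⁻¹) * k⁻¹ * v⁻¹ * k := by group
        _ = k⁻¹ * (v * (k * x * k⁻¹) * v⁻¹) * k := by rw [hvx']; group
        _ = k⁻¹ * (x * y1) * k := by rw [← hy1, hvu y1 hk1 hy1n]
        _ = (k⁻¹ * x * k) * (k⁻¹ * y1 * k) := by group
        _ = (ε * z) * (x * y) := by rw [hkx, hky1, mul_assoc, hyx, ← mul_assoc]
    have hxyx : x * y1 * x = y1 := by
      have h2 := key y1 hk1 hy1n
      calc x * y1 * x = x * (z * (x * y1)) := by rw [mul_assoc, h2]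
        _ = (x * z) * (x * y1) := by rw [mul_assoc]
        _ = z * (x * x) * y1 := by rw [hzc]; simp only [mul_assoc]
        _ = y1 := by rw [hxx, hzz, one_mul]
    have g2 : (k⁻¹ * v * k) * v * y * ((k⁻¹ * v * k) * v)⁻¹ = ε * x := by
      calc (k⁻¹ * v * k) * v * y * ((k⁻¹ * v * k) * v)⁻¹
          = k⁻¹ * v * k * (v * y * v⁻¹) * k⁻¹ * v⁻¹ * k := by group
        _ = k⁻¹ * (v * ((k * x * k⁻¹) * (k * y * k⁻¹)) * v⁻¹) * k := by
            rw [hvu y hyS hyn]; group
        _ = k⁻¹ * (v * (y1 * (ε * x)) * v⁻¹) * k := by rw [← hy1, hkε]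
        _ = k⁻¹ * (v * (ε * (y1 * x)) * v⁻¹) * k := by
            rw [← mul_assoc y1 ε x, hεc, mul_assoc ε y1 x]
        _ = k⁻¹ * (ε * (v * y1 * v⁻¹ * (v * x * v⁻¹))) * k := by
            rw [← mul_assoc v ε, hεc]; group
        _ = k⁻¹ * (ε * (x * y1 * x)) * k := by rw [hvu y1 hk1 hy1n, hvx']
        _ = ε * (k⁻¹ * y1 * k) := by
            rw [hxyx, ← mul_assoc, hεc]; simp only [mul_assoc]
        _ = ε * x := by rw [hky1]
    have hez : ε * z = 1 ∨ ε * z = z := by
      rcases hε with rfl | rfl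
      · right; rw [one_mul]
      · left; exact hzz
    exact (S7a_cycle hzc hzz hz1 hxx hyy hyx hez hε g1 g2).trans (orderOf_dvd_natCard _)
  · -- the case of a subgroup of order 4
    have hCfour : ∀ c ∈ C, (c = 1 ∨ c = z) ∨ ∃ e, (e = 1 ∨ e = z) ∧ c = e * x := by
      intro c hc
      have h4 : (c * c) * (c * c) = 1 := by
        have h2 : (⟨c, hc⟩ : C) ^ Nat.card C = 1 := pow_card_eq_one'
        rw [hC4] at h2
        have h3 := congrArg Subtype.val h2
        simp only [pow_succ, pow_zero, one_mul] at h3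
        simpa [mul_assoc] using h3
      rcases hI _ h4 with h2 | h2
      · left; exact hI _ h2
      · right; exact S7a_four hI hxx h2 (hCcomm x hxC c hc)
    have hw : y1 * y⁻¹ ∈ C := by
      rw [hCmem _ ((S : Subgroup E).mul_mem hk1 ((S : Subgroup E).inv_mem hyS))]
      have h2 := Subgroup.mul_mem_iff_of_index_two hC'i (a := (⟨y1, hk1⟩ : S))
        (b := (⟨y⁻¹, (S : Subgroup E).inv_mem hyS⟩ : S))
      have h3 : (⟨y1, hk1⟩ : S) ∉ C' := by rw [← hCmem]; exact hy1n
      have h4 : (⟨y⁻¹, (S : Subgroup E).inv_mem hyS⟩ : S) ∉ C' := by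
        rw [← hCmem]; intro h5; exact hyn (by simpa using C.inv_mem h5)
      exact h2.2 ⟨fun h5 => absurd h5 h3, fun h5 => absurd h5 h4⟩
    rcases hCfour _ hw with hw1 | ⟨e, he, hw1⟩
    · exfalso
      have hy1w : y1 = (y1 * y⁻¹) * y := by group
      obtain ⟨w, hwdef⟩ : ∃ w, w = y1 * y⁻¹ := ⟨_, rfl⟩
      rw [← hwdef] at hw1 hy1w
      have hwc : ∀ a : E, a * w = w * a := by
        rcases hw1 with rfl | rfl
        · intro a; rw [mul_one, one_mul]
        · exact hzc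
      have hkN : k ∈ N := by
        apply S7a_last S hSN
        · rw [hNdef]
          have h2 : k ^ 2 * x * (k ^ 2)⁻¹ = (w * ε) * x := by
            calc k ^ 2 * x * (k ^ 2)⁻¹ = k * (k * x * k⁻¹) * k⁻¹ := by
                  rw [pow_two]; group
              _ = k * (w * y) * k⁻¹ := by rw [← hy1, hy1w]
              _ = w * (k * y * k⁻¹) := by
                  rw [← mul_assoc, hwc]; simp only [mul_assoc]
              _ = (w * ε) * x := by rw [hkε, mul_assoc]
          rw [h2]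
          rcases hw1 with rfl | rfl <;> rcases hε with rfl | rfl <;> simp [hzz]
        · intro s hs
          have hz' : k * z * k⁻¹ ∈ (S : Subgroup E) := by
            rw [hzc, mul_inv_cancel_right]; exact hzS
          have hcc : ∀ c ∈ C, k * c * k⁻¹ ∈ (S : Subgroup E) := by
            intro c hc
            rcases hCfour c hc with (rfl | rfl) | ⟨e, he, rfl⟩
            · rw [mul_one, mul_inv_cancel]; exact (S : Subgroup E).one_mem
            · exact hz'
            · have h2 : k * (e * x) * k⁻¹ = (k * e * k⁻¹) * (k * x * k⁻¹) := by group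
              rw [h2, ← hy1]
              refine (S : Subgroup E).mul_mem ?_ hk1
              rcases he with rfl | rfl
              · rw [mul_one, mul_inv_cancel]; exact (S : Subgroup E).one_mem
              · exact hz'
          by_cases hsC : s ∈ C
          · exact hcc s hsC
          · have h2 : s * y⁻¹ ∈ C := by
              rw [hCmem _ ((S : Subgroup E).mul_mem hs ((S : Subgroup E).inv_mem hyS))]
              have h2 := Subgroup.mul_mem_iff_of_index_two hC'i (a := (⟨s, hs⟩ : S))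
                (b := (⟨y⁻¹, (S : Subgroup E).inv_mem hyS⟩ : S))
              have h3 : (⟨s, hs⟩ : S) ∉ C' := by rw [← hCmem]; exact hsC
              have h4 : (⟨y⁻¹, (S : Subgroup E).inv_mem hyS⟩ : S) ∉ C' := by
                rw [← hCmem]; intro h5; exact hyn (by simpa using C.inv_mem h5)
              exact h2.2 ⟨fun h5 => absurd h5 h3, fun h5 => absurd h5 h4⟩
            have h3 : k * s * k⁻¹ = (k * (s * y⁻¹) * k⁻¹) * (k * y * k⁻¹) := by group
            rw [h3, hkε]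
            refine (S : Subgroup E).mul_mem (hcc _ h2) ((S : Subgroup E).mul_mem ?_ hxS)
            rcases hε with rfl | rfl
            · exact (S : Subgroup E).one_mem
            · exact hzS
      rw [hNdef, ← hy1] at hkN
      apply hy1n
      rcases hkN with h2 | h2
      · rw [h2]; exact hxC
      · rw [h2]; exact C.mul_mem hzC hxC
    · have g1 : k * x * k⁻¹ = e * (x * y) := by
        rw [← hy1]
        have hy1w : y1 = (y1 * y⁻¹) * y := by group
        rw [hy1w, hw1, mul_assoc]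
      exact (S7a_cycle hzc hzz hz1 hxx hyy hyx he hε g1 hkε).trans (orderOf_dvd_natCard _)

end Pool.Agent.Lib.MP_1bbd88_ag.Q
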