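import Pool.Agent.Lib.MP_1bbd88_ag.Q.NS.NB

set_option autoImplicit false

namespace Pool.Agent.Lib.MP_1bbd88_ag.Q

open Module

section TQ_ring

variable {R : Type*} [Ring R] {A U : R}

theorem TQ_r3 (hA : A * A + A + 1 = 0) : A * A * A = 1 := by
  have h : A * A * A - 1 = (A - 1) * (A * A + A + 1) := by noncomm_ring
  rw [hA, mul_zero] at h
  exact sub_eq_zero.1 h

theorem TQ_rA (hA : A * A + A + 1 = 0) : A * A = -1 - A := by
  have h : A * A - (-1 - A) = A * A + A + 1 := by noncomm_ring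
  rw [hA] at h
  exact sub_eq_zero.1 h

theorem TQ_rU (h : A * U + U * A + U = 1) : U * A = 1 - U - A * U := by
  rw [← h]
  noncomm_ring

theorem TQ_rAAU (hA : A * A + A + 1 = 0) : A * A * U = -U - A * U := by
  rw [TQ_rA hA]
  noncomm_ring

theorem TQ_rUAU (hU : U * U = -1) (h : A * U + U * A + U = 1) : U * A * U = U + 1 + A := by
  rw [TQ_rU h]
  have h1 : (1 - U - A * U) * U = U - U * U - A * (U * U) := by noncomm_ring
  rw [h1, hU]
  noncomm_ring

theorem TQ_r1 (hA : A * A + A + 1 = 0) (hU : U * U = -1) (h : A * U + U * A + U = 1) :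
    U * (A * A * U * A) + (A * A * U * A) * U = 0 := by
  have h1 : A * A * U * A = A * A + A * U := by
    calc A * A * U * A = A * A * (U * A) := by rw [mul_assoc]
      _ = A * A * (1 - U - A * U) := by rw [TQ_rU h]
      _ = A * A - A * A * U - (A * A * A) * U := by noncomm_ring
      _ = A * A + A * U := by
        rw [TQ_r3 hA, TQ_rAAU hA]
        noncomm_ring
  rw [h1]
  have h2 : U * (A * A + A * U) = U * (A * A) + U * A * U := by noncomm_ring
  have h3 : (A * A + A * U) * U = A * A * U + A * (U * U) := by noncomm_ring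
  rw [h2, h3, TQ_rUAU hU h, TQ_rAAU hA, hU, TQ_rA hA]
  have h4 : U * (-1 - A) + (U + 1 + A) + (-U - A * U + A * -1) = 1 - (A * U + U * A + U) := by
    noncomm_ring
  rw [h4, h, sub_self]

theorem TQ_r2 (hA : A * A + A + 1 = 0) (hU : U * U = -1) (h : A * U + U * A + U = 1) :
    U * (A * U * (A * A)) + (A * U * (A * A)) * U = 0 := by
  have h1 : A * U * (A * A) = A * A + U * A := by
    calc A * U * (A * A) = A * (U * A) * A := by noncomm_ring
      _ = A * (1 - U - A * U) * A := by rw [TQ_rU h]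
      _ = A * A - (A + A * A) * (U * A) := by noncomm_ring
      _ = A * A + U * A := by
        rw [TQ_rA hA]
        noncomm_ring
  rw [h1]
  have h2 : U * (A * A + U * A) = U * (A * A) + (U * U) * A := by noncomm_ring
  have h3 : (A * A + U * A) * U = A * A * U + U * A * U := by noncomm_ring
  rw [h2, h3, TQ_rUAU hU h, TQ_rAAU hA, hU, TQ_rA hA]
  have h4 : U * (-1 - A) + -1 * A + (-U - A * U + (U + 1 + A)) = 1 - (A * U + U * A + U) := by
    noncomm_ring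
  rw [h4, h, sub_self]

/-- `X + X⁻¹ = 1` implies `X³ = -1` -/
theorem TQ_rX {X Y : R} (h : X + Y = 1) (hXY : X * Y = 1) : X * X * X = -1 := by
  have h1 : Y = 1 - X := by rw [← h]; noncomm_ring
  rw [h1] at hXY
  have h2 : X * X = X - 1 := by
    rw [← hXY]
    noncomm_ring
  have h3 : X * X * X = X * (X * X) := by noncomm_ring
  rw [h3, h2]
  have h4 : X * (X - 1) = X * X - X := by noncomm_ring
  rw [h4, h2]
  noncomm_ring

end TQ_ring

variable {K : Type*} [Field K] [IsAlgClosed K] {V : Type*} [AddCommGroup V] [Module K V]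
  [FiniteDimensional K V] {H : Type*} [Group H] {ρ : H →* Module.End K V}

/-! ROW 1bbd-TQ : the elements of `UU z a` -/

theorem TQ_conj {z a u : H} (hzc : ∀ g : H, g * z = z * g) (hu : u ∈ UU z a) (g : H) :
    g * u * g⁻¹ ∈ UU z (g * a * g⁻¹) := by
  obtain ⟨h1, h2⟩ := hu
  constructor
  · have h3 : g * u * g⁻¹ * (g * u * g⁻¹) = g * (u * u) * g⁻¹ := by group
    rw [h3, h1, hzc g]
    group
  · have h3 : (g * a * g⁻¹)⁻¹ * (g * u * g⁻¹) = g * (a⁻¹ * u) * g⁻¹ := by group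
    rw [h3, conj_pow, h2]
    group

theorem TQ_cj {z a u : H} (hzc : ∀ g : H, g * z = z * g) (hu : u ∈ UU z a) (k : ℕ) :
    cj a k u ∈ UU z a := by
  have h := TQ_conj hzc hu (a ^ k)⁻¹
  have h1 : (a ^ k)⁻¹ * a * ((a ^ k)⁻¹)⁻¹ = a := by
    rw [inv_inv, mul_assoc, ← pow_succ', pow_succ, ← mul_assoc, inv_mul_cancel, one_mul]
  have h2 : (a ^ k)⁻¹ * u * ((a ^ k)⁻¹)⁻¹ = cj a k u := by
    rw [inv_inv]
    rfl
  rw [h1, h2] at h
  exact h

private theorem TQ_zinv {z : H} (hz : Inv2 z) : z⁻¹ = z :=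
  inv_eq_of_mul_eq_one_right hz.2

private theorem TQ_ainv {a : H} (ha : a ^ 3 = 1) : a⁻¹ = a * a :=
  inv_eq_of_mul_eq_one_right (by rw [← ha, pow_succ, sq, mul_assoc])

private theorem TQ_uinv (hρ : FR ρ) {z u : H} (hz : Inv2 z) (hu : u * u = z) : u⁻¹ = z * u := by
  refine inv_eq_of_mul_eq_one_right ?_
  rw [← mul_assoc, NB_cen hρ hz u, mul_assoc, hu, hz.2]

/-- `a` and `u` do not commute -/
theorem TQ_ncomm (hρ : FR ρ) {z a u : H} (hz : Inv2 z) (ha1 : a ≠ 1) (ha : a ^ 3 = 1)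
    (hu : u ∈ UU z a) : a * u ≠ u * a := by
  intro h
  obtain ⟨h1, h2⟩ := hu
  have h3 : Commute a⁻¹ u := (show Commute a u from h).inv_left
  rw [h3.mul_pow, inv_pow, ha, inv_one, one_mul, pow_succ, sq, h1] at h2
  have h4 : u = z := by
    rw [← TQ_zinv hz]
    exact eq_inv_of_mul_eq_one_right h2
  rw [h4, hz.2] at h1
  exact hz.1 h1.symm

/-- `b = a⁻¹ u` has order 3 and does not commute with `a` -/
theorem TQ_b (hρ : FR ρ) {z a u : H} (hz : Inv2 z) (ha1 : a ≠ 1) (ha : a ^ 3 = 1)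
    (hu : u ∈ UU z a) : a⁻¹ * u ≠ 1 ∧ (a⁻¹ * u) ^ 3 = 1 ∧ a * (a⁻¹ * u) ≠ (a⁻¹ * u) * a := by
  have h := TQ_ncomm hρ hz ha1 ha hu
  refine ⟨?_, hu.2, ?_⟩
  · intro h1
    have h2 : u = a := by
      rw [inv_mul_eq_one] at h1
      exact h1.symm
    rw [h2] at h
    exact h rfl
  · intro h1
    apply h
    rw [mul_inv_cancel_left] at h1
    calc a * u = a * (a⁻¹ * u * a) := by rw [← h1]
      _ = u * a := by group

/-- conversely -/
theorem TQ_of_four (hρ : FR ρ) {z a b : H} (hz : Inv2 z) (hb : b ^ 3 = 1)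
    (h4 : orderOf (a * b) = 4) : a * b ∈ UU z a := by
  constructor
  · have h1 : (a * b) ^ 4 = 1 := by rw [← h4]; exact pow_orderOf_eq_one _
    have h2 : (a * b) * (a * b) ≠ 1 := by
      intro h2
      have h3 : orderOf (a * b) ∣ 2 := orderOf_dvd_of_pow_eq_one (by rw [sq]; exact h2)
      rw [h4] at h3
      omega
    have h3 : ((a * b) * (a * b)) * ((a * b) * (a * b)) = 1 := by
      rw [← h1, show (4 : ℕ) = 2 + 2 from rfl, pow_add, sq]
    rcases NB_uniq hρ hz h3 with h | h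
    · exact absurd h h2
    · exact h
  · rw [inv_mul_cancel_left]
    exact hb

private theorem TQ_Ainv (hρ : FR ρ) {a : H} (ha1 : a ≠ 1) (ha : a ^ 3 = 1) :
    ρ a⁻¹ = -1 - ρ a := by
  rw [TQ_ainv ha, map_mul]
  exact TQ_rA (NB_three hρ ha1 ha)

private theorem TQ_Uinv (hρ : FR ρ) {z u : H} (hz : Inv2 z) (hu : u * u = z) :
    ρ u⁻¹ = -ρ u := by
  rw [TQ_uinv hρ hz hu, map_mul, NB_neg hρ hz]
  noncomm_ring

theorem TQ_rel (hρ : FR ρ) {z a u : H} (hz : Inv2 z) (ha1 : a ≠ 1) (ha : a ^ 3 = 1)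
    (hu : u ∈ UU z a) : ρ a * ρ u + ρ u * ρ a + ρ u = 1 := by
  obtain ⟨hb1, hb3, _⟩ := TQ_b hρ hz ha1 ha hu
  have h := NB_T3 hρ hb1 hb3
  rw [mul_inv_rev, inv_inv, map_mul, map_mul, TQ_Ainv hρ ha1 ha, TQ_Uinv hρ hz hu.1] at h
  have h1 : (-1 - ρ a) * ρ u + -ρ u * ρ a = -(ρ a * ρ u + ρ u * ρ a + ρ u) := by noncomm_ring
  rw [h1] at h
  exact neg_injective h

private theorem TQ_au (hρ : FR ρ) {z a u : H} (hz : Inv2 z) (ha1 : a ≠ 1) (ha : a ^ 3 = 1)
    (hu : u ∈ UU z a) : (a * u) * (a * u) * (a * u) = z := by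
  apply NB_inj hρ
  rw [map_mul, map_mul, NB_neg hρ hz]
  refine TQ_rX (Y := ρ (a * u)⁻¹) ?_ ?_
  · rw [mul_inv_rev, map_mul, map_mul, TQ_Ainv hρ ha1 ha, TQ_Uinv hρ hz hu.1]
    have h1 : ρ a * ρ u + -ρ u * (-1 - ρ a) = ρ a * ρ u + ρ u * ρ a + ρ u := by noncomm_ring
    rw [h1]
    exact TQ_rel hρ hz ha1 ha hu
  · rw [← map_mul, mul_inv_cancel, map_one]

theorem TQ_inv (hρ : FR ρ) {z a u : H} (hz : Inv2 z) (ha1 : a ≠ 1) (ha : a ^ 3 = 1)
    (hu : u ∈ UU z a) : z * u ∈ UU z a⁻¹ := by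
  have hc := NB_cen hρ hz
  constructor
  · calc z * u * (z * u) = z * (u * z) * u := by group
      _ = (z * z) * (u * u) := by rw [hc u]; group
      _ = z := by rw [hz.2, hu.1, one_mul]
  · rw [inv_inv]
    have h1 : a * (z * u) = z * (a * u) := by
      rw [← mul_assoc, hc a, mul_assoc]
    have h2 : Commute z (a * u) := (hc (a * u)).symm
    have h3 : (a * u) ^ 3 = z := by
      rw [pow_succ, sq]
      exact TQ_au hρ hz ha1 ha hu
    rw [h1, h2.mul_pow, h3, pow_succ, sq, hz.2, one_mul, hz.2]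

private theorem TQ_B (hρ : FR ρ) {z a u : H} (hz : Inv2 z) (ha1 : a ≠ 1) (ha : a ^ 3 = 1)
    (hu : u ∈ UU z a) : ρ (a⁻¹ * u) = ρ u * ρ a - 1 := by
  rw [map_mul, TQ_Ainv hρ ha1 ha, TQ_rU (TQ_rel hρ hz ha1 ha hu)]
  noncomm_ring

theorem TQ_T (hρ : FR ρ) {z a u u' : H} (hz : Inv2 z) (ha1 : a ≠ 1) (ha : a ^ 3 = 1)
    (hu : u ∈ UU z a) (hu' : u' ∈ UU z a) :
    ρ ((a⁻¹ * u) * (a⁻¹ * u')) + ρ ((a⁻¹ * u) * (a⁻¹ * u'))⁻¹ = 1 + ρ u * ρ u' + ρ u' * ρ u := by
  obtain ⟨hb1, hb3, _⟩ := TQ_b hρ hz ha1 ha hu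
  obtain ⟨hb1', hb3', _⟩ := TQ_b hρ hz ha1 ha hu'
  rw [NB_Tmul hρ hb1 hb3 hb1' hb3']
  have h1 : ∀ v w : H, v ∈ UU z a → ρ (a⁻¹ * v) * ρ (a⁻¹ * w) = ρ v * ρ w - ρ (a⁻¹ * w) := by
    intro v w hv
    rw [TQ_B hρ hz ha1 ha hv, sub_mul, one_mul, mul_assoc, ← map_mul ρ a, mul_inv_cancel_left]
  rw [h1 u u' hu, h1 u' u hu']
  noncomm_ring

private theorem TQ_cj_mod {a : H} (ha : a ^ 3 = 1) (k : ℕ) (u : H) :
    cj a k u = cj a (k % 3) u := by
  have h : a ^ k = a ^ (k % 3) := by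
    conv_lhs => rw [← Nat.div_add_mod k 3, pow_add, pow_mul, ha, one_pow, one_mul]
  rw [cj, cj, h]

private theorem TQ_anti (hρ : FR ρ) {z a u : H} (hz : Inv2 z) (ha1 : a ≠ 1) (ha : a ^ 3 = 1)
    (hu : u ∈ UU z a) (k : ℕ) (hk : k % 3 ≠ 0) :
    ρ u * ρ (cj a k u) + ρ (cj a k u) * ρ u = 0 := by
  have hA := NB_three hρ ha1 ha
  have hU := NB_sq hρ hz hu.1
  have hr := TQ_rel hρ hz ha1 ha hu
  rw [TQ_cj_mod ha k u]
  have h12 : k % 3 = 1 ∨ k % 3 = 2 := by omega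
  rcases h12 with h | h
  · rw [h]
    have h1 : cj a 1 u = a * a * u * a := by
      rw [cj, pow_one, TQ_ainv ha]
    rw [h1, map_mul, map_mul, map_mul]
    exact TQ_r1 hA hU hr
  · rw [h]
    have h1 : cj a 2 u = a * u * (a * a) := by
      have h2 : (a ^ 2)⁻¹ = a := inv_eq_of_mul_eq_one_right (by rw [← ha]; group)
      rw [cj, h2, sq]
    rw [h1, map_mul, map_mul, map_mul]
    exact TQ_r2 hA hU hr

/-- the product of the elements `b` for two members of one orbit has order 6 -/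
theorem TQ_six (hρ : FR ρ) {z a u : H} (hz : Inv2 z) (ha1 : a ≠ 1) (ha : a ^ 3 = 1)
    (hu : u ∈ UU z a) (k : ℕ) (hk : k % 3 ≠ 0) :
    orderOf ((a⁻¹ * u) * (a⁻¹ * cj a k u)) = 6 := by
  set h : H := (a⁻¹ * u) * (a⁻¹ * cj a k u) with hh
  have hT : ρ h + ρ h⁻¹ = 1 := by
    rw [hh, TQ_T hρ hz ha1 ha hu (TQ_cj (NB_cen hρ hz) hu k), add_assoc,
      TQ_anti hρ hz ha1 ha hu k hk, add_zero]
  have hXY : ρ h * ρ h⁻¹ = 1 := by rw [← map_mul, mul_inv_cancel, map_one]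
  have h3 : h * h * h = z := by
    apply NB_inj hρ
    rw [map_mul, map_mul, NB_neg hρ hz]
    exact TQ_rX hT hXY
  have h3' : h ^ 3 = z := by rw [pow_succ, sq, h3]
  have h2 : h ^ 2 ≠ 1 := by
    intro h2
    have h4 : h⁻¹ = h := inv_eq_of_mul_eq_one_right (by rw [← sq]; exact h2)
    rw [h4] at hT hXY
    obtain ⟨v, hv⟩ := @exists_ne V hρ.ne 0
    have h5 : ρ h v + ρ h v = v := by
      have := congrArg (fun f : Module.End K V => f v) hT
      exact this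
    have h6 : ρ h (ρ h v) = v := by
      have := congrArg (fun f : Module.End K V => f v) hXY
      exact this
    have h7 : ρ h (ρ h v + ρ h v) = ρ h v := by rw [h5]
    rw [map_add, h6] at h7
    have h8 : (3 : K) • v = 0 := by
      have h9 : (3 : K) • v = v + v + v := by
        rw [show (3 : K) = 1 + 1 + 1 by norm_num, add_smul, add_smul, one_smul]
      have h10 : v + v + (v + v) = v := by
        rw [h7]
        exact h5
      rw [h9]
      have h11 : v + v + v = (v + v + (v + v)) - v := by abel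
      rw [h11, h10, sub_self]
    rcases smul_eq_zero.1 h8 with h9 | h9
    · exact NB_three_ne hρ ha1 ha h9
    · exact hv h9
  refine orderOf_eq_of_pow_and_pow_div_prime (by norm_num) ?_ ?_
  · have : h ^ 6 = h ^ 3 * h ^ 3 := by rw [← pow_add]
    rw [this, h3', hz.2]
  · intro p hp hpd
    have hp6 : p ∣ 2 * 3 := hpd
    rcases (Nat.Prime.dvd_mul hp).1 hp6 with h4 | h4
    · have h5 : p = 2 := (Nat.prime_dvd_prime_iff_eq hp Nat.prime_two).1 h4
      rw [h5, show 6 / 2 = 3 by norm_num, h3']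
      exact hz.1
    · have h5 : p = 3 := (Nat.prime_dvd_prime_iff_eq hp Nat.prime_three).1 h4
      rw [h5, show 6 / 3 = 2 by norm_num]
      exact h2

end Pool.Agent.Lib.MP_1bbd88_ag.Q
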