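import Pool.Agent.Lib.MP_1bbd88_ag.Q.NS.S2g
import Pool.Agent.Lib.MP_1bbd88_ag.Q.NS.TQ
import Pool.Agent.Lib.MP_1bbd88_ag.Q.NS.S7a

set_option autoImplicit false

namespace Pool.Agent.Lib.MP_1bbd88_ag.Q

open Module

variable {K : Type*} [Field K] [IsAlgClosed K] {V : Type*} [AddCommGroup V] [Module K V]
  [FiniteDimensional K V]

/-- the image of a perfect group lies in the commutator subgroup -/
theorem S7b_range {E : Type*} [Group E] (hE : commutator E = ⊤) {G : Type*} [Group G]
    (f : E →* G) (g : E) : f g ∈ commutator G := by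
  have h1 : g ∈ commutator E := by rw [hE]; trivial
  have h2 : (commutator E).map f ≤ commutator G := by
    rw [commutator_def, commutator_def, Subgroup.map_commutator]
    exact Subgroup.commutator_mono le_top le_top
  exact h2 (Subgroup.mem_map_of_mem f h1)

/-- a homomorphism from a perfect group with commuting values is trivial -/
theorem S7b_triv {E : Type*} [Group E] (hE : commutator E = ⊤) {G : Type*} [Group G]
    (f : E →* G) (hf : ∀ a b : E, f a * f b = f b * f a) (g : E) : f g = 1 := by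
  have h1 : g ∈ commutator E := by rw [hE]; trivial
  have h2 : commutator E ≤ f.ker := by
    rw [commutator_def, Subgroup.commutator_le]
    intro a _ b _
    rw [MonoidHom.mem_ker, map_commutatorElement, commutatorElement_eq_one_iff_mul_comm]
    exact hf a b
  exact MonoidHom.mem_ker.1 (h2 h1)

/-- perfect groups act trivially on four points -/
theorem S7b_perm4 {E : Type*} [Group E] (hE : commutator E = ⊤)
    (f : E →* Equiv.Perm (Fin 4)) (g : E) : f g = 1 := by
  have h4 : Nat.card (Fin 4) = 4 := by simp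
  have hsign : ∀ g, f g ∈ alternatingGroup (Fin 4) := by
    intro g
    rw [Equiv.Perm.mem_alternatingGroup]
    exact S7b_triv hE (Equiv.Perm.sign.comp f) (fun a b => mul_comm _ _) g
  let f1 : E →* alternatingGroup (Fin 4) := f.codRestrict _ hsign
  have hk : ∀ g, f1 g ∈ alternatingGroup.kleinFour (Fin 4) := by
    intro g
    rw [alternatingGroup.kleinFour_eq_commutator h4]
    exact S7b_range hE f1 g
  let f2 : E →* alternatingGroup.kleinFour (Fin 4) := f1.codRestrict _ hk
  have h2 : f2 g = 1 := S7b_triv hE f2 (fun a b =>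
    mul_comm_of_exponent_two (alternatingGroup.exponent_kleinFour_of_card_eq_four h4) _ _) g
  have h1 : f1 g = 1 := congrArg Subtype.val h2
  exact congrArg Subtype.val h1

theorem S7b_perm {E : Type*} [Group E] (hE : commutator E = ⊤) {X : Type*} (e : X ↪ Fin 4)
    (f : E →* Equiv.Perm X) (g : E) : f g = 1 := by
  have h1 := S7b_perm4 hE ((Equiv.Perm.viaEmbeddingHom e).comp f) g
  apply Equiv.Perm.viaEmbeddingHom_injective e
  rw [map_one]
  exact h1

theorem S7b_cj_mod {E : Type*} [Group E] {a : E} (ha : a ^ 3 = 1) (k : ℕ) (u : E) :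
    cj a k u = cj a (k % 3) u := by
  have h1 : a ^ k = a ^ (k % 3) := by
    conv_lhs => rw [← Nat.div_add_mod k 3, pow_add, pow_mul, ha, one_pow, one_mul]
  unfold cj
  rw [h1]

/-- two non commuting elements of order 3 -/
theorem S7b_order {E : Type*} [Group E] {ρ : E →* Module.End K V} (hρ : FR ρ) {z a b : E}
    (hz : Inv2 z) (ha1 : a ≠ 1) (ha : a ^ 3 = 1) (hb1 : b ≠ 1) (hb : b ^ 3 = 1)
    (hab : a * b ≠ b * a)
    (hcon : ∀ u ∈ UU z a, ∀ u' ∈ UU z a, ∃ k : ℕ, cj a k u' = u) :
    a * b ∈ UU z a ∨ a * b⁻¹ ∈ UU z a := by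
  have hbi : (b⁻¹) ^ 3 = 1 := by rw [inv_pow, hb, inv_one]
  rcases S2 hρ hz ha1 ha hb1 hb hab with ⟨h4, -⟩ | ⟨-, h4⟩ | ⟨h10, -⟩
  · exact Or.inl (TQ_of_four hρ hz hb h4)
  · exact Or.inr (TQ_of_four hρ hz hbi h4)
  · exfalso
    obtain ⟨g1, g2, g3⟩ := S2g hρ hz ha1 ha hb1 hb hab h10
    have hc1 : (b * a * b⁻¹) ^ 3 = 1 := by
      have : (b * a * b⁻¹) ^ 3 = b * a ^ 3 * b⁻¹ := conj_pow
      rw [this, ha, mul_one, mul_inv_cancel]
    have hc2 : (b⁻¹ * a * b) ^ 3 = 1 := by
      have : (b⁻¹ * a * b) ^ 3 = b⁻¹ * a ^ 3 * b := by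
        simp only [pow_succ, pow_zero, one_mul]
        group
      rw [this, ha, mul_one, inv_mul_cancel]
    have hu : a * (b * a * b⁻¹) ∈ UU z a := TQ_of_four hρ hz hc1 g1
    have hu' : a * (b⁻¹ * a * b) ∈ UU z a := TQ_of_four hρ hz hc2 g2
    obtain ⟨k, hk⟩ := hcon _ hu _ hu'
    have e1 : a⁻¹ * (a * (b * a * b⁻¹)) = b * a * b⁻¹ := inv_mul_cancel_left _ _
    have e2 : a⁻¹ * (a * (b⁻¹ * a * b)) = b⁻¹ * a * b := inv_mul_cancel_left _ _
    by_cases hk3 : k % 3 = 0
    · rw [S7b_cj_mod ha, hk3] at hk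
      have h5 : a * (b⁻¹ * a * b) = a * (b * a * b⁻¹) := by
        rw [← hk]; simp [cj]
      have h6 : b⁻¹ * a * b = b * a * b⁻¹ := mul_left_cancel h5
      rw [h6] at g3
      have h7 : ((b * a * b⁻¹) * (b * a * b⁻¹)) ^ 3 = 1 := by
        rw [← pow_two, ← pow_mul, mul_comm 2 3, pow_mul, hc1, one_pow]
      have h8 := orderOf_dvd_of_pow_eq_one h7
      rw [g3] at h8
      omega
    · have h6 := TQ_six hρ hz ha1 ha hu' k hk3
      rw [hk, e1, e2] at h6
      have h7 : orderOf ((b⁻¹ * a * b) * (b * a * b⁻¹)) = orderOf ((b * a * b⁻¹) * (b⁻¹ * a * b)) := by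
        have h8 : (b⁻¹ * a * b) * (b * a * b⁻¹) =
            (b⁻¹ * a * b) * ((b * a * b⁻¹) * (b⁻¹ * a * b)) * (b⁻¹ * a * b)⁻¹ := by group
        rw [h8]
        exact orderOf_injective (MulAut.conj (b⁻¹ * a * b)).toMonoidHom
          (MulAut.conj (b⁻¹ * a * b)).injective _
      rw [h7, g3] at h6
      omega

/-- ROW 1bbd-S7b : a perfect group with a fixed point free action contains the configuration -/
theorem S7b {E : Type*} [Group E] [Nontrivial E] {ρ : E →* Module.End K V} (hρ : FR ρ)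
    (hE : commutator E = ⊤) :
    ∃ z a u u' : E, Inv2 z ∧ a ≠ 1 ∧ a ^ 3 = 1 ∧ u ∈ UU z a ∧ u' ∈ UU z a ∧ Sep a u u' := by
  classical
  have hfin : Finite E := NB_finite hρ
  obtain ⟨⟨z, hz⟩, h3⟩ := S7a hE (fun B hB => NB_cyc hρ B hB)
    (fun z w hz hw => NB_uniq hρ hz hw)
  have : Fact (Nat.Prime 3) := ⟨Nat.prime_three⟩
  obtain ⟨a, ha3⟩ := exists_prime_orderOf_dvd_card' 3 h3
  have ha : a ^ 3 = 1 := by rw [← ha3]; exact pow_orderOf_eq_one a
  have ha1 : a ≠ 1 := by
    intro h
    rw [h, orderOf_one] at ha3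
    omega
  by_contra hcon
  push Not at hcon
  have hcon' : ∀ a : E, a ≠ 1 → a ^ 3 = 1 → ∀ u ∈ UU z a, ∀ u' ∈ UU z a,
      ∃ k : ℕ, cj a k u' = u := by
    intro a ha1 ha u hu u' hu'
    have h1 := hcon z a u u' hz ha1 ha hu hu'
    unfold Sep at h1
    push Not at h1
    exact h1
  -- the subgroups of order 3
  let PP : Set (Subgroup E) := {P | ∃ b : E, b ≠ 1 ∧ b ^ 3 = 1 ∧ P = Subgroup.zpowers b}
  have hPP : ∃ S : Finset (Subgroup E), S.card ≤ 4 ∧ PP ⊆ S := by
    by_cases hne : (UU z a).Nonempty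
    · obtain ⟨u0, hu0⟩ := hne
      refine ⟨{Subgroup.zpowers a, Subgroup.zpowers (a⁻¹ * cj a 0 u0),
        Subgroup.zpowers (a⁻¹ * cj a 1 u0), Subgroup.zpowers (a⁻¹ * cj a 2 u0)},
        Finset.card_le_four, ?_⟩
      rintro P ⟨b, hb1, hb, rfl⟩
      have key : ∀ c : E, a * c ∈ UU z a → Subgroup.zpowers c ∈
          (({Subgroup.zpowers a, Subgroup.zpowers (a⁻¹ * cj a 0 u0),
            Subgroup.zpowers (a⁻¹ * cj a 1 u0), Subgroup.zpowers (a⁻¹ * cj a 2 u0)} :
            Finset (Subgroup E)) : Set (Subgroup E)) := by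
        intro c hc
        obtain ⟨k, hk⟩ := hcon' a ha1 ha _ hc u0 hu0
        have h1 : c = a⁻¹ * cj a (k % 3) u0 := by
          rw [← S7b_cj_mod ha, hk, inv_mul_cancel_left]
        have h2 : k % 3 = 0 ∨ k % 3 = 1 ∨ k % 3 = 2 := by omega
        simp only [Finset.coe_insert, Finset.coe_singleton, Set.mem_insert_iff,
          Set.mem_singleton_iff]
        rcases h2 with h2 | h2 | h2
        · rw [h2] at h1; right; left; rw [h1]
        · rw [h2] at h1; right; right; left; rw [h1]
        · rw [h2] at h1; right; right; right; rw [h1]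
      by_cases hab : a * b = b * a
      · have h1 : Subgroup.zpowers b = Subgroup.zpowers a := by
          rcases NB_ord3 hρ ha1 ha hb1 hb hab with h | h
          · rw [h]
          · rw [h, Subgroup.zpowers_inv]
        rw [h1]
        simp
      · rcases S7b_order hρ hz ha1 ha hb1 hb hab (hcon' a ha1 ha) with h | h
        · exact key b h
        · have h1 := key b⁻¹ h
          rwa [Subgroup.zpowers_inv] at h1
    · refine ⟨{Subgroup.zpowers a}, by simp, ?_⟩
      rintro P ⟨b, hb1, hb, rfl⟩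
      by_cases hab : a * b = b * a
      · have h1 : Subgroup.zpowers b = Subgroup.zpowers a := by
          rcases NB_ord3 hρ ha1 ha hb1 hb hab with h | h
          · rw [h]
          · rw [h, Subgroup.zpowers_inv]
        rw [h1]
        simp
      · exfalso
        rcases S7b_order hρ hz ha1 ha hb1 hb hab (hcon' a ha1 ha) with h | h
        · exact hne ⟨_, h⟩
        · exact hne ⟨_, h⟩
  obtain ⟨S, hS4, hPS⟩ := hPP
  have hemb : Nonempty (PP ↪ Fin 4) := by
    have e1 : PP ↪ S := ⟨fun P => ⟨P.1, hPS P.2⟩, fun P Q h => by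
      apply Subtype.ext
      exact congrArg (fun x : S => (x : Subgroup E)) h⟩
    have h2 : Fintype.card S ≤ Fintype.card (Fin 4) := by
      rw [Fintype.card_coe, Fintype.card_fin]; exact hS4
    obtain ⟨e2⟩ := Function.Embedding.nonempty_of_card_le h2
    exact ⟨e1.trans e2⟩
  obtain ⟨emb⟩ := hemb
  -- the action by conjugation
  have hconj : ∀ (g : E) (P : Subgroup E), P ∈ PP → P.map (MulAut.conj g).toMonoidHom ∈ PP := by
    rintro g P ⟨b, hb1, hb, rfl⟩
    refine ⟨g * b * g⁻¹, ?_, ?_, ?_⟩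
    · intro h
      apply hb1
      have h1 : g * b = g := by
        have := congrArg (· * g) h
        simpa using this
      exact mul_eq_left.1 h1
    · rw [conj_pow, hb, mul_one, mul_inv_cancel]
    · rw [MonoidHom.map_zpowers]
      simp
  let act : E →* Equiv.Perm PP :=
    { toFun := fun g =>
        { toFun := fun P => ⟨P.1.map (MulAut.conj g).toMonoidHom, hconj g P.1 P.2⟩
          invFun := fun P => ⟨P.1.map (MulAut.conj g⁻¹).toMonoidHom, hconj g⁻¹ P.1 P.2⟩
          left_inv := fun P => by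
            apply Subtype.ext
            change (P.1.map _).map _ = P.1
            rw [Subgroup.map_map]
            have : ((MulAut.conj g⁻¹).toMonoidHom).comp (MulAut.conj g).toMonoidHom =
                MonoidHom.id E := by
              ext x
              simp
              group
            rw [this, Subgroup.map_id]
          right_inv := fun P => by
            apply Subtype.ext
            change (P.1.map _).map _ = P.1
            rw [Subgroup.map_map]
            have : ((MulAut.conj g).toMonoidHom).comp (MulAut.conj g⁻¹).toMonoidHom =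
                MonoidHom.id E := by
              ext x
              simp
              group
            rw [this, Subgroup.map_id] }
      map_one' := by
        ext P x
        simp
      map_mul' := fun g h => by
        apply Equiv.ext
        intro P
        apply Subtype.ext
        change P.1.map _ = (P.1.map _).map _
        rw [Subgroup.map_map]
        congr 1
        ext x
        simp [mul_assoc] }
  have htriv : ∀ g b : E, b ≠ 1 → b ^ 3 = 1 → g * b * g⁻¹ ∈ Subgroup.zpowers b := by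
    intro g b hb1 hb
    have h1 := S7b_perm hE emb act g
    have h2 : act g ⟨Subgroup.zpowers b, b, hb1, hb, rfl⟩ = ⟨Subgroup.zpowers b, b, hb1, hb, rfl⟩ := by
      rw [h1]; rfl
    have h3 : (Subgroup.zpowers b).map (MulAut.conj g).toMonoidHom = Subgroup.zpowers b :=
      congrArg Subtype.val h2
    rw [← h3]
    exact ⟨b, Subgroup.mem_zpowers b, by simp⟩
  -- conjugates of an element of order 3
  have hpm : ∀ g b : E, b ≠ 1 → b ^ 3 = 1 → g * b * g⁻¹ = b ∨ g * b * g⁻¹ = b⁻¹ := by
    intro g b hb1 hb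
    have h1 := htriv g b hb1 hb
    rw [Subgroup.mem_zpowers_iff] at h1
    obtain ⟨k, hk⟩ := h1
    have hb2 : b ^ (3 : ℤ) = 1 := by exact_mod_cast hb
    have h2 : b ^ k = b ^ (k % 3) := by
      conv_lhs => rw [← Int.mul_ediv_add_emod k 3, zpow_add, zpow_mul, hb2, one_zpow, one_mul]
    have h3 : k % 3 = 0 ∨ k % 3 = 1 ∨ k % 3 = 2 := by omega
    rw [← hk, h2]
    rcases h3 with h3 | h3 | h3
    · exfalso
      rw [h2, h3, zpow_zero] at hk
      apply hb1
      have h4 : g * b = g := by
        have := congrArg (· * g) hk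
        simpa using this.symm
      exact mul_eq_left.1 h4
    · left; rw [h3, zpow_one]
    · right
      rw [h3]
      rw [eq_inv_iff_mul_eq_one]
      have : b ^ (2 : ℤ) * b = b ^ (3 : ℤ) := by
        rw [show (3 : ℤ) = 2 + 1 by norm_num, zpow_add, zpow_one]
      rw [this, hb2]
  -- `a` is central
  have hcen : ∀ g : E, g * a = a * g := by
    have hle : commutator E ≤ Subgroup.centralizer ({a} : Set E) := by
      rw [commutator_def, Subgroup.commutator_le]
      intro g _ h _
      rw [Subgroup.mem_centralizer_singleton_iff, commutatorElement_def]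
      have inv_conj : ∀ x : E, x * a * x⁻¹ = a ∨ x * a * x⁻¹ = a⁻¹ := fun x => hpm x a ha1 ha
      have act1 : ∀ x : E, (x * a * x⁻¹ = a ∧ x * a⁻¹ * x⁻¹ = a⁻¹) ∨
          (x * a * x⁻¹ = a⁻¹ ∧ x * a⁻¹ * x⁻¹ = a) := by
        intro x
        have e1 : x * a⁻¹ * x⁻¹ = (x * a * x⁻¹)⁻¹ := by group
        rcases inv_conj x with h1 | h1
        · left; exact ⟨h1, by rw [e1, h1]⟩
        · right; exact ⟨h1, by rw [e1, h1, inv_inv]⟩
      have e2 : (g * h * g⁻¹ * h⁻¹) * a * (g * h * g⁻¹ * h⁻¹)⁻¹ =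
          g * (h * (g⁻¹ * (h⁻¹ * a * (h⁻¹)⁻¹) * (g⁻¹)⁻¹) * h⁻¹) * g⁻¹ := by group
      have e3 : (g * h * g⁻¹ * h⁻¹) * a * (g * h * g⁻¹ * h⁻¹)⁻¹ = a := by
        rw [e2]
        have ih : ∀ x : E, (x⁻¹ * a * (x⁻¹)⁻¹ = a ∧ x⁻¹ * a⁻¹ * (x⁻¹)⁻¹ = a⁻¹ ∧
            x * a * x⁻¹ = a ∧ x * a⁻¹ * x⁻¹ = a⁻¹) ∨
            (x⁻¹ * a * (x⁻¹)⁻¹ = a⁻¹ ∧ x⁻¹ * a⁻¹ * (x⁻¹)⁻¹ = a ∧
            x * a * x⁻¹ = a⁻¹ ∧ x * a⁻¹ * x⁻¹ = a) := by
          intro x
          rcases act1 x with ⟨h1, h2⟩ | ⟨h1, h2⟩
          · left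
            refine ⟨?_, ?_, h1, h2⟩
            · conv_lhs => rw [← h1]
              group
            · conv_lhs => rw [← h2]
              group
          · right
            refine ⟨?_, ?_, h1, h2⟩
            · conv_lhs => rw [← h2]
              group
            · conv_lhs => rw [← h1]
              group
        rcases ih g with ⟨g1, g2, g3, g4⟩ | ⟨g1, g2, g3, g4⟩ <;>
          rcases ih h with ⟨k1, k2, k3, k4⟩ | ⟨k1, k2, k3, k4⟩
        · rw [k1, g1, k3, g3]
        · rw [k1, g2, k4, g3]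
        · rw [k1, g1, k4, g4]
        · rw [k1, g2, k3, g4]
      have e4 := congrArg (· * (g * h * g⁻¹ * h⁻¹)) e3
      simpa [mul_assoc] using e4
    intro g
    have h1 : g ∈ Subgroup.centralizer ({a} : Set E) := hle (by rw [hE]; trivial)
    rw [Subgroup.mem_centralizer_singleton_iff] at h1
    exact h1
  -- transfer to a Sylow 3-subgroup
  obtain ⟨P⟩ : Nonempty (Sylow 3 E) := inferInstance
  have hcycP : IsCyclic (P : Subgroup E) := by
    refine PG (p := 3) (by norm_num) P.isPGroup' ?_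
    intro B hB
    exact NB_cyc (NB_sub hρ (P : Subgroup E)) B hB
  have hcommP : ∀ x y : (P : Subgroup E), x * y = y * x := by
    let _ : CommGroup (P : Subgroup E) := IsCyclic.commGroup
    exact fun x y => mul_comm x y
  have hkey : ∀ (k : ℕ) (g₀ : E), g₀⁻¹ * a ^ k * g₀ ∈ (P : Subgroup E) →
      g₀⁻¹ * a ^ k * g₀ = a ^ k := by
    intro k g₀ _
    have h1 : Commute g₀ (a ^ k) := (show Commute g₀ a from hcen g₀).pow_right k
    rw [mul_assoc, ← h1.eq, inv_mul_cancel_left]
  have htr := MonoidHom.transfer_eq_pow (Abelianization.of (G := (P : Subgroup E))) a hkey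
  have h1 : MonoidHom.transfer (Abelianization.of (G := (P : Subgroup E))) a = 1 :=
    S7b_triv hE _ (fun a b => mul_comm _ _) a
  rw [h1] at htr
  have h2 : (⟨a ^ (P : Subgroup E).index, MonoidHom.transfer_eq_pow_aux a hkey⟩ :
      (P : Subgroup E)) ∈ commutator (P : Subgroup E) := by
    rw [← Abelianization.ker_of]
    exact htr.symm
  have h3' : commutator (P : Subgroup E) = ⊥ := by
    rw [commutator_def, Subgroup.commutator_eq_bot_iff_le_centralizer]
    intro x _
    rw [Subgroup.mem_centralizer_iff]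
    intro y _
    exact hcommP y x
  rw [h3', Subgroup.mem_bot] at h2
  have h4 : a ^ (P : Subgroup E).index = 1 := congrArg Subtype.val h2
  have h5 := orderOf_dvd_of_pow_eq_one h4
  rw [ha3] at h5
  exact P.not_dvd_index' (by
    exact (Subgroup.index_ne_zero_of_finite)) h5

end Pool.Agent.Lib.MP_1bbd88_ag.Q
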