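import Pool.Agent.Lib.MP_1bbd88_ag.Q.NS.S7b

set_option autoImplicit false

namespace Pool.Agent.Lib.MP_1bbd88_ag.Q

open Module

variable {K : Type*} [Field K] [IsAlgClosed K] {V : Type*} [AddCommGroup V] [Module K V]
  [FiniteDimensional K V]

/-- a finite group which is not solvable contains a non-trivial perfect subgroup -/
theorem S8_perfect {H : Type*} [Group H] [Finite H] (hH : ¬ Group.IsSolvable H) :
    ∃ E : Subgroup H, Nontrivial E ∧ commutator E = ⊤ := by
  classical
  -- the derived series is antitone and stabilises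
  obtain ⟨n, hn⟩ : ∃ n, derivedSeries H (n + 1) = derivedSeries H n := by
    by_contra hcon
    push Not at hcon
    have hlt : ∀ n, derivedSeries H (n + 1) < derivedSeries H n := fun n =>
      lt_of_le_of_ne (by
        rw [derivedSeries_succ]
        exact Subgroup.commutator_le_left _ _) (hcon n)
    have hanti : StrictAnti (derivedSeries H) := strictAnti_nat_of_succ_lt hlt
    exact not_injective_infinite_finite _ hanti.injective
  rw [derivedSeries_succ] at hn
  set E := derivedSeries H n with hE
  refine ⟨E, ?_, ?_⟩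
  · rw [Subgroup.nontrivial_iff_ne_bot]
    intro h
    apply hH
    rw [Group.isSolvable_def]
    exact ⟨n, h⟩
  · have h1 : (commutator E).map E.subtype = E := by
      rw [commutator_def, Subgroup.map_commutator, ← MonoidHom.range_eq_map, Subgroup.range_subtype]
      exact hn
    apply Subgroup.map_injective E.subtype_injective
    rw [h1, ← MonoidHom.range_eq_map, Subgroup.range_subtype]

/-- ROW 1bbd-S8 : a non-solvable finite group contains a non-trivial perfect subgroup, hence the
configuration -/
theorem S8 {H : Type*} [Group H] {ρ : H →* Module.End K V} (hρ : FR ρ)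
    (hH : ¬ Group.IsSolvable H) :
    ∃ z a u u' : H, Inv2 z ∧ a ≠ 1 ∧ a ^ 3 = 1 ∧ u ∈ UU z a ∧ u' ∈ UU z a ∧ Sep a u u' := by
  have hfin : Finite H := NB_finite hρ
  obtain ⟨E, hE1, hE2⟩ := S8_perfect hH
  obtain ⟨z, a, u, u', hz, ha1, ha, hu, hu', hs⟩ := S7b (NB_sub hρ E) hE2
  refine ⟨z, a, u, u', ⟨?_, ?_⟩, ?_, ?_, ⟨?_, ?_⟩, ⟨?_, ?_⟩, ?_⟩
  · simpa using hz.1
  · exact_mod_cast hz.2
  · simpa using ha1
  · exact_mod_cast ha
  · exact_mod_cast hu.1
  · exact_mod_cast hu.2
  · exact_mod_cast hu'.1
  · exact_mod_cast hu'.2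
  · intro k hk
    apply hs k
    apply Subtype.ext
    rw [← hk]
    simp [cj]

end Pool.Agent.Lib.MP_1bbd88_ag.Q
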